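import Pool.Agent.Lib.MP_751085_ag.ZF.E.B1

/-! The corestriction of the statement. -/

namespace Pool.Agent.ZCy.F

open scoped Classical
open groupCohomology MulAction

variable {K Ω : Type} [Field K] [Field Ω] [Algebra K Ω] [IsAlgClosure K Ω]
  {j : SC K →ₐ[K] Ω} {r : (Ω ≃ₐ[K] Ω) → Gm K}

omit [IsAlgClosure K Ω] in
theorem b2_fr (M : IntermediateField K Ω) [FiniteDimensional K M] :
    ∃ F : Ω →+* Ω, ∀ y, F y = y ^ Field.finInsepDegree K M := by
  obtain ⟨p, _⟩ := ExpChar.exists K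
  obtain ⟨n, hn⟩ := finInsepDegree_eq_pow K M p
  have : ExpChar Ω p := expChar_of_injective_algebraMap (algebraMap K Ω).injective p
  exact ⟨iterateFrobenius Ω p n, fun y => by rw [hn]; rfl⟩

theorem b2_lift {A B C : Type} [Field A] [Field B] [Field C] (i : A →+* C) (F : B →+* C)
    (h : ∀ y, ∃ x, i x = F y) : ∃ Ψ : B →+* A, ∀ y, i (Ψ y) = F y := by
  choose Ψ hΨ using h
  exact ⟨⟨⟨⟨Ψ, i.injective (by rw [hΨ, map_one, map_one])⟩, fun x y => i.injective (by
    rw [map_mul, hΨ, hΨ, hΨ, map_mul])⟩, i.injective (by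
      change i (Ψ 0) = _
      rw [hΨ, map_zero, map_zero]), fun x y => i.injective (by
      change i (Ψ (x + y)) = i (Ψ x + Ψ y)
      rw [map_add, hΨ, hΨ, hΨ, map_add])⟩, hΨ⟩

omit [IsAlgClosure K Ω] in
theorem b2_frS (M : IntermediateField K Ω) [FiniteDimensional K M] (y : M) :
    ((frS K M y : M) : Ω) = (y : Ω) ^ Field.finInsepDegree K M := by
  rw [frS_spec]
  rfl

theorem b2_shap {K L : Type} [Field K] [Field L] [Algebra K L] [FiniteDimensional K L]
    {c : Gm L × Gm L → (SC L)ˣ} (hc : c ∈ Z2 L (SC L)) (T : Sec (Gm K) (Em K L)) {j : Em K L}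
    (hT : ∀ s, T.rep s = j) {J : SC K ≃+* SC L} {r : Gm L → Gm K} {q : Gm K → Gm L}
    (hJ : ∀ x, J (j.hom x) = algebraMap L _ x) (hr : ∀ g x, J (r g x) = g (J x))
    (hm : ∀ g, r g ∈ stabilizer (Gm K) j)
    (hq : ∀ g ∈ stabilizer (Gm K) j, ∀ x, q g (J x) = J (g x)) (cr : Continuous r)
    (cq : Continuous fun g : stabilizer (Gm K) j => q g) :
    Shap (T.ind fun _ => pull (J.symm : SC L →+* SC K) q c) (cl L _ c) := by
  obtain ⟨hc1, hc2⟩ := mem_Z2.1 hc
  let a : Gm K × Gm K → (SC K)ˣ := pull (J.symm : _ →+* _) q c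
  have ha : CocOn (stabilizer (Gm K) j) a := fun g hg g' hg' k hk => by
    simp only [a, pull, a3_qmul hq hg hg', a3_qmul hq hg' hk, ← a3_qsmul hq hg, ← map_mul]
    rw [hc1]
  have hl : ∀ {X : Type} [TopologicalSpace X] {f f' : X → Gm K}, Continuous f → Continuous f' →
      (∀ x, f x ∈ stabilizer (Gm K) j) → (∀ x, f' x ∈ stabilizer (Gm K) j) →
      IsLocallyConstant fun x => a (f x, f' x) := fun {X} _ f f' h1 h2 m1 m2 =>
    (hc2.comp_continuous ((a3_qcont cq h1 m1).prodMk (a3_qcont cq h2 m2))).comp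
      (a3_um (J.symm : SC L →+* SC K))
  have hb := T.ind_coc (b := fun _ => a) fun s => (hT s).symm ▸ ha
  have hlb : IsLocallyConstant (T.ind fun _ => a) := lc_pi fun s =>
    (hl (a3_rh T continuous_fst (IsLocallyConstant.const s))
      (a3_rh T continuous_snd (a3_lc_smul continuous_fst.inv (IsLocallyConstant.const s)))
      (fun p => hT _ ▸ T.rh_mem _ _) fun p => hT _ ▸ T.rh_mem _ _).comp (T.t s • ·)
  have ht : T.t j ∈ stabilizer (Gm K) j := by
    have := T.t_smul j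
    rwa [hT] at this
  refine shap_of_cmp hb hlb (J := (J : _ →+* _)) hJ hr ?_
  have e : (pull (J : _ →+* _) r fun p => T.ind (fun _ => a) p j) = c *
      dd fun g => a3_um (J : _ →+* _) (conjE a (T.t j) (r g)) := by
    have e0 : c = pull (J : _ →+* _) r a := funext fun p => by
      simp only [a, pull, a3_qr hr hq (hm _)]
      exact Units.ext (J.apply_symm_apply _).symm
    funext p
    have e1 := T.ind_stab (fun _ => a) (hm p.1) (hm p.2)
    rw [ha.conj ht (hm p.1) (hm p.2)] at e1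
    have e2 := a3_pull_dd (j := (J : SC K →+* SC L)) (r := r) hr a (conjE a (T.t j)) p
    rw [← e0] at e2
    exact (congrArg (a3_um (J : SC K →+* SC L)) e1).trans e2
  rw [e, (cl_mul_dd hc ?_).2]
  exact ((hl continuous_const ((continuous_const.mul cr).mul continuous_const) (fun _ => ht)
    fun g => mul_mem (mul_mem (inv_mem ht) (hm g)) ht).div
      (hl cr continuous_const hm fun _ => ht)).comp (a3_um _)

/-- `x ^ q` is a root of a separable polynomial over the separable part of `M` -/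
theorem sep_pow (M : IntermediateField K Ω) [FiniteDimensional K M] {x : Ω} (h : IsSeparable M x) :
    IsSeparable K (x ^ Field.finInsepDegree K M) := by
  obtain ⟨F, hF⟩ := b2_fr M
  refine IsSeparable.of_algebra_isSeparable_of_isSeparable K (E := separableClosure K M)
    ((Polynomial.Separable.map h (f := frS K M)).of_dvd (minpoly.dvd _ _ ?_))
  have h1 := congrArg F (minpoly.aeval M x)
  rw [map_zero, Polynomial.aeval_def, Polynomial.hom_eval₂, hF] at h1
  rw [Polynomial.aeval_def, Polynomial.eval₂_map, ← h1]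
  congr 1
  exact RingHom.ext fun y => (b2_frS M y).trans (hF _).symm

/-- `j₀` is the inclusion of the separable part of `M`, read in `SC K` -/
theorem b2_equiv (h : ∀ g x, j (r g x) = g (j x)) (M : IntermediateField K Ω)
    [FiniteDimensional K M] : ∃ (j₀ : Em K (separableClosure K M))
      (e : ((Ω ≃ₐ[K] Ω) ⧸ M.fixingSubgroup) ≃ Em K (separableClosure K M)),
      (∀ x, j (j₀.hom x) = ((x : M) : Ω)) ∧
      (∀ g, r g ∈ stabilizer (Gm K) j₀ ↔ g ∈ M.fixingSubgroup) ∧ (∀ y, e y = r y.out • j₀) ∧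
      ∀ (g : Ω ≃ₐ[K] Ω) y, e (g • y) = r g • e y := by
  obtain ⟨F, hF⟩ := b2_fr M
  obtain ⟨Ψ, hΨ⟩ := b2_lift (j : SC K →+* Ω) (algebraMap (separableClosure K M) Ω) fun x =>
    (mem_range_j j _).2 (IsSeparable.map M.val (M.val : M →+* Ω).injective x.2)
  let j₀ : Em K (separableClosure K M) :=
    ({ Ψ with commutes' := fun a => j.injective ((hΨ _).trans (j.commutes a).symm) } :
      separableClosure K M →ₐ[K] SC K)
  have h0 : ∀ x, j (j₀.hom x) = ((x : M) : Ω) := hΨ
  let R : (Ω ≃ₐ[K] Ω) →* Gm K := MonoidHom.mk' r (lk_mul (j := (j : SC K →+* Ω)) h)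
  have hs : ∀ g, R g • j₀ = j₀ ↔ g ∈ M.fixingSubgroup := fun g => by
    rw [IntermediateField.mem_fixingSubgroup_iff]
    refine ⟨fun e x hx => F.injective ?_, fun e => AlgHom.ext fun x => j.injective
      ((h g _).trans ((congrArg g (h0 x)).trans ((e _ (x : M).2).trans (h0 x).symm)))⟩
    have h1 := h g (j₀.hom (frS K M ⟨x, hx⟩))
    rw [← Em.smul_hom, show r g • j₀ = j₀ from e, h0, b2_frS, map_pow] at h1
    rw [hF, hF, ← h1]
  have ho : ∀ g : Ω ≃ₐ[K] Ω, R (g : _ ⧸ M.fixingSubgroup).out • j₀ = R g • j₀ := fun g => by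
    obtain ⟨k, hk⟩ := QuotientGroup.mk_out_eq_mul M.fixingSubgroup g
    rw [hk, map_mul, mul_smul, (hs k).2 k.2]
  refine ⟨j₀, Equiv.ofBijective (fun y => R y.out • j₀) ⟨fun y y' e => ?_, fun i => ?_⟩, h0, hs,
    fun _ => rfl, fun g y => ?_⟩
  · rw [← QuotientGroup.out_eq' y, ← QuotientGroup.out_eq' y', QuotientGroup.eq, ← hs, map_mul,
      map_inv, mul_smul, inv_smul_eq_iff]
    exact e.symm
  · obtain ⟨g, hg⟩ := em_trans j₀ i
    obtain ⟨g, rfl⟩ := (bij_r h).2 g
    exact ⟨g, (ho g).trans hg⟩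
  · induction y using QuotientGroup.induction_on with
    | H a =>
      show R (g • (a : _ ⧸ M.fixingSubgroup)).out • j₀ =
        R g • R (a : _ ⧸ M.fixingSubgroup).out • j₀
      rw [MulAction.Quotient.smul_mk, ho, ho, smul_eq_mul, map_mul, mul_smul]

/-- the corestriction of the statement under the comparison map -/
theorem coresS_frW (M : IntermediateField K Ω) [FiniteDimensional K M] [IsAlgClosure M Ω]
    (β : BR M) : coresS M (frW M Ω β) = frW K Ω (corN K M β) := by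
  have := IsAlgClosure.isAlgClosed K (K := Ω)
  obtain ⟨j, r, h⟩ := exists_jr K Ω
  obtain ⟨j', r', h'⟩ := exists_jr M Ω
  obtain ⟨j₀, e, h0, hs, he, hes⟩ := b2_equiv h M
  obtain ⟨c₀, hc₀, hc⟩ := exists_pull_Zs h' (qOut (Zs M Ω) (Bs M Ω) (frW M Ω β)).2
  obtain rfl : cl M _ c₀ = β := (frW_bij M Ω).1 (by rw [frW_cl h' hc₀, hc, clS_out])
  obtain ⟨J, rS, qS, hJ, hr, hm, hq, cr, cq⟩ := em_link j₀
  obtain ⟨F, hF⟩ := b2_fr M
  obtain ⟨Ψ, hΨ⟩ := b2_lift (j : SC K →+* Ω) (F.comp (j' : SC M →+* Ω)) fun y => by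
    obtain ⟨x, hx⟩ := (mem_range_j j _).2 (sep_pow M ((mem_range_j j' (j' y)).1 ⟨y, rfl⟩))
    exact ⟨x, hx.trans (hF _).symm⟩
  replace hΨ : ∀ y, j (Ψ y) = j' y ^ Field.finInsepDegree K M := fun y => (hΨ y).trans (hF _)
  have hj : Function.Injective j := j.injective
  have h1 : ∀ a, Ψ (algebraMap M _ a) = j₀.hom (frS K M a) := fun a => hj (by
    rw [hΨ, h0, b2_frS, j'.commutes]
    rfl)
  obtain ⟨ρ, hρ⟩ := exists_lk_of (γ := frS K M)
    (j := (J : SC K →+* SC (separableClosure K M)).comp Ψ) fun a => (congrArg J (h1 a)).trans (hJ _)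
  let R : (Ω ≃ₐ[K] Ω) →* Gm K := MonoidHom.mk' r (lk_mul (j := (j : SC K →+* Ω)) h)
  let T : Sec (Gm K) (Em K (separableClosure K M)) :=
    { rep := fun _ => j₀
      t := fun s => R (e.symm s).out
      t_smul := fun s => (he _).symm.trans (e.apply_symm_apply s)
      rep_smul := fun _ _ => rfl }
  have hTt : ∀ y, T.t (e y) = R y.out := fun y =>
    congrArg (fun z => R (Quotient.out z)) (e.symm_apply_apply y)
  have hS := b2_shap (hρ.mem_Z2 hc₀) T (fun _ => rfl) hJ hr hm hq cr cq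
  have k1 : ∀ g y, ρ (qS (T.rh (R g) (e (g • y)))) = r' (rho M g y) := fun g y => by
    have k2 := T.rh_mem (R g) (e (g • y))
    have k3 : T.rh (R g) (e (g • y)) = R ((g • y).out⁻¹ * (g * y.out)) := by
      rw [Sec.rh, hTt, hes, show r g = R g from rfl, inv_smul_smul, hTt, map_mul, map_mul, map_inv]
    refine AlgEquiv.ext fun x => Ψ.injective (J.injective ((hρ.comm _ x).trans
      ((hq _ k2 _).trans (congrArg J (hj ?_)))))
    rw [k3, hΨ, h']
    refine (h _ _).trans ?_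
    rw [hΨ, map_pow]
    rfl
  rw [corN_def, cor_apply, Lk.res_cl hρ hc₀, hS.corF_eq, frW_cl h hS.prod_mem, coresS, ← hc]
  congr 1
  funext p
  have : Fintype ((Ω ≃ₐ[K] Ω) ⧸ M.fixingSubgroup) := Fintype.ofEquiv _ e.symm
  rw [finprod_eq_prod_of_fintype, ← Finset.prod_pow, pull, map_prod]
  refine Fintype.prod_equiv ((MulAction.toPerm (p.1 * p.2)).trans e) _ _ fun y => Units.ext ?_
  show _ = j (T.t (e ((p.1 * p.2) • y)) (J.symm (J (Ψ (c₀
    (ρ (qS (T.rh (R p.1) (e ((p.1 * p.2) • y)))),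
      ρ (qS (T.rh (R p.2) ((R p.1)⁻¹ • e ((p.1 * p.2) • y))))))))))
  rw [hTt, J.symm_apply_apply, mul_smul, k1, hes p.1, show r p.1 = R p.1 from rfl, inv_smul_smul,
    k1]
  refine Eq.trans ?_ (h _ _).symm
  rw [hΨ, map_pow]
  rfl

end Pool.Agent.ZCy.F
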