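import Pool.Agent.Lib.MP_751085_ag.ZF.E.U3

/-! The local ring at a point. -/

namespace Pool.Agent.ZCy.F

open scoped Classical
open MvPolynomial

variable {k : Type} [Field k] {X : Var k} {M M' R : Type} [Field M] [Algebra k M] [Field M']
  [Algebra k M'] [CommRing R] [Algebra k R] {x : Fin (X.N + 1) → M} {f g : X.F} {m m' : M}

theorem x1_hom {G : MvPolynomial (Fin (X.N + 1)) k} {d : ℕ} (hG : G.IsHomogeneous d) (u : M) :
    aeval (u • x) G = u ^ d * aeval x G := by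
  rw [aeval_def, aeval_def, eval₂_eq, eval₂_eq, Finset.mul_sum]
  refine Finset.sum_congr rfl fun e he => ?_
  have h1 : ∑ i ∈ e.support, e i = d := by
    rw [← hG (mem_support_iff.1 he), Finsupp.weight_apply, Finsupp.sum]
    simp
  simp only [Pi.smul_apply, smul_eq_mul, mul_pow, Finset.prod_mul_distrib,
    Finset.prod_pow_eq_pow_sum, h1]
  ring

theorem x1_map {S : Type} [CommRing S] [Algebra k S] (φ : R →ₐ[k] S) (y : Fin (X.N + 1) → R)
    (G : MvPolynomial (Fin (X.N + 1)) k) : aeval (φ ∘ y) G = φ (aeval y G) :=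
  (comp_aeval_apply y φ G).symm

/-- values at a point over a ring -/
def x1_R (y : Fin (X.N + 1) → R) (f : X.F) (z : R) : Prop :=
  ∃ (d : ℕ) (G H : MvPolynomial (Fin (X.N + 1)) k), G.IsHomogeneous d ∧ H.IsHomogeneous d ∧
    IsUnit (aeval y H) ∧ f * aeval X.g H = aeval X.g G ∧ z * aeval y H = aeval y G

theorem x1_iff : X.Reg x f m ↔ x1_R x f m := by
  simp only [Var.Reg, x1_R, isUnit_iff_ne_zero]

section

variable {y : Fin (X.N + 1) → R} {z z' : R}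

theorem x1_C (a : k) : x1_R y (algebraMap k _ a) (algebraMap k R a) :=
  ⟨0, C a, 1, isHomogeneous_C _ a, isHomogeneous_one _ _, by simp, by simp, by simp⟩

theorem x1_op (h : x1_R y f z) (h' : x1_R y g z') :
    x1_R y (f * g) (z * z') ∧ x1_R y (f + g) (z + z') := by
  obtain ⟨d, G, H, hG, hH, h0, e1, e2⟩ := h
  obtain ⟨d', G', H', hG', hH', h0', e1', e2'⟩ := h'
  have h1 : IsUnit (aeval y (H * H')) := by rw [map_mul]; exact h0.mul h0'
  refine ⟨⟨_, G * G', H * H', hG.mul hG', hH.mul hH', h1, ?_, ?_⟩,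
    _, G * H' + H * G', H * H', (hG.mul hH').add (hH.mul hG'), hH.mul hH', h1, ?_, ?_⟩ <;>
  simp only [map_add, map_mul, ← e1, ← e1', ← e2, ← e2'] <;> ring

theorem x1_uniq (hy : ∀ G ∈ X.I, aeval y G = 0) (h : x1_R y f z) (h' : x1_R y f z') : z = z' := by
  obtain ⟨d, G, H, hG, hH, h0, e1, e2⟩ := h
  obtain ⟨d', G', H', hG', hH', h0', e1', e2'⟩ := h'
  have h1 := hy (G * H' - H * G') ⟨⟨_, (hG.mul hH').sub (hH.mul hG')⟩, by
    rw [map_sub, map_mul, map_mul, ← e1, ← e1']; ring⟩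
  rw [map_sub, map_mul, map_mul, ← e2, ← e2'] at h1
  exact (h0.mul h0').mul_right_cancel (by linear_combination h1)

theorem x1_pt (φ : R →ₐ[k] M) (h : x1_R y f z) : X.Reg (φ ∘ y) f (φ z) := by
  obtain ⟨d, G, H, hG, hH, h0, e1, e2⟩ := h
  exact ⟨d, G, H, hG, hH, x1_map φ y H ▸ (h0.map φ).ne_zero, e1,
    by rw [x1_map, x1_map, ← map_mul, e2]⟩

end

theorem reg_const (a : k) : X.Reg x (algebraMap k _ a) (algebraMap k M a) :=
  x1_iff.2 (x1_C a)

theorem reg_add (h : X.Reg x f m) (h' : X.Reg x g m') : X.Reg x (f + g) (m + m') :=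
  x1_iff.2 (x1_op (x1_iff.1 h) (x1_iff.1 h')).2

theorem reg_mul (h : X.Reg x f m) (h' : X.Reg x g m') : X.Reg x (f * g) (m * m') :=
  x1_iff.2 (x1_op (x1_iff.1 h) (x1_iff.1 h')).1

theorem reg_neg (h : X.Reg x f m) : X.Reg x (-f) (-m) := by
  simpa using reg_mul (reg_const (-1)) h

theorem mem_LR : f ∈ X.LR x ↔ ∃ m, X.Reg x f m := by
  refine ⟨fun h => ?_, fun h => Subring.subset_closure h⟩
  induction h using Subring.closure_induction with
  | mem _ h => exact h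
  | zero => exact ⟨0, by simpa using reg_const (x := x) 0⟩
  | one => exact ⟨1, by simpa using reg_const (x := x) 1⟩
  | add _ _ _ _ h h' => exact ⟨_, reg_add h.choose_spec h'.choose_spec⟩
  | neg _ _ h => exact ⟨_, reg_neg h.choose_spec⟩
  | mul _ _ _ _ h h' => exact ⟨_, reg_mul h.choose_spec h'.choose_spec⟩

theorem reg_den (hx : X.On x) {H : MvPolynomial (Fin (X.N + 1)) k} {d : ℕ} (hH : H.IsHomogeneous d)
    (h : aeval x H ≠ 0) : aeval X.g H ≠ 0 :=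
  fun e => h (hx.2 H ⟨⟨d, hH⟩, e⟩)

theorem reg_unique (hx : X.On x) (h : X.Reg x f m) (h' : X.Reg x f m') : m = m' :=
  x1_uniq hx.2 (x1_iff.1 h) (x1_iff.1 h')

theorem reg_inv (hx : X.On x) (h : X.Reg x f m) (h0 : m ≠ 0) : f ≠ 0 ∧ X.Reg x f⁻¹ m⁻¹ := by
  obtain ⟨d, G, H, hG, hH, h1, e1, e2⟩ := h
  have h2 : aeval x G ≠ 0 := e2 ▸ mul_ne_zero h0 h1
  have h3 : f ≠ 0 := left_ne_zero_of_mul (e1 ▸ reg_den hx hG h2)
  exact ⟨h3, d, H, G, hH, hG, h2, by rw [← e1, inv_mul_cancel_left₀ h3],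
    by rw [← e2, inv_mul_cancel_left₀ h0]⟩

theorem reg_smul {u : M} (hu : u ≠ 0) : X.Reg (u • x) f m ↔ X.Reg x f m := by
  simp only [Var.Reg]
  refine exists₃_congr fun d G H => and_congr_right fun hG => and_congr_right fun hH => ?_
  rw [x1_hom hG, x1_hom hH, mul_left_comm, mul_right_inj' (pow_ne_zero d hu),
    mul_ne_zero_iff_left (pow_ne_zero d hu)]

theorem reg_map (φ : M →ₐ[k] M') (h : X.Reg x f m) : X.Reg (φ ∘ x) f (φ m) :=
  x1_pt φ (x1_iff.1 h)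

theorem LR_smul {u : M} (hu : u ≠ 0) : X.LR (u • x) = X.LR x :=
  Subring.ext fun _ => by simp only [mem_LR, reg_smul hu]

theorem LR_map (φ : M →ₐ[k] M') : X.LR (φ ∘ x) = X.LR x := by
  refine Subring.ext fun f => mem_LR.trans (Iff.trans ⟨?_, fun ⟨_, h⟩ => ⟨_, reg_map φ h⟩⟩
    mem_LR.symm)
  rintro ⟨_, d, G, H, hG, hH, h0, e1, -⟩
  rw [x1_map, map_ne_zero] at h0
  exact ⟨_, d, G, H, hG, hH, h0, e1, div_mul_cancel₀ _ h0⟩

/-- a point over a local ring -/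
theorem exists_lr_hom (π : R →ₐ[k] M) (hπ : ∀ z, π z ≠ 0 → IsUnit z) {y : Fin (X.N + 1) → R}
    (hy : ∀ G ∈ X.I, aeval y G = 0) : ∃ ψ : X.LR (π ∘ y) →+* R,
      ∀ (T : Type) [Field T] [Algebra k T] (φ : R →ₐ[k] T) (f : X.LR (π ∘ y)),
        X.Reg (φ ∘ y) f (φ (ψ f)) := by
  have h1 : ∀ f : X.LR (π ∘ y), ∃ z, x1_R y f z := fun f => by
    obtain ⟨_, d, G, H, hG, hH, h0, e1, -⟩ := mem_LR.1 f.2
    obtain ⟨u, hu⟩ := hπ _ (x1_map π y H ▸ h0)
    exact ⟨aeval y G * ↑u⁻¹, d, G, H, hG, hH, ⟨u, hu⟩, e1, by rw [← hu, Units.inv_mul_cancel_right]⟩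
  choose ψ hψ using h1
  exact ⟨⟨⟨⟨ψ, x1_uniq hy (hψ 1) (by simpa using x1_C (y := y) 1)⟩,
    fun f g => x1_uniq hy (hψ _) (x1_op (hψ f) (hψ g)).1⟩,
    x1_uniq hy (hψ 0) (by simpa using x1_C (y := y) 0),
    fun f g => x1_uniq hy (hψ _) (x1_op (hψ f) (hψ g)).2⟩, fun T _ _ φ f => x1_pt φ (hψ f)⟩

theorem exists_ev (hx : X.On x) : ∃ e, X.IsEv x e := by
  obtain ⟨e, h⟩ := exists_lr_hom (AlgHom.id k M) (fun _ => Ne.isUnit) hx.2
  exact ⟨e, fun f _ hm => reg_unique hx (h M (AlgHom.id k M) f) hm⟩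

theorem ev_unique {e e' : X.LR x →+* M} (h : X.IsEv x e) (h' : X.IsEv x e') : e = e' :=
  RingHom.ext fun f => (mem_LR.1 f.2).elim fun m hm => (h f m hm).trans (h' f m hm).symm

theorem ev_reg {e : X.LR x →+* M} (h : X.IsEv x e) (f : X.LR x) : X.Reg x f (e f) :=
  (mem_LR.1 f.2).elim fun m hm => (h f m hm).symm ▸ hm

theorem ev_unit (hx : X.On x) {e : X.LR x →+* M} (h : X.IsEv x e) {f : X.LR x} (h0 : e f ≠ 0) :
    IsUnit f := by
  obtain ⟨h1, h2⟩ := reg_inv hx (ev_reg h f) h0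
  exact .of_mul_eq_one ⟨_, mem_LR.2 ⟨_, h2⟩⟩ (Subtype.ext (mul_inv_cancel₀ h1))

theorem on_smul {u : M} (hu : u ≠ 0) (hx : X.On x) : X.On (u • x) :=
  ⟨smul_ne_zero hu hx.1, fun G hG => hG.1.elim fun d hd => by rw [x1_hom hd, hx.2 G hG, mul_zero]⟩

theorem on_map (φ : M →ₐ[k] M') (hx : X.On x) : X.On (φ ∘ x) :=
  ⟨fun h => hx.1 (funext fun i => (map_eq_zero φ).1 (congrFun h i)),
    fun G hG => by rw [x1_map, hx.2 G hG, map_zero]⟩

theorem on_gen : X.On X.g :=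
  ⟨fun h => X.one.elim fun i hi => zero_ne_one ((congrFun h i).symm.trans hi), fun _ hG => hG.2⟩

theorem reg_dom {γ : X.F →+* M} (h : X.Dom γ x) (f : X.F) : X.Reg x f (γ f) := by
  obtain ⟨h1, u, hu, hx⟩ := h
  obtain rfl : x = u • (⟨γ, h1⟩ : X.F →ₐ[k] M) ∘ X.g := funext hx
  refine (reg_smul hu).2 (reg_map ⟨γ, h1⟩ ?_)
  have hf : f ∈ IntermediateField.adjoin k (Set.range X.g) := X.gen ▸ IntermediateField.mem_top
  induction hf using IntermediateField.adjoin_induction with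
  | mem _ h =>
    obtain ⟨i, rfl⟩ := h
    obtain ⟨j, hj⟩ := X.one
    exact ⟨1, MvPolynomial.X i, MvPolynomial.X j, isHomogeneous_X _ _, isHomogeneous_X _ _,
      by simp [hj], by simp [hj], by simp [hj]⟩
  | algebraMap a => exact reg_const a
  | add _ _ _ _ h h' => exact reg_add h h'
  | inv f _ h =>
    rcases eq_or_ne f 0 with rfl | h0
    · rwa [inv_zero]
    · exact (reg_inv on_gen h h0).2
  | mul _ _ _ _ h h' => exact reg_mul h h'

theorem dom_on {γ : X.F →+* M} (h : X.Dom γ x) : X.On x := by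
  obtain ⟨h1, u, hu, hx⟩ := h
  obtain rfl : x = u • (⟨γ, h1⟩ : X.F →ₐ[k] M) ∘ X.g := funext hx
  exact on_smul hu (on_map _ on_gen)

theorem mem_Bw {a : BR X.F} : a ∈ X.Bw ↔ ∀ (M : Type) [Field M] [Algebra k M]
    (x : Fin (X.N + 1) → M), X.On x → a ∈ Loc (X.LR x) := by
  simp only [Var.Bw, AddSubgroup.mem_iInf]
  exact ⟨fun h M _ _ x hx => h _ ⟨M, _, _, x, hx, rfl⟩,
    fun h R ⟨M, _, _, x, hx, e⟩ => e ▸ h M x hx⟩

theorem vw_of {O : Type} [CommRing O] (hx : X.On x) (U : UC O) (s : O →+* X.F) (φ : O →+* M)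
    (h : ∀ o, X.Reg x (s o) (φ o)) : X.Vw (U.val s) x (U.val φ) := by
  obtain ⟨V, hV⟩ := U.bc_val (s.codRestrict (X.LR x) fun o => mem_LR.2 ⟨_, h o⟩)
  obtain ⟨e, he⟩ := exists_ev hx
  exact ⟨V, e, he, hV _ _, (hV _ _).trans (congrArg U.val (RingHom.ext fun o => he _ _ (h o)))⟩

end Pool.Agent.ZCy.F
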