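import Pool.Agent.Lib.MP_751085_ag.ZF.E.N1
import Pool.Agent.Lib.MP_751085_ag.ZF.A2b
import Pool.Agent.Lib.MP_751085_ag.ZC.V.Gal

/-! Purely inseparable extensions; the double coset formula. -/

namespace Pool.Agent.ZCy.F

open scoped Classical IntermediateField
open groupCohomology Module

variable {K K' M M' : Type} [Field K] [Field K'] [Field M] [Field M'] [Algebra K M]

theorem n1b_desc {E E' : Type} [Field E] [Field E'] [Algebra K E] [Algebra M E']
    [FiniteDimensional K E] [IsGalois K E] [FiniteDimensional M E'] [IsGalois M E']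
    [IsPurelyInseparable K M] {j : E →+* E'} (hj : Sq (algebraMap K M) j)
    {r : (E' ≃ₐ[M] E') →* (E ≃ₐ[K] E)} (hr : Rs j r) (hi : Function.Injective r)
    {c : (E ≃ₐ[K] E) × (E ≃ₐ[K] E) → Eˣ} {e : (E' ≃ₐ[M] E') → E'ˣ} (h : pull j r c = dd e)
    (he : ∀ g, (e g : E') ∈ j.range) : ∃ e', c = dd e' := by
  obtain ⟨p, _⟩ := ExpChar.exists K
  have : ExpChar E p := expChar_of_injective_algebraMap (algebraMap K E).injective p
  have hs : Function.Surjective r := hr.surj fun x hx g => by
    obtain ⟨m, hm⟩ := mem_range_of_fix hx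
    obtain ⟨n, a, ha⟩ := IsPurelyInseparable.pow_mem K p m
    have h1 : x ^ p ^ n = algebraMap K E a := j.injective (by rw [map_pow, ← hm, hj, ha, map_pow])
    refine (iterateFrobenius E p n).injective ?_
    rw [iterateFrobenius_def, iterateFrobenius_def, ← map_pow, h1, g.commutes]
  choose u hu using fun g => a2b_unit j (he g)
  choose q hq using hs
  refine ⟨fun g => u (q g), a2b_pull_inj j (fun g => ⟨q g, hq g⟩ : Function.Surjective r) ?_⟩
  refine h.trans (Eq.trans ?_ (pull_dd (j := j) (r := r) hr fun g => u (q g)).symm)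
  exact congrArg dd (funext fun g => by rw [hi (hq (r g)), hu])

theorem n1b_fin {E E' : Type} [Field E] [Field E'] [Algebra M E'] {j : E →+* E'} {y : E'}
    (hy : y ∈ IntermediateField.adjoin M (Set.range j)) : ∃ s : Finset M,
      ∀ S : IntermediateField K M, (∀ x ∈ s, x ∈ S) →
        y ∈ IntermediateField.adjoin S (Set.range j) := by
  induction hy using IntermediateField.adjoin_induction with
  | mem x hx => exact ⟨∅, fun S _ => IntermediateField.subset_adjoin _ _ hx⟩
  | algebraMap m =>
    exact ⟨{m}, fun S h =>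
      IntermediateField.algebraMap_mem _ (⟨m, h m (Finset.mem_singleton_self m)⟩ : S)⟩
  | add x y _ _ h h' =>
    obtain ⟨s, hs⟩ := h
    obtain ⟨t, ht⟩ := h'
    exact ⟨s ∪ t, fun S h => add_mem (hs S fun x hx => h x (Finset.mem_union_left _ hx))
      (ht S fun x hx => h x (Finset.mem_union_right _ hx))⟩
  | inv x _ h => exact h.imp fun s hs S h => inv_mem (hs S h)
  | mul x y _ _ h h' =>
    obtain ⟨s, hs⟩ := h
    obtain ⟨t, ht⟩ := h'
    exact ⟨s ∪ t, fun S h => mul_mem (hs S fun x hx => h x (Finset.mem_union_left _ hx))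
      (ht S fun x hx => h x (Finset.mem_union_right _ hx))⟩

theorem n1b_pi_fin [IsPurelyInseparable K M] {a : BR K} (h : rs (algebraMap K M) a = 0) :
    ∃ S : IntermediateField K M, FiniteDimensional K S ∧ rs (algebraMap K S) a = 0 := by
  obtain ⟨L, _, _, c, -, hc, rfl⟩ := exists_cls a ∅
  obtain ⟨E', _, _, _, _, j, r, hj, hr, hi, ht⟩ := exists_bc L (algebraMap K M)
  rw [rs_cls (algebraMap K M) hj (r := r) hr hc, cls_eq_zero (pull_coc (r := r) hr hc)] at h
  obtain ⟨e, he⟩ := h
  choose s hs using fun g => n1b_fin (K := K) (j := j) (y := (e g : E'))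
    (ht ▸ IntermediateField.mem_top)
  let S := IntermediateField.adjoin K ((Finset.univ.biUnion s : Finset M) : Set M)
  have hf : FiniteDimensional K S := IntermediateField.finiteDimensional_adjoin fun x _ =>
    IsPurelyInseparable.isIntegral' K x
  refine ⟨S, hf, ?_⟩
  obtain ⟨_, _, j', r', h1, hj', hr', -⟩ := bc_in (K' := S) (φ := algebraMap K S) (j := j) hj
  let i : IntermediateField.adjoin S (Set.range j) →+* E' := algebraMap _ _
  have h2 : Sq (algebraMap S M) i := fun _ => rfl
  obtain ⟨ρ, hρ⟩ := exists_rs h2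
  have h3 : Function.Injective ρ := hρ.inj (top_le_iff.1 (ht ▸ IntermediateField.adjoin.mono _ _ _
    (by rintro _ ⟨x, rfl⟩; exact ⟨j' x, h1 x⟩)))
  have h4 : ∀ g, r' (ρ g) = r g := fun g => AlgEquiv.ext fun x => j.injective (by
    rw [hr, ← h1, hr', ← h1]
    exact hρ g (j' x))
  rw [rs_cls (algebraMap K S) hj' (r := r') hr' hc, cls_eq_zero (pull_coc (r := r') hr' hc)]
  refine n1b_desc h2 hρ h3 (e := e) ?_ fun g => ⟨⟨e g, hs g S fun x hx =>
    IntermediateField.subset_adjoin _ _ (Finset.mem_coe.2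
      (Finset.mem_biUnion.2 ⟨g, Finset.mem_univ g, hx⟩))⟩, rfl⟩
  refine Eq.trans (funext fun q => ?_) he
  simp only [pull, h4]
  exact Units.ext (h1 _)

theorem rs_pi (p : ℕ) [ExpChar K p] [IsPurelyInseparable K M] {a : BR K}
    (h : rs (algebraMap K M) a = 0) : ∃ n : ℕ, p ^ n • a = 0 := by
  obtain ⟨S, _, h1⟩ := n1b_pi_fin h
  obtain ⟨n, hn⟩ := finInsepDegree_eq_pow K S p
  refine ⟨n, ?_⟩
  rw [← hn, IsPurelyInseparable.finInsepDegree_eq, ← corN_res, h1]
  exact map_zero (corN K S)

theorem rs_pi_fin [IsPurelyInseparable K M] {a : BR K} (h : rs (algebraMap K M) a = 0) :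
    ∃ S : IntermediateField K M, FiniteDimensional K S ∧ rs (algebraMap K S) a = 0 :=
  n1b_pi_fin h

/-- the field generated by an embedding -/
noncomputable def emF (K' : Type) [Field K'] (τ : M →+* AlgebraicClosure K') :
    IntermediateField K' (AlgebraicClosure K') := IntermediateField.adjoin K' (Set.range τ)

/-- the embedding into this field -/
noncomputable def emH (K' : Type) [Field K'] (τ : M →+* AlgebraicClosure K') : M →+* emF K' τ :=
  τ.codRestrict (emF K' τ) fun x => IntermediateField.subset_adjoin _ _ ⟨x, rfl⟩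

theorem n1b_le {A B C D : Type} [Field A] [Field B] [Field C] [Field D] [Algebra A B]
    [FiniteDimensional A B] [Algebra C D] (σ : A →+* C) (t : B →+* D)
    (h : ∀ a, t (algebraMap A B a) = algebraMap C D (σ a))
    (hg : IntermediateField.adjoin C (Set.range t) = ⊤) :
    FiniteDimensional C D ∧ finrank C D ≤ finrank A B := by
  let : Algebra A C := σ.toAlgebra
  let : Algebra A D := ((algebraMap C D).comp σ).toAlgebra
  have : IsScalarTower A C D := .of_algebraMap_eq fun _ => rfl
  let T : B →ₐ[A] D := { t with commutes' := h }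
  have h1 := (IntermediateField.adjoin_eq_top_iff_of_isAlgebraic (F := C) (S := Set.range t) (by
    rintro _ ⟨x, rfl⟩
    exact (((IsIntegral.of_finite A x).map T).tower_top (A := C)).isAlgebraic)).1 hg
  have h2 : Submodule.span C (Set.range fun i => t (Module.finBasis A B i)) = ⊤ := by
    rw [← top_le_iff, ← Algebra.top_toSubmodule, ← h1, Algebra.adjoin_eq_span, Submodule.span_le]
    intro y hy
    obtain ⟨x, rfl⟩ : y ∈ MonoidHom.mrange (t : B →* D) := Submonoid.closure_le.2 subset_rfl hy
    change t x ∈ _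
    rw [← (Module.finBasis A B).sum_repr x, map_sum]
    refine sum_mem fun i _ => ?_
    rw [Algebra.smul_def, map_mul, h, ← Algebra.smul_def]
    exact Submodule.smul_mem _ _ (Submodule.subset_span ⟨i, rfl⟩)
  exact ⟨Module.finite_def.2 (h2 ▸ Submodule.fg_span (Set.finite_range _)),
    (finrank_le_of_span_eq_top h2).trans (Fintype.card_fin _).le⟩

theorem n1b_rs {A B C : Type} [Field A] [Field B] [Field C] [Algebra K' C] [FiniteDimensional K' C]
    [Algebra.IsSeparable K' C] (p k : ℕ) [ExpChar C p] (f : M →+* A) (g : A →+* B) (h : B →+* C)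
    (t : M →+* M') (u : M' →+* C) (e : ∀ y, h (g (f y)) = u (t y) ^ p ^ k) (β : BR M) :
    cor K' C (rs h (rs g (rs f β))) = p ^ k • cor K' C (rs u (rs t β)) := by
  have h1 : rs ((h.comp g).comp f) β = p ^ k • rs (u.comp t) β := rs_pow p k e β
  rw [rs, rs, rs, rs, rs, res_res, res_res, res_res]
  exact (congrArg _ h1).trans (map_nsmul _ _ _)

theorem n1b_key {F N : Type} [Field F] [Field N] [Algebra K' F] [Algebra K' N]
    [FiniteDimensional K' F] [Algebra.IsSeparable K' F] [FiniteDimensional K M]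
    [FiniteDimensional K' N] (γ : K →+* K') (σ : separableClosure K M →+* F) (t : M →+* N)
    (ι : F →ₐ[K'] N) (hι : ∀ x, ι (σ x) = t x)
    (ht : IntermediateField.adjoin K' (Set.range t) = ⊤) : ∃ w : ℕ,
      w * finrank K' N = finrank K' F * finrank (separableClosure K M) M ∧
      ∀ β : BR M, cor K' F (rs σ (rs (frS K M) β)) = w • corN K' N (rs t β) := by
  obtain ⟨p, _⟩ := ExpChar.exists K
  have : ExpChar K' p := expChar_of_injective_ringHom γ.injective p
  have : ExpChar N p := expChar_of_injective_algebraMap (algebraMap K' _).injective p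
  have : ExpChar (separableClosure K' N) p :=
    expChar_of_injective_algebraMap (algebraMap K' _).injective p
  have : ExpChar ι.fieldRange p := expChar_of_injective_algebraMap (algebraMap K' _).injective p
  obtain ⟨n, hn⟩ := finInsepDegree_eq_pow K M p
  obtain ⟨n', hn'⟩ := finInsepDegree_eq_pow K' N p
  have hp : IsPurelyInseparable ι.fieldRange N := by
    refine (isPurelyInseparable_iff_pow_mem ι.fieldRange p).2 fun y => ⟨n, ?_⟩
    have h1 : iterateFrobenius N p n y ∈ ι.fieldRange.toSubfield := by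
      refine a5b_mem (K := K') (s := Set.range t) (iterateFrobenius N p n) _
        (fun x => pow_mem (ι.fieldRange.algebraMap_mem x) _) ?_ (ht ▸ IntermediateField.mem_top)
      rintro _ ⟨x, rfl⟩
      refine ⟨σ (frS K M x), ?_⟩
      rw [iterateFrobenius_def, ← hn, ← map_pow, ← frS_spec]
      exact hι _
    exact ⟨⟨_, h1⟩, rfl⟩
  obtain ⟨θ, hθ⟩ : ∃ θ : F ≃ₐ[K'] separableClosure K' N, ∀ y, (θ y : N) = ι y := by
    let θ₀ : F →ₐ[K'] separableClosure K' N :=
      ι.codRestrict (separableClosure K' N).toSubalgebra fun y =>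
        mem_separableClosure_iff.2 ((Algebra.IsSeparable.isSeparable K' y).map ι ι.injective)
    refine ⟨AlgEquiv.ofBijective θ₀ ⟨θ₀.injective, fun y => ?_⟩, fun _ => rfl⟩
    obtain ⟨x, hx⟩ := separableClosure_le K' N ι.fieldRange y.2
    exact ⟨x, Subtype.ext hx⟩
  have hle : p ^ n' ≤ p ^ n := by
    rw [← hn, ← hn']
    exact (n1b_le ((θ : F →+* separableClosure K' N).comp σ) t
      (fun a => ((hθ _).trans (hι a)).symm)
      (IntermediateField.adjoin_eq_top_of_adjoin_eq_top K' ht)).2
  obtain ⟨k, hk⟩ : ∃ k, p ^ n = p ^ n' * p ^ k := by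
    rcases le_total n' n with h | h
    · exact ⟨n - n', by rw [← pow_add, Nat.add_sub_cancel' h]⟩
    · exact ⟨0, by rw [pow_zero, mul_one]; exact
        le_antisymm (Nat.pow_le_pow_right (expChar_pos K p) h) hle⟩
  refine ⟨p ^ k, ?_, fun β => ?_⟩
  · rw [← finrank_mul_finrank K' (separableClosure K' N) N, θ.toLinearEquiv.finrank_eq]
    change _ * (_ * Field.finInsepDegree K' N) = _ * Field.finInsepDegree K M
    rw [hn, hn', hk]
    ring
  · rw [← cor_equiv θ, corN_def]
    refine n1b_rs p k _ _ _ _ _ (fun y => Subtype.ext ?_) β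
    change (θ (σ (frS K M y)) : N) = (frS K' N (t y) : N) ^ p ^ k
    rw [hθ, hι, frS_spec, frS_spec, hn, hn', map_pow, hk, pow_mul]

theorem n1b_one [FiniteDimensional K M] (γ : K →+* K') (τ₀ : EmO (separableClosure K M) γ) :
    ∃ (τ : M →+* AlgebraicClosure K') (w : ℕ),
      (∀ a, τ (algebraMap K M a) = algebraMap K' _ (γ a)) ∧ FiniteDimensional K' (emF K' τ) ∧
      w * finrank K' (emF K' τ) = finrank K' τ₀.fld * finrank (separableClosure K M) M ∧
      ∀ β : BR M, cor K' τ₀.fld (rs τ₀.hom (rs (frS K M) β)) =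
        w • corN K' (emF K' τ) (rs (emH K' τ) β) := by
  have h : ∃ τ : M →+* AlgebraicClosure K', ∀ a, τ (algebraMap _ M a) = SC.val K' (τ₀.1 a) :=
    exists_emb (E := M) (((SC.val K' : SC K' →+* AlgebraicClosure K')).comp τ₀.1)
  refine h.elim fun τ hτ => ?_
  have h0 : ∀ a, τ (algebraMap K M a) = algebraMap K' _ (γ a) := fun a => by
    rw [IsScalarTower.algebraMap_apply K (separableClosure K M) M, hτ, τ₀.2]
    exact (SC.val K').commutes _
  have ht : IntermediateField.adjoin K' (Set.range (emH K' τ)) = ⊤ := vgal_top fun _ => rfl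
  have hf : FiniteDimensional K' (emF K' τ) :=
    (n1b_le γ (emH K' τ) (fun a => Subtype.ext (h0 a)) ht).1
  have hm : ∀ y : τ₀.fld, SC.val K' y ∈ emF K' τ := fun y =>
    a5b_mem (K := K') (s := Set.range τ₀.1) (SC.val K' : SC K' →+* AlgebraicClosure K')
      (emF K' τ).toSubfield
      (fun x => (congrArg (· ∈ emF K' τ) ((SC.val K').commutes x)).mpr
        ((emF K' τ).algebraMap_mem x))
      (by rintro _ ⟨x, rfl⟩; exact IntermediateField.subset_adjoin _ _ ⟨_, hτ x⟩) y.2
  have h' : ∃ ι : τ₀.fld →ₐ[K'] emF K' τ, ∀ y, (ι y : AlgebraicClosure K') = SC.val K' y :=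
    ⟨((SC.val K').comp τ₀.fld.val).codRestrict (emF K' τ).toSubalgebra hm, fun _ => rfl⟩
  refine h'.elim fun ι hι => ?_
  have h3 : ∀ x, ι (τ₀.hom x) = emH K' τ x := fun x => Subtype.ext ((hι _).trans (hτ x).symm)
  exact (n1b_key γ τ₀.hom (emH K' τ) ι h3 ht).elim fun w hw => ⟨τ, w, h0, hf, hw⟩

theorem corN_orbits [FiniteDimensional K M] (γ : K →+* K') :
    ∃ (ι : Type) (_ : Fintype ι) (τ : ι → M →+* AlgebraicClosure K') (w : ι → ℕ),
      (∀ i a, τ i (algebraMap K M a) = algebraMap K' _ (γ a)) ∧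
      (∀ i, FiniteDimensional K' (emF K' (τ i))) ∧
      ∑ i, w i * finrank K' (emF K' (τ i)) = finrank K M ∧
      ∀ β : BR M, rs γ (corN K M β) = ∑ i, w i • corN K' (emF K' (τ i)) (rs (emH K' (τ i)) β) := by
  obtain ⟨T, -, h1, h2⟩ := cor_orbits (separableClosure K M) γ
  choose τ w h3 h4 h5 h6 using n1b_one (M := M) γ
  refine ⟨T, inferInstance, fun i => τ i, fun i => w i, fun i => h3 i, fun i => h4 i, ?_,
    fun β => ?_⟩
  · rw [← finrank_mul_finrank K (separableClosure K M) M, ← h1, Finset.sum_mul,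
      ← Finset.sum_coe_sort T]
    exact Finset.sum_congr rfl fun i _ => h5 i
  · refine (congrArg (rs γ) (corN_def β)).trans ((h2 _).trans ?_)
    refine (Finset.sum_coe_sort T fun τ => cor K' τ.fld (rs τ.hom (rs (frS K M) β))).symm.trans ?_
    refine Finset.sum_congr rfl fun i _ => ?_
    exact h6 i β

end Pool.Agent.ZCy.F
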