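import Pool.Agent.Lib.MP_751085_ag.ZF.E.S2

/-! The value of a unit cocycle is locally constant. -/

namespace Pool.Agent.ZCy.F

open scoped Classical
open groupCohomology

variable {O L : Type} [CommRing O] [NontriviallyNormedField L] [IsUltrametricDist L]
  [CompleteSpace L] (U : UC O)

theorem s3_lift {A B C : Type} [Field A] [CommRing B] [Field C] (i : A →+* C) (F : B →+* C)
    (h : ∀ y, ∃ x, i x = F y) : ∃ Ψ : B →+* A, ∀ y, i (Ψ y) = F y := by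
  choose q hq using h
  refine ⟨⟨⟨⟨q, i.injective ?_⟩, fun a b => i.injective ?_⟩, i.injective ?_,
    fun a b => i.injective ?_⟩, hq⟩
  · rw [hq, map_one, map_one]
  · simp only [hq, map_mul]
  · simp only [hq, map_zero]
  · simp only [hq, map_add]

omit [IsUltrametricDist L] [CompleteSpace L] in
theorem s3_hen {Ω : Type} [NormedField Ω] [IsUltrametricDist Ω] [Algebra L Ω] [IsGalois L Ω]
    [IsSepClosed Ω] (h1 : ∀ x : L, ‖algebraMap L Ω x‖ = ‖x‖)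
    (h2 : ∀ (σ : Ω ≃ₐ[L] Ω) x, ‖σ x‖ = ‖x‖) (ρ : U.A →+* L) (S : Finset U.A) {δ : ℝ} (hδ : 0 < δ) :
    ∃ (s : Finset O) (ε : ℝ), 0 < ε ∧ ∀ φ' : O →+* L, (∀ o ∈ s, ‖φ' o - ρ (U.i o)‖ < ε) →
      ∃ ρ' : U.A →+* L, (∀ o, ρ' (U.i o) = φ' o) ∧ ∀ b ∈ S, ‖ρ' b - ρ b‖ < δ := by
  obtain ⟨S₁, δ₁, hδ₁, h₁⟩ := U.at_near ((algebraMap L Ω).comp ρ)
  obtain ⟨s, ε, hε, h⟩ := U.near ((algebraMap L Ω).comp ρ) (S ∪ S₁) (lt_min hδ hδ₁)
  refine ⟨s, ε, hε, fun φ' hφ => ?_⟩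
  obtain ⟨ρ₁, hρ₁⟩ := U.exists_pt φ' Ω
  obtain ⟨g, hg⟩ := h ρ₁ fun o ho => by
    rw [hρ₁, RingHom.comp_apply, ← map_sub, h1]
    exact hφ o ho
  let ρ₂ := ρ₁.comp (MulSemiringAction.toRingHom U.G U.A g)
  have hb : ∀ o, ρ₂ (U.i o) = algebraMap L Ω (φ' o) := fun o =>
    (congrArg ρ₁ (U.smul_i g o)).trans (hρ₁ o)
  obtain ⟨r, hr⟩ := UC.exists_at (Ω ≃ₐ[L] Ω) hb
  obtain ⟨ρ', hρ'⟩ := s3_lift (algebraMap L Ω) ρ₂ fun b =>
    (InfiniteGalois.mem_range_algebraMap_iff_fixed _).2 fun σ => by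
      have h3 := h₁ ρ₂ σ 1 (r σ) (h2 σ) (fun b => by
        rw [one_smul]
        exact (σ.commutes _).symm) (hr.comm σ) fun b hb =>
          (hg b (Finset.mem_union_right _ hb)).trans_le (min_le_right _ _)
      have h4 := hr.comm σ b
      rw [h3, one_smul] at h4
      exact h4.symm
  refine ⟨ρ', fun o => (algebraMap L Ω).injective ((hρ' _).trans (hb o)), fun b hb => ?_⟩
  rw [← h1, map_sub, hρ']
  exact (hg b (Finset.mem_union_left _ hb)).trans_le (min_le_left _ _)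

/-- points of the covering lift to close points -/
theorem UC.hensel (ρ : U.A →+* L) (S : Finset U.A) {δ : ℝ} (hδ : 0 < δ) :
    ∃ (s : Finset O) (ε : ℝ), 0 < ε ∧ ∀ φ' : O →+* L, (∀ o ∈ s, ‖φ' o - ρ (U.i o)‖ < ε) →
      ∃ ρ' : U.A →+* L, (∀ o, ρ' (U.i o) = φ' o) ∧ ∀ b ∈ S, ‖ρ' b - ρ b‖ < δ := by
  let := spectralNorm.normedField L (SC L)
  have : IsUltrametricDist (SC L) :=
    IsUltrametricDist.isUltrametricDist_of_forall_norm_add_le_max_norm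
      (isNonarchimedean_spectralNorm (K := L) (L := SC L))
  exact s3_hen U (Ω := SC L) spectralNorm_extends
    (fun σ x => (spectralNorm_eq_of_equiv σ x).symm) ρ S hδ

omit [IsUltrametricDist L] [CompleteSpace L] in
theorem s3_lc {E : Type} [NontriviallyNormedField E] [IsUltrametricDist E] [CompleteSpace E]
    [Algebra L E] [FiniteDimensional L E] [IsGalois L E] (h1 : ∀ x : L, ‖algebraMap L E x‖ = ‖x‖)
    (h2 : ∀ (σ : E ≃ₐ[L] E) x, ‖σ x‖ = ‖x‖) {φ : O →+* L} {ρ : U.A →+* E}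
    {r : (E ≃ₐ[L] E) → U.G} (h : U.At φ ρ r) : ∃ (s : Finset O) (ε : ℝ), 0 < ε ∧ ∀ φ' : O →+* L,
      (∀ o ∈ s, ‖φ' o - φ o‖ < ε) → U.val φ' = U.val φ := by
  obtain ⟨t, ht⟩ := Algebra.trace_surjective L E 1
  have ht' : ∑ g : E ≃ₐ[L] E, g • t = 1 := by
    have := trace_eq_sum_automorphisms (K := L) t
    rw [ht, map_one] at this
    exact this.symm
  obtain ⟨δ, hδ, hc⟩ := cob_near (G := E ≃ₐ[L] E) h2 ht'
  obtain ⟨S₁, δ₁, hδ₁, h₁⟩ := U.at_near ρ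
  have n0 : ∀ p, 0 < ‖ρ (U.c p)‖ := fun p => norm_pos_iff.2 ((U.c p).isUnit.map ρ).ne_zero
  obtain ⟨p₀, hp₀⟩ := Finite.exists_min fun p : U.G × U.G => δ * ‖ρ (U.c p)‖
  obtain ⟨s, ε, hε, hh⟩ := U.hensel ρ (S₁ ∪ Finset.univ.image fun p => (U.c p : U.A))
    (lt_min hδ₁ (mul_pos hδ (n0 p₀)))
  refine ⟨s, ε, hε, fun φ' hφ => ?_⟩
  obtain ⟨ρ', hb, hn⟩ := hh ((algebraMap L E).comp φ') fun o ho => by
    rw [h.base, RingHom.comp_apply, ← map_sub, h1]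
    exact hφ o ho
  obtain ⟨r', hr'⟩ := UC.exists_at (E ≃ₐ[L] E) (φ := φ') hb
  obtain rfl : r' = r := funext fun σ => h₁ ρ' σ (r σ) (r' σ) (h2 σ) (h.comm σ) (hr'.comm σ)
    fun b hb => (hn b (Finset.mem_union_left _ hb)).trans_le (min_le_left _ _)
  obtain ⟨e, he⟩ := hc _ (coc_div hr'.coc h.coc) fun p => by
    have h3 := (hn _ (Finset.mem_union_right _ (Finset.mem_image_of_mem _
      (Finset.mem_univ (r' p.1, r' p.2))))).trans_le ((min_le_right _ _).trans (hp₀ (r' p.1, r' p.2)))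
    have h4 := n0 (r' p.1, r' p.2)
    rw [Pi.div_apply, Units.val_div_eq_div_val]
    change ‖ρ' (U.c (r' p.1, r' p.2)) / ρ (U.c (r' p.1, r' p.2)) - 1‖ < δ
    rwa [div_sub_one (norm_pos_iff.1 h4), norm_div, div_lt_iff₀ h4]
  rw [hr'.val_cls, h.val_cls, ← sub_eq_zero, ← cls_div hr'.coc h.coc, he, cls_dd]

/-- the value is locally constant -/
theorem UC.lc (φ : O →+* L) : ∃ (s : Finset O) (ε : ℝ), 0 < ε ∧ ∀ φ' : O →+* L,
    (∀ o ∈ s, ‖φ' o - φ o‖ < ε) → U.val φ' = U.val φ := by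
  obtain ⟨E, _, _, ρ, r, h, -⟩ := U.exists_min φ
  let := spectralNorm.nontriviallyNormedField L E
  have : IsUltrametricDist E :=
    IsUltrametricDist.isUltrametricDist_of_forall_norm_add_le_max_norm
      (isNonarchimedean_spectralNorm (K := L) (L := E))
  have : CompleteSpace E := spectralNorm.completeSpace L E
  exact s3_lc U (E := E) spectralNorm_extends
    (fun σ x => (spectralNorm_eq_of_equiv σ x).symm) h

end Pool.Agent.ZCy.F
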