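import Pool.Agent.Lib.MP_751085_ag.ZF.E.S1
import Pool.Agent.Lib.MP_751085_ag.ZF.E.S3
import Pool.Agent.Lib.MP_751085_ag.ZF.E.X1
import Pool.Agent.Lib.MP_751085_ag.ZF.EIf

/-! Charts for a class of the Brauer group; local constancy. -/

namespace Pool.Agent.ZCy.F

open scoped Classical Topology
open MvPolynomial

variable {k : Type} [Field k] {X : Var k} {M : Type} [Field M] [Algebra k M]
  {x : Fin (X.N + 1) → M} {a : BR X.F}

/-- a common denominator -/
theorem exists_den (s : Finset X.F) (h : ∀ f ∈ s, f ∈ X.LR x) :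
    ∃ (d : ℕ) (H : MvPolynomial (Fin (X.N + 1)) k) (G : X.F → MvPolynomial (Fin (X.N + 1)) k),
      H.IsHomogeneous d ∧ aeval x H ≠ 0 ∧
        ∀ f ∈ s, (G f).IsHomogeneous d ∧ f * aeval X.g H = aeval X.g (G f) := by
  induction s using Finset.induction_on with
  | empty => exact ⟨0, 1, 0, isHomogeneous_one _ _, by simp, by simp⟩
  | insert f s hf ih =>
    obtain ⟨d, H, G, hH, h0, hG⟩ := ih fun f hf => h f (Finset.mem_insert_of_mem hf)
    obtain ⟨m, d', G', H', hG', hH', h0', e, -⟩ := mem_LR.1 (h f (Finset.mem_insert_self _ _))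
    refine ⟨d + d', H * H', fun f' => if f' = f then H * G' else G f' * H', hH.mul hH',
      by rw [map_mul]; exact mul_ne_zero h0 h0', fun f' hf' => ?_⟩
    by_cases h1 : f' = f
    · simp only [h1, if_true, map_mul]
      exact ⟨hH.mul hG', by rw [mul_left_comm, e]⟩
    · simp only [h1, if_false, map_mul]
      have h2 := hG f' ((Finset.mem_insert.1 hf').resolve_left h1)
      exact ⟨h2.1.mul hH', by rw [← mul_assoc, h2.2]⟩

theorem s5_sub {F : Type} [Field F] {R : Subring F} (U : UC R) :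
    ∃ (s : Finset F) (V : UC (Subring.closure (s : Set F))),
      V.val (Subring.subtype _) = U.val R.subtype ∧ ∀ f ∈ s, f ∈ R := by
  refine U.spread.elim fun s hs => ?_
  have : ∃ t : Finset F, (∀ f ∈ t, f ∈ R) ∧ ∀ o ∈ s, o.1 ∈ t :=
    ⟨s.image Subtype.val, fun f hf => (Finset.mem_image.1 hf).elim fun o ho => ho.2 ▸ o.2,
      fun o ho => Finset.mem_image_of_mem _ ho⟩
  refine this.elim fun t ht => ?_
  have h2 : Subring.closure (t : Set F) ≤ R := Subring.closure_le.2 ht.1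
  have h3 := hs _ (Subring.inclusion h2) (Subring.inclusion_injective h2) fun o ho =>
    RingHom.mem_range.2
      ⟨⟨o.1, Subring.subset_closure (Finset.mem_coe.2 (ht.2 o ho))⟩, Subtype.ext rfl⟩
  refine h3.elim fun V hV => ⟨t, V, ?_, ht.1⟩
  rw [← hV F R.subtype]
  exact congrArg V.val (RingHom.ext fun _ => rfl)

theorem exists_chart (ha : a ∈ X.Bw) (hx : X.On x) :
    ∃ (s : Finset X.F) (U : UC (Subring.closure (s : Set X.F))),
      U.val (Subring.subtype _) = a ∧ ∀ f ∈ s, f ∈ X.LR x :=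
  (mem_loc.1 (mem_Bw.1 ha M x hx)).elim fun U hU => hU ▸ s5_sub U

theorem vl_chart (hE : EvApi X) {R : Subring X.F} (U : UC R) (ha : U.val R.subtype ∈ X.Bw)
    (hx : X.On x) (h : R ≤ X.LR x) :
    ∃ φ : R →+* M, (∀ f : R, X.Reg x f (φ f)) ∧ X.vl (U.val R.subtype) M x = U.val φ := by
  obtain ⟨e, he⟩ := exists_ev hx
  have h1 : ∀ f : R, X.Reg x f (e.comp (Subring.inclusion h) f) := fun f =>
    ev_reg he (Subring.inclusion h f)
  exact ⟨_, h1, (hE.vw _ ha M x hx _).1 (vw_of hx U R.subtype _ h1)⟩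

variable {L : Type} [NormedField L] [Algebra k L] {y : Fin (X.N + 1) → L} {f : X.F}

theorem s5_cont (H : MvPolynomial (Fin (X.N + 1)) k) :
    Continuous fun y : Fin (X.N + 1) → L => aeval y H := by
  simp only [aeval_def, ← eval_map]
  exact MvPolynomial.continuous_eval _

theorem lr_near (h : f ∈ X.LR y) : ∀ᶠ y' in 𝓝 y, f ∈ X.LR y' := by
  obtain ⟨m, d, G, H, hG, hH, h0, e, -⟩ := mem_LR.1 h
  filter_upwards [(s5_cont H).continuousAt.eventually_ne h0] with y' h1
  exact mem_LR.2 ⟨_, d, G, H, hG, hH, h1, e, div_mul_cancel₀ _ h1⟩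

theorem reg_near {m : L} (h : X.Reg y f m) {ε : ℝ} (hε : 0 < ε) :
    ∀ᶠ y' in 𝓝 y, X.On y' → ∀ m', X.Reg y' f m' → ‖m' - m‖ < ε := by
  obtain ⟨d, G, H, hG, hH, h0, e, e'⟩ := h
  have hc := ((s5_cont G).continuousAt.div (s5_cont H).continuousAt h0).tendsto
  filter_upwards [(s5_cont H).continuousAt.eventually_ne h0,
    hc.eventually (Metric.ball_mem_nhds _ hε)] with y' h1 h2 hy m' hm
  rw [reg_unique hy hm ⟨d, G, H, hG, hH, h1, e, div_mul_cancel₀ _ h1⟩, eq_div_of_mul_eq h0 e',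
    ← dist_eq_norm]
  exact h2

theorem lca_thm : LCA := by
  intro k _ X hE a ha L _ _ _ _ x hx
  obtain ⟨s, U, rfl, hs⟩ := exists_chart ha hx
  obtain ⟨φ, hφ, e⟩ := vl_chart hE U ha hx (Subring.closure_le.2 hs)
  obtain ⟨t, ε, hε, ht⟩ := U.lc φ
  filter_upwards [(Filter.eventually_all_finset s).2 fun f hf => lr_near (hs f hf),
    (Filter.eventually_all_finset t).2 fun o _ => reg_near (hφ o) hε] with x' h1 h2 hx'
  obtain ⟨φ', hφ', e'⟩ := vl_chart hE U ha hx' (Subring.closure_le.2 h1)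
  rw [e, e']
  exact ht φ' fun o ho => h2 o ho hx' _ (hφ' o)

end Pool.Agent.ZCy.F
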