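import Pool.Agent.Lib.MP_751085_ag.ZF.E.U4
import Pool.Agent.Lib.MP_751085_ag.ZF.R3b

/-! Unit cocycles and valuations. -/

namespace Pool.Agent.ZCy.F

open scoped Classical WithZero
open groupCohomology

variable {O K Z E M : Type} [CommRing O] [Field K] [Field Z] [Field E] [Field M]

theorem UC.At.le_one {U : UC O} [Algebra K E] {G' : Type} [Group G'] [MulSemiringAction G' E]
    {φ : O →+* K} {ρ : U.A →+* E} {r : G' → U.G} (h : U.At φ ρ r) {w : Vl E}
    (hw : ∀ o, w (algebraMap K E (φ o)) ≤ 1) (y : U.A) : w (ρ y) ≤ 1 := by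
  refine le_one_of_int (f := (algebraMap K E).comp φ) hw ?_
  rw [← show ρ.comp U.i = (algebraMap K E).comp φ from RingHom.ext h.base]
  exact (U.integral y).map ρ

theorem UC.At.ine {U : UC O} [Algebra K E] {φ : O →+* K} {ρ : U.A →+* E}
    {r : (E ≃ₐ[K] E) → U.G} (h : U.At φ ρ r) {w : Vl E}
    (hw : ∀ o, w (algebraMap K E (φ o)) ≤ 1) {g : E ≃ₐ[K] E} (hg : g ∈ Ine K w) : r g = 1 := by
  obtain ⟨κ, _, ρ', h', -⟩ := exists_resf w
  refine U.eq_one (ρ'.comp (ρ.codRestrict w.integer (h.le_one hw))) fun y => (h'.eq_iff _ _).2 ?_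
  change w (ρ _ - ρ y) < 1
  rw [h.comm]
  exact hg.2 _ (h.le_one hw y)

theorem v1_unit {U : UC O} [Algebra K E] {G' : Type} [Group G'] [MulSemiringAction G' E]
    {φ : O →+* K} {ρ : U.A →+* E} {r : G' → U.G} (h : U.At φ ρ r) {w : Vl E}
    (hw : ∀ o, w (algebraMap K E (φ o)) ≤ 1) (p : G' × G') : w (pullR ρ r U.c p : E) = 1 := by
  refine eq_one_of_one_le_mul_left (h.le_one hw _) (h.le_one hw (U.c (r p.1, r p.2))⁻¹.1) ?_
  change 1 ≤ w (ρ _) * _
  rw [← map_mul, ← map_mul, Units.mul_inv, map_one, map_one]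

theorem v1_infl {U : UC O} [Algebra K E] {φ : O →+* K} {ρ : U.A →+* E}
    {r : (E ≃ₐ[K] E) → U.G} (h : U.At φ ρ r) {w : Vl E}
    (hw : ∀ o, w (algebraMap K E (φ o)) ≤ 1) (D : Subgroup (E ≃ₐ[K] E)) :
    Infl D (Ine K w) (pullR ρ r U.c) :=
  ⟨fun g _ g' _ i hi i' hi' => by simp only [pullR, h.mul, h.ine hw hi, h.ine hw hi', mul_one],
    fun g _ g' _ i hi => Units.ext (h.one.1 (h.ine hw hi) _)⟩

theorem UC.unram (U : UC O) (φ : O →+* K) {v : Vl K} (h : ∀ o, v (φ o) ≤ 1) :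
    Unram v (U.val φ) := by
  obtain ⟨L, _, _, ρ, r, -, h1⟩ := U.exists_fin φ ∅
  obtain ⟨w, ho⟩ := vn_exists (E := L) v
  have hw := fun o => (ho _).2 (h o)
  rw [h1.val_cls]
  exact isRD_unit ho h1.coc (v1_infl h1 hw _) fun g _ g' _ => v1_unit h1 hw _

theorem unram_of_mem {v : Vl K} {a : BR K} (h : a ∈ Loc v.integer) : Unram v a := by
  obtain ⟨U, rfl⟩ := mem_loc.1 h
  exact U.unram _ fun o => o.2

theorem v1_un {w : Vl E} (u : Eˣ) (h : w (u : E) = 1) :
    ∃ z : w.integerˣ, Units.map (w.integer.subtype : w.integer →* E) z = u :=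
  ⟨⟨⟨u, h.le⟩, ⟨u⁻¹.1, show w _ ≤ 1 by rw [Units.val_inv_eq_inv_val, map_inv₀, h, inv_one]⟩,
    Subtype.ext u.mul_inv, Subtype.ext u.inv_mul⟩, Units.ext rfl⟩

theorem v1_fac {A B C : Type} [CommRing A] [CommRing B] [CommRing C] (f : A →+* C) (g : B →+* C)
    (hg : Function.Injective g) (h : ∀ a, ∃ b, g b = f a) : ∃ ψ : A →+* B, ∀ a, g (ψ a) = f a := by
  choose ψ hψ using h
  exact ⟨⟨⟨⟨ψ, hg (by rw [hψ, map_one, map_one])⟩, fun a b => hg (by simp only [hψ, map_mul])⟩,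
    hg (by simp only [hψ, map_zero]), fun a b => hg (by simp only [hψ, map_add])⟩, hψ⟩

/-- the covering of an extension in which the valuation is inert -/
noncomputable def v1_uc [Algebra K E] {v : Vl K} {w : Vl E} (ho : Over (algebraMap K E) v w)
    (G : Type) [Group G] [Finite G] [MulSemiringAction G E] [IsInvariantSubring G w.integer]
    (hf : ∀ y : E, (∃ a, algebraMap K E a = y) ↔ ∀ g : G, g • y = y)
    (hI : ∀ g : G, (∀ x, w x ≤ 1 → w (g • x - x) < 1) → g = 1) (c : G × G → w.integerˣ)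
    (hc : IsMulCocycle₂ c) : UC v.integer :=
  letI := Fintype.ofFinite G
  have hi : ∀ y, y ∈ ho.int.range ↔ ∀ g : G, g • y = y := fun y =>
    ⟨fun ⟨x, e⟩ g => Subtype.ext ((hf y).1 ⟨x, congrArg Subtype.val e⟩ g), fun h =>
      let ⟨x, e⟩ := (hf y).2 fun g => congrArg Subtype.val (h g)
      ⟨⟨x, (ho x).1 (e ▸ y.2)⟩, Subtype.ext e⟩⟩
  ⟨G, w.integer, ho.int, fun _ _ h => Subtype.ext ((algebraMap K E).injective
    (congrArg Subtype.val h)), hi, by
      obtain ⟨κ, _, ρ, hρ, -⟩ := exists_resf w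
      refine crd_of_point _ hi ρ (fun o h => ?_) fun g h => hI g fun x hx =>
        (hρ.eq_iff _ _).1 (h ⟨x, hx⟩)
      exact (Valuation.integer.integers v).isUnit_iff_valuation_eq_one.2
        (((hρ.comp_int ho).ne_zero o).1 h), c, hc⟩

/-- The cocycle is a coboundary on the covering of the decomposition field. -/
theorem UC.injv {v : Vl K} (U : UC v.integer) {ρ : v.integer →+* M} (hρ : IsRed v ρ)
    (h : U.val v.integer.subtype = 0) : U.val ρ = 0 := by
  obtain ⟨L, _, _, ρ₁, r, h1, hr⟩ := U.exists_min v.integer.subtype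
  obtain ⟨w, ho⟩ := vn_exists (E := L) v
  have hw : ∀ o : v.integer, w (algebraMap K L (v.integer.subtype o)) ≤ 1 := fun o => (ho _).2 o.2
  have hI : ∀ g ∈ Ine K w, g = 1 := fun g hg =>
    hr ((h1.ine hw hg).trans (h1.one.2 fun _ => rfl).symm)
  obtain ⟨e, he⟩ := (cls_eq_zero h1.coc).1 (h1.val_cls.symm.trans h)
  have hu : ∀ g : Dec K w, w (e g : L) = 1 := fun g => by
    have := hom_rat_zero (D := Dec K w) (l := fun g => ord w (e g : L)) (fun x hx y _ => by
      have t := (ord_eq_zero (Units.ne_zero _)).2 (v1_unit h1 hw (x, y))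
      rw [he] at t
      exact_mod_cast (sub_eq_zero.1 ((ord_dd (e := e) hx y).symm.trans t)).symm) g.2
    exact (ord_eq_zero (Units.ne_zero _)).1 (by exact_mod_cast this)
  choose e' he' using fun g : Dec K w => v1_un _ (hu g)
  have : IsInvariantSubring (Dec K w) w.integer := ⟨fun g y hy => (g.2 y).trans_le hy⟩
  have hZ := over_comap (algebraMap (IntermediateField.fixedField (Dec K w)) L) w
  have ho' : Over (algebraMap K (IntermediateField.fixedField (Dec K w))) v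
    (w.comap (algebraMap _ L)) := ho
  let j : U.A →+* w.integer := ρ₁.codRestrict _ (h1.le_one hw)
  have hj : ∀ (g : Dec K w) y, j (r g • y) = g • j y := fun g y => Subtype.ext (h1.comm g y)
  let V := v1_uc hZ (Dec K w) (fun y => ⟨fun ⟨a, e⟩ g => e ▸ a.2 g, fun h => ⟨⟨y, h⟩, rfl⟩⟩)
    (fun g h => Subtype.ext (hI g ⟨g.2, h⟩)) _ (pullR_coc hj (fun g g' => h1.mul g g') U.coc)
  have hH : U.Hom ho'.int V j fun g : Dec K w => r g := ⟨fun o => Subtype.ext (h1.base o), hj⟩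
  obtain ⟨ρ', h2, h3⟩ := vn_redext ho (hρ.comp (algebraMap M (AlgebraicClosure M)))
  obtain ⟨ψ, hψ⟩ := v1_fac (ρ'.comp hZ.int) _ (algebraMap M _).injective fun y => by
    obtain ⟨a, ha⟩ := (dns_of_dec (K := K) (w := w) fun g hg => y.1.2 ⟨g, hg⟩).exists_lt
      one_ne_zero
    have h4 : w (algebraMap K L a) ≤ 1 := by
      rw [← sub_sub_cancel (y.1 : L) (algebraMap K L a)]
      exact w.map_sub_le y.2 ha.le
    exact ⟨ρ ⟨a, (ho a).1 h4⟩, (h3 _ ⟨_, h4⟩ rfl).symm.trans ((h2.eq_iff _ _).2 ha).symm⟩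
  rw [← show ψ.comp ho'.int = ρ from RingHom.ext fun o => (algebraMap M _).injective
    ((hψ _).trans (h3 o _ rfl)), ← hH.val rfl]
  refine V.val_dd (e := e') (funext fun p => Units.map_injective
    (f := (w.integer.subtype : w.integer →* L)) Subtype.val_injective ?_) ψ
  refine (congrFun he (p.1.1, p.2.1)).trans (.symm ((congrFun (pullR_dd (G := Dec K w)
    (ρ := w.integer.subtype) (r := id) (fun _ _ => rfl) (fun _ _ => rfl) e') p).trans ?_))
  simp only [id, he']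
  rfl

theorem UC.injv_eq {v : Vl K} (U U' : UC v.integer) {ρ : v.integer →+* M} (hρ : IsRed v ρ)
    (h : U.val v.integer.subtype = U'.val v.integer.subtype) : U.val ρ = U'.val ρ := by
  obtain ⟨V, hV⟩ := U.sub_val U'
  have e := V.injv hρ (by rw [hV, h]; abel)
  rw [hV] at e
  calc U.val ρ = U.val ρ - U'.val ρ + U'.val ρ := by abel
    _ = U'.val ρ := by rw [e]; abel

theorem v1_dns {φ : K →+* Z} {ψ : Z →+* E} {v : Vl Z} {w : Vl E} (ho : Over ψ v w) {y : Z}
    (h : Dns φ v y) : Dns (ψ.comp φ) w (ψ y) := fun n => by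
  obtain ⟨a, ha⟩ := h.exists_lt one_ne_zero
  rcases eq_or_ne (y - φ a) 0 with e | e
  · exact ⟨a, by rw [RingHom.comp_apply, ← map_sub, e, map_zero, map_zero]; exact zero_le⟩
  obtain ⟨b, hb⟩ := h.exists_lt (pow_ne_zero n ((map_ne_zero v).2 e))
  refine ⟨b, ?_⟩
  rw [← map_pow] at hb
  rw [RingHom.comp_apply, ← map_sub]
  refine ((ho.le_iff _ _).2 hb.le).trans ?_
  rw [map_pow, map_pow]
  refine (pow_le_pow_left' ((lt_one_iff_le_exp _).1 ((ho.lt_one _).2 ha)) n).trans ?_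
  rw [← WithZero.exp_nsmul, nsmul_eq_mul, mul_neg_one]

/-- The decomposition group fixes `Z`. -/
theorem unram_of_loc [Algebra K Z] [FiniteDimensional K Z] [Algebra.IsSeparable K Z] {v : Vl K}
    {v' : Vl Z} (ho : Over (algebraMap K Z) v v') (hd : ∀ z, Dns (algebraMap K Z) v' z) {a : BR K}
    (h : rs (algebraMap K Z) a ∈ Loc v'.integer) : Unram v a := by
  obtain ⟨U, hU⟩ := mem_loc.1 h
  obtain ⟨L, _, _, ρ₁, r₁, -, h₁⟩ := U.exists_fin v'.integer.subtype ∅
  have : FiniteDimensional K L := FiniteDimensional.trans K Z L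
  have : Algebra.IsSeparable K L := Algebra.IsSeparable.trans K Z L
  obtain ⟨s, hs⟩ := a2b_level (IsSepClosed.lift : L →ₐ[K] SC K)
  obtain ⟨E, _, _, c, h1, hc, rfl⟩ := exists_cls a s
  obtain ⟨φ, -⟩ := hs E h1
  let : Algebra Z E := ((φ : L →+* E).comp (algebraMap Z L)).toAlgebra
  have : IsScalarTower K Z E := .of_algebraMap_eq fun x => (φ.commutes x).symm
  have : FiniteDimensional Z E := Module.Finite.right K Z E
  have : IsGalois Z E := IsGalois.tower_top_of_isGalois K Z E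
  obtain ⟨r, h2⟩ := UC.exists_at (φ := v'.integer.subtype) (ρ := (φ : L →+* E).comp ρ₁)
    (E ≃ₐ[Z] E) fun o => congrArg φ (h₁.base o)
  obtain ⟨w, hw⟩ := vn_exists (E := E) v'
  have hw' : ∀ o : v'.integer, w (algebraMap Z E (v'.integer.subtype o)) ≤ 1 :=
    fun o => (hw _).2 o.2
  have hr : ∀ (g : E ≃ₐ[Z] E) (x : E), RingHom.id E (g.restrictScalars K • x) =
    g • RingHom.id E x := fun _ _ => rfl
  obtain ⟨e, he⟩ := (cls_eq_iff h2.coc (pull_coc hr hc)).1 (h2.val_cls.symm.trans (hU.trans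
    (rs_cls _ (j := RingHom.id E) (IsScalarTower.algebraMap_apply K Z E) hr hc)))
  have hz : ∀ g : E ≃ₐ[K] E, ∃ z : E ≃ₐ[Z] E, g ∈ Dec K w → z.restrictScalars K = g := fun g => by
    by_cases hg : g ∈ Dec K w
    · refine ⟨{ g with commutes' := fun y => Dns.fix ?_ hg }, fun _ => rfl⟩
      rw [IsScalarTower.algebraMap_eq K Z E]
      exact v1_dns hw (hd y)
    · exact ⟨1, fun h => (hg h).elim⟩
  choose z hz using hz
  have h3 : ∀ g ∈ Dec K w, ∀ x, z g x = g x := fun g hg x => DFunLike.congr_fun (hz g hg) x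
  have h4 : ∀ g ∈ Dec K w, ∀ g' ∈ Dec K w, z (g * g') = z g * z g' := fun g hg g' hg' =>
    AlgEquiv.ext fun x => by
      rw [h3 _ (mul_mem hg hg'), AlgEquiv.mul_apply, AlgEquiv.mul_apply, h3 g hg, h3 g' hg']
  have h5 : ∀ i ∈ Ine K w, z i ∈ Ine Z w := fun i hi =>
    ⟨fun x => h3 i hi.1 x ▸ hi.1 x, fun x hx => h3 i hi.1 x ▸ hi.2 x hx⟩
  obtain ⟨c', hc', h6, key⟩ : ∃ c' : (E ≃ₐ[K] E) × (E ≃ₐ[K] E) → Eˣ, IsMulCocycle₂ c' ∧
      cls K c' = cls K c ∧ ∀ g ∈ Dec K w, ∀ g' ∈ Dec K w,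
        c' (g, g') = pullR ((φ : L →+* E).comp ρ₁) r U.c (z g, z g') := by
    refine ⟨c * dd (e ∘ z), coc_mul hc (dd_coc _), cls_mul_dd hc _, fun g hg g' hg' => ?_⟩
    rw [he]
    simp only [Pi.mul_apply, pull, dd, hz g hg, hz g' hg', Function.comp, h4 g hg g' hg']
    exact congrArg (fun y => c (g, g') * (y / _ * _)) (Units.ext (h3 g hg _).symm)
  rw [← h6]
  have hi := v1_infl h2 hw' ⊤
  refine isRD_unit (w := w) (fun x => ?_) hc'
    ⟨fun g hg g' hg' i h6 i' h7 => ?_, fun g hg g' hg' i h6 => ?_⟩ fun g hg g' hg' => ?_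
  · rw [IsScalarTower.algebraMap_apply K Z E, hw, ho]
  · rw [key _ (mul_mem hg h6.1) _ (mul_mem hg' h7.1), key g hg g' hg', h4 g hg i h6.1,
      h4 g' hg' i' h7.1]
    exact hi.eq _ trivial _ trivial _ (h5 i h6) _ (h5 i' h7)
  · rw [key g hg g' hg']
    exact Units.ext ((h3 i h6.1 _).symm.trans
      (congrArg Units.val (hi.fix _ trivial _ trivial _ (h5 i h6))))
  · rw [key g hg g' hg']
    exact v1_unit h2 hw' _

theorem v1_rs [Algebra K E] [FiniteDimensional K E] [IsGalois K E] (U : Subgroup (E ≃ₐ[K] E))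
    [U.Normal] : ∃ (T : Type) (_ : Field T) (_ : Algebra K T) (_ : FiniteDimensional K T)
      (_ : IsGalois K T) (i : T →+* E) (r : (E ≃ₐ[K] E) →* T ≃ₐ[K] T), Sq (RingHom.id K) i ∧
      Rs i r ∧ Function.Surjective r ∧ (∀ g, r g = 1 ↔ g ∈ U) ∧
      ∀ y, (∀ g : U, g.1 y = y) → ∃ t, i t = y := by
  obtain ⟨r, hr⟩ := exists_rs (φ := RingHom.id K)
    (j := algebraMap (IntermediateField.fixedField U) E) fun _ => rfl
  refine ⟨_, inferInstance, inferInstance, inferInstance, inferInstance, _, r, fun _ => rfl, hr,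
    hr.surj fun x hx g => ?_, fun g => ⟨fun h => ?_, fun h => AlgEquiv.ext fun x => Subtype.ext ?_⟩,
    fun y hy => ⟨⟨y, hy⟩, rfl⟩⟩
  · obtain ⟨a, ha⟩ := mem_range_of_fix hx
    rw [show x = algebraMap K _ a from Subtype.ext ha.symm, g.commutes]
  · rw [← IntermediateField.fixingSubgroup_fixedField U, IntermediateField.mem_fixingSubgroup_iff]
    intro x hx
    have e := hr g ⟨x, hx⟩
    rw [h] at e
    exact e.symm
  · exact (hr g x).trans (x.2 ⟨g, h⟩)

theorem v1_coc {G G' A A' : Type} [Group G] [Group G'] [CommRing A] [CommRing A']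
    [MulSemiringAction G A] [MulSemiringAction G' A'] {ρ : A →+* A'} {r : G' →* G}
    (hρ : Function.Injective ρ) (hr : Function.Surjective r) (h : ∀ g y, ρ (r g • y) = g • ρ y)
    {c : G × G → Aˣ} (hc : IsMulCocycle₂ (pullR ρ r c)) : IsMulCocycle₂ c := fun a b d => by
  obtain ⟨a, rfl⟩ := hr a
  obtain ⟨b, rfl⟩ := hr b
  obtain ⟨d, rfl⟩ := hr d
  refine Units.map_injective (f := (ρ : A →* A')) hρ ?_
  rw [map_mul, map_mul, ← map_mul r, ← map_mul r]
  exact (hc a b d).trans (congrArg (· * _) (Units.ext (h _ _).symm))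

/-- The cocycle descends to the inertia field. -/
theorem uc_of_infl [Algebra K E] [FiniteDimensional K E] [IsGalois K E] {v : Vl K} {w : Vl E}
    (ho : Over (algebraMap K E) v w) (hD : Dec K w = ⊤) {x : (E ≃ₐ[K] E) × (E ≃ₐ[K] E) → Eˣ}
    (hx : IsMulCocycle₂ x) (hi : Infl ⊤ (Ine K w) x) (hu : ∀ p, w (x p : E) = 1) :
    ∃ V : UC v.integer, V.val v.integer.subtype = cls K x ∧
      ∀ (M : Type) [Field M] (ρ : v.integer →+* M) (ρ' : w.integer →+* AlgebraicClosure M)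
        (d : Gm M → E ≃ₐ[K] E) (ext : Gm M → AlgebraicClosure M → AlgebraicClosure M)
        (y : Gm M × Gm M → (SC M)ˣ), IsRed w ρ' → Cmp (algebraMap K E) ρ ρ' (algebraMap M _) →
        (∀ σ z, ext σ (SC.val M z) = SC.val M (σ z)) → (∀ σ, Cmp (d σ) ρ' ρ' (ext σ)) →
        (∀ p (z : w.integer), (z : E) = x (d p.1, d p.2) → SC.val M (y p) = ρ' z) →
          V.val ρ = cl M _ y := by
  have hd : ∀ g, g ∈ Dec K w := fun g => hD ▸ Subgroup.mem_top g
  have : (Ine K w).Normal := ⟨fun i h g => ine_conj g (hd g) i h⟩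
  obtain ⟨T, _, _, _, _, i, r, hq, hr, hs, hk, hf⟩ := v1_rs (Ine K w)
  have hT := over_comap i w
  have ho' : Over (algebraMap K T) v (w.comap i) := fun a => by
    rw [Valuation.comap_apply, hq]
    exact ho a
  have : IsInvariantSubring (T ≃ₐ[K] T) (w.comap i).integer := ⟨fun g y hy => by
    obtain ⟨g, rfl⟩ := hs g
    exact (hr.dec hT (hd g) y).trans_le hy⟩
  let ι := i.comp (w.comap i).integer.subtype
  choose s hs' using id hs
  have h0 : ∀ p : (T ≃ₐ[K] T) × (T ≃ₐ[K] T), ∃ u : (w.comap i).integerˣ,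
      ι u = x (s p.1, s p.2) := fun p => by
    obtain ⟨t, ht⟩ := hf _ fun g =>
      congrArg Units.val (hi.fix (s p.1) trivial (s p.2) trivial g g.2)
    obtain ⟨u, e⟩ := v1_un (w := w.comap i) (Units.mk0 t fun e => (x _).ne_zero
      (by rw [← ht, e, map_zero])) ((congrArg w ht).trans (hu _))
    exact ⟨u, (congrArg (fun y : Tˣ => i y) e).trans ht⟩
  choose x₀ h0 using h0
  have h1 : pullR ι r x₀ = x := funext fun p => by
    have e : ∀ g, g⁻¹ * s (r g) ∈ Ine K w := fun g =>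
      (hk _).1 (by rw [map_mul, hs', map_inv, inv_mul_cancel])
    have e' := hi.eq p.1 trivial p.2 trivial _ (e p.1) _ (e p.2)
    rw [mul_inv_cancel_left, mul_inv_cancel_left] at e'
    exact (Units.ext (h0 _)).trans e'
  have h2 : ∀ g y, ι (r g • y) = g • ι y := fun g y => hr g y
  let V := v1_uc ho' (T ≃ₐ[K] T) (fun y => ⟨fun ⟨a, e⟩ g => e ▸ g.commutes a, mem_range_of_fix⟩)
    (fun g h => by
      obtain ⟨g₁, rfl⟩ := hs g
      obtain ⟨g', h3, h4⟩ := hr.ine_onto hq hT ⟨hr.dec hT (hd g₁), h⟩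
      exact h4 ▸ (hk g').2 h3) x₀
    (v1_coc (ρ := ι) (i.injective.comp Subtype.val_injective) hs h2 (h1 ▸ hx))
  refine ⟨V, (UC.At.val_cls (U := V) (ρ := ι) (r := r) ⟨fun _ => hq _, h2⟩).trans
    (congrArg _ h1), fun M _ ρ ρ' d ext y _ h3 h4 h5 h6 => ?_⟩
  have hb : ∀ o, ρ'.comp hT.int (V.i o) = algebraMap M _ (ρ o) := fun o => h3 o _ (hq _)
  have hv : Function.Injective (SC.val M) := (SC.val M).toRingHom.injective
  obtain ⟨ψ, hψ⟩ := v1_fac (ρ'.comp hT.int) (SC.val M : SC M →+* _) hv fun a =>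
    ⟨⟨_, V.sep ρ _ hb a⟩, rfl⟩
  have hψ' : ∀ a, SC.val M (ψ a) = ρ' (hT.int a) := hψ
  refine (UC.At.val_eq (U := V) (ρ := ψ) (r := fun σ => r (d σ)) ⟨fun o => hv ?_,
    fun σ a => hv ?_⟩).trans (congrArg _ (funext fun p => Units.ext (hv ?_)))
  · exact (hψ' _).trans ((hb o).trans ((SC.val M).commutes _).symm)
  · exact (hψ' _).trans ((h5 σ (hT.int a) _ (h2 _ a)).trans
      ((congrArg _ (hψ' a).symm).trans (h4 σ _)))
  · exact (hψ' _).trans (h6 p _ (congrArg Units.val (congrFun h1 (d p.1, d p.2)))).symm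

end Pool.Agent.ZCy.F
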