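import Pool.Agent.Lib.MP_751085_ag.ZF.E.X1
import Pool.Agent.Lib.MP_751085_ag.ZF.E.V1
import Pool.Agent.Lib.MP_751085_ag.ZF.EIf
import Pool.Agent.Lib.MP_751085_ag.ZF.A6
import Pool.Agent.Lib.MP_751085_ag.ZF.C.Chf
import Pool.Agent.Lib.MP_751085_ag.ZF.C.N1
import Pool.Agent.Lib.MP_751085_ag.ZC.L.Cg
import Pool.Agent.Lib.MP_751085_ag.ZC.V.Wei

/-! The values of the classes of `X.Bw`. -/

namespace Pool.Agent.ZCy.F

open scoped Classical
open MvPolynomial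

variable {k : Type} [Field k] {X : Var k} {M M' : Type} [Field M] [Algebra k M] [Field M']
  [Algebra k M'] {x : Fin (X.N + 1) → M} {a : BR X.F}

theorem exists_germ [Infinite k] {n : ℕ} (hX : X.Nice n) (hn : 1 ≤ n) (hx : X.On x) :
    ∃ (r : ℕ) (γ : X.F →+* Fr (MvPowerSeries (Fin r) M)), X.Germ γ x := by
  obtain ⟨m, rfl⟩ : ∃ m, n = m + 1 := ⟨n - 1, by omega⟩
  obtain ⟨d, hd, hd'⟩ : ∃ d : ℕ, 2 ≤ d ∧ (d : k) ≠ 0 := by
    by_cases h : ((2 : ℕ) : k) = 0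
    · exact ⟨2 + 1, by omega, by rw [Nat.cast_succ, h, zero_add]; exact one_ne_zero⟩
    · exact ⟨2, le_rfl, h⟩
  have hσ : Fintype.card (Fin m) + 1 = m + 1 := by simp
  obtain ⟨c, Φ, -, -, -, hU, -⟩ := n1p_thm k X _ hX (Fin m) hσ M {x} (by simpa using hx) 1
    ⟨0, isHomogeneous_one _ _⟩ (fun h => one_ne_zero ((map_one _).symm.trans h.2)) d hd hd'
  obtain ⟨hG, H⟩ := chfp_thm k X _ hX k (Fin m) c hσ
  obtain ⟨F', _, _, θ, hF⟩ := hG.exists_FF
  let _ : Algebra k F' :=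
    ((toE (MP (Option (Fin m)) k) F').comp (C.comp (algebraMap k k))).toAlgebra
  obtain ⟨γ, h⟩ := H F' θ hF fun _ => rfl
  obtain ⟨r, hr⟩ := c.dvd
  obtain ⟨h1, h2, u, hu, h3⟩ := Chart.Off.coord (hU x (Finset.mem_singleton_self x))
    ((Var.zer_IKL (algebraMap k M) (fun _ => rfl) x).2 hx.2)
    (hr.trans (pow_dvd_pow_of_dvd (dvd_mul_right _ _) r))
  have h4 : MvPowerSeries.constantCoeff.comp (tay (algebraMap k M) (c.xi (algebraMap k M) x)) =
      eval₂Hom (algebraMap k M) (c.xi (algebraMap k M) x) := RingHom.ext fun p => tay_cc _ _ p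
  obtain ⟨γ', η, -, -, -, h5⟩ := h.chart_germ hG (tay (algebraMap k M) (c.xi (algebraMap k M) x))
    (fun a => by simp [tay]) (tay_inj _ _) (by rwa [tay_cc]) (θ₀ := c.tht (algebraMap k M) x)
    (by rw [h4]; exact h1)
  simp only [tay_cc, eval₂_X] at h5
  have h6 := h5.smul (inv_ne_zero hu)
  rw [h3, inv_smul_smul₀ hu] at h6
  obtain ⟨r, e, -, h7⟩ := h6.fin
  exact ⟨r, _, h7⟩

variable (X) in
/-- germs exist at all points -/
def HasGerm : Prop := ∀ (M : Type) [Field M] [Algebra k M] (x : Fin (X.N + 1) → M), X.On x →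
  ∃ (r : ℕ) (γ : X.F →+* Fr (MvPowerSeries (Fin r) M)), X.Germ γ x

theorem x2_fld (M : Type) [Field M] : IsAdicComplete (IsLocalRing.maximalIdeal M) M := by
  rw [IsLocalRing.maximalIdeal_eq_bot]
  infer_instance

/-- the constant coefficient over `k` -/
noncomputable def x2_cc (k τ M : Type) [Field k] [Field M] [Algebra k M] :
    MvPowerSeries τ M →ₐ[k] M :=
  ⟨MvPowerSeries.constantCoeff, fun a =>
    (congrArg MvPowerSeries.constantCoeff (MvPowerSeries.algebraMap_apply (r := a))).trans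
      (MvPowerSeries.constantCoeff_C _)⟩

theorem x2_on {R : Type} [CommRing R] [Algebra k R] {y : Fin (X.N + 1) → R} (φ : R →ₐ[k] M)
    (h0 : ∃ i, IsUnit (y i)) (hy : ∀ G ∈ X.I, aeval y G = 0) : X.On (φ ∘ y) := by
  obtain ⟨i, hi⟩ := h0
  exact ⟨fun e => (hi.map φ).ne_zero (congrFun e i), fun G hG =>
    (comp_aeval_apply y φ G).symm.trans (by rw [hy G hG, map_zero])⟩

theorem x2_lift {R : Type} [CommRing R] [Algebra k R] {y : Fin (X.N + 1) → R} (π : R →ₐ[k] M)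
    (hπ : ∀ z, π z ≠ 0 → IsUnit z) (hy : ∀ G ∈ X.I, aeval y G = 0) {β : BR M}
    (h : X.Vw a (π ∘ y) β) : ∃ (V : UC R) (U : UC (X.LR (π ∘ y))) (ψ : X.LR (π ∘ y) →+* R),
      V.val (π : R →+* M) = β ∧ U.val (X.LR (π ∘ y)).subtype = a ∧
      ∀ (T : Type) [Field T] [Algebra k T] (φ : R →ₐ[k] T),
        V.val (φ : R →+* T) = U.val ((φ : R →+* T).comp ψ) ∧
          ∀ f : X.LR (π ∘ y), X.Reg (φ ∘ y) f (φ (ψ f)) := by
  obtain ⟨U, e, he, h1, h2⟩ := h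
  obtain ⟨ψ, hψ⟩ := exists_lr_hom π hπ hy
  obtain ⟨V, hV⟩ := U.bc_val ψ
  refine ⟨V, U, ψ, ?_, h1, fun T _ _ φ => ⟨hV T _, hψ T φ⟩⟩
  rw [hV, ← h2]
  exact congrArg U.val (RingHom.ext fun f => (he f _ (hψ M π f)).symm)

theorem vw_spec {τ : Type} [Finite τ] {γ : X.F →+* Fr (MvPowerSeries τ M)} (hg : X.GermT γ x)
    {β : BR M} (h : X.Vw a x β) : rs γ a = rs (cC τ M) β := by
  obtain ⟨y, h1, h2, h3⟩ := hg.dom
  obtain rfl : x2_cc k τ M ∘ y = x := _root_.funext h1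
  have := x2_fld M
  have := isAdicComplete_mv M τ
  obtain ⟨V, U, ψ, rfl, rfl, h4⟩ := x2_lift (x2_cc k τ M)
    (fun _ hz => MvPowerSeries.isUnit_iff_constantCoeff.2 hz.isUnit) h2 h
  obtain ⟨h5, h6⟩ := h4 _ (IsScalarTower.toAlgHom k _ (Fr (MvPowerSeries τ M)))
  refine (U.val_comp _ γ).symm.trans (Eq.trans ?_ (h5.symm.trans
    (V.rigid_sec (s := MvPowerSeries.C) MvPowerSeries.constantCoeff_C _)))
  exact congrArg U.val (RingHom.ext fun f => reg_unique (dom_on h3) (reg_dom h3 f) (h6 f))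

theorem vw_unique (hG : HasGerm X) (hx : X.On x) {β β' : BR M} (h : X.Vw a x β)
    (h' : X.Vw a x β') : β = β' := by
  obtain ⟨r, γ, hg⟩ := hG M x hx
  exact rs_mvf_injective (Fin r) ((vw_spec (γ := γ) hg h).symm.trans (vw_spec (γ := γ) hg h'))

theorem vw_vl (ha : a ∈ X.Bw) (hx : X.On x) : X.Vw a x (X.vl a M x) := by
  obtain ⟨U, hU⟩ := mem_loc.1 (mem_Bw.1 ha M x hx)
  obtain ⟨e, he⟩ := exists_ev hx
  exact Classical.epsilon_spec (p := X.Vw a x) ⟨_, U, e, he, hU, rfl⟩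

theorem vl_eq (hG : HasGerm X) (hx : X.On x) {β : BR M} (h : X.Vw a x β) : X.vl a M x = β := by
  exact vw_unique hG hx (Classical.epsilon_spec (p := X.Vw a x) ⟨β, h⟩) h

theorem vl_of (hG : HasGerm X) {O : Type} [CommRing O] (hx : X.On x) (U : UC O) (s : O →+* X.F)
    (φ : O →+* M) (h : ∀ o, X.Reg x (s o) (φ o)) : X.vl (U.val s) M x = U.val φ :=
  vl_eq hG hx (vw_of hx U s φ h)

theorem vl_pt (hG : HasGerm X) (ha : a ∈ X.Bw) (R : Type) [CommRing R] [IsLocalRing R]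
    [Algebra k R] (y : Fin (X.N + 1) → R) (h0 : ∃ i, IsUnit (y i))
    (hy : ∀ G ∈ X.I, aeval y G = 0) : ∃ U : UC R, ∀ (M : Type) [Field M] [Algebra k M]
      (φ : R →ₐ[k] M), X.vl a M (φ ∘ y) = U.val (φ : R →+* M) := by
  let π := IsScalarTower.toAlgHom k R (IsLocalRing.ResidueField R)
  obtain ⟨V, U, ψ, -, rfl, h⟩ := x2_lift π
    (fun z hz => (IsLocalRing.residue_ne_zero_iff_isUnit z).1 hz) hy (vw_vl ha (x2_on π h0 hy))
  exact ⟨V, fun T _ _ φ => (vl_of hG (x2_on φ h0 hy) U _ _ (h T φ).2).trans (h T φ).1.symm⟩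

theorem x2_add (hG : HasGerm X) (ha : a ∈ X.Bw) {b : BR X.F} (hb : b ∈ X.Bw) (hx : X.On x) :
    X.vl (a + b) M x = X.vl a M x + X.vl b M x := by
  obtain ⟨U, e, he, h1, h2⟩ := vw_vl ha hx
  obtain ⟨U', e', he', h3, h4⟩ := vw_vl hb hx
  obtain rfl := ev_unique he he'
  obtain ⟨V, hV⟩ := U.add_val U'
  exact vl_eq hG hx ⟨V, e, he, by rw [hV, h1, h3], by rw [hV, h2, h4]⟩

theorem x2_smul (hG : HasGerm X) (ha : a ∈ X.Bw) (hx : X.On x) {u : M} (hu : u ≠ 0) :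
    X.vl a M (u • x) = X.vl a M x := by
  obtain ⟨U, e, he, h1, h2⟩ := vw_vl ha hx
  rw [← h2, ← vl_of hG (on_smul hu hx) U (X.LR x).subtype e
    fun f => (reg_smul hu).2 (ev_reg he f), h1]

theorem x2_arc (hG : HasGerm X) (ha : a ∈ X.Bw) {R : Type} [CommRing R] [IsLocalRing R]
    [IsAdicComplete (IsLocalRing.maximalIdeal R) R] [Algebra k R] (π : R →ₐ[k] M) (s : M →+* R)
    (φ : R →ₐ[k] M') (y : Fin (X.N + 1) → R) (hs : ∀ z, π (s z) = z)
    (hπ : ∀ z, π z ≠ 0 → IsUnit z) (h0 : π ∘ y ≠ 0) (hy : ∀ G ∈ X.I, aeval y G = 0) :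
    X.vl a M' (φ ∘ y) = rs ((φ : R →+* M').comp s) (X.vl a M (π ∘ y)) := by
  obtain ⟨U, hU⟩ := vl_pt hG ha R y ((Function.ne_iff.1 h0).imp fun i hi => hπ _ hi) hy
  rw [hU, hU]
  exact U.rigid_sec hs _

theorem x2_unram (hG : HasGerm X) (ha : a ∈ X.Bw) (hx : X.On x) {v : Vl M}
    (hv : Triv (algebraMap k M) v) : Unram v (X.vl a M x) := by
  obtain ⟨i, -, hi⟩ := Finset.univ.exists_max_image (fun i => v (x i)) Finset.univ_nonempty
  have h0 : x i ≠ 0 := fun e => hx.1 (funext fun j => v.zero_iff.1 (le_zero_iff.1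
    ((hi j (Finset.mem_univ j)).trans_eq (by rw [e, map_zero]))))
  let _ : Algebra k v.integer := ((algebraMap k M).codRestrict v.integer fun c => by
    rcases eq_or_ne c 0 with rfl | hc
    · rw [map_zero]
      exact zero_mem _
    · exact (hv c hc).le).toAlgebra
  let φ : v.integer →ₐ[k] M := ⟨v.integer.subtype, fun _ => rfl⟩
  let y : Fin (X.N + 1) → v.integer := fun j => ⟨(x i)⁻¹ * x j, by
    rw [Valuation.mem_integer_iff, map_mul, map_inv₀,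
      inv_mul_le_one₀ (zero_lt_iff.2 (v.ne_zero_iff.2 h0))]
    exact hi j (Finset.mem_univ j)⟩
  obtain ⟨U, hU⟩ := vl_pt hG ha v.integer y
    ⟨i, by rw [show y i = 1 from Subtype.ext (inv_mul_cancel₀ h0)]; exact isUnit_one⟩
    fun G hG => Subtype.ext ((comp_aeval_apply y φ G).trans ((on_smul (inv_ne_zero h0) hx).2 G hG))
  rw [← x2_smul hG ha hx (inv_ne_zero h0), show (x i)⁻¹ • x = φ ∘ y from rfl, hU]
  exact U.unram _ fun o => o.2

theorem evApi_of (hG : HasGerm X) : EvApi X := by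
  refine ⟨hG, fun a ha M _ _ x hx β => ⟨vl_eq hG hx, fun e => e ▸ vw_vl ha hx⟩,
    fun a ha R _ _ _ y => vl_pt hG ha R y, fun b => mem_Bw.2 fun M _ _ x _ => ?_,
    fun a ha b hb M _ _ x => x2_add hG ha hb, fun a ha M _ _ x hx => ?_,
    fun a ha m M _ _ x hx => ?_, fun b M _ _ x hx => ?_,
    fun a ha M _ _ x u hx => x2_smul hG ha hx, fun a ha M M' _ _ _ _ φ x hx => ?_,
    fun a ha M _ _ γ x h => ?_, fun a ha R M T _ _ _ _ _ _ _ _ => x2_arc hG ha,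
    fun a ha M τ _ _ _ γ x hg => vw_spec hg (vw_vl ha hg.on), fun a ha M _ _ y h0 hy => ?_,
    fun a ha M τ _ _ _ y h0 hy => ?_, fun a ha M _ _ x v hx => x2_unram hG ha hx⟩
  · obtain ⟨U, hU⟩ := exists_uc b
    exact hU _ (algebraMap k X.F) ▸ val_mem_loc U _ fun o => mem_LR.2 ⟨_, reg_const o⟩
  · obtain ⟨U, e, he, h1, h2⟩ := vw_vl ha hx
    obtain ⟨V, hV⟩ := U.neg_val
    exact vl_eq hG hx ⟨V, e, he, by rw [hV, h1], by rw [hV, h2]⟩
  · induction m with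
    | zero =>
      obtain ⟨e, he⟩ := exists_ev hx
      obtain ⟨V, hV⟩ := UC.zero_val (X.LR x)
      exact vl_eq hG hx ⟨V, e, he, (hV _ _).trans (zero_nsmul a).symm,
        (hV _ _).trans (zero_nsmul (X.vl a M x)).symm⟩
    | succ m ih =>
      rw [succ_nsmul a, succ_nsmul (X.vl a M x), x2_add hG (nsmul_mem ha m) ha hx, ih]
  · obtain ⟨U, hU⟩ := exists_uc b
    rw [← hU, ← hU]
    exact vl_of hG hx U _ _ reg_const
  · obtain ⟨U, e, he, h1, h2⟩ := vw_vl ha hx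
    rw [← h2, ← U.val_comp, ← vl_of hG (on_map φ hx) U (X.LR x).subtype ((φ : M →+* M').comp e)
      fun f => reg_map φ (ev_reg he f), h1]
  · obtain ⟨U, e, he, h1, h2⟩ := vw_vl ha (dom_on h)
    rw [← h2, ← h1, ← U.val_comp]
    exact congrArg U.val (RingHom.ext fun f => he f _ (reg_dom h f))
  · have := x2_fld M
    have := isAdicComplete_ps M
    exact x2_arc hG ha (x2_cc k Unit M : PowerSeries M →ₐ[k] M) PowerSeries.C
      (IsScalarTower.toAlgHom k _ (Fr (PowerSeries M))) y PowerSeries.constantCoeff_C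
      (fun _ hz => PowerSeries.isUnit_iff_constantCoeff.2 hz.isUnit) h0 hy
  · have := x2_fld M
    have := isAdicComplete_mv M τ
    exact x2_arc hG ha (x2_cc k τ M) MvPowerSeries.C
      (IsScalarTower.toAlgHom k _ (Fr (MvPowerSeries τ M))) y MvPowerSeries.constantCoeff_C
      (fun _ hz => MvPowerSeries.isUnit_iff_constantCoeff.2 hz.isUnit) h0 hy

theorem ev_thm : EV := fun _ _ _ _ _ hX hn => evApi_of fun _ _ _ _ hx => exists_germ hX hn hx

end Pool.Agent.ZCy.F
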