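import Pool.Agent.Lib.MP_751085_ag.ZF.E.S4
import Pool.Agent.Lib.MP_751085_ag.ZF.E.S5

/-! A class of the Brauer group vanishes at almost all places. -/

namespace Pool.Agent.ZCy.F

open scoped Classical
open MvPolynomial IsLocalRing

attribute [local instance] Place.field Place.alg

variable {k : Type} [Field k] {X : Var k}

/-- finitely many of the forms cover the variety -/
theorem cover {ι : Type} (H : ι → MvPolynomial (Fin (X.N + 1)) k)
    (h : ∀ y : Fin (X.N + 1) → AlgebraicClosure k, X.On y → ∃ j, aeval y (H j) ≠ 0)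
    (i : Fin (X.N + 1)) : ∃ (m : ℕ) (t : Finset ι) (Q : ι → MvPolynomial (Fin (X.N + 1)) k),
      ∀ (M : Type) [Field M] [Algebra k M] (x : Fin (X.N + 1) → M), X.On x →
        x i ^ m = ∑ j ∈ t, aeval x (Q j) * aeval x (H j) := by
  have h1 : MvPolynomial.X i ∈ (Ideal.span X.I ⊔ Ideal.span (Set.range H)).radical := by
    rw [← vanishingIdeal_zeroLocus_eq_radical (K := AlgebraicClosure k)]
    intro y hy
    by_contra h0
    obtain ⟨j, hj⟩ := h y ⟨fun e => h0 (by simp [e]), fun G hG =>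
      hy G (Ideal.mem_sup_left (Ideal.subset_span hG))⟩
    exact hj (hy _ (Ideal.mem_sup_right (Ideal.subset_span ⟨j, rfl⟩)))
  obtain ⟨m, hm⟩ := h1
  obtain ⟨A, hA, B, hB, e⟩ := Submodule.mem_sup.1 hm
  obtain ⟨c, rfl⟩ := Finsupp.mem_ideal_span_range_iff_exists_finsupp.1 hB
  refine ⟨m, c.support, c, fun M _ _ x hx => ?_⟩
  have h2 : aeval x A = 0 := (Ideal.span_le (I := RingHom.ker (aeval x))).2 hx.2 hA
  have h3 := congrArg (aeval x) e
  rw [map_add, h2, zero_add, map_pow, aeval_X, Finsupp.sum, map_sum] at h3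
  simpa only [map_mul] using h3.symm

variable {L : Type} [Field L] [Algebra k L]

theorem aeval_mem (R : Subring L) {x : Fin (X.N + 1) → L} (hx : ∀ i, x i ∈ R)
    {P : MvPolynomial (Fin (X.N + 1)) k} (hP : ∀ c ∈ P.coeffs, algebraMap k L c ∈ R) :
    aeval x P ∈ R := by
  rw [aeval_def, eval₂_eq]
  exact sum_mem fun d hd => mul_mem (hP _ (coeff_mem_coeffs d (mem_support_iff.1 hd)))
    (prod_mem fun i _ => pow_mem (hx i) _)

/-- divide by a coordinate of largest valuation -/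
theorem s6_scale (R : ValuationSubring L) {n : ℕ} {x : Fin n → L} (hx : x ≠ 0) :
    ∃ u : L, u ≠ 0 ∧ (∀ i, (u • x) i ∈ R) ∧ ∃ i, (u • x) i = 1 := by
  obtain ⟨j, hj⟩ := Function.ne_iff.1 hx
  obtain ⟨i, -, hi⟩ := Finset.univ.exists_max_image (fun i => R.valuation (x i))
    ⟨j, Finset.mem_univ j⟩
  have h0 : R.valuation (x i) ≠ 0 :=
    ((zero_lt_iff.2 (R.valuation.ne_zero_iff.2 hj)).trans_le (hi j (Finset.mem_univ j))).ne'
  have h1 := R.valuation.ne_zero_iff.1 h0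
  refine ⟨(x i)⁻¹, inv_ne_zero h1, fun l => (R.valuation_le_one_iff _).1 ?_, i, inv_mul_cancel₀ h1⟩
  rw [Pi.smul_apply, smul_eq_mul, map_mul, map_inv₀, inv_mul_le_one₀ (zero_lt_iff.2 h0)]
  exact hi l (Finset.mem_univ l)

theorem vl_int (hE : EvApi X) (R : ValuationSubring L) [IsAdicComplete (maximalIdeal R) R]
    [Finite (ResidueField R)] {s : Finset X.F} (U : UC (Subring.closure (s : Set X.F)))
    (ha : U.val (Subring.subtype _) ∈ X.Bw) {x : Fin (X.N + 1) → L} (hx : X.On x) {d : ℕ}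
    {H : MvPolynomial (Fin (X.N + 1)) k} {G : X.F → MvPolynomial (Fin (X.N + 1)) k}
    (hH : H.IsHomogeneous d) (h0 : aeval x H ≠ 0) (h1 : (aeval x H)⁻¹ ∈ R)
    (hG : ∀ f ∈ s, (G f).IsHomogeneous d ∧ f * aeval X.g H = aeval X.g (G f) ∧
      aeval x (G f) ∈ R) : X.vl (U.val (Subring.subtype _)) L x = 0 := by
  have h2 : ∀ f ∈ s, X.Reg x f (aeval x (G f) * (aeval x H)⁻¹) := fun f hf =>
    ⟨d, G f, H, (hG f hf).1, hH, h0, (hG f hf).2.1, inv_mul_cancel_right₀ h0 _⟩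
  obtain ⟨φ, h3, h4⟩ := vl_chart hE U ha hx
    (Subring.closure_le.2 fun f hf => mem_LR.2 ⟨_, h2 f hf⟩)
  have h5 : ∀ f (hf : f ∈ Subring.closure (s : Set X.F)), φ ⟨f, hf⟩ ∈ R := fun f hf => by
    induction hf using Subring.closure_induction with
    | mem f hf =>
      rw [reg_unique hx (h3 ⟨f, Subring.subset_closure hf⟩) (h2 f hf)]
      exact mul_mem (hG f hf).2.2 h1
    | zero => exact (map_zero φ).symm ▸ zero_mem R
    | one => exact (map_one φ).symm ▸ one_mem R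
    | add f g hf hg h h' => exact (map_add φ ⟨f, hf⟩ ⟨g, hg⟩).symm ▸ add_mem h h'
    | neg f hf h => exact (map_neg φ ⟨f, hf⟩).symm ▸ neg_mem h
    | mul f g hf hg h h' => exact (map_mul φ ⟨f, hf⟩ ⟨g, hg⟩).symm ▸ mul_mem h h'
  obtain ⟨V, hV⟩ := U.bc_val (φ.codRestrict R fun f => h5 f.1 f.2)
  exact h4.trans ((hV L R.subtype).symm.trans (V.val_zero _))

theorem aaa_thm : AAA := by
  intro k _ F _ _ _ _ X hE a ha
  choose s U hU hs using fun y : {y : Fin (X.N + 1) → AlgebraicClosure k // X.On y} =>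
    exists_chart ha y.2
  choose d H G hH h0 hG using fun y => exists_den (s y) (hs y)
  choose m t Q hQ using cover (X := X) H fun y hy => ⟨⟨y, hy⟩, h0 ⟨y, hy⟩⟩
  have e : ∀ P : MvPolynomial (Fin (X.N + 1)) k,
      ∀ᶠ v : Place k in Filter.cofinite, ∀ c ∈ P.coeffs, c ∈ v.1 := fun P =>
    (Filter.eventually_all_finset _).2 fun c _ => ZFN.place_fs F c
  have h1 : ∀ᶠ v : Place k in Filter.cofinite, ∀ i, ∀ j ∈ t i, (∀ c ∈ (Q i j).coeffs, c ∈ v.1) ∧
      (∀ c ∈ (H j).coeffs, c ∈ v.1) ∧ ∀ f ∈ s j, ∀ c ∈ (G j f).coeffs, c ∈ v.1 :=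
    Filter.eventually_all.2 fun i => (Filter.eventually_all_finset _).2 fun j _ =>
      (e _).and ((e _).and ((Filter.eventually_all_finset _).2 fun f _ => e _))
  refine ⟨_, Filter.eventually_cofinite.1 h1, fun v hv L _ _ _ _ _ x hx => ?_⟩
  have h2 := not_not.1 hv
  have := ZFN.place_finite_res F v
  obtain ⟨R, h3, _, _⟩ := exists_int v L
  obtain ⟨u, hu, h4, i, h5⟩ := s6_scale R hx.1
  have h6 : ∀ P : MvPolynomial (Fin (X.N + 1)) k, (∀ c ∈ P.coeffs, c ∈ v.1) →
      aeval (u • x) P ∈ R := fun P hP => aeval_mem R.toSubring h4 fun c hc => h3 c (hP c hc)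
  obtain ⟨j, hj, h7⟩ : ∃ j ∈ t i, 1 ≤ R.valuation (aeval (u • x) (H j)) := by
    by_contra! hc
    have h8 := R.valuation.map_sum_lt (s := t i)
      (f := fun j => aeval (u • x) (Q i j) * aeval (u • x) (H j)) one_ne_zero fun j hj => by
        rw [map_mul]
        exact (mul_le_of_le_one_left' ((R.valuation_le_one_iff _).2 (h6 _ (h2 i j hj).1))).trans_lt
          (hc j hj)
    rw [← hQ i L _ (on_smul hu hx), h5, one_pow, map_one] at h8
    exact lt_irrefl _ h8
  refine (hE.val_smul a ha L x u hx hu).symm.trans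
    ((congrArg (fun b => X.vl b L (u • x)) (hU j)).symm.trans ?_)
  exact vl_int hE R (U j) (Set.mem_of_eq_of_mem (hU j) ha) (on_smul hu hx) (hH j)
    (R.valuation.ne_zero_iff.1 (zero_lt_one.trans_le h7).ne')
    ((R.valuation_le_one_iff _).1 (by rw [map_inv₀]; exact inv_le_one_of_one_le₀ h7))
    fun f hf => ⟨(hG j f hf).1, (hG j f hf).2, h6 _ ((h2 i j hj).2.2 f hf)⟩

end Pool.Agent.ZCy.F
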