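import Pool.Agent.Lib.MP_751085_ag.ZF.E.N1b

/-! Transitivity of corestriction; Tsen's theorem over a separable closure. -/

namespace Pool.Agent.ZCy.F

open scoped Classical IntermediateField
open groupCohomology Module

variable {K M M' : Type} [Field K] [Field M] [Field M'] [Algebra K M] [Algebra M M'] [Algebra K M']
  [IsScalarTower K M M'] [FiniteDimensional K M] [FiniteDimensional M M'] [FiniteDimensional K M']

omit [FiniteDimensional K M] [FiniteDimensional M M'] [FiniteDimensional K M'] in
/-- restriction of an embedding -/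
noncomputable def n2_res (j : Em K M') : Em K M := j.hom.comp (IsScalarTower.toAlgHom K M M')

variable (M) in
/-- the product over the fibres -/
noncomputable def n2_nm : Ind (SC K)ˣ (Em K M') →* Ind (SC K)ˣ (Em K M) :=
  MonoidHom.mk' (fun a j => ∏ j' with n2_res j' = j, a j') fun _ _ =>
    funext fun _ => Finset.prod_mul_distrib

omit [FiniteDimensional K M] [FiniteDimensional M M'] in
theorem n2_smul (g : Gm K) (a : Ind (SC K)ˣ (Em K M')) : n2_nm M (g • a) = g • n2_nm M a :=
  funext fun j => by
    refine Eq.trans ?_ (Finset.smul_prod' (r := g) (f := a)).symm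
    refine Finset.prod_equiv (MulAction.toPerm g⁻¹) (fun j' => ?_) fun _ _ => rfl
    rw [Finset.mem_filter, Finset.mem_filter]
    exact and_congr (by simp) (smul_left_cancel_iff g⁻¹).symm

/-- The product of a `Shap` over the fibres of the restriction is a `Shap`. -/
theorem cor_trans [Algebra.IsSeparable K M] [Algebra.IsSeparable M M'] [Algebra.IsSeparable K M']
    (β : BR M') : cor K M (cor M M' β) = cor K M' β := by
  obtain ⟨b, hb⟩ := exists_shap (K := K) β
  obtain ⟨J, r, -, hJ, hr, -⟩ := em_link (K := K) (M := M) (IsSepClosed.lift : M →ₐ[K] SC K)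
  generalize (show Em K M from (IsSepClosed.lift : M →ₐ[K] SC K)) = j at hJ
  have hk := a3_lk (φ := RingHom.id M) (J := (J : SC K →+* SC M)) hJ hr
  have hU : ∀ ψ : Em M M', ∃ u : Em K M', ∀ x, J (u.hom x) = ψ.hom x := fun ψ =>
    a3b_lift hk.base (ψ.hom : M' →+* SC M) fun a => by
      rw [IsScalarTower.algebraMap_apply K M M']
      exact ψ.hom.commutes _
  choose U hU using hU
  have hc : ∀ (g : Gm M) (x : SC K), (J : SC K →+* SC M) (r g • x) = g • (J : SC K →+* SC M) x := hr
  have hinv : ∀ g, r g⁻¹ = (r g)⁻¹ := fun g =>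
    eq_inv_of_mul_eq_one_left (by rw [← lk_mul hc, inv_mul_cancel, lk_one hc])
  have hUs : ∀ (g : Gm M) ψ, U (g • ψ) = r g • U ψ := fun g ψ =>
    AlgHom.ext fun x => J.injective (by
      show J ((U (g • ψ)).hom x) = J (r g ((U ψ).hom x))
      rw [hU, hr, hU]
      rfl)
  let b' : Gm M × Gm M → Ind (SC M)ˣ (Em M M') := fun p ψ =>
    a3_um (J : SC K →+* SC M) (b (r p.1, r p.2) (U ψ))
  have hb' : Shap b' β := by
    refine ⟨fun g g' k => funext fun ψ => ?_, ?_, fun ψ J' r' h1 h2 => ?_⟩
    · have := congrFun (hb.coc (r g) (r g') (r k)) (U ψ)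
      simp only [Ind.mul_apply, Ind.smul_apply] at this ⊢
      simp only [b', lk_mul hc, hUs, hinv]
      have h2 := congrArg (a3_um (J : SC K →+* SC M)) this
      rw [map_mul, map_mul] at h2
      exact h2.trans (congrArg (· * _) (Units.ext (hr g _)))
    · obtain ⟨s, hs⟩ := hk.locConst hb.lc
      exact ⟨s, fun g g' e => funext fun ψ => congrArg (fun a : Ind (SC K)ˣ (Em K M') =>
        a3_um (J : SC K →+* SC M) (a (U ψ))) (hs g g' e)⟩
    · exact hb.cmp (U ψ) (J'.comp J) (fun g => r (r' g)) (fun x => (congrArg J' (hU ψ x)).trans (h1 x))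
        fun g x => (congrArg J' (hr _ x)).trans (h2 g _)
  have h1 : Shap (fun p => n2_nm M (b p)) (cor M M' β) := by
    refine shap_of_cmp (fun g g' k => ?_) ((locConst_two.1 hb.lc).comp _)
      (J := (J : SC K →+* SC M)) hJ hr ?_
    · rw [← n2_smul, ← map_mul, ← map_mul, hb.coc]
    · rw [cor_apply, hb'.corF_eq]
      refine congrArg _ (funext fun p => Eq.trans ?_ (map_prod (a3_um (J : SC K →+* SC M)) _ _).symm)
      refine Finset.prod_bij (fun ψ _ => U ψ) (fun ψ _ => Finset.mem_filter.2 ⟨Finset.mem_univ _,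
        AlgHom.ext fun x => J.injective ((hU ψ _).trans ((ψ.hom.commutes x).trans (hJ x).symm))⟩)
        (fun ψ _ ψ' _ e => a3c_em_ext fun x => by rw [← hU, e, hU]) (fun u hu => ?_) fun _ _ => rfl
      have e := (Finset.mem_filter.1 hu).2
      refine ⟨({ (J : SC K →+* SC M).comp (u.hom : M' →+* SC K) with
        commutes' := fun x => ?_ } : M' →ₐ[M] SC M), Finset.mem_univ _,
        a3c_em_ext fun x => J.injective (hU _ x)⟩
      rw [← hJ, ← e]
      rfl
  rw [cor_apply, h1.corF_eq, cor_apply, hb.corF_eq]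
  exact congrArg _ (funext fun p => Finset.prod_fiberwise _ _ _)

theorem n2_deg (K M : Type) [Field K] [Field M] [Algebra K M] [FiniteDimensional K M] :
    finrank K (separableClosure K M) = Field.finSepDegree K M := (Field.finSepDegree_eq K M).symm

/-- The power `x ^ q`, `q = [M : sep(K, M)]`, maps `sep(M, M')` to `sep(K, M')`; `cor_one`. -/
theorem corN_trans (β : BR M') : corN K M (corN M M' β) = corN K M' β := by
  obtain ⟨p, _⟩ := ExpChar.exists K
  obtain ⟨n, hn⟩ := finInsepDegree_eq_pow K M p
  have : ExpChar M' p := expChar_of_injective_algebraMap (algebraMap K M').injective p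
  have : ExpChar (SC (separableClosure K M)) p :=
    expChar_of_injective_algebraMap (algebraMap K _).injective p
  have h0 : ∀ y, algebraMap (separableClosure K M) M' (frS K M y) =
      iterateFrobenius M' p n (algebraMap M M' y) := fun y => by
    rw [iterateFrobenius_def, ← hn, ← map_pow, ← frS_spec]
    rfl
  have h1 : ∀ x : separableClosure M M', iterateFrobenius M' p n x ∈ separableClosure K M' :=
    fun x => IsSeparable.of_algebra_isSeparable_of_isSeparable K (E := separableClosure K M)
      ((Polynomial.Separable.map (f := frS K M) x.2).of_dvd (minpoly.dvd _ _ (by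
        rw [Polynomial.aeval_def, Polynomial.eval₂_map, RingHom.ext (f := .comp _ _)
          (g := (iterateFrobenius M' p n).comp (algebraMap M M')) h0, ← Polynomial.hom_eval₂, ← Polynomial.aeval_def, minpoly.aeval,
          map_zero])))
  let θ := ((iterateFrobenius M' p n).comp (algebraMap (separableClosure M M') M')).codRestrict
    (separableClosure K M') h1
  let : Algebra (separableClosure K M) (separableClosure K M') :=
    ((algebraMap (separableClosure K M) M').codRestrict (separableClosure K M') fun x =>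
      (map_mem_separableClosure_iff (IsScalarTower.toAlgHom K M M')).2 x.2).toAlgebra
  have : IsScalarTower K (separableClosure K M) (separableClosure K M') :=
    IsScalarTower.of_algebraMap_eq fun a => Subtype.ext (IsScalarTower.algebraMap_apply K M M' a)
  have := Module.Finite.of_restrictScalars_finite K (separableClosure K M) (separableClosure K M')
  have := Algebra.isSeparable_tower_top_of_isSeparable K (separableClosure K M)
    (separableClosure K M')
  have hθ : ∀ a, θ (algebraMap M _ a) = algebraMap (separableClosure K M) _ (frS K M a) :=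
    fun a => Subtype.ext (h0 a).symm
  have h2 : finrank (separableClosure K M) (separableClosure K M') =
      finrank M (separableClosure M M') := by
    refine mul_left_cancel₀ (finrank_pos (R := K) (M := separableClosure K M)).ne' ?_
    rw [finrank_mul_finrank, n2_deg, n2_deg, n2_deg,
      Field.finSepDegree_mul_finSepDegree_of_isAlgebraic]
  have := a3c_finite (M := separableClosure M M') (frS K M)
  have h3 : Function.Bijective (a3cRes θ hθ) := (Nat.bijective_iff_injective_and_card _).2
    ⟨fun ψ ψ' e => a3c_em_ext fun y => iterateFrobenius_inj _ p n (by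
      have h4 : θ ⟨y, IsSeparable.tower_top M y.2⟩ = y ^ p ^ n := Subtype.ext rfl
      rw [iterateFrobenius_def, iterateFrobenius_def, ← map_pow, ← map_pow, ← h4]
      exact DFunLike.congr_fun (congrArg Subtype.val e) _), by rw [a3c_card_em, EmO.card, h2]⟩
  obtain ⟨m, h4, h5⟩ := cor_one (frS K M) θ hθ fun τ τ' => by
    obtain ⟨ψ, rfl⟩ := h3.2 τ
    obtain ⟨ψ', rfl⟩ := h3.2 τ'
    obtain ⟨g, rfl⟩ := em_trans ψ ψ'
    exact ⟨g, fun _ => rfl⟩
  obtain rfl : m = 1 := (mul_eq_right₀ finrank_pos.ne').1 (h4.symm.trans h2)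
  have h6 : θ.comp (frS M M') = frS K M' := RingHom.ext fun y => Subtype.ext (by
    rw [frS_spec, ← Field.finInsepDegree_mul_finInsepDegree_of_isAlgebraic K M M', mul_comm, pow_mul,
      ← frS_spec, hn]
    rfl)
  rw [corN_def, corN_def, corN_def, ← h6, ← res_res (Ω' := SC (separableClosure M M')),
    ← cor_trans (M := separableClosure K M) (M' := separableClosure K M'), h5]
  exact congrArg _ (one_nsmul _).symm

/-- the compositum with an algebraically closed field of constants -/
theorem n2_comp {K k F T : Type} [Field K] [Field k] [IsAlgClosed k] [Field F] [Field T]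
    [Algebra K F] [Algebra k T] (τ : F) [FiniteDimensional K⟮τ⟯ F] (φ : F →+* T)
    (h : ∀ x : K, ∃ y : k, φ (algebraMap K F x) = algebraMap k T y)
    (hg : ∀ R : Subfield T, (∀ y, φ y ∈ R) → (∀ z, algebraMap k T z ∈ R) → ∀ x, x ∈ R)
    (a : BR T) : a = 0 := by
  obtain ⟨ι, hι⟩ := a5b_hom φ τ h
  let b := finBasis K⟮τ⟯ F
  have hfd : FiniteDimensional k⟮φ τ⟯
      (IntermediateField.adjoin k⟮φ τ⟯ (Set.range fun i => φ (b i))) :=
    IntermediateField.finiteDimensional_adjoin (by
      rintro _ ⟨i, rfl⟩
      exact IsIntegral.map_of_comp_eq ι φ (RingHom.ext hι) (Algebra.IsIntegral.isIntegral _))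
  generalize hW : IntermediateField.adjoin k⟮φ τ⟯ (Set.range fun i => φ (b i)) = W at hfd
  obtain rfl : W = ⊤ := eq_top_iff.2 fun x _ => hg W.toSubfield (fun y => by
    rw [← b.sum_repr y, map_sum]
    refine sum_mem fun i _ => ?_
    rw [Algebra.smul_def, map_mul, ← hι]
    exact mul_mem (W.algebraMap_mem _) (hW ▸ IntermediateField.subset_adjoin _ _ ⟨i, rfl⟩))
    (fun z => W.algebraMap_mem (algebraMap k _ z)) x
  have : FiniteDimensional k⟮φ τ⟯ T := IntermediateField.topEquiv.toLinearEquiv.finiteDimensional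
  exact tsen (k := k) (φ τ) a

theorem n2_range {K K' T : Type} [Field K] [Field K'] [Field T] [Algebra K K'] [Normal K K']
    (ψ χ : K' →+* T) (h : ∀ x, χ (algebraMap K K' x) = ψ (algebraMap K K' x)) (x : K') :
    ∃ y, ψ y = χ x := by
  let : Algebra K' T := ψ.toAlgebra
  let : Algebra K T := (ψ.comp (algebraMap K K')).toAlgebra
  have : IsScalarTower K K' T := IsScalarTower.of_algebraMap_eq fun _ => rfl
  let χ' : K' →ₐ[K] T := { χ with commutes' := h }
  exact ⟨χ'.restrictNormal K' x, χ'.restrictNormal_commutes K' x⟩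

theorem n2_zero {F S T R : Type} [Field F] [Field S] [Field T] [Field R] {φ : F →+* T}
    {ρ : T →+* R} {σ : F →+* S} {η : S →+* R} (hρ : Function.Bijective ρ)
    (h : ρ.comp φ = η.comp σ) {a : BR F} (ha : rs σ a = 0) : rs φ a = 0 := by
  apply res_injective_of_bijective (Ω' := SC R) hρ
  rw [res_res, h, ← res_res (Ω' := SC S), map_zero]
  exact (congrArg _ ha).trans (map_zero _)

theorem n2_cop {F T : Type} [Field F] [Field T] {φ : F →+* T} {m n : ℕ} {a : BR F}
    (h : m.Coprime n) (h1 : m • a = 0) (h2 : n • rs φ a = 0) : rs φ a = 0 :=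
  (nsmul_eq_zero_iff_of_coprime (a := rs φ a) h).1
    ⟨(map_nsmul (rs φ) m a).symm.trans ((congrArg _ h1).trans (map_zero _)), h2⟩

/-- The compositum of `F` with the algebraic closure of `K` has no Brauer group and is purely
inseparable over the compositum with the separable closure. -/
theorem tsen_dies {K F : Type} [Field K] [Field F] [Algebra K F] (τ : F)
    [FiniteDimensional K⟮τ⟯ F] (a : BR F) {N : ℕ} (hN : (N : K) ≠ 0) (h : N • a = 0) :
    ∃ (K' : IntermediateField K (SC K)) (_ : FiniteDimensional K K')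
      (_ : IsGalois K K'), ∀ (T : Type) [Field T] (φ : F →+* T) (ψ : K' →+* T),
        (∀ x, ψ (algebraMap K K' x) = φ (algebraMap K F x)) → rs φ a = 0 := by
  obtain ⟨p, hp⟩ := ExpChar.exists K
  let J : AlgebraicClosure K →ₐ[K] AlgebraicClosure F := IsAlgClosed.lift
  let j : SC K →ₐ[K] AlgebraicClosure F := J.comp (SC.val K)
  let T₀ := IntermediateField.adjoin F (Set.range j)
  let T₁ := IntermediateField.adjoin T₀ (Set.range J)
  have : ExpChar T₀ p := expChar_of_injective_ringHom
    ((algebraMap F T₀).comp (algebraMap K F)).injective p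
  have : ExpChar (separableClosure K (AlgebraicClosure K)) p :=
    expChar_of_injective_algebraMap (algebraMap K _).injective p
  have : IsPurelyInseparable T₀ T₁ :=
    (IntermediateField.isPurelyInseparable_adjoin_iff_pow_mem _ _ p).2 (by
      rintro _ ⟨x, rfl⟩
      obtain ⟨n, z, hz⟩ := IsPurelyInseparable.pow_mem (separableClosure K (AlgebraicClosure K)) p x
      exact ⟨n, ⟨j z, IntermediateField.subset_adjoin _ _ ⟨z, rfl⟩⟩, by
        rw [← map_pow, ← hz]; rfl⟩)
  have : Algebra.IsSeparable F T₀ := (IntermediateField.isSeparable_adjoin_iff_isSeparable _ _).2 (by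
    rintro _ ⟨z, rfl⟩
    exact ((Algebra.IsSeparable.isSeparable K z).map j j.injective).tower_top F)
  have h0 : rs (algebraMap F T₀) a = 0 := by
    let : Algebra (AlgebraicClosure K) T₁ := ((J : AlgebraicClosure K →+* _).codRestrict T₁
      fun y => IntermediateField.subset_adjoin T₀ _ (Set.mem_range_self y)).toAlgebra
    obtain ⟨n, hn⟩ := rs_pi p (M := T₁) (a := rs (algebraMap F T₀) a) (n2_comp
      (k := AlgebraicClosure K) τ ((algebraMap T₀ T₁).comp (algebraMap F T₀))
      (fun x => ⟨algebraMap K _ x, Subtype.ext (J.commutes x).symm⟩) (fun R h1 h2 x => by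
        have h3 : ∀ z, J z ∈ R.map (algebraMap T₁ _) := fun z => ⟨_, h2 z, rfl⟩
        obtain ⟨w, hw, e⟩ := a5b_mem (K := T₀) (s := Set.range J) (RingHom.id _)
          (R.map (algebraMap T₁ _)) (fun y => a5b_mem (K := F) (s := Set.range j) (RingHom.id _)
            (R.map (algebraMap T₁ _)) (fun y => ⟨_, h1 y, rfl⟩)
            (by rintro _ ⟨z, rfl⟩; exact h3 _) y.2) (by rintro _ ⟨z, rfl⟩; exact h3 z) x.2
        exact (Subtype.ext e : w = x) ▸ hw) _)
    refine n2_cop (Nat.Coprime.pow_right n ?_) h hn
    cases hp with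
    | zero => exact Nat.coprime_one_right N
    | prime hq => exact ((Nat.Prime.coprime_iff_not_dvd hq).2 fun e =>
        hN ((CharP.cast_eq_zero_iff K p N).2 e)).symm
  obtain ⟨S, _, hS⟩ := exists_finite_of_rs h0
  obtain ⟨θ, hθ⟩ := Field.exists_primitive_element F S
  obtain ⟨t, ht, hθt⟩ := IntermediateField.exists_finset_of_mem_adjoin θ.1.2
  obtain ⟨K', _, _, hK'⟩ := exists_level (K := K) (t.preimage j j.injective.injOn)
  refine ⟨K', inferInstance, inferInstance, fun T _ φ ψ hφ => ?_⟩
  obtain ⟨Φ, -, hΦ, -⟩ := ZCy.exists_lk (Ω := AlgebraicClosure F) (Ω' := AlgebraicClosure T) φ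
  let R := (algebraMap T (AlgebraicClosure T)).fieldRange
  have h1 : ∀ y : F, Φ (algebraMap F _ y) ∈ R := fun y => ⟨φ y, (hΦ y).symm⟩
  have h2 : ∀ y ∈ (t : Set (AlgebraicClosure F)), Φ y ∈ R := by
    intro y hy
    obtain ⟨z, rfl⟩ := ht hy
    obtain ⟨w, hw⟩ := n2_range (K := K) ((algebraMap T (AlgebraicClosure T)).comp ψ)
      ((Φ.comp (j : SC K →+* _)).comp (algebraMap K' (SC K)))
      (fun x => by
        rw [RingHom.comp_apply, RingHom.comp_apply, RingHom.comp_apply, hφ, ← hΦ]
        exact congrArg Φ (j.commutes x)) ⟨z, hK' z (Finset.mem_preimage.2 hy)⟩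
    exact ⟨ψ w, hw⟩
  let η : S →+* AlgebraicClosure T :=
    (Φ.comp (algebraMap T₀ (AlgebraicClosure F))).comp (algebraMap S T₀)
  have h3 : ∀ y : S, η y ∈ R := fun y =>
    a5b_mem (K := F) (s := {θ}) η R h1
      (by
        rintro _ rfl
        exact a5b_mem Φ R h1 h2 hθt) (by rw [hθ]; trivial)
  have h4 : (algebraMap T (AlgebraicClosure T)).rangeRestrictField.comp φ =
      (η.codRestrict R h3).comp (algebraMap F S) :=
    RingHom.ext fun y => Subtype.ext (hΦ y).symm
  exact n2_zero (algebraMap T (AlgebraicClosure T)).rangeRestrictField_bijective h4 hS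

end Pool.Agent.ZCy.F
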