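import Pool.Agent.Lib.MP_751085_ag.ZF.E.U2
import Pool.Agent.Lib.MP_751085_ag.ZF.A2

/-! Constructions of unit cocycles. -/

namespace Pool.Agent.ZCy.F

open scoped Classical TensorProduct
open groupCohomology

variable {O O' M M' : Type} [CommRing O] [CommRing O'] [Field M] [Field M']

/-- The ring `O' ⊗[O] A`. With `t` of trace one the map `o' ⊗ a ↦ o' φ (tr (t a))` is a left
inverse `l` of `i'`, and `i' (l z) = ∑ g, g • ((1 ⊗ t) z)`, which is `z` for invariant `z`. -/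
theorem u3_core (U : UC O) (φ : O →+* O') (H : Type) [Group H] [MulSemiringAction H O']
    (hφ : ∀ (h : H) o, h • φ o = φ o) : ∃ (B : Type) (_ : CommRing B)
      (_ : MulSemiringAction (H × U.G) B) (i' : O' →+* B) (j : U.A →+* B),
      (∀ o, j (U.i o) = i' (φ o)) ∧ (∀ (p : H × U.G) y, j (p.2 • y) = p • j y) ∧
      (∀ (p : H × U.G) x, i' (p.1 • x) = p • i' x) ∧ Function.Injective i' ∧
      ∀ z, (∀ g : U.G, ((1 : H), g) • z = z) → z ∈ i'.range := by
  let := φ.toAlgebra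
  let := U.i.toAlgebra
  have : SMulCommClass H O O' := ⟨fun h o x => by
    rw [Algebra.smul_def, Algebra.smul_def, smul_mul']
    exact congrArg (· * _) (hφ h o)⟩
  have : SMulCommClass U.G O U.A := ⟨fun h o x => by
    rw [Algebra.smul_def, Algebra.smul_def, smul_mul']
    exact congrArg (· * _) (U.smul_i h o)⟩
  obtain ⟨t, ht⟩ := U.exists_one
  choose f hf using fun a => U.exists_tr (t * a)
  let tr : U.A →ₗ[O] O :=
    { toFun := f
      map_add' := fun a b => U.inj (by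
        simp only [map_add, hf, mul_add, smul_add, Finset.sum_add_distrib])
      map_smul' := fun o a => U.inj (by
        rw [RingHom.id_apply, smul_eq_mul, map_mul, hf, hf, Finset.mul_sum, mul_smul_comm]
        exact Finset.sum_congr rfl fun g _ => smul_comm g o _) }
  have h1 : tr 1 = 1 := U.inj ((hf 1).trans (by rw [mul_one, ht, map_one]))
  let T : H × U.G → O' ⊗[O] U.A →ₐ[O] O' ⊗[O] U.A := fun p => Algebra.TensorProduct.map
    (MulSemiringAction.toAlgHom O O' p.1) (MulSemiringAction.toAlgHom O U.A p.2)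
  have hT : ∀ p x y, T p (x ⊗ₜ y) = (p.1 • x) ⊗ₜ (p.2 • y) := fun _ _ _ => rfl
  let l : O' ⊗[O] U.A →ₗ[O] O' := (TensorProduct.rid O O').toLinearMap.comp (tr.lTensor O')
  have hl : ∀ x y, l (x ⊗ₜ y) = tr y • x := fun _ _ => rfl
  have key : ∀ z, l z ⊗ₜ[O] (1 : U.A) = ∑ g : U.G, T (1, g) ((1 : O') ⊗ₜ t * z) := fun z => by
    induction z with
    | zero => simp
    | tmul x y =>
      simp only [hl, Algebra.TensorProduct.tmul_mul_tmul, hT, one_mul, one_smul]
      rw [← TensorProduct.tmul_sum, ← hf, TensorProduct.smul_tmul, Algebra.smul_def, mul_one]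
      rfl
    | add x y hx hy =>
      simp only [map_add, TensorProduct.add_tmul, hx, hy, mul_add, Finset.sum_add_distrib]
  refine ⟨O' ⊗[O] U.A, inferInstance,
    { smul := fun p z => T p z
      one_smul := fun z => ?_
      mul_smul := fun p q z => ?_
      smul_zero := fun p => map_zero (T p)
      smul_add := fun p => map_add (T p)
      smul_one := fun p => map_one (T p)
      smul_mul := fun p => map_mul (T p) }, Algebra.TensorProduct.includeLeftRingHom,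
    (Algebra.TensorProduct.includeRight (R := O)).toRingHom,
    fun o => (Algebra.TensorProduct.tmul_one_eq_one_tmul o).symm, fun p y => ?_, fun p x => ?_,
    fun x y h => ?_, fun z hz => ⟨l z, (key z).trans ?_⟩⟩
  · change T (p * q) z = T p (T q z)
    induction z with
    | zero => simp only [map_zero]
    | tmul x y => rw [hT, hT, hT, Prod.fst_mul, Prod.snd_mul, mul_smul, mul_smul]
    | add x y hx hy => simp only [map_add, hx, hy]
  · change T 1 z = z
    induction z with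
    | zero => exact map_zero _
    | tmul x y => rw [hT, Prod.fst_one, Prod.snd_one, one_smul, one_smul]
    | add x y hx hy => rw [map_add, hx, hy]
  · change (1 : O') ⊗ₜ[O] (p.2 • y) = T p (1 ⊗ₜ y)
    rw [hT, smul_one]
  · change (p.1 • x) ⊗ₜ[O] (1 : U.A) = T p (x ⊗ₜ 1)
    rw [hT, smul_one]
  · have : l (x ⊗ₜ 1) = l (y ⊗ₜ 1) := congrArg l h
    rwa [hl, hl, h1, one_smul, one_smul] at this
  · have hz' : ∀ g : U.G, T (1, g) z = z := hz
    simp only [map_mul, hz', hT, one_smul]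
    rw [← Finset.sum_mul, ← TensorProduct.tmul_sum, ht, ← Algebra.TensorProduct.one_def, one_mul]

theorem UC.exists_bc (U : UC O) (φ : O →+* O') :
    ∃ (V : UC O') (j : U.A →+* V.A) (e : V.G ≃* U.G), U.Hom φ V j e ∧ V.c = pullR j e U.c := by
  let := MulSemiringAction.compHom O' (1 : Unit →* RingAut O')
  obtain ⟨B, _, _, i', j, h1, h2, h3, h4, h5⟩ := u3_core U φ Unit fun _ _ => rfl
  obtain ⟨m, x, y, h⟩ := U.crd
  refine ⟨⟨Unit × U.G, B, i', h4, fun z => ⟨?_, fun hz => h5 z fun g => hz _⟩,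
    ⟨m, fun k => j (x k), fun k => j (y k), fun g => ?_⟩, pullR j Prod.snd U.c,
    pullR_coc h2 (fun _ _ => rfl) U.coc⟩, j, MulEquiv.uniqueProd, ⟨h1, h2⟩, rfl⟩
  · rintro ⟨x, rfl⟩ g
    exact (h3 g x).symm
  · simp only [← h2, ← map_mul, ← map_sum, h]
    by_cases e : g.2 = 1 <;> simp [Prod.ext_iff, e]

/-- `A ⊗[O] A₂` with the group `G × G₂` -/
theorem UC.exists_add (U U₂ : UC O) : ∃ (V : UC O) (j : U.A →+* V.A) (e : V.G → U.G)
    (j₂ : U₂.A →+* V.A) (e₂ : V.G → U₂.G), U.Hom (RingHom.id O) V j e ∧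
      U₂.Hom (RingHom.id O) V j₂ e₂ ∧ V.c = pullR j e U.c * pullR j₂ e₂ U₂.c := by
  obtain ⟨B, _, _, i', j, h1, h2, h3, h4, h5⟩ := u3_core U₂ U.i U.G U.smul_i
  obtain ⟨m, x, y, h⟩ := U.crd
  obtain ⟨m', x', y', h'⟩ := U₂.crd
  refine ⟨⟨U.G × U₂.G, B, i'.comp U.i, h4.comp U.inj, fun z => ⟨?_, fun hz => ?_⟩,
    ⟨m * m', fun k => i' (x k.divNat) * j (x' k.modNat),
      fun k => i' (y k.divNat) * j (y' k.modNat), fun g => ?_⟩,
    pullR i' Prod.fst U.c * pullR j Prod.snd U₂.c,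
    coc_mul (pullR_coc h3 (fun _ _ => rfl) U.coc) (pullR_coc h2 (fun _ _ => rfl) U₂.coc)⟩,
    i', Prod.fst, j, Prod.snd, ⟨fun _ => rfl, h3⟩, ⟨h1, h2⟩, rfl⟩
  · rintro ⟨o, rfl⟩ g
    exact (h3 g _).symm.trans (congrArg i' (U.smul_i _ o))
  · obtain ⟨a, rfl⟩ := h5 z fun g => hz _
    obtain ⟨o, rfl⟩ := (U.inv a).2 fun g => h4 ((h3 (g, 1) a).trans (hz _))
    exact ⟨o, rfl⟩
  · have e : ∑ k : Fin (m * m'), i' (x k.divNat) * j (x' k.modNat) *
        g • (i' (y k.divNat) * j (y' k.modNat)) =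
        i' (∑ k, x k * g.1 • y k) * j (∑ k, x' k * g.2 • y' k) := by
      rw [map_sum, map_sum, Finset.sum_mul_sum, ← Fintype.sum_prod_type']
      refine Fintype.sum_equiv finProdFinEquiv.symm _ _ fun k => ?_
      rw [smul_mul', map_mul, map_mul, h2, h3, mul_mul_mul_comm]
      rfl
    rw [e, h, h']
    by_cases e1 : g.1 = 1 <;> by_cases e2 : g.2 = 1 <;> simp [Prod.ext_iff, e1, e2]

theorem UC.bc_val (U : UC O) (φ : O →+* O') : ∃ V : UC O',
    ∀ (M : Type) [Field M] (ψ : O' →+* M), V.val ψ = U.val (ψ.comp φ) := by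
  obtain ⟨V, j, e, h, hc⟩ := U.exists_bc φ
  exact ⟨V, fun M _ ψ => h.val hc ψ⟩

theorem UC.add_val (U U₂ : UC O) : ∃ V : UC O,
    ∀ (M : Type) [Field M] (ψ : O →+* M), V.val ψ = U.val ψ + U₂.val ψ := by
  obtain ⟨V, j, e, j₂, e₂, h, h₂, hc⟩ := U.exists_add U₂
  exact ⟨V, fun M _ ψ => h.val_add h₂ hc ψ⟩

theorem UC.neg_val (U : UC O) : ∃ V : UC O,
    ∀ (M : Type) [Field M] (ψ : O →+* M), V.val ψ = -U.val ψ := by
  let V : UC O := ⟨U.G, U.A, U.i, U.inj, U.inv, U.crd, U.c⁻¹, coc_inv U.coc⟩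
  refine ⟨V, fun M _ ψ => ?_⟩
  obtain ⟨ρ, r, h⟩ := U.exists_at_sc ψ
  refine (UC.At.val_eq (U := V) (ρ := ρ) (r := r) ⟨h.base, h.comm⟩).trans ?_
  change cl M _ (pullR ρ r U.c⁻¹) = _
  rw [h.val_eq, pullR_inv, ← one_div, cl_div (one_mem _) h.mem_Z2, cl_one]
  exact zero_sub (cl M _ (pullR ρ r U.c))

theorem UC.sub_val (U U₂ : UC O) : ∃ V : UC O,
    ∀ (M : Type) [Field M] (ψ : O →+* M), V.val ψ = U.val ψ - U₂.val ψ := by
  obtain ⟨W, hW⟩ := U₂.neg_val
  obtain ⟨V, hV⟩ := U.add_val W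
  exact ⟨V, fun M _ ψ => by rw [hV, hW]; exact (sub_eq_add_neg (U.val ψ) _).symm⟩

variable (O) in
theorem UC.zero_val : ∃ V : UC O, ∀ (M : Type) [Field M] (ψ : O →+* M), V.val ψ = 0 := by
  let := MulSemiringAction.compHom O (1 : Unit →* RingAut O)
  exact ⟨⟨Unit, O, RingHom.id O, Function.injective_id,
    fun y => ⟨fun _ _ => rfl, fun _ => ⟨y, rfl⟩⟩, ⟨1, 1, 1, fun g => by simp⟩, 1, coc_one⟩,
    fun M _ ψ => UC.val_dd dd_one.symm ψ⟩

theorem exists_uc (b : BR M) : ∃ U : UC M,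
    ∀ (M' : Type) [Field M'] (ψ : M →+* M'), U.val ψ = rs ψ b := by
  obtain ⟨L, _, _, x, -, hx, rfl⟩ := exists_cls b ∅
  have hi := IsGalois.mem_range_algebraMap_iff_fixed (F := M) (E := L)
  let U : UC M := ⟨L ≃ₐ[M] L, L, algebraMap M L, (algebraMap M L).injective, hi,
    crd_of_point _ hi (RingHom.id L) (fun o h => Ne.isUnit fun e => h (by rw [e, map_zero, map_zero]))
      fun g h => AlgEquiv.ext h, x, hx⟩
  have h : U.val (RingHom.id M) = cls M x :=
    UC.At.val_cls (U := U) (G' := L ≃ₐ[M] L) (ρ := RingHom.id L) (r := id)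
      ⟨fun _ => rfl, fun _ _ => rfl⟩
  exact ⟨U, fun M' _ ψ => (U.val_comp (RingHom.id M) ψ).trans (congrArg _ h)⟩

theorem exists_uc_const (b : BR M) (s : M →+* O) : ∃ U : UC O,
    ∀ (M' : Type) [Field M'] (ψ : O →+* M'), U.val ψ = rs (ψ.comp s) b := by
  obtain ⟨U, hU⟩ := exists_uc b
  obtain ⟨V, hV⟩ := U.bc_val s
  exact ⟨V, fun M' _ ψ => (hV M' ψ).trans (hU M' _)⟩

theorem mem_loc {R : Subring M} {a : BR M} : a ∈ Loc R ↔ ∃ U : UC R, U.val R.subtype = a := by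
  refine ⟨fun h => ?_, fun h => AddSubgroup.subset_closure h⟩
  induction h using AddSubgroup.closure_induction with
  | mem _ h => exact h
  | zero => exact (UC.zero_val R).imp fun V h => h M _
  | add _ _ _ _ hx hy =>
    obtain ⟨U, rfl⟩ := hx
    obtain ⟨U₂, rfl⟩ := hy
    exact (U.add_val U₂).imp fun V h => h M _
  | neg _ _ hx =>
    obtain ⟨U, rfl⟩ := hx
    exact U.neg_val.imp fun V h => h M _

theorem val_mem_loc (U : UC O) (φ : O →+* M) {R : Subring M} (h : ∀ o, φ o ∈ R) :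
    U.val φ ∈ Loc R :=
  mem_loc.2 ((U.bc_val (φ.codRestrict R h)).imp fun _ hV => hV M _)

theorem loc_map {R : Subring M} {R' : Subring M'} (γ : M →+* M') (h : ∀ x ∈ R, γ x ∈ R')
    {a : BR M} (ha : a ∈ Loc R) : rs γ a ∈ Loc R' := by
  obtain ⟨U, rfl⟩ := mem_loc.1 ha
  rw [← U.val_comp]
  exact val_mem_loc U _ fun o => h o o.2

theorem loc_mono {R R' : Subring M} (h : R ≤ R') : Loc R ≤ Loc R' := fun a ha => by
  obtain ⟨U, rfl⟩ := mem_loc.1 ha
  exact val_mem_loc U _ fun o => h o.2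

theorem mem_loc_top (a : BR M) : a ∈ Loc (⊤ : Subring M) := by
  obtain ⟨U, hU⟩ := exists_uc a
  have := val_mem_loc U (RingHom.id M) (R := ⊤) fun _ => trivial
  rwa [hU, res_id] at this

/-- A stable subring `S` of a Galois extension with trivial inertia at one point. `A = S` with
the restricted action, `crd_of_point`, `UC.At.val_cls`. -/
theorem exists_uc_gal {E Ω : Type} [Field E] [Algebra M E] [FiniteDimensional M E] [IsGalois M E]
    [Field Ω] (R : Subring M) (S : Subring E) (hS : ∀ g : E ≃ₐ[M] E, ∀ y ∈ S, g y ∈ S)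
    (hR : ∀ x, algebraMap M E x ∈ S ↔ x ∈ R) (ρ : S →+* Ω)
    (hρ : ∀ (x : R) (y : S), (y : E) = algebraMap M E x → ρ y ≠ 0 → IsUnit x)
    (hI : ∀ g : E ≃ₐ[M] E, (∀ y y' : S, (y' : E) = g y → ρ y' = ρ y) → g = 1)
    {c : (E ≃ₐ[M] E) × (E ≃ₐ[M] E) → Eˣ} (hc : IsMulCocycle₂ c)
    (hu : ∀ p, (c p : E) ∈ S ∧ ((c p)⁻¹ : Eˣ).1 ∈ S) :
    ∃ U : UC R, U.val R.subtype = cls M c ∧
      ∀ (K E' G' : Type) [Field K] [Field E'] [Algebra K E'] [Group G'] [Finite G']
        [MulSemiringAction G' E'] [IsGaloisGroup G' K E'] (φ : R →+* K) (ρ' : S →+* E')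
        (r : G' → E ≃ₐ[M] E) (c' : G' × G' → E'ˣ),
        (∀ (x : R) (y : S), (y : E) = algebraMap M E x → ρ' y = algebraMap K E' (φ x)) →
        (∀ g (y y' : S), (y' : E) = r g y → ρ' y' = g • ρ' y) →
        (∀ p (y : S), (y : E) = c (r p.1, r p.2) → (c' p : E') = ρ' y) → U.val φ = cls K c' := by
  have : IsInvariantSubring (E ≃ₐ[M] E) S := ⟨fun g y hy => hS g y hy⟩
  let i : R →+* S := ((algebraMap M E).comp R.subtype).codRestrict S fun x => (hR x).2 x.2
  have hi : ∀ y, y ∈ i.range ↔ ∀ g : E ≃ₐ[M] E, g • y = y := fun y => by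
    refine ⟨?_, fun h => ?_⟩
    · rintro ⟨x, rfl⟩ g
      exact Subtype.ext (g.commutes x)
    · obtain ⟨x, hx⟩ := (IsGalois.mem_range_algebraMap_iff_fixed (F := M) (y : E)).2
        fun g => congrArg Subtype.val (h g)
      exact ⟨⟨x, (hR x).1 (hx ▸ y.2)⟩, Subtype.ext hx⟩
  let U : UC R := ⟨E ≃ₐ[M] E, S, i,
    fun x y h => Subtype.ext ((algebraMap M E).injective (congrArg Subtype.val h)), hi,
    crd_of_point i hi ρ (fun o => hρ o _ rfl) fun g h => hI g fun y y' e =>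
      (congrArg ρ (Subtype.ext e)).trans (h y),
    fun p => ⟨⟨_, (hu p).1⟩, ⟨_, (hu p).2⟩, Subtype.ext (c p).mul_inv, Subtype.ext (c p).inv_mul⟩,
    fun g h j => Units.ext (Subtype.ext (congrArg Units.val (hc g h j)))⟩
  refine ⟨U, UC.At.val_cls (U := U) (ρ := S.subtype) (r := id) ⟨fun _ => rfl, fun _ _ => rfl⟩,
    fun K E' G' _ _ _ _ _ _ _ φ ρ' r c' h1 h2 h3 => ?_⟩
  refine (UC.At.val_cls (U := U) (ρ := ρ') (r := r)
    ⟨fun o => h1 o _ rfl, fun g y => h2 g y _ rfl⟩).trans (congrArg _ ?_)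
  exact funext fun p => Units.ext (h3 p _ rfl).symm

end Pool.Agent.ZCy.F
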