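import Pool.Agent.Lib.MP_751085_ag.ZF.E.Ch

/-! Exact sequences of systems. -/

namespace Pool.Agent.ZFd

open scoped Classical

variable {κ W W' : Type} [AddCommGroup W] [AddCommGroup W'] {q : ℕ}
  {S K : Set κ → AddSubgroup W} {S' : Set κ → AddSubgroup W'}

theorem ch2_map (f : W →+ W') (z : (Fin q → κ) → W) :
    cd (fun J => f (z J)) = fun J => f (cd z J) := funext fun J => (map_cd f z J).symm

theorem ch2_map0 (f : W →+ W') {z : (Fin q → κ) → W} (h : cd z = 0) :
    cd (fun J => f (z J)) = 0 := by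
  rw [ch2_map, h]
  exact funext fun _ => map_zero f

theorem ch2_lift (f : W →+ W') (e : ∀ s, S' s = (S s).map f) {z : (Fin q → κ) → W'}
    (hz : In S' z) : ∃ x, In S x ∧ z = fun J => f (x J) := by
  have : ∀ J, ∃ x ∈ S (Set.range J), f x = z J := fun J => by
    have := hz J
    rwa [e] at this
  choose x hx ex using this
  exact ⟨x, hx, funext fun J => (ex J).symm⟩

theorem ch2_push (f : W →+ W') (e : ∀ s, S' s = (S s).map f) {z : (Fin q → κ) → W}
    (hz : In S z) : In S' fun J => f (z J) := fun J => by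
  rw [e]
  exact ⟨_, hz J, rfl⟩

theorem ch2_const {z : (Fin 1 → κ) → W} (h : cd z = 0) (i j : κ) :
    (z fun _ => i) = z fun _ => j := by
  have := congrFun h ![j, i]
  rw [cd_one] at this
  exact sub_eq_zero.1 this

theorem Van.congr (h : Van S (q + 1)) (e : ∀ s, s.Nonempty → S s = K s) : Van K (q + 1) := by
  intro z hz h0
  obtain ⟨y, hy, ey⟩ := h z (fun J => by rw [e _ (Set.range_nonempty J)]; exact hz J) h0
  exact ⟨y, fun J => by rw [← e _ (Set.range_nonempty J)]; exact hy J, ey⟩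

/-- transport along a map that is injective and onto on the systems -/
theorem Van.map (h : Van S q) (f : W →+ W') (hf : Function.Injective f)
    (e : ∀ s, S' s = (S s).map f) : Van S' q := by
  intro z hz h0
  obtain ⟨x, hx, rfl⟩ := ch2_lift f e hz
  rw [ch2_map] at h0
  obtain ⟨y, hy, rfl⟩ := h x hx (funext fun J => hf ((congrFun h0 J).trans (map_zero f).symm))
  exact ⟨_, ch2_push f e hy, ch2_map f y⟩

theorem Van.of_map (h : Van S' q) (f : W →+ W') (hf : Function.Injective f)
    (e : ∀ s, S' s = (S s).map f) : Van S q := by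
  intro z hz h0
  obtain ⟨y, hy, ey⟩ := h _ (ch2_push f e hz) (ch2_map0 f h0)
  obtain ⟨x, hx, rfl⟩ := ch2_lift f e hy
  rw [ch2_map] at ey
  exact ⟨x, hx, funext fun J => hf (congrFun ey J)⟩

theorem Van.prod (h : Van S q) (h' : Van S' q) : Van (fun s => (S s).prod (S' s)) q := by
  intro z hz h0
  obtain ⟨y, hy, ey⟩ := h _ (fun J => (hz J).1) (ch2_map0 (AddMonoidHom.fst W W') h0)
  obtain ⟨y', hy', ey'⟩ := h' _ (fun J => (hz J).2) (ch2_map0 (AddMonoidHom.snd W W') h0)
  refine ⟨fun J => (y J, y' J), fun J => ⟨hy J, hy' J⟩, funext fun J => Prod.ext ?_ ?_⟩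
  · exact (map_cd (AddMonoidHom.fst W W') _ J).trans (congrFun ey J)
  · exact (map_cd (AddMonoidHom.snd W W') _ J).trans (congrFun ey' J)

theorem van_pi {τ : Type} (h : Van S q) :
    Van (fun s => AddSubgroup.pi (Set.univ : Set τ) fun _ => S s) q := by
  intro z hz h0
  choose y hy ey using fun a : τ => h (fun J => z J a) (fun J => hz J a (Set.mem_univ a))
    (ch2_map0 (Pi.evalAddMonoidHom (fun _ : τ => W) a) h0)
  refine ⟨fun J a => y a J, fun J a _ => hy a J, funext fun J => funext fun a => ?_⟩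
  exact (map_cd (Pi.evalAddMonoidHom (fun _ : τ => W) a) (fun J a => y a J) J).trans
    (congrFun (ey a) J)

section

variable (f : W →+ W') (hS : Monotone S) (e : ∀ s, S' s = (S s).map f)
  (eK : ∀ s, K s = S s ⊓ f.ker)

include hS e eK

theorem van_mid (hK : Van K q) (h' : Van S' q) : Van S q := by
  intro z hz h0
  obtain ⟨y, hy, ey⟩ := h' _ (ch2_push f e hz) (ch2_map0 f h0)
  obtain ⟨x, hx, rfl⟩ := ch2_lift f e hy
  rw [ch2_map] at ey
  obtain ⟨k, hk, ek⟩ := hK (z - cd x) (fun J => by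
    rw [eK]
    refine ⟨hz.sub (hx.cd hS) J, ?_⟩
    show f (z J - cd x J) = 0
    rw [map_sub, congrFun ey J, sub_self]) (by rw [cd_sub, h0, cd_cd, sub_self])
  refine ⟨x + k, hx.add fun J => ?_, by rw [cd_add, ek, add_sub_cancel]⟩
  have := hk J
  rw [eK] at this
  exact this.1

theorem van_quot (h : Van S q) (hK : Van K (q + 1)) : Van S' q := by
  intro z hz h0
  obtain ⟨x, hx, rfl⟩ := ch2_lift f e hz
  rw [ch2_map] at h0
  obtain ⟨k, hk, ek⟩ := hK (cd x) (fun J => by
    rw [eK]
    exact ⟨hx.cd hS J, congrFun h0 J⟩) (cd_cd x)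
  have hk' : ∀ J, k J ∈ S (Set.range J) ∧ f (k J) = 0 := fun J => by
    have := hk J
    rwa [eK] at this
  obtain ⟨y, hy, ey⟩ := h (x - k) (hx.sub fun J => (hk' J).1) (by rw [cd_sub, ek, sub_self])
  refine ⟨_, ch2_push f e hy, funext fun J => ?_⟩
  rw [← map_cd, ey, Pi.sub_apply, map_sub, (hk' J).2, sub_zero]

theorem van_ker (h' : Van S' q) (h : Van S (q + 1)) : Van K (q + 1) := by
  intro z hz h0
  have hz' : ∀ J, z J ∈ S (Set.range J) ∧ f (z J) = 0 := fun J => by
    have := hz J
    rwa [eK] at this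
  obtain ⟨y, hy, rfl⟩ := h z (fun J => (hz' J).1) h0
  obtain ⟨u, hu, eu⟩ := h' _ (ch2_push f e hy) (by
    rw [ch2_map]
    exact funext fun J => (hz' J).2)
  obtain ⟨x, hx, rfl⟩ := ch2_lift f e hu
  rw [ch2_map] at eu
  refine ⟨y - cd x, fun J => ?_, by rw [cd_sub, cd_cd, sub_zero]⟩
  rw [eK]
  refine ⟨hy.sub (hx.cd hS) J, ?_⟩
  show f (y J - cd x J) = 0
  rw [map_sub, congrFun eu J, sub_self]

end

theorem van_zero_iff [Nonempty κ] (h0 : S ∅ = ⊥) : Van S 0 ↔ ∀ w, (∀ i, w ∈ S {i}) → w = 0 := by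
  constructor
  · intro h w hw
    obtain ⟨y, hy, ey⟩ := h (fun _ => w) (fun J => by rw [Set.range_unique (ι := Fin 1)]; exact hw _)
      (funext fun J => by rw [cd_one, sub_self]; rfl)
    have h1 := congrFun ey fun _ => Classical.arbitrary κ
    have h2 := hy Fin.elim0
    rw [Set.range_eq_empty, h0, AddSubgroup.mem_bot] at h2
    rw [← h1, cd_nil, h2]
  · intro h z hz hc
    refine ⟨0, fun J => zero_mem _, ?_⟩
    rw [cd_zero]
    funext J
    have eJ : J = fun _ => J 0 := funext fun k => congrArg J (Subsingleton.elim (α := Fin 1) _ _)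
    refine (h (z J) fun i => ?_).symm
    have := hz fun _ => i
    rw [Set.range_const] at this
    rwa [eJ, ch2_const hc _ i]

theorem ch2_top (t : Finset κ) : ∀ S : Set κ → AddSubgroup W, Monotone S → ∀ q, t.card ≤ q →
    ∀ z : (Fin (q + 1) → κ) → W, (∀ J, Set.range J ⊆ t → z J ∈ S (Set.range J)) →
      (∀ J, Set.range J ⊆ t → cd z J = 0) →
      ∃ y, In S y ∧ ∀ J, Set.range J ⊆ t → cd y J = z J := by
  induction t using Finset.induction_on with
  | empty =>
    exact fun S _ q _ z _ _ => ⟨0, fun J => zero_mem _, fun J hJ => by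
      simpa using hJ (Set.mem_range_self 0)⟩
  | insert i t hi ih =>
    intro S hS q hq z hz h0
    rw [Finset.card_insert_of_notMem hi] at hq
    obtain ⟨q, rfl⟩ : ∃ q', q = q' + 1 := ⟨q - 1, by omega⟩
    rw [Finset.coe_insert] at hz h0 ⊢
    have sub : (t : Set κ) ⊆ insert i (t : Set κ) := Set.subset_insert _ _
    obtain ⟨y, hy, ey⟩ := ih S hS (q + 1) (by omega) z (fun J hJ => hz J (hJ.trans sub))
      fun J hJ => h0 J (hJ.trans sub)
    obtain ⟨w, hw⟩ : ∃ w : (Fin (q + 1) → κ) → W, w = fun J => (z - cd y) (Fin.cons i J) :=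
      ⟨_, rfl⟩
    have con : ∀ {n : ℕ} (J : Fin n → κ), Set.range J ⊆ insert i (t : Set κ) →
        Set.range (Fin.cons i J : Fin (n + 1) → κ) ⊆ insert i (t : Set κ) := fun J hJ => by
      rw [range_cons]
      exact Set.insert_subset (Set.mem_insert _ _) hJ
    have e1 : ∀ J, Set.range J ⊆ insert i (t : Set κ) → cd w J = z J - cd y J := fun J hJ => by
      have := cd_cons (z - cd y) i J
      rw [cd_sub, cd_cd, sub_zero, h0 _ (con J hJ), ← hw] at this
      exact (sub_eq_zero.1 this.symm).symm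
    have m1 : ∀ J, Set.range J ⊆ insert i (t : Set κ) → w J ∈ S (insert i (Set.range J)) :=
      fun J hJ => by
        rw [hw, ← range_cons]
        exact sub_mem (hz _ (con J hJ)) (hy.cd hS _)
    have hT : Monotone fun s => S (insert i s) := fun _ _ h => hS (Set.insert_subset_insert h)
    obtain ⟨v, hv, ev⟩ := ih _ hT q (by omega) w (fun J hJ => m1 J (hJ.trans sub))
      fun J hJ => by rw [e1 J (hJ.trans sub), ey J hJ, sub_self]
    refine ⟨y + fun J => if Set.range J ⊆ insert i (t : Set κ) then w J - cd v J else 0,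
      hy.add fun J => ?_, fun J hJ => ?_⟩
    · split_ifs with hJ
      · by_cases hm : i ∈ Set.range J
        · have := sub_mem (m1 J hJ) (hv.cd hT J)
          rwa [Set.insert_eq_of_mem hm] at this
        · rw [ev J ((Set.subset_insert_iff_of_notMem hm).1 hJ), sub_self]
          exact zero_mem _
      · exact zero_mem _
    · have e2 : cd (fun J => if Set.range J ⊆ insert i (t : Set κ) then w J - cd v J else 0) J =
          cd (w - cd v) J := Finset.sum_congr rfl fun k _ =>
        congrArg _ (if_pos ((range_removeNth k J).trans hJ))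
      rw [cd_add, Pi.add_apply, e2, cd_sub, cd_cd, sub_zero, e1 J hJ, add_sub_cancel]

/-- Vanishing above the number of indices. Induct on a finite set `t` of indices, for all systems
and all degrees `q ≥ card t`, with cochains restricted to tuples in `t`. Step `t = insert i t'`:
subtract `cd y` (`y` from `t'`, extended by `0`) so that `z` vanishes on tuples in `t'`; then
`z = cd w`, `w J = z (cons i J)` with values in `T s = S (insert i s)`; on tuples in `t'` `w` is a
cocycle of degree `q - 1`, so `w = cd v` there; `w - cd v` (`v` extended by `0`) has values in `S`. -/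
theorem van_top [Fintype κ] (hS : Monotone S) (hq : Fintype.card κ ≤ q) : Van S q := by
  intro z hz h0
  obtain ⟨y, hy, ey⟩ := ch2_top Finset.univ S hS q hq z (fun J _ => hz J) fun J _ => congrFun h0 J
  exact ⟨y, hy, funext fun J => ey J (by simp)⟩

/-- The end of the gluing argument. `cd θ = cd y`, `y` in `S`; `cd η - w θ + w y` is a cocycle in
`S'`, so `cd ρ`; `θ - y` is a cocycle in `T`, so `cd t`; `η - ρ - w t` is constant. -/
theorem glue_fin [Nonempty κ] (w : W →+ W') (T : AddSubgroup W) (hS : Monotone S)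
    (hS' : Monotone S') (hw : ∀ s, ∀ x ∈ S s, w x ∈ S' s) (hT : ∀ s, s.Nonempty → S s ≤ T)
    (h2 : Van S 2) (h1 : Van S' 1) (η : κ → W') (θ : (Fin 2 → κ) → W) (hθ : ∀ J, θ J ∈ T)
    (H1 : In S' fun J => η (J 1) - η (J 0) - w (θ J)) (H2 : In S (cd θ)) :
    ∃ x : W', ∀ i, ∃ t ∈ T, η i - w t - x ∈ S' {i} := by
  obtain ⟨y, hy, ey⟩ := h2 _ H2 (cd_cd θ)
  have e1 : (fun J : Fin 2 → κ => η (J 1) - η (J 0) - w (θ J)) =
      cd (fun J : Fin 1 → κ => η (J 0)) - fun J => w (θ J) := funext fun J => by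
    rw [Pi.sub_apply, cd_one]
  rw [e1] at H1
  obtain ⟨ρ, hρ, eρ⟩ := h1 _ (H1.add (z := fun J => w (y J)) fun J => hw _ _ (hy J)) (by
    rw [cd_add, cd_sub, cd_cd, ch2_map, ch2_map, ey, zero_sub, neg_add_cancel])
  obtain ⟨t, ht, et⟩ := van_const (κ := κ) T 1 (θ - y)
    (fun J => sub_mem (hθ J) (hT _ (Set.range_nonempty J) (hy J))) (by rw [cd_sub, ey, sub_self])
  have e2 : cd ((fun J : Fin 1 → κ => η (J 0)) - ρ - fun J => w (t J)) = 0 := by
    rw [cd_sub, cd_sub, eρ, ch2_map w t, et]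
    funext J
    simp only [Pi.sub_apply, Pi.add_apply, map_sub, Pi.zero_apply]
    abel
  obtain ⟨j⟩ := ‹Nonempty κ›
  refine ⟨η j - ρ (fun _ => j) - w (t fun _ => j), fun i => ⟨_, ht fun _ => i, ?_⟩⟩
  have e3 : η i - ρ (fun _ => i) - w (t fun _ => i) = η j - ρ (fun _ => j) - w (t fun _ => j) :=
    ch2_const e2 i j
  have e4 := hρ fun _ => i
  rw [Set.range_const] at e4
  rw [← e3, show η i - w (t fun _ => i) - (η i - ρ (fun _ => i) - w (t fun _ => i)) =
    ρ fun _ => i by abel]
  exact e4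

end Pool.Agent.ZFd
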