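import Pool.Agent.Lib.MP_751085_ag.ZF.E.Div
import Pool.Agent.Lib.MP_751085_ag.ZF.E.Ch2

/-! Classes on affine open sets. -/

namespace Pool.Agent.ZFd

open scoped Classical

variable {F : Type} [Field F] {A : Subring F} {κ : Type} [Fintype κ] {p m : ℕ} [Fact p.Prime]
  [CharP F p] {V : κ → Set (Subring F)}

/-- normal form on a cover -/
theorem sec_cover (hV : Fam p m V) (x : Qm p F) (φ : κ → Om F)
    (h : ∀ i, ∀ O ∈ V i, x - wp p (φ i) ∈ QS p O) :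
    ∃ φ' : κ → Om F, (∀ i, ∀ O ∈ V i, x - wp p (φ' i) ∈ QS p O) ∧
      ∀ i j O, O ∈ V i → O ∈ V j → φ' i - φ' j ∈ OmS O := by
  obtain ⟨t, h1, h2, -⟩ := div_corr hV (q := 0) (cd fun J : Fin 1 → κ => φ (J 0))
    (fun J => mem_Gm.2 fun O hO => by
      have := sub_mem (h _ O (hO _ ⟨0, rfl⟩)) (h _ O (hO _ ⟨1, rfl⟩))
      rwa [mem_ZS, cd_one, map_sub, ← sub_sub_sub_cancel_left _ _ x])
    (fun J => by rw [cd_cd]; exact zero_mem _)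
  refine ⟨fun i => φ i - t fun _ => i, fun i O hO => ?_, fun i j O hi hj => ?_⟩
  · have := add_mem (h i O hO) (mem_ZS.1 (mem_Gm.1 (h1 fun _ => i) O (by
      rintro _ ⟨_, rfl⟩; exact hO)))
    rwa [map_sub, ← sub_add]
  · have := mem_Gm.1 (h2 ![j, i]) O (by
      rintro _ ⟨k, rfl⟩
      fin_cases k
      exacts [hj, hi])
    rw [Pi.sub_apply, cd_one, cd_one] at this
    rwa [sub_sub_sub_comm]

theorem sec_aff (hA : Sm p m A) (x : Qm p F) (h : ∀ O, IsLoc A O → ∃ θ, x - wp p θ ∈ QS p O) :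
    ∃ θ, x - wp p θ ∈ QS p A := by
  obtain ⟨κ, _, _, s, hs, H⟩ := exists_cover (A := A)
    (P := fun s => ∃ θ, ∀ O, IsLoc A O → Un O s → x - wp p θ ∈ QS p O) fun O hO =>
      have ⟨θ, hθ⟩ := h O hO
      have ⟨s, h1, h2, h3⟩ := (qc_q A).spread hO hθ
      ⟨s, h1, h2, θ, h3⟩
  choose φ hφ using fun i => (hs i).2.2
  obtain ⟨φ', h1, h2⟩ := sec_cover (fam_po hA fun i => ⟨(hs i).1, (hs i).2.1⟩) x φ
    fun i O hO => hφ i O hO.1 hO.2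
  obtain ⟨θ, hθ⟩ := glue_aff0 (qc_om A) (fun i => (hs i).1) H φ'
    fun i j O hO hi hj => h2 i j O ⟨hO, hi⟩ ⟨hO, hj⟩
  refine ⟨θ, (qc_q A).glob.2 fun O hO => ?_⟩
  obtain ⟨i, hi⟩ := H O hO
  have := sub_mem (h1 i O ⟨hO, hi⟩) (wp_mem (p := p) (hθ i O hO hi))
  rwa [map_sub, sub_sub_sub_cancel_right] at this

theorem glue_data (hV : Fam p m V) (η : κ → Qm p F) (θ₀ : (Fin 2 → κ) → Om F)
    (h : In (Gm V (QS p)) fun J => η (J 1) - η (J 0) - wp p (θ₀ J)) :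
    ∃ θ : (Fin 2 → κ) → Om F, (In (Gm V (QS p)) fun J => η (J 1) - η (J 0) - wp p (θ J)) ∧
      In (Gm V OmS) (cd θ) ∧
      ∀ R y, Dv R y → (∀ j, R ∈ V j) → (∀ J, θ₀ J ∈ OmS R) → ∀ J, θ J ∈ OmS R := by
  have e : (fun J : Fin 2 → κ => η (J 1) - η (J 0) - wp p (θ₀ J)) =
      (cd fun J : Fin 1 → κ => η (J 0)) - fun J => wp p (θ₀ J) := funext fun J => by
    rw [Pi.sub_apply, cd_one]
  obtain ⟨t, h1, h2, h3⟩ := div_corr hV (q := 1) (cd θ₀)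
    (fun J => mem_Gm.2 fun O hO => by
      have := mem_Gm.1 (h.cd (Gm_mono _ _) J) O hO
      rwa [e, cd_sub, cd_cd, zero_sub, Pi.neg_apply, neg_mem_iff, ← map_cd] at this)
    (fun J => by rw [cd_cd]; exact zero_mem _)
  refine ⟨θ₀ - t, fun J => mem_Gm.2 fun O hO => ?_, by rwa [cd_sub], fun R y hR hj h0 J =>
    sub_mem (h0 J) (h3 R y hR hj (fun J => cd_mem fun k => h0 _) J)⟩
  have := add_mem (mem_Gm.1 (h J) O hO) (mem_ZS.1 (mem_Gm.1 (h1 J) O hO))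
  change η (J 1) - η (J 0) - wp p (θ₀ J - t J) ∈ QS p O
  rwa [map_sub, ← sub_add]

theorem glue_aff (hA : Sm p m A) [Nonempty κ] {h : κ → F} (hh : ∀ i, h i ∈ A ∧ h i ≠ 0)
    (H : ∀ O, IsLoc A O → ∃ i, Un O (h i)) (η : κ → Qm p F)
    (hη : ∀ i j O, IsLoc A O → Un O (h i) → Un O (h j) → ∃ θ, η i - η j - wp p θ ∈ QS p O) :
    ∃ x, ∀ i O, IsLoc A O → Un O (h i) → ∃ θ, η i - wp p θ - x ∈ QS p O := by
  have hV := fam_po hA hh
  have H0 : ∀ J : Fin 2 → κ, ∃ θ, η (J 1) - η (J 0) - wp p θ ∈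
      Gm (po A h) (QS p) (Set.range J) := fun J => by
    obtain ⟨A', h1, h2⟩ := hV (Set.range J) (Set.range_nonempty J)
    obtain ⟨θ, hθ⟩ := sec_aff h1 (η (J 1) - η (J 0)) fun O hO =>
      have := (h2 O).2 hO
      hη (J 1) (J 0) O (this (J 0) ⟨0, rfl⟩).1 (this (J 1) ⟨1, rfl⟩).2 (this (J 0) ⟨0, rfl⟩).2
    exact ⟨θ, mem_Gm.2 fun O hO => QS_mono ((h2 O).1 hO).le hθ⟩
  choose θ₀ hθ₀ using H0
  obtain ⟨θ, h1, h2, -⟩ := glue_data hV η θ₀ hθ₀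
  obtain ⟨x, hx⟩ := glue_fin (S := Gm (po A h) OmS) (S' := Gm (po A h) (QS p)) (wp p) ⊤
    (Gm_mono _ _) (Gm_mono _ _)
    (fun s ω hω => mem_Gm.2 fun O hO => wp_mem (mem_Gm.1 hω O hO)) (fun _ _ => le_top)
    (van_aff (qc_om A) (fun i => (hh i).1) H 1) (van_aff (qc_q A) (fun i => (hh i).1) H 0) η θ
    (fun _ => trivial) h1 h2
  refine ⟨x, fun i O hO hi => ?_⟩
  obtain ⟨t, -, ht⟩ := hx i
  exact ⟨t, mem_Gm.1 ht O (by rintro _ rfl; exact ⟨hO, hi⟩)⟩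

variable {B : Type} [AddCommGroup B] (X : BD p m F B)

theorem BD.dl_wp (θ : Om F) : X.dl (wp p θ) = 0 := (X.ker _).2 ⟨θ, rfl⟩

theorem BD.mono {O O' : Subring F} (hO : Reg p m O) (h : IsLoc O O') : X.loc O ≤ X.loc O' :=
  fun a ha =>
  have ⟨_, _, h2, h3⟩ := X.spr O O hO.1 hO.2 a ha
  h3 O' h (h2.mono h.le)

theorem aff_p (x : Qm p F) : p • X.dl x = 0 := by rw [← map_nsmul, p_smul_qm, map_zero]

theorem BD.local_rep {O : Subring F} (hO : Reg p m O) {x : Qm p F} (h : X.dl x ∈ X.loc O) :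
    ∃ θ, x - wp p θ ∈ QS p O := by
  obtain ⟨x', h1, h2⟩ := X.l1 O hO _ h (aff_p X x)
  obtain ⟨θ, hθ⟩ := (X.ker (x - x')).1 (by rw [map_sub, h2, sub_self])
  exact ⟨θ, by rwa [hθ, sub_sub_cancel]⟩

theorem BD.aff_rep (hA : Sm p m A) {a : B} (h : ∀ O, IsLoc A O → a ∈ X.loc O) (hp : p • a = 0) :
    ∃ x ∈ QS p A, X.dl x = a := by
  obtain ⟨x, -, rfl⟩ := X.l1 ⊤ hA.top a (X.top a) hp
  obtain ⟨θ, hθ⟩ := sec_aff hA x fun O hO => X.local_rep (hA.reg hO) (h O hO)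
  exact ⟨_, hθ, by rw [map_sub, X.dl_wp, sub_zero]⟩

theorem BD.aff_div (hA : Sm p m A) {a : B} (h : ∀ O, IsLoc A O → a ∈ X.loc O) :
    ∃ a', (∀ O, IsLoc A O → a' ∈ X.loc O) ∧ p • a' = a := by
  obtain ⟨a₀, -, h0⟩ := X.l2 ⊤ hA.top a (X.top a)
  obtain ⟨κ, _, _, s, hs, H⟩ := exists_cover (A := A)
    (P := fun s => ∃ a', p • a' = a ∧ ∀ O, IsLoc A O → Un O s → a' ∈ X.loc O) fun O hO =>
      have ⟨a', h1, h2⟩ := X.l2 O (hA.reg hO) a (h O hO)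
      have ⟨s, h3, h4, h5⟩ := X.spr A O hA hO a' h1
      ⟨s, h3, h4, a', h2, h5⟩
  choose c hc hc' using fun i => (hs i).2.2
  choose η _ hη using fun i => X.l1 ⊤ hA.top (c i - a₀) (X.top _) (by
    rw [smul_sub, hc, h0, sub_self])
  obtain ⟨x, hx⟩ := glue_aff hA (fun i => ⟨(hs i).1, (hs i).2.1⟩) H η fun i j O hO hi hj =>
    X.local_rep (hA.reg hO) (by
      rw [map_sub, hη, hη, sub_sub_sub_cancel_right]
      exact sub_mem (hc' i O hO hi) (hc' j O hO hj))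
  refine ⟨a₀ + X.dl x, fun O hO => ?_, by rw [smul_add, h0, aff_p, add_zero]⟩
  obtain ⟨i, hi⟩ := H O hO
  obtain ⟨θ, hθ⟩ := hx i O hO hi
  have := sub_mem (hc' i O hO hi) (X.l0 O (hA.reg hO) _ hθ)
  rwa [map_sub, map_sub, X.dl_wp, sub_zero, hη, sub_sub, sub_sub_cancel] at this

end Pool.Agent.ZFd
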