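import Pool.Agent.Lib.MP_751085_ag.ZF.E.Cov
import Pool.Agent.Lib.MP_751085_ag.ZF.E.Aff

/-! Lifting of classes from a divisor. -/

namespace Pool.Agent.ZFd

open scoped Classical

variable {F F' κ B B' : Type} [Field F] [Field F'] [AddCommGroup B] [AddCommGroup B']
  {R : Subring F} {p m : ℕ} [Fact p.Prime] [CharP F p] [CharP F' p] {ρ : Rd p R F'}

section forms

variable [Fintype κ] [Nonempty κ] {z e : κ → F} {A : κ → Subring F}

omit [Fintype κ] [Nonempty κ] in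
theorem abs_range (J : Fin 2 → κ) : Set.range J = {J 0, J 1} := by
  ext x
  simp [Fin.exists_fin_two, eq_comm]

omit [Fintype κ] [Nonempty κ] in
theorem abs_range1 (i : κ) : Set.range (fun _ : Fin 1 => i) = {i} := Set.range_const

/-- Gluing relative to the divisor. -/
theorem glue_rel (h : Cov p (m + 1) z A) (H : ∀ i, Pr m ρ (A i) (e i))
    (h2 : Van (fun s => OmS (rg A s) ⊓ ρ.o.ker) 2) (h1 : Van (fun s => QS p (rg A s) ⊓ ρ.q.ker) 1)
    (η : κ → Qm p F) (hR : ∀ i, η i ∈ QS p R ∧ ρ.q (η i) = 0)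
    (hη : ∀ i j, ∃ θ, η j - η i - wp p θ ∈ QS p (rg A {i, j})) :
    ∃ x ∈ QS p R, ρ.q x = 0 ∧ ∀ i, ∃ θ, η i - wp p θ - x ∈ QS p (A i) := by
  obtain ⟨i₀⟩ := ‹Nonempty κ›
  have le : ∀ s, rg A s ≤ R := rg_le fun j => (H j).loc
  obtain ⟨u, hu⟩ := ((H i₀).sm.reg (H i₀).loc).pb
  have s1 : ∀ J : Fin 2 → κ, ∃ θ ∈ OmS R,
      η (J 1) - η (J 0) - wp p θ ∈ Gm (fun i => lr (A i)) (QS p) (Set.range J) := fun J => by
    obtain ⟨θ, hθ⟩ := hη (J 0) (J 1)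
    obtain ⟨n, hn⟩ := (H i₀).dv.exists_res hu (θ := θ) (mem_ZS.2 (by
      simpa using sub_mem (sub_mem (hR (J 1)).1 (hR (J 0)).1) (QS_mono (le _) hθ)))
    refine ⟨_, hn, ?_⟩
    rwa [h.gm_q (Set.range_nonempty J), abs_range, map_sub, map_nsmul, wp_dlog, smul_zero, sub_zero]
  choose θ₀ a1 a2 using s1
  obtain ⟨θ, g1, g2, g3⟩ := glue_data h.fam η θ₀ a2
  replace g3 := g3 R _ (H i₀).dv (fun j => (H j).loc) a1
  replace g1 : ∀ J, η (J 1) - η (J 0) - wp p (θ J) ∈ QS p (rg A (Set.range J)) := fun J =>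
    h.gm_q (Set.range_nonempty J) ▸ g1 J
  replace g2 : ∀ J, cd θ J ∈ OmS (rg A (Set.range J)) := fun J =>
    h.gm_om (Set.range_nonempty J) ▸ g2 J
  have hY := h.im H i₀
  obtain ⟨t, t1, t2, -⟩ := div_corr hY.fam (q := 0) (fun J => ρ.o (θ J)) (fun J => by
    rw [hY.gm_z (Set.range_nonempty J), ← h.im_rg H (Set.range_nonempty J), mem_ZS,
      ρ.q_onto (le _)]
    exact ⟨_, neg_mem (g1 J), by simp [(hR _).2, ρ.q_wp (g3 J)]⟩) fun J => by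
    rw [hY.gm_om (Set.range_nonempty J), ← h.im_rg H (Set.range_nonempty J), ρ.o_onto (le _)]
    exact ⟨_, g2 J, map_cd _ _ _⟩
  choose τ τ1 τ2 using fun J => (ρ.o_onto le_rfl).1 ((H i₀).im_top ▸ OmS_top (t J))
  have s2 : ∀ J, ∃ y ∈ QS p (rg A (Set.range J)), ρ.q y = wp p (t J) := fun J => by
    have := t1 J
    rwa [hY.gm_z (Set.range_nonempty J), ← h.im_rg H (Set.range_nonempty J), mem_ZS,
      ρ.q_onto (le _)] at this
  choose y y1 y2 using s2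
  have s3 : ∀ J, ∃ σ ∈ OmS (rg A (Set.range J)), ρ.o σ = ρ.o (θ J) - cd t J := fun J => by
    have := t2 J
    rwa [hY.gm_om (Set.range_nonempty J), ← h.im_rg H (Set.range_nonempty J),
      ρ.o_onto (le _)] at this
  choose σ σ1 σ2 using s3
  have m1 : Monotone fun s => OmS (rg A s) := fun _ _ e => OmS_mono (rg_mono A e)
  have k1 : ∀ J, (θ - cd τ - σ) J ∈ OmS R := fun J =>
    sub_mem (sub_mem (g3 J) (cd_mem fun _ => τ1 _)) (OmS_mono (le _) (σ1 J))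
  have k2 : ∀ J, ρ.o ((θ - cd τ - σ) J) = 0 := fun J => by
    simp [map_cd, τ2, σ2]
  have k3 : ∀ i, ρ.q (η i - wp p (τ fun _ => i) + y fun _ => i) = 0 := fun i => by
    simp [(hR _).2, ρ.q_wp (τ1 _), τ2, y2]
  have k4 : ∀ i, (y fun _ => i) ∈ QS p (rg A {i}) := fun i => abs_range1 i ▸ y1 fun _ => i
  obtain ⟨x, hx⟩ := glue_fin (S := fun s => OmS (rg A s) ⊓ ρ.o.ker)
    (S' := fun s => QS p (rg A s) ⊓ ρ.q.ker) (wp p) (OmS R ⊓ ρ.o.ker)
    (fun _ _ e => inf_le_inf_right _ (m1 e))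
    (fun _ _ e => inf_le_inf_right _ (QS_mono (rg_mono A e)))
    (fun s x hx => ⟨wp_mem hx.1, show ρ.q (wp p x) = 0 by
      rw [ρ.q_wp (OmS_mono (le _) hx.1), show ρ.o x = 0 from hx.2, map_zero]⟩)
    (fun s _ => inf_le_inf_right _ (OmS_mono (le s))) h2 h1
    (fun i => η i - wp p (τ fun _ => i) + y fun _ => i) (θ - cd τ - σ) (fun J => ⟨k1 J, k2 J⟩)
    (fun J => ⟨by
      have e : ∀ k, (y fun _ => J k) ∈ QS p (rg A (Set.range J)) := fun k =>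
        QS_mono (rg_mono A (by simp)) (k4 (J k))
      have := add_mem (add_mem (g1 J) (sub_mem (e 1) (e 0))) (wp_mem (p := p) (σ1 J))
      refine (congrArg (· ∈ QS p (rg A (Set.range J))) ?_).mp this
      simp only [Pi.sub_apply, cd_one, map_sub]
      abel, AddMonoidHom.mem_ker.2 (by
      rw [map_sub, map_sub, k3, k3, ρ.q_wp (k1 J), k2]
      simp)⟩)
    fun J => ⟨by
      rw [cd_sub, cd_sub, cd_cd, sub_zero]
      exact AddSubgroup.sub_mem _ (g2 J) (In.cd m1 σ1 J), AddMonoidHom.mem_ker.2 (by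
      rw [map_cd]
      simp only [k2]
      exact congrFun cd_zero J)⟩
  obtain ⟨t₀, b1, b2⟩ := hx i₀
  refine ⟨x, ?_, ?_, fun i => ?_⟩
  · simpa using sub_mem (sub_mem (add_mem (sub_mem (hR i₀).1 (wp_mem (τ1 fun _ => i₀)))
      (QS_mono (le _) (k4 i₀))) (wp_mem b1.1)) (QS_mono (le _) b2.1)
  · have := AddMonoidHom.mem_ker.1 (AddSubgroup.mem_inf.1 b2).2
    rw [map_sub, map_sub, k3, ρ.q_wp b1.1, show ρ.o t₀ = 0 from b1.2] at this
    simpa using this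
  · obtain ⟨t₁, -, c2⟩ := hx i
    refine ⟨(τ fun _ => i) + t₁, ?_⟩
    have := sub_mem (AddSubgroup.mem_inf.1 c2).1 (k4 i)
    rw [rg_one] at this
    refine (congrArg (· ∈ QS p (A i)) ?_).mp this
    rw [map_add]
    abel

end forms

variable {X : BD p (m + 1) F B} {Y : BD p m F' B'} (S : SpD X Y ρ) {A : Subring F} {e : F}
  {a a' : B} {b : B'}

omit [Fact p.Prime] [CharP F p] [CharP F' p] in
theorem SpD.zero : S.sp 0 = 0 := by
  simpa using S.add 0 (zero_mem _) 0 (zero_mem _)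

omit [Fact p.Prime] [CharP F p] [CharP F' p] in
theorem SpD.sub (ha : a ∈ X.loc R) (ha' : a' ∈ X.loc R) : S.sp (a - a') = S.sp a - S.sp a' := by
  rw [eq_sub_iff_add_eq, ← S.add _ (sub_mem ha ha') _ ha', sub_add_cancel]

omit [Fact p.Prime] [CharP F p] [CharP F' p] in
theorem SpD.nsmul (ha : a ∈ X.loc R) (n : ℕ) : S.sp (n • a) = n • S.sp a := by
  induction n with
  | zero => simpa using S.zero
  | succ n ih => rw [succ_nsmul, succ_nsmul, S.add _ (nsmul_mem ha n) _ ha, ih]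

theorem SpD.aff (H : Pr m ρ A e) (ha : ∀ O, IsLoc A O → a ∈ X.loc O) :
    ∀ O', IsLoc (ρ.im A) O' → S.sp a ∈ Y.loc O' := by
  intro O' hO'
  obtain ⟨O, h1, h2, rfl⟩ := H.up hO'
  exact S.loc O (H.sm.reg h1) (H.down h1 h2).1 (H.smY.reg hO') a (ha O h1)

theorem SpD.lef_aff (H : Pr m ρ A e) (hb : ∀ O', IsLoc (ρ.im A) O' → b ∈ Y.loc O')
    (ha : ∀ O, IsLoc A O → a' ∈ X.loc O) (h : S.sp a' = p • b) :
    ∃ a, (∀ O, IsLoc A O → a ∈ X.loc O) ∧ p • a = a' ∧ S.sp a = b := by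
  obtain ⟨a₁, h1, h2⟩ := X.aff_div H.sm ha
  obtain ⟨x', h3, h4⟩ := Y.aff_rep H.smY (a := S.sp a₁ - b)
    (fun O hO => sub_mem (S.aff H h1 O hO) (hb O hO))
    (by rw [nsmul_sub, ← S.nsmul (h1 R H.loc), h2, h, sub_self])
  obtain ⟨x, h5, rfl⟩ := (ρ.q_onto H.loc.le).1 h3
  have h6 : ∀ O, IsLoc A O → X.dl x ∈ X.loc O := fun O hO =>
    X.l0 O (H.sm.reg hO) x (QS_mono hO.le h5)
  refine ⟨a₁ - X.dl x, fun O hO => sub_mem (h1 O hO) (h6 O hO), ?_, ?_⟩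
  · rw [nsmul_sub, h2, ← map_nsmul, p_smul_qm, map_zero, sub_zero]
  · rw [S.sub (h1 R H.loc) (h6 R H.loc), S.dl x (QS_mono H.loc.le h5), h4, sub_sub_cancel]

theorem SpD.eta (H : Pr m ρ A e) (ha : a ∈ X.loc R) (hp : p • a = 0) (h : S.sp a = 0) :
    ∃ η ∈ QS p R, ρ.q η = 0 ∧ X.dl η = a := by
  obtain ⟨x, h1, rfl⟩ := X.l1 R (H.sm.reg H.loc) a ha hp
  obtain ⟨θ', h2⟩ := (Y.ker _).1 ((S.dl x h1).symm.trans h)
  obtain ⟨θ, h3, rfl⟩ := (ρ.o_onto le_rfl).1 (H.im_top ▸ OmS_top θ')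
  exact ⟨x - wp p θ, sub_mem h1 (wp_mem h3), by rw [map_sub, ρ.q_wp h3, h2, sub_self],
    by rw [map_sub, X.dl_wp, sub_zero]⟩

variable [Fintype κ] [Nonempty κ] {z e : κ → F} {A : κ → Subring F}
  (h : Cov p (m + 1) z A) (H : ∀ i, Pr m ρ (A i) (e i))
  (h2 : Van (fun s => OmS (rg A s) ⊓ ρ.o.ker) 2) (h1 : Van (fun s => QS p (rg A s) ⊓ ρ.q.ker) 1)
include h H h2 h1

theorem SpD.lef_step (hb : ∀ i O', IsLoc (ρ.im (A i)) O' → b ∈ Y.loc O')
    (ha : ∀ i O, IsLoc (A i) O → a' ∈ X.loc O) (hs : S.sp a' = p • b) :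
    ∃ a, (∀ i O, IsLoc (A i) O → a ∈ X.loc O) ∧ p • a = a' ∧ S.sp a = b := by
  obtain ⟨i₀⟩ := ‹Nonempty κ›
  choose a a1 a2 a3 using fun i => S.lef_aff (H i) (hb i) (ha i) hs
  have aR : ∀ i, a i ∈ X.loc R := fun i => a1 i R (H i).loc
  choose η η1 η2 η3 using fun i => S.eta (H i) (sub_mem (aR i) (aR i₀))
    (by rw [nsmul_sub, a2, a2, sub_self]) (by rw [S.sub (aR i) (aR i₀), a3, a3, sub_self])
  obtain ⟨x, x1, x2, x3⟩ := glue_rel h H h2 h1 η (fun i => ⟨η1 i, η2 i⟩) fun i j => by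
    have ne : ({i, j} : Set κ).Nonempty := Set.insert_nonempty _ _
    obtain ⟨x, c1, c2⟩ := X.aff_rep (h.sm_rg ne) (a := a j - a i) (fun O hO => sub_mem
      (a1 j O ((h.isLoc_rg ne).1 hO j (by simp))) (a1 i O ((h.isLoc_rg ne).1 hO i (by simp))))
      (by rw [nsmul_sub, a2, a2, sub_self])
    obtain ⟨θ, hθ⟩ := (X.ker (η j - η i - x)).1 (by
      rw [map_sub, map_sub, η3, η3, c2]; abel)
    exact ⟨θ, by rwa [hθ, sub_sub_cancel]⟩
  refine ⟨a i₀ + X.dl x, fun i O hO => ?_, ?_, ?_⟩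
  · obtain ⟨θ, hθ⟩ := x3 i
    have := sub_mem (a1 i O hO) (X.l0 O ((H i).sm.reg hO) _ (QS_mono hO.le hθ))
    refine (congrArg (· ∈ X.loc O) ?_).mp this
    rw [map_sub, map_sub, η3, X.dl_wp]
    abel
  · rw [nsmul_add, a2, ← map_nsmul, p_smul_qm, map_zero, add_zero]
  · rw [S.add _ (aR i₀) _ (X.l0 R ((H i₀).sm.reg (H i₀).loc) x x1), a3, S.dl x x1, x2, map_zero,
      add_zero]

theorem SpD.lef_pow (r : ℕ) (hb : ∀ i O', IsLoc (ρ.im (A i)) O' → b ∈ Y.loc O')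
    (hr : p ^ r • b = 0) :
    ∃ a, (∀ i O, IsLoc (A i) O → a ∈ X.loc O) ∧ p ^ r • a = 0 ∧ S.sp a = b := by
  induction r generalizing b with
  | zero => exact ⟨0, fun _ _ _ => zero_mem _, smul_zero _, S.zero.trans (by simpa using hr.symm)⟩
  | succ r ih =>
    obtain ⟨a', c1, c2, c3⟩ := ih (b := p • b) (fun i O hO => nsmul_mem (hb i O hO) p)
      (by rwa [← mul_smul, ← pow_succ])
    obtain ⟨a, d1, d2, d3⟩ := S.lef_step h H h2 h1 hb c1 c3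
    exact ⟨a, d1, by rw [pow_succ, mul_smul, d2, c2], d3⟩

end Pool.Agent.ZFd
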