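import Pool.Agent.Lib.MP_751085_ag.ZF.EDefs
import Pool.Agent.Lib.MP_751085_ag.ZF.A5b

/-! Corestriction for all finite extensions. -/

namespace Pool.Agent.ZCy.F

open scoped Classical IntermediateField
open groupCohomology Module

variable {K K' M M' : Type} [Field K] [Field K'] [Field M] [Field M'] [Algebra K M]

theorem frS_spec [FiniteDimensional K M] (y : M) :
    (frS K M y : M) = y ^ Field.finInsepDegree K M := (exists_frS K M).choose_spec y

theorem corN_def [FiniteDimensional K M] (β : BR M) :
    corN K M β = cor K (separableClosure K M) (rs (frS K M) β) := by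
  rw [corN, dif_pos (inferInstance : FiniteDimensional K M)]
  rfl

/-- a link for `φ` composed with `iterateFrobenius` is a link for `ψ`;
`Lk.res_cl`, `cl_pow` -/
theorem rs_pow (p n : ℕ) [ExpChar K' p] {φ ψ : K →+* K'} (h : ∀ y, ψ y = φ y ^ p ^ n) (a : BR K) :
    rs ψ a = p ^ n • rs φ a := by
  obtain ⟨c, hc, rfl⟩ := exists_cl a
  obtain ⟨j, r, hj⟩ := exists_lk (Ω := SC K) (Ω' := SC K') φ
  have : ExpChar (SC K') p := expChar_of_injective_algebraMap (algebraMap K' _).injective p
  have h' : Lk ψ ((iterateFrobenius (SC K') p n).comp j) r :=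
    ⟨fun a => by rw [RingHom.comp_apply, hj.base, iterateFrobenius_def, h, map_pow],
      fun g x => by
        rw [RingHom.comp_apply, RingHom.comp_apply, hj.comm, iterateFrobenius_def,
          iterateFrobenius_def, map_pow]⟩
  refine (h'.res_cl hc).trans (Eq.trans ?_ (congrArg (p ^ n • ·) (hj.res_cl hc).symm))
  rw [← cl_pow (hj.mem_Z2 hc)]
  exact congrArg _ (funext fun q => Units.ext (by
    rw [Pi.pow_apply, Units.val_pow_eq_pow_val]
    rfl))

theorem n1_deg [FiniteDimensional K M] :
    finrank K (separableClosure K M) * Field.finInsepDegree K M = finrank K M :=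
  finrank_mul_finrank K (separableClosure K M) M

/-- `cor_rs` -/
theorem corN_sep [FiniteDimensional K M] [Algebra.IsSeparable K M] (β : BR M) :
    corN K M β = cor K M β := by
  have h1 : Field.finInsepDegree K M = 1 := Algebra.IsSeparable.finInsepDegree_eq K M
  let φ : M →ₐ[K] separableClosure K M :=
    { frS K M with
      commutes' := fun a => Subtype.ext ((frS_spec _).trans (by rw [h1, pow_one]; rfl)) }
  have h2 := n1_deg (K := K) (M := M)
  rw [h1, mul_one, ← one_mul (finrank K M)] at h2
  exact (corN_def β).trans ((cor_rs φ h2 β).trans (one_nsmul _))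

/-- Let `S`, `S'` be the separable parts, `q ∣ q'` the inseparable degrees. `φ` maps `S` to `S'`
by `ι`, and `frS K M' ∘ φ = (ι ∘ frS K M) ^ (q' / q)`; `rs_pow`, `cor_rs`, and
`n = [S' : S] * q' / q` (`Field.finSepDegree_mul_finInsepDegree`, tower laws). -/
theorem corN_rs [FiniteDimensional K M] [Algebra K M'] [FiniteDimensional K M'] (φ : M →ₐ[K] M')
    {n : ℕ} (h : finrank K M' = n * finrank K M) (β : BR M) :
    corN K M' (rs (φ : M →+* M') β) = n • corN K M β := by
  obtain ⟨p, _⟩ := ExpChar.exists K
  let : Algebra M M' := (φ : M →+* M').toAlgebra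
  have : IsScalarTower K M M' := IsScalarTower.of_algebraMap_eq fun a => (φ.commutes a).symm
  have : FiniteDimensional M M' := Module.Finite.right K M M'
  have : ExpChar M p := expChar_of_injective_algebraMap (algebraMap K M).injective p
  have : ExpChar (separableClosure K M') p :=
    expChar_of_injective_algebraMap (algebraMap K _).injective p
  obtain ⟨d, hd⟩ := finInsepDegree_eq_pow M M' p
  have h1 := Field.finInsepDegree_mul_finInsepDegree_of_isAlgebraic K M M'
  let ι : separableClosure K M →ₐ[K] separableClosure K M' :=
    (φ.comp (separableClosure K M).val).codRestrict (separableClosure K M').toSubalgebra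
      fun x => (map_mem_separableClosure_iff φ).2 x.2
  let : Algebra (separableClosure K M) (separableClosure K M') :=
    (ι : separableClosure K M →+* separableClosure K M').toAlgebra
  have : IsScalarTower K (separableClosure K M) (separableClosure K M') :=
    IsScalarTower.of_algebraMap_eq fun a => (ι.commutes a).symm
  have h2 := finrank_mul_finrank K (separableClosure K M) (separableClosure K M')
  have h3 : n = p ^ d * finrank (separableClosure K M) (separableClosure K M') := by
    refine Nat.eq_of_mul_eq_mul_right (finrank_pos (R := K) (M := M)) ?_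
    rw [← h, ← n1_deg (M := M'), ← n1_deg (M := M), ← h2, ← h1, hd]
    ring
  have h4 : rs ((frS K M').comp (φ : M →+* M')) β = p ^ d •
      rs ((ι : separableClosure K M →+* separableClosure K M').comp (frS K M)) β :=
    rs_pow p d (fun y => Subtype.ext (by
      change (frS K M' (φ y) : M') = φ (frS K M y) ^ p ^ d
      rw [frS_spec, frS_spec, ← map_pow, ← map_pow, ← pow_mul, ← h1, hd])) β
  rw [corN_def, corN_def, res_res, h3, mul_nsmul', ← cor_rs ι (h2.symm.trans (mul_comm _ _)),
    ← map_nsmul, res_res]
  exact congrArg _ h4

theorem corN_equiv [Algebra K M'] (φ : M ≃ₐ[K] M') (β : BR M) :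
    corN K M' (rs (φ : M →+* M') β) = corN K M β := by
  by_cases h : FiniteDimensional K M
  · have := φ.toLinearEquiv.finiteDimensional
    exact (corN_rs (φ : M →ₐ[K] M') (n := 1)
      (by rw [one_mul, φ.toLinearEquiv.finrank_eq]) β).trans (one_nsmul _)
  · have h' : ¬ FiniteDimensional K M' := fun _ => h φ.symm.toLinearEquiv.finiteDimensional
    rw [corN, dif_neg h', corN, dif_neg h]
    rfl

theorem corN_self (β : BR K) : corN K K β = β := by
  rw [corN_sep, cor_self]

theorem corN_res [FiniteDimensional K M] (β : BR K) :
    corN K M (rs (algebraMap K M) β) = finrank K M • β := by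
  exact (corN_rs (Algebra.ofId K M) (n := finrank K M) (by rw [finrank_self, mul_one]) β).trans
    (by rw [corN_self])

theorem rs_corN [FiniteDimensional K M] [IsPurelyInseparable K M] (β : BR M) :
    rs (algebraMap K M) (corN K M β) = finrank K M • β := by
  obtain ⟨p, _⟩ := ExpChar.exists K
  have : ExpChar M p := expChar_of_injective_algebraMap (algebraMap K M).injective p
  obtain ⟨d, hd⟩ := finInsepDegree_eq_pow K M p
  have h1 : Field.finInsepDegree K M = finrank K M := IsPurelyInseparable.finInsepDegree_eq K M
  have h2 : finrank K (separableClosure K M) = 1 := by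
    refine Nat.eq_of_mul_eq_mul_right (finrank_pos (R := K) (M := M)) ?_
    rw [one_mul, ← h1, n1_deg, h1]
  obtain ⟨α, hα⟩ := res_surjective_of_bijective (Ω := SC K) (Ω' := SC (separableClosure K M))
    (IsPurelyInseparable.bijective_algebraMap_of_isSeparable K (separableClosure K M))
    (rs (frS K M) β)
  have h3 : corN K M β = α := by
    rw [corN_def, ← hα, cor_res, h2]
    exact one_nsmul _
  have h4 := rs_pow p d (φ := RingHom.id M)
    (ψ := (algebraMap (separableClosure K M) M).comp (frS K M))
    (fun y => (frS_spec y).trans (by rw [hd]; rfl)) β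
  rw [res_id, ← hd, h1] at h4
  rw [h3, ← h4, IsScalarTower.algebraMap_eq K (separableClosure K M) M]
  exact (res_res _ _ α).symm.trans ((congrArg _ hα).trans (res_res _ _ β))

end Pool.Agent.ZCy.F
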