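import Pool.Agent.Lib.MP_751085_ag.ZF.E.U3
import Pool.Agent.Lib.MP_751085_ag.ZF.E.N1

/-! Comparison with the Brauer group of the statement. -/

namespace Pool.Agent.ZCy.F

open scoped Classical
open groupCohomology

variable {K Ω : Type} [Field K] [Field Ω] [Algebra K Ω]

theorem clS_eq {c : (Ω ≃ₐ[K] Ω) × (Ω ≃ₐ[K] Ω) → Ωˣ} (h : c ∈ Zs K Ω) :
    clS K Ω c = Additive.ofMul (QuotientGroup.mk ⟨c, h⟩) := dif_pos h

theorem clS_out (β : Brs K Ω) : clS K Ω (qOut (Zs K Ω) (Bs K Ω) β).1 = β := by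
  exact (clS_eq β.toMul.out.2).trans (congrArg Additive.ofMul (QuotientGroup.out_eq' β.toMul))

theorem clS_eq_iff {c c' : (Ω ≃ₐ[K] Ω) × (Ω ≃ₐ[K] Ω) → Ωˣ} (h : c ∈ Zs K Ω) (h' : c' ∈ Zs K Ω) :
    clS K Ω c = clS K Ω c' ↔ c / c' ∈ Bs K Ω := by
  rw [clS_eq h, clS_eq h']
  exact Additive.ofMul.injective.eq_iff.trans QuotientGroup.eq_iff_div_mem

variable (K Ω) in
theorem exists_jr [IsAlgClosed Ω] : ∃ (j : SC K →ₐ[K] Ω) (r : (Ω ≃ₐ[K] Ω) → Gm K),
    ∀ g x, j (r g x) = g (j x) := by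
  obtain ⟨j, r, h⟩ := exists_lk (Ω := SC K) (Ω' := Ω) (RingHom.id K)
  exact ⟨{ j with commutes' := h.base }, r, h.comm⟩

variable {j : SC K →ₐ[K] Ω} {r : (Ω ≃ₐ[K] Ω) → Gm K}

theorem b1_lk (h : ∀ g x, j (r g x) = g (j x)) : Lk (RingHom.id K) (j : SC K →+* Ω) r :=
  ⟨j.commutes, h⟩

theorem b1_mul (h : ∀ g x, j (r g x) = g (j x)) (g g' : Ω ≃ₐ[K] Ω) : r (g * g') = r g * r g' :=
  lk_mul (j := (j : SC K →+* Ω)) (r := r) h g g'

theorem b1_units (h : ∀ g x, j (r g x) = g (j x)) (g : Ω ≃ₐ[K] Ω) (u : (SC K)ˣ) :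
    Units.map ((j : SC K →+* Ω) : SC K →* Ω) (r g • u) =
      g • Units.map ((j : SC K →+* Ω) : SC K →* Ω) u := Units.ext (h g u)

theorem b1_sep (j : SC K →ₐ[K] Ω) (y : SC K) : j y ∈ separableClosure K Ω :=
  mem_separableClosure_iff.2 ((Algebra.IsSeparable.isSeparable K y).map j j.injective)

theorem pull_mem_Zs (h : ∀ g x, j (r g x) = g (j x)) {c : Gm K × Gm K → (SC K)ˣ}
    (hc : c ∈ Z2 K (SC K)) : pull (j : SC K →+* Ω) r c ∈ Zs K Ω := by
  exact ⟨(b1_lk h).mem_Z2 hc, fun p _ => b1_sep j _⟩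

theorem pull_mem_Bs (h : ∀ g x, j (r g x) = g (j x)) {c : Gm K × Gm K → (SC K)ˣ}
    (hc : c ∈ B2 K (SC K)) : pull (j : SC K →+* Ω) r c ∈ Bs K Ω := by
  obtain ⟨e, he, hc⟩ := hc
  obtain rfl : c = dd e := funext fun p => hc p.1 p.2
  obtain ⟨s, hs⟩ := (b1_lk h).locConst he
  exact ⟨fun g => Units.map ((j : SC K →+* Ω) : SC K →* Ω) (e (r g)),
    ⟨s, fun g g' u => congrArg (Units.map ((j : SC K →+* Ω) : SC K →* Ω)) (hs g g' u)⟩,
    fun g => b1_sep j _, fun g g' => congrFun (pull_dd (b1_lk h).comm e) (g, g')⟩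

/-- the map on cohomology given by one pair -/
noncomputable def b1_map (h : ∀ g x, j (r g x) = g (j x)) : BR K →+ Brs K Ω :=
  MonoidHom.toAdditive (QuotientGroup.map _ _
    (MonoidHom.mk' (fun c : Z2 K (SC K) =>
      (⟨pull (j : SC K →+* Ω) r c.1, pull_mem_Zs h c.2⟩ : Zs K Ω))
      fun a b => Subtype.ext (pull_mul a.1 b.1)) fun _ hc => pull_mem_Bs h hc)

theorem b1_map_cl (h : ∀ g x, j (r g x) = g (j x)) {c : Gm K × Gm K → (SC K)ˣ}
    (hc : c ∈ Z2 K (SC K)) : b1_map h (cl K _ c) = clS K Ω (pull (j : SC K →+* Ω) r c) := by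
  rw [cl_eq hc, clS_eq (pull_mem_Zs h hc)]
  rfl

theorem b1_indep (h : ∀ g x, j (r g x) = g (j x)) {j₂ : SC K →ₐ[K] Ω} {r₂ : (Ω ≃ₐ[K] Ω) → Gm K}
    (h₂ : ∀ g x, j₂ (r₂ g x) = g (j₂ x)) {c : Gm K × Gm K → (SC K)ˣ} (hc : c ∈ Z2 K (SC K)) :
    clS K Ω (pull (j₂ : SC K →+* Ω) r₂ c) = clS K Ω (pull (j : SC K →+* Ω) r c) := by
  obtain ⟨σ, hσ⟩ : ∃ σ : Gm K, ∀ x, j (σ x) = j₂ x := by
    let : Algebra (SC K) Ω := (j : SC K →+* Ω).toAlgebra
    have : IsScalarTower K (SC K) Ω :=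
      IsScalarTower.of_algebraMap_eq fun a => (j.commutes a).symm
    exact ⟨j₂.restrictNormal' (SC K), fun x => j₂.restrictNormal_commutes (SC K) x⟩
  have e : ∀ g, r₂ g = σ⁻¹ * r g * σ := fun g => by
    rw [mul_assoc, eq_inv_mul_iff_mul_eq]
    refine AlgEquiv.ext fun x => j.injective ?_
    change j (σ (r₂ g x)) = j (r g (σ x))
    rw [hσ, h₂, h, hσ]
  obtain ⟨h1, h2⟩ := mem_Z2.1 hc
  have h3 : IsLocallyConstant (conjE c σ) :=
    (h2.comp_continuous (f := fun g => (σ, σ⁻¹ * g * σ)) (by fun_prop)).div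
      (h2.comp_continuous (f := fun g => (g, σ)) (by fun_prop))
  obtain ⟨h4, h5⟩ := cl_mul_dd hc h3
  rw [← b1_map_cl h hc, ← h5, b1_map_cl h h4]
  congr 1
  funext p
  rw [pull, pull, Pi.mul_apply, ← (coc_iff.1 h1).conj trivial trivial trivial, e, e]
  exact Units.ext (hσ _).symm

/-- the defining property of `frW` -/
theorem frW_cl [IsAlgClosed Ω] (h : ∀ g x, j (r g x) = g (j x)) {c : Gm K × Gm K → (SC K)ˣ}
    (hc : c ∈ Z2 K (SC K)) : frW K Ω (cl K _ c) = clS K Ω (pull (j : SC K →+* Ω) r c) := by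
  obtain ⟨j₀, r₀, h₀⟩ := exists_jr K Ω
  have hex : ∃ f : BR K →+ Brs K Ω, ∀ (j : SC K →ₐ[K] Ω) (r : (Ω ≃ₐ[K] Ω) → Gm K),
      (∀ g x, j (r g x) = g (j x)) → ∀ c ∈ Z2 K (SC K),
        f (cl K _ c) = clS K Ω (pull (j : SC K →+* Ω) r c) :=
    ⟨b1_map h₀, fun j r h c hc => (b1_map_cl h₀ hc).trans (b1_indep h h₀ hc)⟩
  rw [frW, dif_pos hex]
  exact hex.choose_spec j r h c hc

variable [IsAlgClosure K Ω]

/-- a separable polynomial splits in the separable closure -/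
theorem mem_range_j (j : SC K →ₐ[K] Ω) (x : Ω) : (∃ y, j y = x) ↔ IsSeparable K x := by
  refine ⟨fun ⟨y, hy⟩ => hy ▸ mem_separableClosure_iff.1 (b1_sep j y), fun hx => ?_⟩
  refine (IsSepClosed.splits_codomain (f := algebraMap K (SC K)) _ hx).mem_range_of_isRoot
    (Polynomial.map_ne_zero (minpoly.ne_zero hx.isIntegral)) (i := (j : SC K →+* Ω)) ?_
  rw [Polynomial.map_map, j.comp_algebraMap, Polynomial.IsRoot.def,
    Polynomial.eval_map_algebraMap]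
  exact minpoly.aeval K x

theorem b1_det (j : SC K →ₐ[K] Ω) (z : Ω) :
    ∃ y, ∀ g g' : Ω ≃ₐ[K] Ω, g (j y) = g' (j y) → g z = g' z := by
  obtain ⟨p, _⟩ := ExpChar.exists K
  have : ExpChar Ω p := expChar_of_injective_algebraMap (algebraMap K Ω).injective p
  have : ExpChar (separableClosure K Ω) p :=
    expChar_of_injective_algebraMap (algebraMap K _).injective p
  obtain ⟨n, a, ha⟩ := IsPurelyInseparable.pow_mem (separableClosure K Ω) p z
  obtain ⟨y, hy⟩ := (mem_range_j j a).2 (mem_separableClosure_iff.1 a.2)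
  refine ⟨y, fun g g' e => iterateFrobenius_inj Ω p n ?_⟩
  rw [iterateFrobenius_def, iterateFrobenius_def, ← map_pow, ← map_pow, ← ha]
  rwa [hy] at e

/-- every `x : Ω` has a power `x ^ p ^ n` in the range of `j`; automorphisms extend to `Ω` -/
theorem bij_r (h : ∀ g x, j (r g x) = g (j x)) : Function.Bijective r := by
  refine ⟨fun g g' e => AlgEquiv.ext fun z => ?_, fun σ => ?_⟩
  · obtain ⟨y, hy⟩ := b1_det j z
    exact hy g g' (by rw [← h, ← h, e])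
  · let : Algebra (SC K) Ω := (j : SC K →+* Ω).toAlgebra
    have : IsScalarTower K (SC K) Ω :=
      IsScalarTower.of_algebraMap_eq fun a => (j.commutes a).symm
    exact ⟨σ.liftNormal Ω, AlgEquiv.ext fun x =>
      j.injective ((h _ x).trans (σ.liftNormal_commutes Ω x))⟩

/-- replace the finite set `s` by the preimages of the `x ^ p ^ n` -/
theorem locConst_of_r (h : ∀ g x, j (r g x) = g (j x)) {A : Type} {n : ℕ}
    {f : (Fin n → Gm K) → A} (hf : LocConst K Ω n fun g => f fun i => r (g i)) :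
    LocConst K (SC K) n f := by
  obtain ⟨s, hs⟩ := hf
  choose y hy using b1_det j
  choose r' hr' using (bij_r h).2
  refine ⟨s.image y, fun σ σ' e => ?_⟩
  have h1 := hs (fun i => r' (σ i)) (fun i => r' (σ' i)) fun i x hx => hy x _ _ (by
    rw [← h, ← h, hr', hr', e i _ (Finset.mem_image_of_mem y hx)])
  simpa only [hr'] using h1

theorem b1_lift (j : SC K →ₐ[K] Ω) {u : Ωˣ} (hu : u ∈ sepU K Ω) :
    ∃ v : (SC K)ˣ, Units.map ((j : SC K →+* Ω) : SC K →* Ω) v = u := by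
  obtain ⟨y, hy⟩ := (mem_range_j j u).2 (mem_separableClosure_iff.1 hu)
  exact ⟨Units.mk0 y fun e => u.ne_zero (by rw [← hy, e, map_zero]), Units.ext hy⟩

omit [IsAlgClosure K Ω] in
theorem b1_inj (j : SC K →ₐ[K] Ω) :
    Function.Injective (Units.map ((j : SC K →+* Ω) : SC K →* Ω)) :=
  Units.map_injective j.injective

theorem b1_B2 (h : ∀ g x, j (r g x) = g (j x)) {c : Gm K × Gm K → (SC K)ˣ}
    (hc : pull (j : SC K →+* Ω) r c ∈ Bs K Ω) : c ∈ B2 K (SC K) := by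
  obtain ⟨e, ⟨s, hs⟩, se, he⟩ := hc
  choose v hv using fun g => b1_lift j (se g)
  obtain ⟨r', hl, -⟩ := Function.bijective_iff_has_inverse.1 (bij_r h)
  refine ⟨fun σ => v (r' σ), locConst_of_r h ⟨s, fun g g' u => b1_inj j ?_⟩, fun σ τ => ?_⟩
  · rw [hv, hv, hl, hl]
    exact hs g g' u
  · obtain ⟨g, rfl⟩ := (bij_r h).2 σ
    obtain ⟨g', rfl⟩ := (bij_r h).2 τ
    refine b1_inj j ((he g g').trans ?_)
    rw [map_mul, map_div, b1_units h, ← b1_mul h, hv, hv, hv, hl, hl, hl]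

theorem exists_pull_Zs (h : ∀ g x, j (r g x) = g (j x)) {c : (Ω ≃ₐ[K] Ω) × (Ω ≃ₐ[K] Ω) → Ωˣ}
    (hc : c ∈ Zs K Ω) : ∃ c₀ ∈ Z2 K (SC K), pull (j : SC K →+* Ω) r c₀ = c := by
  choose v hv using fun p => b1_lift j (hc.2 p (Set.mem_univ p))
  obtain ⟨r', hl, -⟩ := Function.bijective_iff_has_inverse.1 (bij_r h)
  have e : pull (j : SC K →+* Ω) r (fun p => v (r' p.1, r' p.2)) = c := funext fun p => by
    rw [pull, hv, hl, hl]
  refine ⟨_, ⟨fun σ τ υ => ?_, locConst_of_r h ?_⟩, e⟩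
  · obtain ⟨g, rfl⟩ := (bij_r h).2 σ
    obtain ⟨g', rfl⟩ := (bij_r h).2 τ
    obtain ⟨g'', rfl⟩ := (bij_r h).2 υ
    refine b1_inj j ?_
    rw [map_mul, map_mul, b1_units h, ← b1_mul h,
      ← b1_mul h, hv, hv, hv, hv]
    simp only [hl _]
    exact hc.1.1 g g' g''
  · obtain ⟨s, hs⟩ := hc.1.2
    refine ⟨s, fun g g' u => b1_inj j ?_⟩
    rw [hv, hv]
    simp only [hl _]
    exact hs g g' u

variable (K Ω) in
theorem frW_bij : Function.Bijective (frW K Ω) := by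
  have := IsAlgClosure.isAlgClosed K (K := Ω)
  obtain ⟨j, r, h⟩ := exists_jr K Ω
  refine ⟨fun a a' e => ?_, fun β => ?_⟩
  · obtain ⟨c, hc, rfl⟩ := exists_cl a
    obtain ⟨c', hc', rfl⟩ := exists_cl a'
    rw [frW_cl h hc, frW_cl h hc', clS_eq_iff (pull_mem_Zs h hc) (pull_mem_Zs h hc')] at e
    refine (cl_eq_iff hc hc').2 (b1_B2 h ?_)
    have e' : pull (j : SC K →+* Ω) r (c / c') =
        pull (j : SC K →+* Ω) r c / pull (j : SC K →+* Ω) r c' := funext fun p => map_div _ _ _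
    rwa [e']
  · obtain ⟨c, hc, e⟩ := exists_pull_Zs h (qOut (Zs K Ω) (Bs K Ω) β).2
    exact ⟨cl K _ c, by rw [frW_cl h hc, e, clS_out]⟩

/-- the map `ι` factors through `j`; the map `r` in `Img` is unique -/
theorem img_iff {O : Type} [CommRing O] (U : UC O) (φ : O →+* K) (ι : U.A →+* Ω)
    (h : ∀ o, ι (U.i o) = algebraMap K Ω (φ o)) (β : Brs K Ω) :
    Img U.c ι β ↔ β = frW K Ω (U.val φ) := by
  have := IsAlgClosure.isAlgClosed K (K := Ω)
  obtain ⟨j, r, hj⟩ := exists_jr K Ω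
  choose f hf using fun y => (mem_range_j j (ι y)).2 (U.sep φ ι h y)
  have hi : Function.Injective j := j.injective
  let ρ : U.A →+* SC K :=
    { toFun := f
      map_one' := hi (by rw [hf, map_one, map_one])
      map_mul' := fun a b => hi (by rw [hf, map_mul, map_mul, hf, hf])
      map_zero' := hi (by rw [hf, map_zero, map_zero])
      map_add' := fun a b => hi (by rw [hf, map_add, map_add, hf, hf]) }
  have hρ : ∀ y, j (ρ y) = ι y := hf
  obtain ⟨r₁, h₁⟩ := UC.exists_at (ρ := ρ) (φ := φ) (Gm K) fun o =>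
    hi (by rw [hρ, h, j.commutes])
  have h₂ : ∀ σ y, ι (r₁ (r σ) • y) = σ (ι y) := fun σ y => by
    rw [← hρ, h₁.comm, ← hρ, ← hj]
    rfl
  have e : frW K Ω (U.val φ) =
      clS K Ω fun p => Units.map ι (U.c (r₁ (r p.1), r₁ (r p.2))) := by
    rw [h₁.val_eq, frW_cl hj h₁.mem_Z2]
    congr 1
    funext p
    exact Units.ext (hρ _)
  rw [e]
  refine ⟨?_, fun hβ => ⟨fun σ => r₁ (r σ), h₂, hβ⟩⟩
  rintro ⟨r₃, h₃, hβ⟩
  obtain rfl : r₃ = fun σ => r₁ (r σ) := funext fun σ =>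
    mul_inv_eq_one.1 (U.eq_one ι fun y => by rw [mul_smul, h₃, ← h₂, smul_inv_smul])
  exact hβ

end Pool.Agent.ZCy.F
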