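import Pool.Agent.Lib.MP_751085_ag.ZF.D.Defs

/-! Cochains with values in a system of subgroups. -/

namespace Pool.Agent.ZFd

open scoped Classical

variable {κ W W' : Type} [AddCommGroup W] [AddCommGroup W'] {q : ℕ}
  {S K : Set κ → AddSubgroup W} {S' : Set κ → AddSubgroup W'}

theorem cd_add (y z : (Fin q → κ) → W) : cd (y + z) = cd y + cd z := by
  funext J
  simp only [cd, Pi.add_apply, smul_add, Finset.sum_add_distrib]

theorem cd_sub (y z : (Fin q → κ) → W) : cd (y - z) = cd y - cd z := by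
  funext J
  simp only [cd, Pi.sub_apply, smul_sub, Finset.sum_sub_distrib]

theorem cd_zero : cd (0 : (Fin q → κ) → W) = 0 := by
  funext J
  simp only [cd, Pi.zero_apply, smul_zero, Finset.sum_const_zero]

theorem cd_sum {τ : Type} (s : Finset τ) (z : τ → (Fin q → κ) → W) :
    cd (∑ t ∈ s, z t) = ∑ t ∈ s, cd (z t) := by
  funext J
  simp only [cd, Finset.sum_apply, Finset.smul_sum]
  exact Finset.sum_comm

theorem map_cd (f : W →+ W') (z : (Fin q → κ) → W) (J : Fin (q + 1) → κ) :
    f (cd z J) = cd (fun J => f (z J)) J := by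
  simp only [cd, map_sum, map_zsmul]

theorem ch_rem (i : κ) (J : Fin (q + 1) → κ) (k : Fin (q + 1)) :
    Fin.removeNth k.succ (Fin.cons i J : Fin (q + 2) → κ) =
      (Fin.cons i (Fin.removeNth k J) : Fin (q + 1) → κ) := by
  funext j
  refine Fin.cases ?_ (fun j => ?_) j
  · simp only [Fin.removeNth, Fin.succ_succAbove_zero, Fin.cons_zero]
  · simp only [Fin.removeNth, Fin.succ_succAbove_succ, Fin.cons_succ]

theorem cd_cons (z : (Fin (q + 1) → κ) → W) (i : κ) (J : Fin (q + 1) → κ) :
    cd z (Fin.cons i J) = z J - cd (fun J' => z (Fin.cons i J')) J := by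
  have e : Fin.removeNth 0 (Fin.cons i J : Fin (q + 2) → κ) = J := by
    funext j
    simp only [Fin.removeNth, Fin.zero_succAbove, Fin.cons_succ]
  rw [cd, Fin.sum_univ_succ, e, cd, sub_eq_add_neg, ← Finset.sum_neg_distrib]
  simp only [ch_rem, Fin.val_zero, pow_zero, one_smul, Fin.val_succ, pow_succ, mul_neg, mul_one,
    neg_smul]

theorem cd_one (z : (Fin 1 → κ) → W) (J : Fin 2 → κ) :
    cd z J = z (fun _ => J 1) - z fun _ => J 0 := by
  have e0 : Fin.removeNth 0 J = fun _ => J 1 := funext fun j => by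
    rw [Subsingleton.elim j 0]
    rfl
  have e1 : Fin.removeNth 1 J = fun _ => J 0 := funext fun j => by
    rw [Subsingleton.elim j 0]
    rfl
  rw [cd, Fin.sum_univ_two, e0, e1]
  simp [sub_eq_add_neg]

theorem cd_nil (z : (Fin 0 → κ) → W) (J : Fin 1 → κ) : cd z J = z Fin.elim0 := by
  rw [cd, Fin.sum_univ_one, Subsingleton.elim (Fin.removeNth 0 J) Fin.elim0]
  simp

/-- induction on `q` with `cd_cons` -/
theorem cd_cd (z : (Fin q → κ) → W) : cd (cd z) = 0 := by
  induction q with
  | zero =>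
    funext J
    rw [cd_one, cd_nil, cd_nil, sub_self, Pi.zero_apply]
  | succ q ih =>
    funext J
    rw [← Fin.cons_self_tail J, cd_cons]
    have e : (fun J' => cd z (Fin.cons (J 0) J')) = z - cd fun J' => z (Fin.cons (J 0) J') :=
      funext fun J' => cd_cons z _ J'
    rw [e, cd_sub, ih, sub_zero, sub_self, Pi.zero_apply]

theorem range_cons (i : κ) (J : Fin q → κ) :
    Set.range (Fin.cons i J : Fin (q + 1) → κ) = insert i (Set.range J) :=
  Fin.range_cons i J

theorem range_removeNth (k : Fin (q + 1)) (J : Fin (q + 1) → κ) :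
    Set.range (Fin.removeNth k J) ⊆ Set.range J :=
  Set.range_comp_subset_range k.succAbove J

theorem cd_mem {T : AddSubgroup W} {z : (Fin q → κ) → W} {J : Fin (q + 1) → κ}
    (h : ∀ k, z (Fin.removeNth k J) ∈ T) : cd z J ∈ T :=
  T.sum_mem fun k _ => T.zsmul_mem (h k) _

theorem In.cd (hS : Monotone S) {z : (Fin q → κ) → W} (h : In S z) : In S (cd z) :=
  fun J => cd_mem fun k => hS (range_removeNth k J) (h _)

theorem In.add {y z : (Fin q → κ) → W} (hy : In S y) (hz : In S z) : In S (y + z) :=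
  fun J => (S _).add_mem (hy J) (hz J)

theorem In.sub {y z : (Fin q → κ) → W} (hy : In S y) (hz : In S z) : In S (y - z) :=
  fun J => (S _).sub_mem (hy J) (hz J)

theorem van_const [Nonempty κ] (T : AddSubgroup W) (q : ℕ) : Van (fun _ : Set κ => T) q := by
  obtain ⟨i⟩ := ‹Nonempty κ›
  refine fun z hz h0 => ⟨fun J => z (Fin.cons i J), fun J => hz _, funext fun J => ?_⟩
  have h1 := cd_cons z i J
  rw [h0, Pi.zero_apply] at h1
  exact (sub_eq_zero.1 h1.symm).symm

theorem Gm_mono {F : Type} [Field F] (V : κ → Set (Subring F)) (T : Subring F → AddSubgroup W) :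
    Monotone (Gm V T) :=
  fun _ _ e _ h => mem_Gm.2 fun O hO => mem_Gm.1 h O fun j hj => hO j (e hj)

end Pool.Agent.ZFd
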