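import Pool.Agent.Lib.MP_751085_ag.ZF.E.DBo
import Pool.Agent.Lib.MP_751085_ag.ZF.D.Pr

/-! The standard cover and its intersections. -/

namespace Pool.Agent.ZFd

open scoped Classical

variable {F F' κ : Type} [Field F] [Field F'] {z : κ → F} {A : κ → Subring F} {O R : Subring F}
  {i j : κ} {s : Set κ}

/-- the ring of functions on the intersection of the open sets with index in `s` -/
def rg (A : κ → Subring F) (s : Set κ) : Subring F :=
  ⨅ (O : Subring F) (_ : ∀ j ∈ s, O ∈ lr (A j)), O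

theorem mem_rg {a : F} : a ∈ rg A s ↔ ∀ O, (∀ j ∈ s, IsLoc (A j) O) → a ∈ O := by
  simp only [rg, Subring.mem_iInf, lr, Set.mem_ofPred_eq]

theorem rg_mono (A : κ → Subring F) : Monotone (rg A) :=
  fun _ _ e _ ha => mem_rg.2 fun O hO => mem_rg.1 ha O fun j hj => hO j (e hj)

theorem rg_le (h : ∀ j, IsLoc (A j) R) (s : Set κ) : rg A s ≤ R :=
  fun _ ha => mem_rg.1 ha R fun j _ => h j

theorem rg_one (A : κ → Subring F) (i : κ) : rg A {i} = A i := by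
  ext a
  rw [mem_rg]
  simp only [Set.mem_singleton_iff, forall_eq]
  exact (qc_ring (A i)).glob.symm

theorem mem_OmS_away {B : Subring F} {h : F} (hh : h ∈ B) (h0 : h ≠ 0) {ω : Om F} :
    ω ∈ OmS (away B h) ↔ ∃ N : ℕ, h ^ N • ω ∈ OmS B := by
  refine ⟨fun H => (qc_om B).away hh fun O hO hu =>
    OmS_mono ((isLoc_away hh h0).2 ⟨hO, hu⟩).le H, fun ⟨N, H⟩ => ?_⟩
  have h1 := OmS_smul ((un_away hh h0).pow N).2.2 (OmS_mono (le_away B h) H)
  rwa [inv_smul_smul₀ (pow_ne_zero N h0)] at h1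

variable {p m : ℕ}

theorem Cov.loc_iff (h : Cov p m z A) (hO : IsLoc (A i) O) :
    IsLoc (A j) O ↔ Un O (z j / z i) := by
  refine ⟨fun H => ⟨hO.le (h.mem i j), div_ne_zero (h.ne j) (h.ne i), ?_⟩,
    fun H => ⟨fun a ha => ?_, hO.loc, fun w hw => ?_⟩⟩
  · rw [inv_div]
    exact H.le (h.mem j i)
  · obtain ⟨N, hN⟩ := h.cmp j i a ha
    exact (H.pow N).mul_mem_iff.1 (hO.le hN)
  · obtain ⟨t, ht, hu, h1⟩ := hO.frac w hw
    obtain ⟨N, hN⟩ := h.cmp i j t ht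
    obtain ⟨M, hM⟩ := h.cmp i j _ h1
    have h2 : Un O (z i / z j) := inv_div (z j) (z i) ▸ H.inv
    refine ⟨(z i / z j) ^ M * ((z i / z j) ^ N * t), mul_mem (pow_mem (h.mem j i) M) hN,
      (h2.pow M).mul ((h2.pow N).mul hu), ?_⟩
    rw [show (z i / z j) ^ M * ((z i / z j) ^ N * t) * w =
      (z i / z j) ^ N * ((z i / z j) ^ M * (t * w)) by ring]
    exact mul_mem (pow_mem (h.mem j i) N) hM

theorem Cov.smul (h : Cov p m z A) {c : F} (hc : c ≠ 0) : Cov p m (fun i => c * z i) A :=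
  ⟨h.sm, fun i => mul_ne_zero hc (h.ne i), fun i j => by
    simpa only [mul_div_mul_left _ _ hc] using h.mem i j, fun i j w hw => by
    simpa only [mul_div_mul_left _ _ hc] using h.cmp i j w hw⟩

variable [Fintype κ]

theorem Cov.hs_mem (h : Cov p m z A) (s : Set κ) (i : κ) : hs z s i ∈ A i := h.bun_o.hs_mem s i

theorem Cov.hs_ne (h : Cov p m z A) (s : Set κ) (i : κ) : hs z s i ≠ 0 := h.bun_o.hs_ne s i

theorem Cov.inter (h : Cov p m z A) (hi : i ∈ s) :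
    (∀ j ∈ s, IsLoc (A j) O) ↔ IsLoc (away (A i) (hs z s i)) O := by
  rw [isLoc_away (h.hs_mem s i) (h.hs_ne s i)]
  refine ⟨fun H => ⟨H i hi, un_prod _ fun j _ => ?_⟩, fun H j hj => (h.loc_iff H.1).2 ?_⟩
  · split_ifs with hj
    · exact (h.loc_iff (H i hi)).1 (H j hj)
    · exact un_one O
  · have h1 := Un.of_prod H.2 (fun j _ => by
      split_ifs
      · exact H.1.le (h.mem i j)
      · exact one_mem O) (Finset.mem_univ j)
    rwa [if_pos hj] at h1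

theorem Cov.rg_eq (h : Cov p m z A) (hi : i ∈ s) : rg A s = away (A i) (hs z s i) := by
  ext a
  simp only [mem_rg, h.inter hi]
  exact (qc_ring _).glob.symm

theorem Cov.isLoc_rg (h : Cov p m z A) (hs : s.Nonempty) :
    IsLoc (rg A s) O ↔ ∀ j ∈ s, IsLoc (A j) O := by
  obtain ⟨i, hi⟩ := hs
  rw [h.rg_eq hi, h.inter hi]

theorem Cov.sm_rg (h : Cov p m z A) (hs : s.Nonempty) : Sm p m (rg A s) := by
  obtain ⟨i, hi⟩ := hs
  rw [h.rg_eq hi]
  exact (h.sm i).away (h.hs_mem s i) (h.hs_ne s i)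

theorem Cov.fam (h : Cov p m z A) : Fam p m fun i => lr (A i) :=
  fun s hs => ⟨rg A s, h.sm_rg hs, fun _ => (h.isLoc_rg hs).symm⟩

theorem Cov.mem_tw_o (h : Cov p m z A) (hi : i ∈ s) {n : ℤ} {a : F} :
    a ∈ tw z (oS A) n s ↔ z i ^ n * a ∈ rg A s := by
  rw [h.bun_o.mem_tw hi, h.rg_eq hi, mem_away (h.hs_mem s i) (h.hs_ne s i)]
  simp only [smul_eq_mul, mul_assoc]
  rfl

theorem Cov.mem_tw_w (h : Cov p m z A) (hi : i ∈ s) {n : ℤ} {ω : Om F} :
    ω ∈ tw z (wS A) n s ↔ z i ^ n • ω ∈ OmS (rg A s) := by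
  rw [h.bun_w.mem_tw hi, h.rg_eq hi, mem_OmS_away (h.hs_mem s i) (h.hs_ne s i)]
  simp only [mul_smul]

theorem Cov.gm_om (h : Cov p m z A) (hs : s.Nonempty) :
    Gm (fun i => lr (A i)) OmS s = OmS (rg A s) := by
  ext w
  simp only [mem_Gm, (qc_om (rg A s)).glob, h.isLoc_rg hs]
  rfl

variable [Fact p.Prime] [CharP F p]

theorem Cov.gm_q (h : Cov p m z A) (hs : s.Nonempty) :
    Gm (fun i => lr (A i)) (QS p) s = QS p (rg A s) := by
  ext w
  simp only [mem_Gm, (qc_q (rg A s)).glob, h.isLoc_rg hs]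
  rfl

theorem Cov.gm_z (h : Cov p m z A) (hs : s.Nonempty) :
    Gm (fun i => lr (A i)) (ZS p) s = ZS p (rg A s) := by
  ext w
  rw [mem_ZS, ← h.gm_q hs, mem_Gm, mem_Gm]
  rfl

variable [CharP F' p] {ρ : Rd p R F'} {e : κ → F}

omit [Fintype κ] [Fact p.Prime] [CharP F p] [CharP F' p] in
theorem Cov.un (h : Cov p m z A) (hR : ∀ i, IsLoc (A i) R) (i j : κ) : Un R (z j / z i) :=
  (h.loc_iff (hR i)).1 (hR j)

omit [Fintype κ] in
theorem cov_div (h : Cov p (m + 1) z A) (H : ∀ i, Pr m ρ (A i) (e i)) (i₀ i j : κ) :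
    ρ.r (z j / z i₀) / ρ.r (z i / z i₀) = ρ.r (z j / z i) := by
  rw [← ρ.div (h.un (fun i => (H i).loc) i₀ j).1 (h.un (fun i => (H i).loc) i₀ i),
    div_div_div_cancel_right₀ (h.ne i₀)]

omit [Fintype κ] in
/-- the cover of the divisor -/
theorem Cov.im (h : Cov p (m + 1) z A) (H : ∀ i, Pr m ρ (A i) (e i)) (i₀ : κ) :
    Cov p m (fun j => ρ.r (z j / z i₀)) fun j => ρ.im (A j) := by
  refine ⟨fun i => (H i).smY, fun i => (ρ.inv (h.un (fun i => (H i).loc) i₀ i)).1, fun i j => ?_,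
    fun i j w hw => ?_⟩
  · rw [cov_div h H]
    exact (ρ.mem_im (H i).loc.le).2 ⟨_, h.mem i j, rfl⟩
  · obtain ⟨a, ha, rfl⟩ := (ρ.mem_im (H i).loc.le).1 hw
    obtain ⟨N, hN⟩ := h.cmp i j a ha
    have h1 := (h.un (fun i => (H i).loc) j i).1
    refine ⟨N, (ρ.mem_im (H j).loc.le).2 ⟨_, hN, ?_⟩⟩
    rw [cov_div h H, smul_eq_mul, smul_eq_mul, ρ.mul _ (pow_mem h1 N) _ ((H i).loc.le ha), ρ.pow h1]

theorem cov_un (h : Cov p (m + 1) z A) (H : ∀ i, Pr m ρ (A i) (e i)) (hi : i ∈ s) :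
    Un R (hs z s i) :=
  ((isLoc_away (h.hs_mem s i) (h.hs_ne s i)).1 ((h.inter hi).1 fun j _ => (H j).loc)).2

theorem Cov.im_rg (h : Cov p (m + 1) z A) (H : ∀ i, Pr m ρ (A i) (e i)) (hs : s.Nonempty) :
    ρ.im (rg A s) = rg (fun j => ρ.im (A j)) s := by
  obtain ⟨i, hi⟩ := hs
  rw [h.rg_eq hi, (h.im H i).rg_eq hi, ρ.im_away (H i).loc.le (h.hs_mem s i) (cov_un h H hi),
    ZFd.hs, ZFd.hs, ρ.prod]
  · refine congrArg _ (Finset.prod_congr rfl fun j _ => ?_)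
    split_ifs
    · exact (cov_div h H i i j).symm
    · exact ρ.one
  · intro j _
    split_ifs
    · exact (H i).loc.le (h.mem i j)
    · exact one_mem R

theorem Cov.pr_rg (h : Cov p (m + 1) z A) (H : ∀ i, Pr m ρ (A i) (e i)) (hi : i ∈ s) :
    Pr m ρ (rg A s) (e i) := by
  rw [h.rg_eq hi]
  exact (H i).away (h.hs_mem s i) (cov_un h H hi)

end Pool.Agent.ZFd
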