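import Pool.Agent.Lib.MP_751085_ag.ZF.E.Esz
import Pool.Agent.Lib.MP_751085_ag.ZF.D.PB1

/-! The sheaf of forms is locally free. -/

namespace Pool.Agent.ZFd

open scoped Classical

variable {F κ : Type} [Field F] {p m : ℕ} [Fact p.Prime] [CharP F p] {z : κ → F}
  {A : κ → Subring F}

theorem dbo_loc {B O : Subring F} (h : Sm p m B) (hO : IsLoc B O) : ∃ s ∈ B, Un O s ∧
    ∃ u : Fin m → F, (∀ ω, ∑ i, co u i ω • dK (u i) = ω) ∧
      (∀ i, ∀ ω ∈ OmS B, s * co u i ω ∈ B) ∧ ∀ i, s • dK (u i) ∈ OmS B := by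
  obtain ⟨τ, _, w, hw, hs⟩ := OmS_fg h.eft
  obtain ⟨u, hu⟩ := h.pb O hO
  obtain ⟨s, s1, s2, s3⟩ := hO.common (z := fun x : Fin m × τ => co u x.1 (w x.2))
    fun x => hu.mem_OmS.1 (OmS_mono hO.le (hw _)) _
  choose r r1 r2 r3 using fun i => ((qc_om B).loc O hO _).1 (d_mem (hu.mem i))
  refine ⟨(∏ i, r i) * s, mul_mem (prod_mem fun i _ => r1 i) s1,
    (un_prod _ fun i _ => r2 i).mul s2, u, hu.sum_co, fun i ω hω => ?_, fun i => ?_⟩
  · obtain ⟨c, hc, rfl⟩ := hs ω hω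
    rw [mul_assoc, map_sum, Finset.mul_sum]
    refine mul_mem (prod_mem fun i _ => r1 i) (sum_mem fun t _ => ?_)
    rw [map_smul, smul_eq_mul, mul_left_comm]
    exact mul_mem (hc t) (s3 (i, t))
  · rw [← Finset.prod_erase_mul _ _ (Finset.mem_univ i), mul_right_comm, mul_smul]
    exact OmS_smul (mul_mem (prod_mem fun i _ => r1 i) s1) (r3 i)

/-- At `O` with basis `u` there is `h` with `h * co u i ω ∈ A` on the generators (`OmS_fg`,
`PB.mem_OmS`, `IsLoc.common`) and `h • dK (u i) ∈ OmS A` (`qc_om`). `exists_cover`, `exists_pou`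
with `N = 2`, `PB.sum_co`. -/
theorem Sm.db_om {B : Subring F} (h : Sm p m B) : DB B (OmS B) := by
  obtain ⟨ι, _, -, s, hs, hc⟩ := exists_cover fun O hO => dbo_loc h hO
  obtain ⟨c, c1, c2⟩ := exists_pou (fun k => (hs k).1) hc 2
  choose u u1 u2 u3 using fun k => (hs k).2.2
  refine ⟨fun _ ha _ hw => OmS_smul ha hw, ι × Fin m, inferInstance,
    fun t => s t.1 • dK (u t.1 t.2), fun t => (c t.1 * s t.1) • co (u t.1) t.2, fun t => u3 _ _,
    fun t x hx => ?_, fun x => ?_⟩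
  · rw [LinearMap.smul_apply, smul_eq_mul, mul_assoc]
    exact mul_mem (c1 _) (u2 _ _ x hx)
  · rw [Fintype.sum_prod_type]
    refine (Finset.sum_congr rfl fun k _ => ?_).trans
      ((Finset.sum_smul.symm.trans (congrArg (· • x) c2)).trans (one_smul F x))
    refine Eq.trans ?_ (congrArg _ (u1 k x))
    rw [Finset.smul_sum]
    refine Finset.sum_congr rfl fun i _ => ?_
    rw [LinearMap.smul_apply, smul_eq_mul, smul_smul, smul_smul, mul_right_comm, sq,
      mul_assoc (c k)]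

omit [Fact p.Prime] [CharP F p] in
theorem db_self (B : Subring F) : DB B B.toAddSubgroup :=
  ⟨fun _ ha _ hw => B.mul_mem ha hw, Unit, inferInstance, fun _ => 1, fun _ => LinearMap.id,
    fun _ => one_mem B, fun _ _ hx => hx, fun x => by simp⟩

omit [Fact p.Prime] [CharP F p] in
theorem Cov.bun_o (h : Cov p m z A) : Bun z A (oS A) :=
  ⟨h.ne, h.mem, fun i _ ha _ hw => (A i).mul_mem ha hw, h.cmp⟩

omit [Fact p.Prime] [CharP F p] in
/-- with `y = z i / z j`: `y ^ (M + 1) • dK b = y • dK (y ^ M * b) - (M * (y ^ M * b)) • dK y` -/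
theorem Cov.bun_w (h : Cov p m z A) : Bun z A (wS A) := by
  refine ⟨h.ne, h.mem, fun _ _ ha _ hw => OmS_smul ha hw, fun i j ω hω => ?_⟩
  have hy := h.mem j i
  refine OmS_ind (P := fun ω => ∃ N : ℕ, (z i / z j) ^ N • ω ∈ OmS (A j))
    ⟨0, by rw [smul_zero]; exact zero_mem _⟩ (fun a ha b hb => ?_) ?_ hω
  · obtain ⟨L, hL⟩ : ∃ L : ℕ, (z i / z j) ^ L * a ∈ A j := h.cmp i j a ha
    obtain ⟨M, hM⟩ : ∃ M : ℕ, (z i / z j) ^ M * b ∈ A j := h.cmp i j b hb
    generalize z i / z j = y at hy hL hM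
    have e : y ^ (L + (M + 1)) • a • dK b = (y ^ L * a) •
        (dK (y * (y ^ M * b)) - (M + 1) • (y ^ M * b) • dK y) := by
      rw [← mul_assoc, ← pow_succ', Derivation.leibniz, Derivation.leibniz_pow, Nat.add_sub_cancel,
        smul_comm b, smul_smul b, mul_comm b, add_sub_cancel_right, smul_smul, smul_smul, pow_add,
        mul_right_comm]
    refine ⟨L + (M + 1), ?_⟩
    rw [e]
    exact OmS_smul hL (sub_mem (d_mem (mul_mem hy hM)) (nsmul_mem (smul_d_mem hM hy) _))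
  · rintro x y - - ⟨L, hL⟩ ⟨M, hM⟩
    refine ⟨M + L, ?_⟩
    rw [smul_add]
    refine add_mem ?_ ?_
    · rw [pow_add, mul_smul]
      exact OmS_smul (pow_mem hy _) hL
    · rw [pow_add, mul_comm, mul_smul]
      exact OmS_smul (pow_mem hy _) hM

omit [Fact p.Prime] [CharP F p] in
theorem Cov.vb_o (h : Cov p m z A) : VB z A (oS A) := ⟨h.bun_o, fun _ => db_self _⟩

theorem Cov.vb_w (h : Cov p m z A) : VB z A (wS A) := ⟨h.bun_w, fun i => (h.sm i).db_om⟩

end Pool.Agent.ZFd
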