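import Pool.Agent.Lib.MP_751085_ag.ZF.D.Defs

/-! Twists on the standard cover, finite projections to projective space. -/

namespace Pool.Agent.ZFd

open scoped Classical

variable {F κ W : Type} [Field F] [AddCommGroup W] [Module F W]

/-- the function that is inverted on the intersection of the standard open sets with index in `s` -/
noncomputable def hs [Fintype κ] (z : κ → F) (s : Set κ) (i : κ) : F :=
  ∏ j, if j ∈ s then z j / z i else 1

/-- modules `E i` over the rings `R i` that agree on intersections -/
structure Bun (z : κ → F) (R : κ → Subring F) (E : κ → AddSubgroup W) : Prop where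
  ne : ∀ i, z i ≠ 0
  mem : ∀ i j, z j / z i ∈ R i
  smul : ∀ i, ∀ a ∈ R i, ∀ w ∈ E i, a • w ∈ E i
  cmp : Cmp z E

/-- the global sections of all twists are finite dimensional -/
def FinG (k : Type) [Field k] [Module k W] (z : κ → F) (E : κ → AddSubgroup W) : Prop :=
  ∀ m : ℤ, ∃ V : Submodule k W, FiniteDimensional k V ∧ ∀ w, (∀ i, z i ^ m • w ∈ E i) → w ∈ V

/-- the coordinate ring of the standard open set of projective space -/
def pj (k : Type) [Field k] [Algebra k F] (z : κ → F) (i : κ) : Subalgebra k F :=
  Algebra.adjoin k (Set.range fun j => z j / z i)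

/-- `z` defines a finite map onto projective `n`-space over `k` -/
structure Prj (k : Type) [Field k] [Algebra k F] {n : ℕ} (z : Fin (n + 1) → F)
    (A : Fin (n + 1) → Subring F) : Prop where
  ind : AlgebraicIndependent k fun j : Fin n => z j.succ / z 0
  le : ∀ i, (pj k z i).toSubring ≤ A i
  fin : ∀ i, ∃ s : Finset F, (A i : Set F) = Submodule.span (pj k z i) (s : Set F)

/-- the structure sheaf -/
abbrev oS (A : κ → Subring F) (i : κ) : AddSubgroup F := (A i).toAddSubgroup

/-- the sheaf of forms -/
noncomputable abbrev wS (A : κ → Subring F) (i : κ) : AddSubgroup (Om F) := OmS (A i)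

end Pool.Agent.ZFd
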