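import Pool.Agent.Lib.MP_751085_ag.ZF.D.Ufd
import Pool.Agent.Lib.MP_751085_ag.ZF.E.Ch

/-! Affine vanishing; forms with prescribed residues. -/

namespace Pool.Agent.ZFd

open scoped Classical

variable {F : Type} [Field F] {A : Subring F} {κ : Type} [Fintype κ]

/-- the principal open sets -/
def po (A : Subring F) (h : κ → F) (i : κ) : Set (Subring F) := {O | IsLoc A O ∧ Un O (h i)}

omit [Fintype κ] in
theorem div_ev {W : Type} [AddCommGroup W] [Module F W] {μ : F →+* F} {M : AddSubgroup W}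
    {S : Subring F → AddSubgroup W} (hS : QC μ A M S) {a b : F} (ha : a ∈ A) (hb : b ∈ A) {w : W}
    (H : ∀ O, IsLoc A O → Un O a → Un O b → w ∈ S O) : ∀ᶠ N in Filter.atTop,
      ∀ c ∈ A, ∀ O, IsLoc A O → Un O b → μ (c * a ^ N) • w ∈ S O := by
  obtain ⟨N, hN⟩ := hS.away (A.mul_mem ha hb) fun O hO hu => H O hO
    (hu.left (hO.le ha) (hO.le hb)) ((mul_comm a b ▸ hu).left (hO.le hb) (hO.le ha))
  filter_upwards [Filter.eventually_ge_atTop N] with n hn c hc O hO hu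
  obtain ⟨k, rfl⟩ := Nat.exists_eq_add_of_le hn
  refine (hS.loc O hO _).2 ⟨b ^ N, A.pow_mem hb N, hu.pow N, ?_⟩
  have := hS.smul _ (A.mul_mem hc (A.pow_mem ha k)) _ hN
  rwa [smul_smul, ← map_mul, show c * a ^ k * (a * b) ^ N = b ^ N * (c * a ^ (N + k)) by ring,
    map_mul, mul_smul] at this

/-- affine vanishing -/
theorem van_aff {W : Type} [AddCommGroup W] [Module F W] {μ : F →+* F} {M : AddSubgroup W}
    {S : Subring F → AddSubgroup W} (hS : QC μ A M S) {h : κ → F} (hh : ∀ i, h i ∈ A)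
    (H : ∀ O, IsLoc A O → ∃ i, Un O (h i)) (q : ℕ) : Van (Gm (po A h) S) (q + 1) := by
  intro z h1 h2
  obtain ⟨N, hN⟩ := (Filter.eventually_all.2 fun i => Filter.eventually_all.2
    fun J : Fin (q + 1) → κ => div_ev hS (hh i) (A.prod_mem (t := Finset.univ) fun k _ => hh (J k))
      (w := z (Fin.cons i J)) fun O hO hi hJ => mem_Gm.1 (h1 _) O fun j hj => ⟨hO, by
        rcases range_cons i J ▸ hj with rfl | ⟨k, rfl⟩
        exacts [hi, hJ.of_prod (fun k _ => hO.le (hh (J k))) (Finset.mem_univ k)]⟩).exists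
  obtain ⟨c, c1, c2⟩ := exists_pou hh H N
  refine ⟨∑ i, fun J => μ (c i * h i ^ N) • z (Fin.cons i J), fun J => mem_Gm.2 fun O hO => ?_,
    funext fun J => ?_⟩
  · rw [Finset.sum_apply]
    exact sum_mem fun i _ => hN i J _ (c1 i) O (hO _ ⟨0, rfl⟩).1
      (un_prod _ fun k _ => (hO _ ⟨k, rfl⟩).2)
  rw [cd_sum, Finset.sum_apply, ← one_smul F (z J), ← map_one μ, ← c2, map_sum, Finset.sum_smul]
  refine Finset.sum_congr rfl fun i _ => ?_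
  rw [sub_eq_zero.1 ((cd_cons z i J).symm.trans (congrFun h2 _))]
  exact (map_cd (DistribSMul.toAddMonoidHom W (μ (c i * h i ^ N))) _ J).symm

/-- the same in degree one inside the constant group -/
theorem glue_aff0 {W : Type} [AddCommGroup W] [Module F W] {μ : F →+* F} {M : AddSubgroup W}
    {S : Subring F → AddSubgroup W} (hS : QC μ A M S) {h : κ → F} (hh : ∀ i, h i ∈ A)
    (H : ∀ O, IsLoc A O → ∃ i, Un O (h i)) (w : κ → W)
    (hw : ∀ i j O, IsLoc A O → Un O (h i) → Un O (h j) → w i - w j ∈ S O) :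
    ∃ x, ∀ i O, IsLoc A O → Un O (h i) → x - w i ∈ S O := by
  obtain ⟨N, hN⟩ := (Filter.eventually_all.2 fun i => Filter.eventually_all.2 fun j =>
    div_ev hS (hh i) (hh j) (hw i j)).exists
  obtain ⟨c, c1, c2⟩ := exists_pou hh H N
  refine ⟨∑ j, μ (c j * h j ^ N) • w j, fun i O hO hi => ?_⟩
  rw [← one_smul F (w i), ← map_one μ, ← c2, map_sum, Finset.sum_smul, ← Finset.sum_sub_distrib]
  exact sum_mem fun j _ => smul_sub (μ (c j * h j ^ N)) (w j) (w i) ▸ hN j i _ (c1 j) O hO hi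

variable {p m : ℕ} [Fact p.Prime] [CharP F p]

omit [Fact p.Prime] [CharP F p] in
theorem fam_po (hA : Sm p m A) {h : κ → F} (hh : ∀ i, h i ∈ A ∧ h i ≠ 0) : Fam p m (po A h) := by
  rintro s ⟨i, hi⟩
  have h1 := A.prod_mem (t := s.toFinset) fun j _ => (hh j).1
  have h2 := Finset.prod_ne_zero_iff.2 fun j (_ : j ∈ s.toFinset) => (hh j).2
  refine ⟨_, hA.away h1 h2, fun O => (Iff.trans ⟨fun e => ⟨(e i hi).1, un_prod _ fun j hj =>
    (e j (Set.mem_toFinset.1 hj)).2⟩, fun e j hj => ⟨e.1, e.2.of_prod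
      (fun j _ => e.1.le (hh j).1) (Set.mem_toFinset.2 hj)⟩⟩ (isLoc_away h1 h2).symm)⟩

omit [Fact p.Prime] [CharP F p] in
theorem div_sep {O : Subring F} (hO : IsLoc A O) {T : Set (Subring F)} (hT : T.Finite)
    (H : ∀ R ∈ T, IsLoc A R ∧ ¬IsLoc O R) : ∃ h ∈ A, Un O h ∧ ∀ R ∈ T, ¬Un R h := by
  have : ∀ R ∈ T, ∃ h ∈ A, Un O h ∧ ¬Un R h := fun R hR => by_contra fun e =>
    (H R hR).2 (hO.of_un (H R hR).1 fun a ha hu => by_contra fun e' => e ⟨a, ha, hu, e'⟩)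
  choose! h h1 h2 h3 using this
  refine ⟨∏ R ∈ hT.toFinset, h R, A.prod_mem fun R hR => h1 R (hT.mem_toFinset.1 hR),
    un_prod _ fun R hR => h2 R (hT.mem_toFinset.1 hR), fun R hR e => h3 R hR (e.of_prod
      (fun R' hR' => (H R hR).1.le (h1 R' (hT.mem_toFinset.1 hR'))) (hT.mem_toFinset.2 hR))⟩

/-- a local equation of a prime divisor -/
theorem div_eq (hA : Sm p m A) {R₀ O : Subring F} {y₀ : F} (h2 : Dv R₀ y₀) (hO : IsLoc A O) :
    ∃ a ∈ A, a ≠ 0 ∧ (IsLoc O R₀ → Dv R₀ a) ∧ ∀ R y, IsLoc O R → Dv R y → R ≠ R₀ → Un R a := by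
  by_cases h : IsLoc O R₀
  swap
  · exact ⟨1, A.one_mem, one_ne_zero, fun e => (h e).elim, fun R _ _ _ _ => un_one R⟩
  have := (hA.reg hO).ufd
  obtain ⟨f, f1, f2, f3⟩ := exists_prime_of_dv (hA.reg hO).1.frac h h2
  obtain ⟨s, -, s1, s2⟩ := hO.frac f f.2
  refine ⟨s * f, s2, mul_ne_zero s1.2.1 f2.ne, fun _ => f2.of_un ?_, fun R y r1 r2 r3 =>
    (s1.mono r1.le).mul ?_⟩
  · rw [div_mul_cancel_right₀ f2.ne]
    exact (s1.mono h.le).inv
  obtain ⟨g, g1, -, g3⟩ := exists_prime_of_dv (hA.reg hO).1.frac r1 r2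
  refine (g3 f).2 fun e => r3 (r1.ext h fun a ha => ?_)
  exact ((g3 ⟨a, ha⟩).trans (g1.associated_of_dvd f1 e).dvd_iff_dvd_left.not).trans
    (f3 ⟨a, ha⟩).symm

/-- one prime divisor -/
theorem exists_res_one (hA : Sm p m A) {R₀ : Subring F} {y₀ : F} (h1 : IsLoc A R₀) (h2 : Dv R₀ y₀) :
    ∃ θ : Om F, (∀ O, IsLoc A O → θ ∈ ZS p O) ∧
      ∀ R y, IsLoc A R → Dv R y → rsd p R θ = if R = R₀ then 1 else 0 := by
  have := hA.noeth
  obtain ⟨κ, _, -, h, c1, c2⟩ := exists_cover (A := A) (P := fun h => ∃ f, f ≠ 0 ∧ ∀ R y, IsLoc A R →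
      Dv R y → Un R h → (R = R₀ → Dv R f) ∧ (R ≠ R₀ → Un R f)) fun O hO => by
    obtain ⟨a, a1, a2, a3, a4⟩ := div_eq hA h2 hO
    obtain ⟨h, e1, e2, e3⟩ := div_sep hO (T := {R | (IsLoc A R ∧ ¬IsLoc O R) ∧
        (R = R₀ ∨ (∃ y, Dv R y) ∧ ¬Un R a)}) (((finite_dv a1 a2).insert R₀).subset
      fun R hR => hR.2.imp_right fun e => ⟨hR.1.1, e⟩) fun R hR => hR.1
    refine ⟨h, e1, e2, a, a2, fun R y r1 r2 r3 => ⟨fun e => ?_, fun e => by_contra fun e' => ?_⟩⟩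
    · exact e ▸ a3 (by_contra fun e' => e3 R ⟨⟨r1, e ▸ e'⟩, .inl e⟩ r3)
    · exact e3 R ⟨⟨r1, fun e'' => e' (a4 R y e'' r2 e)⟩, .inr ⟨⟨y, r2⟩, e'⟩⟩ r3
  choose f f1 f2 using fun i => (c1 i).2.2
  obtain ⟨θ, hθ⟩ := glue_aff0 (qc_om A) (fun i => (c1 i).1) c2 (fun i => dlog (f i))
    fun i j O hO hi hj => (hA.reg hO).1.hartogs_om fun R y r1 r2 => by
      have e1 := f2 i R y (hO.trans r1) r2 (hi.mono r1.le)
      have e2 := f2 j R y (hO.trans r1) r2 (hj.mono r1.le)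
      rw [← dlog_div (f1 i) (f1 j)]
      by_cases e : R = R₀
      exacts [dlog_mem ((e1.1 e).un_div (e2.1 e)), dlog_mem ((e1.2 e).div (e2.2 e))]
  refine ⟨θ, fun O hO => ?_, fun R y r1 r2 => ?_⟩
  · obtain ⟨i, hi⟩ := c2 O hO
    exact sub_add_cancel θ (dlog (f i)) ▸ add_mem (OmS_le_ZS O (hθ i O hO hi)) (dlog_mem_ZS O _)
  obtain ⟨i, hi⟩ := c2 R r1
  obtain ⟨u, hu⟩ := hA.pb R r1
  have e1 := f2 i R y r1 r2 hi
  split_ifs with e
  · simpa using (e1.1 e).rsd_eq hu (n := 1) (by simpa using hθ i R r1 hi)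
  · simpa using r2.rsd_eq hu (n := 0) (θ := θ)
      (by simpa using add_mem (hθ i R r1 hi) (dlog_mem (e1.2 e)))

theorem exists_res (hA : Sm p m A) (n : Subring F → ZMod p)
    (hn : {R | IsLoc A R ∧ (∃ y, Dv R y) ∧ n R ≠ 0}.Finite) :
    ∃ θ : Om F, (∀ O, IsLoc A O → θ ∈ ZS p O) ∧ ∀ R y, IsLoc A R → Dv R y → rsd p R θ = n R := by
  have : ∀ R₀ ∈ hn.toFinset, ∃ θ : Om F, (∀ O, IsLoc A O → θ ∈ ZS p O) ∧
      ∀ R y, IsLoc A R → Dv R y → rsd p R θ = if R = R₀ then 1 else 0 := fun R₀ hR =>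
    let ⟨h1, ⟨_, h2⟩, _⟩ := hn.mem_toFinset.1 hR
    exists_res_one hA h1 h2
  choose! θ h1 h2 using this
  refine ⟨∑ R₀ ∈ hn.toFinset, (ZMod.cast (n R₀) : ℤ) • θ R₀,
    fun O hO => sum_mem fun R₀ hR => zsmul_mem (h1 R₀ hR O hO) _, fun R y r1 r2 => ?_⟩
  obtain ⟨u, hu⟩ := hA.pb R r1
  rw [r2.rsd_sum hu _ fun R₀ hR => zsmul_mem (h1 R₀ hR R r1) _, Finset.sum_congr rfl fun R₀ hR => by
    rw [r2.rsd_zsmul hu (h1 R₀ hR R r1), h2 R₀ hR R y r1 r2, ZMod.intCast_zmod_cast, mul_ite, mul_one,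
      mul_zero], Finset.sum_ite_eq]
  exact ite_eq_left_iff.2 fun e => by_contra fun e' =>
    e (hn.mem_toFinset.2 ⟨r1, ⟨y, r2⟩, Ne.symm e'⟩)

theorem finite_rsd (hA : Sm p m A) (θ : Om F) :
    {R | IsLoc A R ∧ (∃ y, Dv R y) ∧ θ ∉ OmS R}.Finite := by
  have := hA.noeth
  obtain ⟨s, s1, s2, s3⟩ := ((qc_om A).loc ⊤ (isLoc_top hA.frac) θ).1 (OmS_top θ)
  exact (finite_dv s1 s2.2.1).subset fun R hR =>
    ⟨hR.1, hR.2.1, fun e => hR.2.2 (((qc_om A).loc R hR.1 θ).2 ⟨s, s1, e, s3⟩)⟩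

/-- divisors modulo `p` are acyclic -/
theorem div_corr {V : κ → Set (Subring F)} (hV : Fam p m V) {q : ℕ}
    (θ : (Fin (q + 2) → κ) → Om F) (h1 : In (Gm V (ZS p)) θ) (h2 : In (Gm V OmS) (cd θ)) :
    ∃ t : (Fin (q + 1) → κ) → Om F, In (Gm V (ZS p)) t ∧ In (Gm V OmS) (θ - cd t) ∧
      ∀ R y, Dv R y → (∀ j, R ∈ V j) → (∀ J, θ J ∈ OmS R) → ∀ J, t J ∈ OmS R := by
  rcases isEmpty_or_nonempty κ with hκ | hκ
  · exact ⟨0, fun J => isEmptyElim (J 0), fun J => isEmptyElim (J 0),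
      fun _ _ _ _ _ J => isEmptyElim (J 0)⟩
  have : ∀ R, ∃ i, ∀ j, R ∈ V j → R ∈ V i := fun R =>
    (em (∃ i, R ∈ V i)).elim (fun ⟨i, e⟩ => ⟨i, fun _ _ => e⟩)
      fun e => ⟨hκ.some, fun j e' => (e ⟨j, e'⟩).elim⟩
  choose i hi using this
  have hc : ∀ {n : ℕ} (J : Fin (n + 1) → κ) R, (∀ j ∈ Set.range J, R ∈ V j) →
      ∀ j ∈ Set.range (Fin.cons (i R) J : Fin (n + 2) → κ), R ∈ V j := fun J R e j hj => by
    rcases range_cons (i R) J ▸ hj with rfl | hj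
    exacts [hi R _ (e _ ⟨0, rfl⟩), e j hj]
  have : ∀ J : Fin (q + 1) → κ, ∃ t : Om F, t ∈ Gm V (ZS p) (Set.range J) ∧ ∀ R y, Dv R y →
      (∀ j ∈ Set.range J, R ∈ V j) → θ (Fin.cons (i R) J) - t ∈ OmS R := fun J => by
    obtain ⟨B, b1, b2⟩ := hV _ (Set.range_nonempty J)
    obtain ⟨t, t1, t2⟩ := exists_res b1 (fun R => rsd p R (θ (Fin.cons (i R) J)))
      ((Set.finite_iUnion fun k => finite_rsd b1 (θ (Fin.cons k J))).subset
        fun R ⟨r1, ⟨y, r2⟩, r3⟩ => Set.mem_iUnion.2 ⟨i R, r1, ⟨y, r2⟩, fun e => r3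
          ((r2.rsd_eq_zero (b1.pb R r1).choose_spec (OmS_le_ZS R e)).2 e)⟩)
    refine ⟨t, mem_Gm.2 fun O hO => t1 O ((b2 O).1 hO), fun R y r2 e => ?_⟩
    have r1 := (b2 R).1 e
    obtain ⟨u, hu⟩ := b1.pb R r1
    have e1 := mem_Gm.1 (h1 _) R (hc J R e)
    rw [← r2.rsd_eq_zero hu (sub_mem e1 (t1 R r1)), r2.rsd_sub hu e1 (t1 R r1), t2 R y r1 r2,
      sub_self]
  choose t t1 t2 using this
  refine ⟨t, t1, fun J => mem_Gm.2 fun O hO => ?_, fun R y r2 e e' J => ?_⟩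
  · obtain ⟨B, b1, b2⟩ := hV _ (Set.range_nonempty J)
    refine (b1.reg ((b2 O).1 hO)).1.hartogs_om fun R y r1 r2 => ?_
    have e := (b2 R).2 (((b2 O).1 hO).trans r1)
    have e1 := add_mem (mem_Gm.1 (h2 _) R (hc J R e))
      (cd_mem (z := (fun J' => θ (Fin.cons (i R) J')) - t) (J := J)
        fun k => t2 _ R y r2 fun j hj => e j (range_removeNth k J hj))
    rwa [cd_cons, cd_sub, Pi.sub_apply, sub_add_sub_cancel] at e1
  · exact sub_sub_cancel _ (t J) ▸ sub_mem (e' _) (t2 J R y r2 fun j _ => e j)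

end Pool.Agent.ZFd
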