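import Pool.Agent.Lib.MP_751085_ag.ZF.E.Tw

/-! Vanishing for negative twists, finiteness of sections. -/

namespace Pool.Agent.ZFd

open scoped Classical

variable {F κ : Type} [Field F] [Fintype κ] {z : κ → F} {R : κ → Subring F}

/-- a locally free module of finite rank on the standard cover -/
structure VB (z : κ → F) (R : κ → Subring F) {W : Type} [AddCommGroup W] [Module F W]
    (E : κ → AddSubgroup W) : Prop where
  bun : Bun z R E
  db : ∀ i, DB (R i) (E i)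

section

variable {W : Type} [AddCommGroup W] [Module F W] {E : κ → AddSubgroup W}

theorem DB.fg {A : Subring F} {M : AddSubgroup W} (h : DB A M) :
    ∃ (τ : Type) (_ : Fintype τ) (w : τ → W), (∀ t, w t ∈ M) ∧
      ∀ x ∈ M, ∃ c : τ → F, (∀ t, c t ∈ A) ∧ x = ∑ t, c t • w t := by
  obtain ⟨τ, _, w, l, h1, h2, h3⟩ := h.dual
  exact ⟨τ, inferInstance, w, h1, fun x hx => ⟨fun t => l t x, fun t => h2 t x hx, (h3 x).symm⟩⟩

theorem esz_quot {V : Type} [AddCommGroup V] [Module F V] {A : Subring F} {P : AddSubgroup V}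
    (h : DB A P) (a : W →ₗ[F] V) (ρ : V →ₗ[F] W) (h1 : ∀ x, ρ (a x) = x)
    (h2 : ∀ y ∈ P, a (ρ y) ∈ P) : DB A (P.map (LinearMap.range a).mkQ.toAddMonoidHom) := by
  obtain ⟨τ, _, w, l, h3, h4, h5⟩ := h.dual
  have hk : LinearMap.range a ≤ LinearMap.ker (LinearMap.id - a ∘ₗ ρ) := by
    rintro _ ⟨x, rfl⟩
    simp [h1]
  refine ⟨?_, τ, inferInstance, fun t => (LinearMap.range a).mkQ (w t),
    fun t => l t ∘ₗ (LinearMap.range a).liftQ _ hk, fun t => ⟨w t, h3 t, rfl⟩, ?_, fun x => ?_⟩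
  · rintro r hr _ ⟨y, hy, rfl⟩
    exact ⟨r • y, h.smul r hr y hy, map_smul (LinearMap.range a).mkQ r y⟩
  · rintro t _ ⟨y, hy, rfl⟩
    exact h4 t _ (P.sub_mem hy (h2 y hy))
  · obtain ⟨y, rfl⟩ := (LinearMap.range a).mkQ_surjective x
    have e : ∑ t, l t (y - a (ρ y)) • (LinearMap.range a).mkQ (w t) =
        (LinearMap.range a).mkQ (y - a (ρ y)) := by
      simp only [← map_smul, ← map_sum, h5]
    refine e.trans ?_
    rw [map_sub, sub_eq_self]
    exact (Submodule.Quotient.mk_eq_zero _).2 ⟨_, rfl⟩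

omit [Fintype κ] in
theorem esz_free (hR : Bun z R (oS R)) (τ : Type) [Fintype τ] (b : ℤ) (i : κ) :
    DB (R i) (pw τ (sh z b (oS R)) i) := by
  have h0 := zpow_ne_zero b (hR.ne i)
  refine ⟨((hR.sh b).pw τ).smul i, τ, inferInstance, fun t => Pi.single t (z i ^ b)⁻¹,
    fun t => z i ^ b • LinearMap.proj t, fun t => mem_pw.2 fun t' => mem_sh.2 ?_,
    fun t x hx => mem_sh.1 (mem_pw.1 hx t), fun x => funext fun t => ?_⟩
  · by_cases e : t' = t
    · subst e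
      simp [h0, (R i).one_mem]
    · simp [e]
  · simp [Pi.single_apply, mul_right_comm _ (x t), h0]

omit [Fintype κ] in
theorem esz_exp (hR : Bun z R (oS R)) (H : VB z R E) (i j : κ) (l : W →ₗ[F] F)
    (hl : ∀ x ∈ E i, l x ∈ R i) : ∃ N : ℕ, ∀ x ∈ E j, (z i / z j) ^ N * l x ∈ R j := by
  obtain ⟨τ, _, w, h1, h2⟩ := (H.db j).fg
  have h3 : ∀ t, ∃ N : ℕ, (z i / z j) ^ N • l (w t) ∈ oS R j := fun t => by
    obtain ⟨N, hN⟩ := H.bun.cmp j i _ (h1 t)
    obtain ⟨N', hN'⟩ := hR.cmp i j _ (hl _ hN)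
    refine ⟨N', ?_⟩
    have h4 := hR.smul j _ ((R j).pow_mem (hR.mem j i) N) _ hN'
    have h5 : (z i / z j) ^ N * (z j / z i) ^ N = 1 := by
      rw [← mul_pow, div_mul_div_cancel₀ (hR.ne j), div_self (hR.ne i), one_pow]
    rwa [map_smul, smul_comm, smul_smul ((z i / z j) ^ N), h5, one_smul] at h4
  choose N hN using h3
  refine ⟨∑ t, N t, fun x hx => ?_⟩
  obtain ⟨c, hc, rfl⟩ := h2 x hx
  rw [map_sum, Finset.mul_sum]
  refine (R j).sum_mem fun t _ => ?_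
  rw [map_smul, smul_eq_mul, mul_left_comm]
  exact (R j).mul_mem (hc t) (hR.pow_smul (hN t)
    (Finset.single_le_sum (fun _ _ => Nat.zero_le _) (Finset.mem_univ t)))

theorem VB.emb [Nonempty κ] (hR : Bun z R (oS R)) (H : VB z R E) :
    ∃ (τ : Type) (_ : Fintype τ) (b : ℤ) (W'' : Type) (_ : AddCommGroup W'') (_ : Module F W'')
      (E'' : κ → AddSubgroup W'') (a : W →ₗ[F] τ → F) (c : (τ → F) →ₗ[F] W''),
      Ses E (pw τ (sh z b (oS R))) E'' a c ∧ VB z R E'' := by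
  choose τ _ w l h1 h2 h3 using fun i => (H.db i).dual
  choose N hN using fun (p : (Σ i, τ i) × κ) => esz_exp hR H p.1.1 p.2 (l _ p.1.2) (h2 _ _)
  set B := ∑ p, N p
  let a : W →ₗ[F] (Σ i, τ i) → F := LinearMap.pi fun p => z p.1 ^ B • l p.1 p.2
  let ρ : κ → ((Σ i, τ i) → F) →ₗ[F] W := fun i =>
    ∑ t, (z i ^ (-B : ℤ) • LinearMap.proj (⟨i, t⟩ : Σ i, τ i)).smulRight (w i t)
  have hρ : ∀ i y, ρ i y = ∑ t, (z i ^ (-B : ℤ) • y ⟨i, t⟩) • w i t := fun i y => by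
    simp [ρ]
  have h4 : ∀ i x, ρ i (a x) = x := fun i x => by
    rw [hρ]
    refine Eq.trans (Finset.sum_congr rfl fun t _ => ?_) (h3 i x)
    simp [a, pow_ne_zero B (hR.ne i)]
  have h5 : ∀ i, ∀ y ∈ pw _ (sh z (-B) (oS R)) i, ρ i y ∈ E i := fun i y hy => by
    rw [hρ]
    exact (E i).sum_mem fun t _ => H.bun.smul i _ (mem_sh.1 (mem_pw.1 hy _)) _ (h1 i t)
  have h6 : ∀ j, ∀ x ∈ E j, a x ∈ pw _ (sh z (-B) (oS R)) j := fun j x hx =>
    mem_pw.2 fun p => mem_sh.2 (by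
      have h7 : (z p.1 / z j) ^ B • l p.1 p.2 x ∈ oS R j := hR.pow_smul (hN (p, j) x hx)
        (Finset.single_le_sum (fun _ _ => Nat.zero_le _) (Finset.mem_univ (p, j)))
      rw [div_pow, div_eq_inv_mul, mul_smul] at h7
      simpa [a] using h7)
  refine ⟨_, inferInstance, -B, _, _, _, _, a, (LinearMap.range a).mkQ,
    ⟨Function.LeftInverse.injective (h4 (Classical.arbitrary κ)),
      fun x => Submodule.Quotient.mk_eq_zero _, fun i => ?_, fun _ => rfl⟩,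
    ((hR.sh _).pw _).map _, fun i => esz_quot (esz_free hR _ _ i) a (ρ i) (h4 i)
      fun y hy => h6 i _ (h5 i y hy)⟩
  exact AddSubgroup.ext fun x => ⟨h6 i x, fun hx => h4 i x ▸ h5 i _ hx⟩

end

theorem esz_vb [Nonempty κ] (hR : Bun z R (oS R)) (n : ℕ)
    (h0 : ∀ q < n, ∃ m₀ : ℤ, ∀ m, m₀ ≤ m → Van (tw z (oS R) m) q) :
    ∀ q < n, ∀ (W : Type) [AddCommGroup W] [Module F W] (E : κ → AddSubgroup W), VB z R E →
      ∃ m₀ : ℤ, ∀ m, m₀ ≤ m → Van (tw z E m) q := by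
  have h1 : ∀ q < n, ∀ (τ : Type) [Fintype τ] (b : ℤ), ∃ m₀ : ℤ, ∀ m, m₀ ≤ m →
      Van (tw z (pw τ (sh z b (oS R))) m) q := fun q hq τ _ b => by
    obtain ⟨m₀, h⟩ := h0 q hq
    refine ⟨m₀ - b, fun m hm => ?_⟩
    rw [funext ((hR.sh b).tw_pw τ m), funext (hR.tw_sh b m)]
    exact van_pi (h _ (by omega))
  intro q
  induction q with
  | zero =>
    intro hq W _ _ E H
    obtain ⟨τ, _, b, W'', _, _, E'', a, c, h2, -⟩ := H.emb hR
    obtain ⟨m₀, h⟩ := h1 0 hq τ b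
    exact ⟨m₀, fun m hm => h2.zero ((hR.sh b).pw τ) (h m hm)⟩
  | succ q ih =>
    intro hq W _ _ E H
    obtain ⟨τ, _, b, W'', _, _, E'', a, c, h2, h3⟩ := H.emb hR
    obtain ⟨m₀, h⟩ := h1 _ hq τ b
    obtain ⟨m₁, h'⟩ := ih (by omega) W'' E'' h3
    exact ⟨max m₀ m₁, fun m hm =>
      h2.ker ((hR.sh b).pw τ) (h' m (le_of_max_le_right hm)) (h m (le_of_max_le_left hm))⟩

theorem fin_vb [Nonempty κ] (hR : Bun z R (oS R)) (k : Type) [Field k] [Algebra k F]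
    (h0 : FinG k z (oS R))
    {W : Type} [AddCommGroup W] [Module F W] [Module k W] [IsScalarTower k F W]
    {E : κ → AddSubgroup W} (H : VB z R E) : FinG k z E := by
  obtain ⟨τ, _, b, W'', _, _, E'', a, c, h2, -⟩ := H.emb hR
  intro m
  obtain ⟨V, hV, h⟩ := h0 (b + m)
  have h1 : FiniteDimensional k (Submodule.pi (Set.univ : Set τ) fun _ => V) :=
    Module.Finite.iff_fg.2 (Submodule.fg_pi fun _ => Module.Finite.iff_fg.1 hV)
  refine ⟨(Submodule.pi Set.univ fun _ => V).comap (a.restrictScalars k), ?_,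
    fun w hw t _ => h _ fun i => ?_⟩
  · exact FiniteDimensional.of_injective ((a.restrictScalars k).submoduleComap _)
      fun x y e => Subtype.ext (h2.inj (congrArg Subtype.val e))
  · have h3 := hw i
    rw [h2.left] at h3
    have h4 := mem_sh.1 (mem_pw.1 h3 t)
    rw [zpow_add₀ (hR.ne i), mul_smul]
    simpa using h4

end Pool.Agent.ZFd
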