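import Pool.Agent.Lib.MP_751085_ag.ZF.E.Prj

/-! Vanishing theorems on a smooth finite cover of projective space. -/

namespace Pool.Agent.ZFd

open scoped Classical

variable {k F : Type} [Field k] [Field F] [Algebra k F] {p m n : ℕ} [Fact p.Prime] [CharP F p]
  {z : Fin (n + 1) → F} {A : Fin (n + 1) → Subring F}

theorem esz_prj (hk : FB p k) (hC : Cov p m z A) (hP : Prj k z A) :
    ∃ m₀ : ℤ, ∀ j, m₀ ≤ j → ∀ q, q < n → Van (tw z (oS A) j) q ∧ Van (tw z (wS A) j) q := by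
  obtain ⟨a, ha⟩ := esz_prj_o hk hC hP
  obtain ⟨b, hb⟩ := esz_prj_vb hk hC hP hC.vb_w
  exact ⟨max a b, fun j hj q hq => ⟨ha q hq j (le_of_max_le_left hj), hb q hq j (le_of_max_le_right hj)⟩⟩

theorem serre_prj (hk : FB p k) (hC : Cov p m z A) (hP : Prj k z A) :
    ∃ m₀ : ℤ, ∀ j, j ≤ m₀ → ∀ q, Van (tw z (oS A) j) (q + 1) ∧ Van (tw z (wS A) j) (q + 1) := by
  choose a ha using serre_prj_o hk hC hP
  choose b hb using serre_prj_vb hk hC hP hC.vb_w
  obtain ⟨c, hc⟩ := (Set.finite_range fun q : Fin (n + 1) => min (a q) (b q)).bddBelow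
  refine ⟨c, fun j hj q => ?_⟩
  by_cases hq : q < n + 1
  · have h := hj.trans (hc ⟨⟨q, hq⟩, rfl⟩)
    exact ⟨ha q j (h.trans (min_le_left _ _)), hb q j (h.trans (min_le_right _ _))⟩
  · have h : Fintype.card (Fin (n + 1)) ≤ q + 1 := by rw [Fintype.card_fin]; omega
    exact ⟨van_top hC.bun_o.tw_mono h, van_top hC.bun_w.tw_mono h⟩

theorem fin_prj (hk : FB p k) (hC : Cov p m z A) (hP : Prj k z A) :
    FinG k z (oS A) ∧ FinG k z (wS A) := ⟨fin_prj_o hk hC hP, fin_prj_vb hk hC hP hC.vb_w⟩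

end Pool.Agent.ZFd
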