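import Pool.Agent.Lib.MP_751085_ag.ZF.D.Defs

/-! Rings that are finite and projective over their `p`-th powers. -/

namespace Pool.Agent.ZFd

open scoped Classical Polynomial

variable {A B : Type} [CommRing A] [CommRing B] {p : ℕ} [Fact p.Prime]

theorem FB.equiv (h : FB p A) (e : A ≃+* B) : FB p B := by
  obtain ⟨τ, _, b, Φ, h1, h2⟩ := h
  refine ⟨τ, inferInstance, fun t => e (b t), fun t => (e.toAddMonoidHom.comp (Φ t)).comp
    e.symm.toAddMonoidHom, fun t s c => ?_, fun s => ?_⟩
  · show e (Φ t (e.symm (s * c ^ p))) = e (Φ t (e.symm s)) * c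
    rw [map_mul, map_pow, h1, map_mul, e.apply_symm_apply]
  · show s = ∑ t, e (Φ t (e.symm s)) ^ p * e (b t)
    conv_lhs => rw [← e.apply_symm_apply s, h2 (e.symm s)]
    simp only [map_sum, map_mul, map_pow]

omit [Fact p.Prime] in
theorem fb_map (φ : A →+ A) (hp : 0 < p) (i : ℕ) :
    ∃ Ψ : A[X] →+ A[X], ∀ f n, (Ψ f).coeff n = φ (f.coeff (p * n + i)) := by
  have H : ∀ f : A[X], ∃ g : A[X], ∀ n, g.coeff n = φ (f.coeff (p * n + i)) := fun f => by
    refine ⟨∑ n ∈ Finset.range (f.natDegree + 1),
      Polynomial.monomial n (φ (f.coeff (p * n + i))), fun n => ?_⟩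
    simp only [Polynomial.finsetSum_coeff, Polynomial.coeff_monomial, Finset.sum_ite_eq',
      Finset.mem_range]
    split_ifs with hn
    · rfl
    · have : n ≤ p * n := Nat.le_mul_of_pos_left n hp
      rw [Polynomial.coeff_eq_zero_of_natDegree_lt (by omega), map_zero]
  choose g hg using H
  exact ⟨AddMonoidHom.mk' g fun f f' => Polynomial.ext fun n => by
    simp only [hg, Polynomial.coeff_add, map_add], hg⟩

/-- basis `C (e t) * X ^ i`, `i < p`; the coefficient map sends `f` to the polynomial with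
coefficients `Φ t (f.coeff (p * n + i))` -/
theorem FB.poly [CharP A p] (h : FB p A) : FB p A[X] := by
  obtain ⟨τ, _, b, Φ, h1, h2⟩ := h
  have hp := (Fact.out : p.Prime).pos
  choose Ψ hΨ using fun z : τ × Fin p => fb_map (Φ z.1) hp z.2
  refine ⟨τ × Fin p, inferInstance, fun z => Polynomial.C (b z.1) * Polynomial.X ^ (z.2 : ℕ), Ψ,
    fun z s c => ?_, fun s => ?_⟩
  · induction c using Polynomial.induction_on' with
    | add c c' hc hc' => rw [add_pow_char, mul_add, map_add, hc, hc', mul_add]
    | monomial m a =>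
      ext n
      rw [← Polynomial.C_mul_X_pow_eq_monomial, mul_pow, ← map_pow, ← pow_mul, ← mul_assoc,
        ← mul_assoc, hΨ, Polynomial.coeff_mul_X_pow', Polynomial.coeff_mul_X_pow',
        Polynomial.coeff_mul_C, Polynomial.coeff_mul_C, hΨ]
      have hz := z.2.2
      by_cases hm : m ≤ n
      · obtain ⟨k, rfl⟩ := Nat.exists_eq_add_of_le hm
        have e : p * (m + k) + z.2 = m * p + (p * k + z.2) := by ring
        rw [if_pos hm, e, if_pos (Nat.le_add_right _ _), Nat.add_sub_cancel_left,
          Nat.add_sub_cancel_left, h1]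
      · rw [if_neg hm, if_neg, map_zero]
        have : (n + 1) * p ≤ m * p := Nat.mul_le_mul_right p (by omega)
        rw [add_mul, mul_comm n p] at this
        omega
  · ext k
    rw [Polynomial.finsetSum_coeff, Fintype.sum_prod_type, h2 (s.coeff k)]
    refine Finset.sum_congr rfl fun t _ => ?_
    simp only [← mul_assoc, Polynomial.coeff_mul_X_pow', Polynomial.coeff_mul_C,
      ← Polynomial.map_frobenius_expand, Polynomial.coeff_map, Polynomial.coeff_expand hp, hΨ]
    rw [Finset.sum_eq_single (⟨k % p, Nat.mod_lt _ hp⟩ : Fin p)]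
    · have e : k - k % p = p * (k / p) := by
        have := Nat.div_add_mod k p
        omega
      simp only [if_pos (Nat.mod_le k p), e, dvd_mul_right, if_true, Nat.mul_div_cancel_left _ hp,
        Nat.div_add_mod, frobenius_def]
    · intro i _ hi
      split_ifs with h3 h4
      · obtain ⟨q, hq⟩ := h4
        refine absurd (Fin.ext ?_) hi
        show (i : ℕ) = k % p
        rw [show k = i + p * q by omega, Nat.add_mul_mod_self_left, Nat.mod_eq_of_lt i.2]
      · rw [map_zero, zero_mul]
      · rfl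
    · simp

theorem FB.mvPoly [CharP A p] (h : FB p A) (n : ℕ) : FB p (MvPolynomial (Fin n) A) := by
  induction n with
  | zero => exact h.equiv (MvPolynomial.isEmptyRingEquiv A (Fin 0)).symm
  | succ n ih => exact ih.poly.equiv (MvPolynomial.finSuccEquiv A n).symm.toRingEquiv

variable {ι J : Type} [Fintype ι] [Fintype J]

/-- Frobenius is flat: induction on `e`; apply `Φ t` to the relation. -/
theorem FB.syz [CharP A p] (h : FB p A) {f : ι → A} {s : ι → J → A}
    (hs : ∀ b : ι → A, ∑ i, f i * b i = 0 → ∃ μ : J → A, ∀ i, b i = ∑ j, s i j * μ j) (e : ℕ)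
    (b : ι → A) (hb : ∑ i, f i ^ p ^ e * b i = 0) :
    ∃ μ : J → A, ∀ i, b i = ∑ j, s i j ^ p ^ e * μ j := by
  obtain ⟨τ, _, g, Φ, h1, h2⟩ := h
  induction e generalizing b with
  | zero => simpa using hs b (by simpa using hb)
  | succ e ih =>
    have H : ∀ t, ∑ i, f i ^ p ^ e * Φ t (b i) = 0 := fun t => by
      have := congrArg (Φ t) hb
      simp only [map_sum, map_zero, pow_succ, pow_mul, mul_comm _ (b _), h1] at this
      simpa only [mul_comm] using this
    choose μ hμ using fun t => ih _ (H t)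
    refine ⟨fun j => ∑ t, μ t j ^ p * g t, fun i => ?_⟩
    rw [h2 (b i)]
    simp only [hμ, sum_pow_char, Finset.sum_mul, Finset.mul_sum, mul_pow, pow_succ, pow_mul,
      mul_assoc]
    exact Finset.sum_comm

/-- Tight closure is trivial. Let `I` be the ideal of the `b` with `b * x i = ∑ j, s i j * y j` for
some `y`. By induction on `e`, for all `c`: the hypothesis for `e` gives `c ∈ I ^ (e + 1)` (apply
`Φ t`, then `c = ∑ Φ t c ^ p * e t`). `Ideal.iInf_pow_eq_bot_of_isDomain`. -/
theorem FB.tight [CharP A p] [IsDomain A] [IsNoetherianRing A] (h : FB p A) {x : ι → A}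
    {s : ι → J → A} {c : A} (hc : c ≠ 0)
    (H : ∀ e : ℕ, ∃ y : J → A, ∀ i, c * x i ^ p ^ e = ∑ j, s i j ^ p ^ e * y j) :
    ∃ y : J → A, ∀ i, x i = ∑ j, s i j * y j := by
  obtain ⟨τ, _, g, Φ, h1, h2⟩ := h
  have hp := (Fact.out : p.Prime).two_le
  let I : Ideal A :=
    { carrier := {b | ∃ y : J → A, ∀ i, b * x i = ∑ j, s i j * y j}
      add_mem' := by
        rintro a b ⟨y, hy⟩ ⟨y', hy'⟩
        exact ⟨y + y', fun i => by
          simp only [add_mul, hy, hy', Pi.add_apply, mul_add, Finset.sum_add_distrib]⟩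
      zero_mem' := ⟨0, fun i => by simp⟩
      smul_mem' := by
        rintro a b ⟨y, hy⟩
        exact ⟨fun j => a * y j, fun i => by
          simp only [smul_eq_mul, mul_assoc, hy, Finset.mul_sum, mul_left_comm]⟩ }
  have key : ∀ (e : ℕ) (c : A), (∃ y : J → A, ∀ i, c * x i ^ p ^ e = ∑ j, s i j ^ p ^ e * y j) →
      c ∈ I ^ (e + 1) := fun e => by
    induction e with
    | zero =>
      rintro c ⟨y, hy⟩
      rw [zero_add, pow_one]
      exact ⟨y, by simpa using hy⟩
    | succ e ih =>
      rintro c ⟨y, hy⟩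
      rw [h2 c]
      refine Ideal.sum_mem _ fun t _ => Ideal.mul_mem_right _ _ ?_
      have h3 : Φ t c ∈ I ^ (e + 1) := ih _ ⟨fun j => Φ t (y j), fun i => by
        have := congrArg (Φ t) (hy i)
        simp only [map_sum, pow_succ, pow_mul, mul_comm _ (y _), h1] at this
        simpa only [mul_comm] using this⟩
      have h4 := Ideal.pow_mem_pow h3 p
      rw [← pow_mul] at h4
      refine Ideal.pow_le_pow_right ?_ h4
      have := Nat.mul_le_mul_left (e + 1) hp
      omega
  by_cases hI : I = ⊤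
  · obtain ⟨y, hy⟩ : (1 : A) ∈ I := hI ▸ Submodule.mem_top
    exact ⟨y, by simpa using hy⟩
  · refine absurd ?_ hc
    rw [← Ideal.mem_bot, ← Ideal.iInf_pow_eq_bot_of_isDomain I hI, Ideal.mem_iInf]
    exact fun n => Ideal.pow_le_pow_right (Nat.le_succ n) (key n c (H n))

end Pool.Agent.ZFd
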