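import Pool.Agent.Lib.MP_751085_ag.ZF.E.Fb
import Pool.Agent.Lib.MP_751085_ag.ZF.D.PB2

/-! A smooth ring that is finite over a smooth ring is projective. -/

namespace Pool.Agent.ZFd

open scoped Classical

variable {L F W : Type} [Field L] [Field F] [AddCommGroup W] [Module L W]

/-- extension of a linear functional to the fractions: `l w = g (s • w) / s` -/
theorem mir_ext {R : Subring L} (hR : ∀ y : L, ∃ s ∈ R, s ≠ 0 ∧ s * y ∈ R) {M : AddSubgroup W}
    (hM : ∀ a ∈ R, ∀ w ∈ M, a • w ∈ M) (hW : ∀ w : W, ∃ s ∈ R, s ≠ 0 ∧ s • w ∈ M) (g : M →+ L)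
    (hg : ∀ (a : L) (ha : a ∈ R) (w : M), g ⟨a • (w : W), hM a ha w w.2⟩ = a * g w) :
    ∃ l : W →ₗ[L] L, ∀ w : M, l w = g w := by
  choose s h1 h2 h3 using hW
  have key : ∀ a ∈ R, ∀ (w : W) (h : a • w ∈ M),
      g ⟨a • w, h⟩ = a * (g ⟨s w • w, h3 w⟩ / s w) := fun a ha w h => by
    rw [← mul_div_assoc, eq_div_iff (h2 w), ← hg a ha, mul_comm, ← hg _ (h1 w)]
    exact congrArg g (Subtype.ext (smul_comm _ _ _))
  refine ⟨⟨⟨fun w => g ⟨s w • w, h3 w⟩ / s w, fun v w => ?_⟩, fun a w => ?_⟩, fun w => ?_⟩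
  · have hm := R.mul_mem (h1 v) (h1 w)
    have a1 : (s v * s w) • v ∈ M := by
      rw [mul_comm, mul_smul]
      exact hM _ (h1 w) _ (h3 v)
    have a2 : (s v * s w) • w ∈ M := by
      rw [mul_smul]
      exact hM _ (h1 v) _ (h3 w)
    refine mul_left_cancel₀ (mul_ne_zero (h2 v) (h2 w)) ?_
    rw [mul_add, ← key _ hm v a1, ← key _ hm w a2, ← map_add,
      ← key _ hm (v + w) (smul_add (s v * s w) v w ▸ M.add_mem a1 a2)]
    exact congrArg g (Subtype.ext (smul_add _ _ _))
  · obtain ⟨t, t1, t2, t3⟩ := hR a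
    have e : (t * s w) • a • w = (t * a) • s w • w := by
      rw [smul_smul, smul_smul, mul_right_comm]
    refine mul_left_cancel₀ (mul_ne_zero t2 (h2 w)) ?_
    have h4 := hg _ t3 ⟨_, h3 w⟩
    have h5 := h2 w
    dsimp only at h4 ⊢
    rw [← key _ (R.mul_mem t1 (h1 w)) _ (e ▸ hM _ t3 _ (h3 w))]
    refine ((congrArg g (Subtype.ext e)).trans h4).trans ?_
    rw [RingHom.id_apply, smul_eq_mul]
    field_simp
  · have h4 := key 1 R.one_mem w (hM _ R.one_mem _ w.2)
    rw [one_mul] at h4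
    exact h4.symm.trans (congrArg g (Subtype.ext (one_smul _ _)))

/-- generic freeness: a basis of `W` inside `M` and a common denominator of the coordinates of
the generators -/
theorem mir_gen {R : Subring L} (hR : ∀ y : L, ∃ s ∈ R, s ≠ 0 ∧ s * y ∈ R) {M : Submodule R W}
    (hf : M.FG) (hW : ∀ w : W, ∃ s ∈ R, s ≠ 0 ∧ s • w ∈ M) :
    ∃ (τ : Type) (_ : Fintype τ) (b : τ → W) (l : τ → W →ₗ[L] L) (c : L), c ∈ R ∧ c ≠ 0 ∧
      (∀ t, b t ∈ M) ∧ (∀ t, ∀ w ∈ M, l t w ∈ R) ∧ ∀ w, ∑ t, l t w • b t = c • w := by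
  obtain ⟨S, rfl⟩ := hf
  obtain ⟨b, h1, h2, h3⟩ := exists_linearIndependent L (S : Set W)
  have h4 : ⊤ ≤ Submodule.span L (Set.range ((↑) : b → W)) := fun w _ => by
    obtain ⟨s, -, s2, s3⟩ := hW w
    rw [Subtype.range_coe, h2, ← Submodule.smul_mem_iff _ s2]
    exact Submodule.span_subset_span R L _ s3
  have : Fintype b := (S.finite_toSet.subset h1).fintype
  obtain ⟨c, c1, c2, c3⟩ := (isLoc_top hR).common
    (z := fun x : b × S => (Module.Basis.mk h3 h4).coord x.1 x.2) fun _ => trivial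
  refine ⟨b, this, (↑), fun t => c • (Module.Basis.mk h3 h4).coord t, c, c1, c2.2.1,
    fun t => Submodule.subset_span (h1 t.2), fun t w hw => ?_, fun w => ?_⟩
  · induction hw using Submodule.span_induction with
    | mem x hx => exact c3 (t, ⟨x, hx⟩)
    | zero => rw [map_zero]; exact R.zero_mem
    | add x y _ _ hx hy => rw [map_add]; exact R.add_mem hx hy
    | smul a x _ hx => rw [Subring.smul_def, map_smul]; exact R.mul_mem a.2 hx
  · conv_rhs => rw [← (Module.Basis.mk h3 h4).sum_repr w, Finset.smul_sum]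
    simp [mul_smul]

/-- a flat finite module over a noetherian ring has a dual basis -/
theorem db_of_flat {R : Subring L} [IsNoetherianRing R]
    (hR : ∀ y : L, ∃ s ∈ R, s ≠ 0 ∧ s * y ∈ R) {M : Submodule R W} (hf : M.FG) [Module.Flat R M]
    (hW : ∀ w : W, ∃ s ∈ R, s ≠ 0 ∧ s • w ∈ M) : DB R M.toAddSubgroup := by
  have := Module.Finite.iff_fg.2 hf
  have := Module.finitePresentation_of_finite R M
  have : Module.Projective R M := Module.Flat.projective_of_finitePresentation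
  obtain ⟨n, f, g, -, -, e⟩ := Module.Finite.exists_comp_eq_id_of_projective R M
  have hM : ∀ a ∈ R, ∀ w ∈ M.toAddSubgroup, a • w ∈ M.toAddSubgroup :=
    fun a ha w hw => M.smul_mem ⟨a, ha⟩ hw
  choose l hl using fun t : Fin n => mir_ext hR hM hW
    (R.subtype.toAddMonoidHom.comp (LinearMap.proj t ∘ₗ g).toAddMonoidHom) fun a ha w =>
      congrArg Subtype.val ((LinearMap.proj t ∘ₗ g).map_smul ⟨a, ha⟩ w)
  refine ⟨hM, Fin n, inferInstance, fun t => f (Pi.single t 1), l, fun t => (f _).2,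
    fun t x hx => ?_, fun x => ?_⟩
  · rw [hl t ⟨x, hx⟩]
    exact (g ⟨x, hx⟩ t).2
  · obtain ⟨s, -, s2, s3⟩ := hW x
    refine smul_right_injective W s2 ?_
    have h1 := congrArg Subtype.val (LinearMap.congr_fun e ⟨_, s3⟩)
    rw [LinearMap.comp_apply, f.pi_apply_eq_sum_univ, Submodule.coe_sum] at h1
    refine Eq.trans ?_ h1
    dsimp only
    rw [Finset.smul_sum]
    refine Finset.sum_congr rfl fun t _ => ?_
    rw [smul_smul, ← smul_eq_mul, ← map_smul, hl t ⟨_, s3⟩]
    congr 3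
    funext j
    rw [Pi.single_apply]
    exact if_congr eq_comm rfl rfl

variable [Algebra L F] {p m : ℕ} [Fact p.Prime] [CharP F p]

omit [Fact p.Prime] [CharP F p] in
theorem mir_den {R : Subring L} {A : Subring F} (hA : Sm p m A) {M : Submodule R F} (hf : M.FG)
    (hs : ∀ x, x ∈ A ↔ x ∈ M) (w : F) : ∃ s ∈ R, s ≠ 0 ∧ s • w ∈ M := by
  let B : Subalgebra R F := { A with
    algebraMap_mem' := fun r => (hs _).2 (by
      rw [Algebra.algebraMap_eq_smul_one]
      exact M.smul_mem r ((hs 1).1 A.one_mem)) }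
  have : Module.Finite R B := Module.Finite.iff_fg.2
    (show B.toSubmodule.FG by rwa [show B.toSubmodule = M from Submodule.ext hs])
  obtain ⟨a, ha, h0, hw⟩ := hA.frac w
  obtain ⟨r, hr, c, hc⟩ := (Algebra.IsIntegral.isIntegral (R := R)
    (⟨a, ha⟩ : B)).isAlgebraic.exists_nonzero_dvd
    (mem_nonZeroDivisors_of_ne_zero fun h => h0 (congrArg Subtype.val h))
  refine ⟨r, r.2, fun h => hr (Subtype.ext h), (hs _).1 ?_⟩
  have h1 : algebraMap L F r = a * c := congrArg Subtype.val hc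
  rw [Algebra.smul_def, h1, mul_right_comm]
  exact A.mul_mem hw c.2

/-- miracle flatness -/
theorem db_mir {R : Subring L} [IsNoetherianRing R] (hR : ∀ y : L, ∃ s ∈ R, s ≠ 0 ∧ s * y ∈ R)
    (hF : FB p R) {A : Subring F} (hA : Sm p m A) {s : Finset F}
    (hs : (A : Set F) = Submodule.span R (s : Set F)) : DB (F := L) R A.toAddSubgroup := by
  have hm : ∀ x, x ∈ A ↔ x ∈ Submodule.span R (s : Set F) := Set.ext_iff.1 hs
  have hf : (Submodule.span R (s : Set F)).FG := ⟨s, rfl⟩
  have hW := mir_den hA hf hm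
  generalize Submodule.span R (s : Set F) = M at hm hf hW
  rw [show A.toAddSubgroup = M.toAddSubgroup from AddSubgroup.ext hm]
  suffices Module.Flat R M from db_of_flat hR hf hW
  have : CharP L p := (Algebra.charP_iff L F p).2 inferInstance
  have hφ : ∀ a ∈ R, algebraMap L F a ∈ A := fun a ha => (hm _).2 (by
    rw [Algebra.algebraMap_eq_smul_one]
    exact M.smul_mem ⟨a, ha⟩ ((hm 1).1 A.one_mem))
  obtain ⟨τ, _, b, l, c, c1, c2, h1, h2, h3⟩ := mir_gen hR hf hW
  refine Module.Flat.of_forall_isTrivialRelation fun {k f x} hx => ?_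
  obtain ⟨n, σ, hσ⟩ := Submodule.fg_iff_exists_fin_generating_family.1
    (IsNoetherian.noetherian (LinearMap.ker (Fintype.linearCombination R f)))
  have hk : ∀ v : Fin k → R, v ∈ Submodule.span R (Set.range σ) ↔ ∑ i, f i * v i = 0 := fun v => by
    simp only [hσ, LinearMap.mem_ker, Fintype.linearCombination_apply, smul_eq_mul, mul_comm]
  have hq : ∀ e : ℕ, ∃ y : Fin n → F, (∀ j, y j ∈ A) ∧ ∀ i, algebraMap L F c * (x i : F) ^ p ^ e =
      ∑ j, algebraMap L F (σ j i) ^ p ^ e * y j := fun e => by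
    have a1 : ∀ i, (x i : F) ^ p ^ e ∈ M := fun i => (hm _).1 (A.pow_mem ((hm _).2 (x i).2) _)
    have a2 : ∑ i, (f i : L) ^ p ^ e • (x i : F) ^ p ^ e = 0 := by
      have a3 := congrArg (fun z : M => (z : F) ^ p ^ e) hx
      simp only [Submodule.coe_sum, Submodule.coe_smul, Subring.smul_def, sum_pow_char_pow,
        smul_pow] at a3
      rw [a3, Submodule.coe_zero, zero_pow (pow_ne_zero e (Fact.out : p.Prime).ne_zero)]
    choose μ hμ using fun t => hF.syz (f := f) (s := fun i j => σ j i) (fun v hv => by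
      obtain ⟨μ, rfl⟩ := (Submodule.mem_span_range_iff_exists_fun R).1 ((hk v).2 hv)
      exact ⟨μ, fun i => by simp [mul_comm]⟩) e (fun i => ⟨_, h2 t _ (a1 i)⟩) (Subtype.ext (by
        have a3 := congrArg (l t) a2
        simp only [map_sum, map_smul, map_zero, smul_eq_mul] at a3
        simpa using a3))
    refine ⟨fun j => ∑ t, μ t j • b t, fun j => (hm _).2
      (M.sum_mem fun t _ => M.smul_mem _ (h1 t)), fun i => ?_⟩
    have a4 : ∀ t, l t ((x i : F) ^ p ^ e) = ∑ j, (σ j i : L) ^ p ^ e * μ t j := fun t => by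
      simpa using congrArg Subtype.val (hμ t i)
    rw [← Algebra.smul_def, ← h3]
    simp only [a4, Finset.sum_smul, Finset.mul_sum, ← map_pow, ← Algebra.smul_def,
      Subring.smul_def, mul_smul]
    exact Finset.sum_comm
  obtain ⟨y, y1, y2⟩ := mem_of_loc (μ := RingHom.id F) (A := A) (w := fun i => (x i : F))
    (M := (AddSubgroup.pi Set.univ fun _ => A.toAddSubgroup).map
      (Matrix.of fun i j => algebraMap L F (σ j i)).mulVecLin.toAddMonoidHom)
    (by
      rintro a ha _ ⟨y, hy, rfl⟩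
      exact ⟨a • y, fun j _ => A.mul_mem ha (hy j trivial), (Matrix.mulVecLin _).map_smul a y⟩)
    fun O hO => by
      obtain ⟨u, hu⟩ := hA.pb O hO
      have := (hA.reg hO).1.noeth
      obtain ⟨y, hy⟩ := hu.fb.tight (x := fun i => ⟨x i, hO.le ((hm _).2 (x i).2)⟩)
        (s := fun i j => ⟨_, hO.le (hφ _ (σ j i).2)⟩) (c := ⟨_, hO.le (hφ c c1)⟩)
        (fun h => c2 ((map_eq_zero _).1 (congrArg Subtype.val h))) fun e => by
          obtain ⟨y, y1, y2⟩ := hq e
          exact ⟨fun j => ⟨y j, hO.le (y1 j)⟩, fun i => Subtype.ext (by simpa using y2 i)⟩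
      obtain ⟨a, a1, a2, a3⟩ := hO.common fun j => (y j).2
      refine ⟨a, a1, a2, fun j => a * y j, fun j _ => a3 j, funext fun i => ?_⟩
      have a4 : (x i : F) = ∑ j, algebraMap L F (σ j i) * y j := by
        simpa using congrArg Subtype.val (hy i)
      change ∑ j, algebraMap L F (σ j i) * (a * y j) = a * x i
      simp only [a4, Finset.mul_sum, mul_left_comm]
  refine ⟨n, fun i j => σ j i, fun j => ⟨y j, (hm _).1 (y1 j trivial)⟩, fun i => Subtype.ext ?_,
    fun j => (hk _).1 (Submodule.subset_span ⟨j, rfl⟩)⟩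
  refine (congrFun y2 i).symm.trans ?_
  rw [Submodule.coe_sum]
  change ∑ j, algebraMap L F (σ j i) * y j = ∑ j, (σ j i : L) • y j
  simp only [Algebra.smul_def]

end Pool.Agent.ZFd
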