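import Pool.Agent.Lib.MP_751085_ag.ZF.E.Pn
import Pool.Agent.Lib.MP_751085_ag.ZF.E.Fb

/-! The coordinate rings of projective space. -/

namespace Pool.Agent.ZFd

open scoped Classical

variable {k F : Type} [Field k] [Field F] [Algebra k F] {n : ℕ} {z : Fin (n + 1) → F}

/-- the exponent vector of a monomial in the `z j / z i` -/
noncomputable def pnb_ev (i : Fin (n + 1)) (d : Fin n →₀ ℕ) : Ev n 0 :=
  ⟨Fin.insertNth (α := fun _ => ℤ) i (-∑ j, (d j : ℤ)) (fun j => (d j : ℤ)), by
    rw [Fin.sum_univ_succAbove _ i]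
    simp⟩

theorem pnb_ev_inj (i : Fin (n + 1)) : Function.Injective (pnb_ev (n := n) i) := by
  intro d d' h
  ext j
  have := congrFun (congrArg Subtype.val h) (i.succAbove j)
  simpa [pnb_ev] using this

theorem pnb_lm (hz : ∀ i, z i ≠ 0) (i : Fin (n + 1)) (d : Fin n →₀ ℕ) :
    lm z (pnb_ev i d) = ∏ j, (z (i.succAbove j) / z i) ^ d j := by
  unfold lm
  rw [Fin.prod_univ_succAbove _ i]
  simp only [pnb_ev, Fin.insertNth_apply_same, Fin.insertNth_apply_succAbove, zpow_natCast,
    div_pow, Finset.prod_div_distrib, Finset.prod_pow_eq_pow_sum]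
  rw [← Nat.cast_sum, zpow_neg, zpow_natCast, div_eq_mul_inv, mul_comm]

/-- the monomials in these elements are distinct `lm z a` with `a : Ev n 0`; `lm_ind` -/
theorem ind_pR (hz : ∀ i, z i ≠ 0) (h : AlgebraicIndependent k fun j : Fin n => z j.succ / z 0)
    (i : Fin (n + 1)) : AlgebraicIndependent k fun j : Fin n => z (i.succAbove j) / z i := by
  have hl := (lm_ind hz h 0).comp _ (pnb_ev_inj i)
  rw [algebraicIndependent_iff]
  intro P hP
  rw [MvPolynomial.aeval_def, MvPolynomial.eval₂_eq'] at hP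
  ext d
  by_cases hd : d ∈ P.support
  · refine (linearIndependent_iff'.1 hl) P.support (fun d => P.coeff d) ?_ d hd
    rw [← hP]
    refine Finset.sum_congr rfl fun d _ => ?_
    rw [Function.comp_apply, pnb_lm hz, Algebra.smul_def]
  · simpa using hd

theorem pnb_pj (hz : ∀ i, z i ≠ 0) (i : Fin (n + 1)) :
    pj k z i = Algebra.adjoin k (Set.range fun j : Fin n => z (i.succAbove j) / z i) := by
  refine le_antisymm (Algebra.adjoin_le ?_) (Algebra.adjoin_mono ?_)
  · rintro _ ⟨j, rfl⟩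
    rcases Fin.eq_self_or_eq_succAbove i j with rfl | ⟨j, rfl⟩
    · show z j / z j ∈ _
      rw [div_self (hz j)]
      exact Subalgebra.one_mem _
    · exact Algebra.subset_adjoin ⟨j, rfl⟩
  · rintro _ ⟨j, rfl⟩
    exact ⟨_, rfl⟩

/-- `AlgebraicIndependent.aevalEquiv`, `z i / z i = 1`, `FB.mvPoly`, `FB.equiv` -/
theorem fb_pR {p : ℕ} [Fact p.Prime] [CharP F p] (hk : FB p k) (hz : ∀ i, z i ≠ 0)
    (h : AlgebraicIndependent k fun j : Fin n => z j.succ / z 0) (i : Fin (n + 1)) :
    FB p (pR k z i) := by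
  haveI : CharP k p := (algebraMap k F).charP (algebraMap k F).injective p
  have e := (ind_pR hz h i).aevalEquiv.trans (Subalgebra.equivOfEq _ _ (pnb_pj hz i).symm)
  exact (hk.mvPoly n).equiv (B := pj k z i) e.toRingEquiv

theorem noeth_pR (z : Fin (n + 1) → F) (i : Fin (n + 1)) : IsNoetherianRing (pR k z i) := by
  have hfg : (pj k z i).FG := Subalgebra.fg_def.2 ⟨_, Set.finite_range _, rfl⟩
  exact isNoetherianRing_of_fg hfg

theorem frac_pR (hz : ∀ i, z i ≠ 0)
    (h : IntermediateField.adjoin k (Set.range fun j => z j / z 0) = ⊤) (i : Fin (n + 1)) (y : F) :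
    ∃ s ∈ pR k z i, s ≠ 0 ∧ s * y ∈ pR k z i := by
  have h2 : IntermediateField.adjoin k (Set.range fun j => z j / z i) = ⊤ := by
    rw [eq_top_iff, ← h, IntermediateField.adjoin_le_iff]
    rintro _ ⟨j, rfl⟩
    have e : z j / z 0 = (z j / z i) / (z 0 / z i) := by
      rw [div_div_div_cancel_right₀ (hz i)]
    show z j / z 0 ∈ _
    rw [e]
    exact div_mem (IntermediateField.subset_adjoin _ _ ⟨j, rfl⟩)
      (IntermediateField.subset_adjoin _ _ ⟨0, rfl⟩)
  have hy : y ∈ IntermediateField.adjoin k (Set.range fun j => z j / z i) := by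
    rw [h2]; trivial
  obtain ⟨r, hr, s, hs, rfl⟩ := IntermediateField.mem_adjoin_iff_div.1 hy
  by_cases h0 : s = 0
  · exact ⟨1, one_mem _, one_ne_zero, by rw [h0, div_zero, mul_zero]; exact zero_mem _⟩
  · refine ⟨s, hs, h0, ?_⟩
    rw [mul_div_cancel₀ _ h0]
    exact hr

end Pool.Agent.ZFd
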