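import Pool.Agent.Lib.MP_751085_ag.ZF.E.Ser
import Pool.Agent.Lib.MP_751085_ag.ZF.E.PnB
import Pool.Agent.Lib.MP_751085_ag.ZF.E.Mir
import Pool.Agent.Lib.MP_751085_ag.ZF.E.DBo

/-! Vanishing theorems on a smooth finite cover of projective space. -/

namespace Pool.Agent.ZFd

open scoped Classical

variable {k F : Type} [Field k] [Field F] [Algebra k F] {p m n : ℕ} [Fact p.Prime] [CharP F p]
  {z : Fin (n + 1) → F} {A : Fin (n + 1) → Subring F}

variable (k z) in
/-- the function field of projective space -/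
abbrev prjL : IntermediateField k F := IntermediateField.adjoin k (Set.range fun j => z j / z 0)

variable (k z) in
/-- the coordinates -/
def prjz (j : Fin (n + 1)) : prjL k z := ⟨z j / z 0, IntermediateField.subset_adjoin k _ ⟨j, rfl⟩⟩

omit [Fact p.Prime] [CharP F p] in
theorem prj_div (hz : ∀ i, z i ≠ 0) (i j : Fin (n + 1)) :
    ((prjz k z j / prjz k z i : prjL k z) : F) = z j / z i := by
  have h : ((prjz k z j / prjz k z i : prjL k z) : F) = (z j / z 0) / (z i / z 0) := rfl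
  rw [h, div_div_div_cancel_right₀ (hz 0)]

theorem prj_ne (hz : ∀ i, z i ≠ 0) (i : Fin (n + 1)) : prjz k z i ≠ 0 := fun h =>
  div_ne_zero (hz i) (hz 0) (congrArg Subtype.val h)

theorem prj_ind (hz : ∀ i, z i ≠ 0) (hP : Prj k z A) :
    AlgebraicIndependent k fun j : Fin n => prjz k z j.succ / prjz k z 0 := by
  refine AlgebraicIndependent.of_comp (prjL k z).val ?_
  have h : ((prjL k z).val ∘ fun j : Fin n => prjz k z j.succ / prjz k z 0) =
      fun j : Fin n => z j.succ / z 0 := funext fun j => prj_div hz 0 j.succ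
  rw [h]
  exact hP.ind

theorem prj_top (hz : ∀ i, z i ≠ 0) :
    IntermediateField.adjoin k (Set.range fun j => prjz k z j / prjz k z 0) = ⊤ := by
  apply IntermediateField.lift_injective
  rw [IntermediateField.lift_top, IntermediateField.lift_adjoin, ← Set.range_comp]
  congr 2
  exact funext fun j => prj_div hz 0 j

theorem prj_mem (hz : ∀ i, z i ≠ 0) (i : Fin (n + 1)) {a : F} :
    a ∈ pj k z i ↔ ∃ b ∈ pR k (prjz k z) i, (b : F) = a := by
  have h : (pj k (prjz k z) i).map (prjL k z).val = pj k z i := by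
    rw [pj, AlgHom.map_adjoin, ← Set.range_comp]
    congr 2
    exact funext fun j => prj_div hz i j
  rw [← h, Subalgebra.mem_map]
  rfl

theorem prj_span (hz : ∀ i, z i ≠ 0) (i : Fin (n + 1)) (s : Set F) :
    (Submodule.span (pj k z i) s : Set F) = Submodule.span (pR k (prjz k z) i) s := by
  ext x
  constructor
  · intro hx
    induction hx using Submodule.span_induction with
    | mem x hx => exact Submodule.subset_span hx
    | zero => exact Submodule.zero_mem _
    | add x y _ _ hx hy => exact Submodule.add_mem _ hx hy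
    | smul a x _ hx =>
      obtain ⟨b, hb, h⟩ := (prj_mem hz i).1 a.2
      have h1 : a • x = (⟨b, hb⟩ : pR k (prjz k z) i) • x := by
        change (a : F) * x = (b : F) * x
        rw [h]
      rw [h1]
      exact Submodule.smul_mem _ _ hx
  · intro hx
    induction hx using Submodule.span_induction with
    | mem x hx => exact Submodule.subset_span hx
    | zero => exact Submodule.zero_mem _
    | add x y _ _ hx hy => exact Submodule.add_mem _ hx hy
    | smul a x _ hx =>
      exact Submodule.smul_mem (Submodule.span (pj k z i) s)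
        ⟨((a : prjL k z) : F), (prj_mem hz i).2 ⟨a, a.2, rfl⟩⟩ hx

theorem prj_vb (hk : FB p k) (hC : Cov p m z A) (hP : Prj k z A) :
    VB (prjz k z) (pR k (prjz k z)) (oS A) := by
  have hz := prj_ne (k := k) hC.ne
  have : CharP (prjL k z) p := (algebraMap (prjL k z) F).charP (algebraMap (prjL k z) F).injective p
  refine ⟨⟨hz, (bun_pR hz).mem, fun i a ha w hw => ?_, fun i j w hw => ?_⟩, fun i => ?_⟩
  · exact (A i).mul_mem (hP.le i ((prj_mem hC.ne i).2 ⟨a, ha, rfl⟩)) hw
  · obtain ⟨N, h⟩ := hC.cmp i j w hw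
    refine ⟨N, ?_⟩
    rw [← prj_div (k := k) hC.ne] at h
    exact h
  · obtain ⟨s, hs⟩ := hP.fin i
    have := noeth_pR (k := k) (prjz k z) i
    exact db_mir (frac_pR hz (prj_top hC.ne) i) (fb_pR hk hz (prj_ind hC.ne hP) i) (hC.sm i)
      (hs.trans (prj_span hC.ne i s))

omit [Fact p.Prime] [CharP F p] in
theorem prj_van (hC : Cov p m z A) {j : ℤ} {q : ℕ} (h : Van (tw (prjz k z) (oS A) j) q) :
    Van (tw z (oS A) j) q := by
  have h0 := hC.ne 0
  have e : ∀ i l, z l / z 0 / (z i / z 0) = z l / z i := fun i l => div_div_div_cancel_right₀ h0 _ _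
  have H : Bun (fun i => z i / z 0) A (oS A) :=
    ⟨fun i => div_ne_zero (hC.ne i) h0, fun i l => (e i l).symm ▸ hC.mem i l, hC.bun_o.smul,
      fun i l w hw => by simpa only [e] using hC.cmp i l w hw⟩
  have h1 : tw (prjz k z) (oS A) j = tw (fun i => z i / z 0) (oS A) j := by
    funext s
    unfold tw
    congr 1
    ext w
    refine exists_congr fun i => and_congr_right fun _ => exists_congr fun N => ?_
    rw [Algebra.smul_def, map_mul, map_pow, map_prod, map_zpow₀, smul_eq_mul]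
    simp only [apply_ite (algebraMap (prjL k z) F), map_one]
    rfl
  have h2 : z = fun i => z 0 * (z i / z 0) := funext fun i => (mul_div_cancel₀ _ h0).symm
  rw [h2, H.van_scale h0, ← h1]
  exact h

theorem prj_unif {P : ℕ → ℤ → Prop} (h : ∀ q < n, ∃ a : ℤ, ∀ j, a ≤ j → P q j) :
    ∃ a : ℤ, ∀ q < n, ∀ j, a ≤ j → P q j := by
  choose a ha using fun q : Fin n => h q q.2
  obtain ⟨c, hc⟩ := (Set.finite_range a).bddAbove
  exact ⟨c, fun q hq j hj => ha ⟨q, hq⟩ j ((hc ⟨_, rfl⟩).trans hj)⟩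

theorem esz_prj_o (hk : FB p k) (hC : Cov p m z A) (hP : Prj k z A) :
    ∃ m₀ : ℤ, ∀ q < n, ∀ j, m₀ ≤ j → Van (tw z (oS A) j) q := by
  have hz := prj_ne (k := k) hC.ne
  refine prj_unif fun q hq => ?_
  obtain ⟨a, ha⟩ := esz_vb (bun_pR (k := k) hz) n (fun q hq => ⟨1, fun j hj =>
    van_pR hz (prj_ind hC.ne hP) (fun _ => hj) (Or.inl hq)⟩) q hq F _ (prj_vb hk hC hP)
  exact ⟨a, fun j hj => prj_van hC (ha j hj)⟩

theorem serre_prj_o (hk : FB p k) (hC : Cov p m z A) (hP : Prj k z A) (q : ℕ) :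
    ∃ m₀ : ℤ, ∀ j, j ≤ m₀ → Van (tw z (oS A) j) (q + 1) := by
  have hz := prj_ne (k := k) hC.ne
  obtain ⟨a, ha⟩ := serre_vb (bun_pR (k := k) hz) (fun q => ⟨n, fun j hj =>
    van_pR hz (prj_ind hC.ne hP) (fun h => absurd h q.succ_ne_zero) (Or.inr hj)⟩) q F _
      (prj_vb hk hC hP)
  exact ⟨a, fun j hj => prj_van hC (ha j hj)⟩

theorem fin_prj_o (hk : FB p k) (hC : Cov p m z A) (hP : Prj k z A) : FinG k z (oS A) := by
  have hz := prj_ne (k := k) hC.ne
  intro j
  obtain ⟨V, hV, h⟩ := fin_vb (bun_pR (k := k) hz) k (fin_pR hz (prj_ind hC.ne hP))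
    (prj_vb hk hC hP) j
  have h0 : z 0 ^ j ≠ 0 := zpow_ne_zero _ (hC.ne 0)
  refine ⟨V.map (LinearMap.mulLeft k (z 0 ^ j)⁻¹), inferInstance, fun w hw =>
    ⟨z 0 ^ j * w, h _ fun i => ?_, inv_mul_cancel_left₀ h0 w⟩⟩
  have e : prjz k z i ^ j • (z 0 ^ j * w) = z i ^ j • w := by
    rw [Algebra.smul_def, map_zpow₀, smul_eq_mul, ← mul_assoc, ← mul_zpow]
    exact congrArg (fun x => x ^ j * w) (div_mul_cancel₀ _ (hC.ne 0))
  rw [e]
  exact hw i

variable {W : Type} [AddCommGroup W] [Module F W] {E : Fin (n + 1) → AddSubgroup W}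

theorem esz_prj_vb (hk : FB p k) (hC : Cov p m z A) (hP : Prj k z A) (H : VB z A E) :
    ∃ m₀ : ℤ, ∀ q < n, ∀ j, m₀ ≤ j → Van (tw z E j) q := by
  obtain ⟨a, ha⟩ := esz_prj_o hk hC hP
  exact prj_unif fun q hq => esz_vb hC.bun_o n (fun q hq => ⟨a, ha q hq⟩) q hq W E H

theorem serre_prj_vb (hk : FB p k) (hC : Cov p m z A) (hP : Prj k z A) (H : VB z A E) (q : ℕ) :
    ∃ m₀ : ℤ, ∀ j, j ≤ m₀ → Van (tw z E j) (q + 1) :=
  serre_vb hC.bun_o (serre_prj_o hk hC hP) q W E H

theorem fin_prj_vb (hk : FB p k) (hC : Cov p m z A) (hP : Prj k z A) [Module k W]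
    [IsScalarTower k F W] (H : VB z A E) : FinG k z E :=
  fin_vb hC.bun_o k (fin_prj_o hk hC hP) H

end Pool.Agent.ZFd
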