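import Pool.Agent.Lib.MP_751085_ag.ZF.E.Cov
import Pool.Agent.Lib.MP_751085_ag.ZF.E.Aff
import Pool.Agent.Lib.MP_751085_ag.ZF.E.Prj

/-! Global classes of order `p` come from a finite dimensional space of forms. -/

namespace Pool.Agent.ZFd

open scoped Classical

variable {F κ B : Type} [Field F] [AddCommGroup B] {p m : ℕ} [Fact p.Prime] [CharP F p]

section

variable [Fintype κ] {z : κ → F} {A : κ → Subring F} {i₀ : κ} {M : ℕ}

omit [Fact p.Prime] [CharP F p] in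
/-- `(z i)⁻¹ = z i₀ / z i ∈ A i` -/
theorem Cov.tw_le (h : Cov p m z A) (h0 : z i₀ = 1) {n n' : ℤ} (hn : n' ≤ n) (s : Set κ) :
    tw z (wS A) n s ≤ tw z (wS A) n' s := by
  obtain ⟨d, rfl⟩ := Int.le.dest hn
  refine AddSubgroup.closure_mono ?_
  rintro w ⟨i, hi, N, hw⟩
  refine ⟨i, hi, N, ?_⟩
  have h1 := OmS_smul ((A i).pow_mem (h.mem i i₀) d) hw
  rwa [smul_smul, h0, zpow_add₀ (h.ne i), zpow_natCast, one_div, inv_pow, ← mul_assoc _ _ (z i ^ d),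
    mul_comm _ (z i ^ d), inv_mul_cancel_left₀ (pow_ne_zero d (h.ne i))] at h1

theorem Cov.wp_tw (h : Cov p m z A) (h0 : z i₀ = 1) {s : Set κ} {ψ : Om F}
    (hψ : ψ ∈ tw z (wS A) (-M) s) : wp p ψ ∈ (tw z (wS A) (-(p * M : ℕ)) s).map (mq p) := by
  rcases s.eq_empty_or_nonempty with rfl | ⟨i, hi⟩
  · rw [tw_empty, AddSubgroup.mem_bot] at hψ
    rw [hψ, map_zero]
    exact zero_mem _
  obtain ⟨ω, h1, h2⟩ := gam_mem (p := p) ((h.mem_tw_w hi).1 hψ)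
  have hz := h.ne i
  have hle : (-(p * M : ℕ) : ℤ) ≤ -M :=
    neg_le_neg (Int.ofNat_le.2 (Nat.le_mul_of_pos_left M (Fact.out : p.Prime).pos))
  refine ⟨(z i ^ M) ^ p • ω - ψ, sub_mem ((h.mem_tw_w hi).2 ?_) (h.tw_le h0 hle s hψ), ?_⟩
  · rwa [smul_smul, zpow_neg, zpow_natCast, ← pow_mul, mul_comm M p,
      inv_mul_cancel₀ (pow_ne_zero _ hz), one_smul]
  · rw [map_sub, ← smul_mq, h2, ← gam_smul, smul_smul, zpow_neg, zpow_natCast,
      mul_inv_cancel₀ (pow_ne_zero _ hz), one_smul, wp_apply]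

/-- vanishing for the exact forms -/
theorem Cov.van_ex (h : Cov p m z A) {n : ℤ} {q : ℕ} (h2 : Van (tw z (oS A) (p * n)) (q + 1))
    (h3 : Van (tw z (oS A) n) (q + 2)) : Van (fun s => tw z (wS A) (p * n) s ⊓ Ex F) (q + 1) := by
  have hp : ∀ i, z i ^ (p * n) = (z i ^ n) ^ p := fun i => by rw [mul_comm, zpow_mul, zpow_natCast]
  refine van_quot (dK (A := F)).toLinearMap.toAddMonoidHom h.bun_o.tw_mono (fun s => ?_)
    (fun _ => rfl) h2 (h3.map (frobenius F p).toAddMonoidHom (frobenius_inj F p) fun s => ?_)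
  · rcases s.eq_empty_or_nonempty with rfl | ⟨i, hi⟩
    · rw [tw_empty, tw_empty, bot_inf_eq, AddSubgroup.map_bot]
    have hz : (z i ^ n) ^ p ≠ 0 := pow_ne_zero _ (zpow_ne_zero _ (h.ne i))
    ext ω
    constructor
    · rintro ⟨h1, g, rfl⟩
      have h4 : dK ((z i ^ n) ^ p * g) ∈ OmS (rg A s) := by
        rw [d_pow_p_mul, ← hp]
        exact (h.mem_tw_w hi).1 h1
      obtain ⟨a, ha, e⟩ := (h.sm_rg ⟨i, hi⟩).exists_d h4
      refine ⟨(z i ^ n)⁻¹ ^ p * a, (h.mem_tw_o hi).2 ?_, ?_⟩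
      · rwa [hp, inv_pow, mul_inv_cancel_left₀ hz]
      · change dK _ = dK g
        rw [d_pow_p_mul, e, d_pow_p_mul, smul_smul, inv_pow, inv_mul_cancel₀ hz, one_smul]
    · rintro ⟨a, ha, rfl⟩
      refine ⟨(h.mem_tw_w hi).2 ?_, a, rfl⟩
      have h4 := d_mem ((h.mem_tw_o hi).1 ha)
      rwa [hp, d_pow_p_mul, ← hp] at h4
  · rcases s.eq_empty_or_nonempty with rfl | ⟨i, hi⟩
    · rw [tw_empty, tw_empty, bot_inf_eq, AddSubgroup.map_bot]
    obtain ⟨u, hu⟩ := (h.sm i).top.pb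
    ext a
    constructor
    · rintro ⟨h1, h4⟩
      obtain ⟨b, rfl⟩ := hu.eq_pow h4
      refine ⟨b, (h.mem_tw_o hi).2 ((h.sm_rg ⟨i, hi⟩).mem_of_pow ?_), rfl⟩
      rw [mul_pow, ← hp]
      exact (h.mem_tw_o hi).1 h1
    · rintro ⟨b, hb, rfl⟩
      refine ⟨(h.mem_tw_o hi).2 ?_, d_pow_p b⟩
      have h4 := (rg A s).pow_mem ((h.mem_tw_o hi).1 hb) p
      rwa [mul_pow, ← hp] at h4

omit [Fintype κ] in
/-- a family whose differences lie in a system without first cohomology -/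
theorem fin_split {W : Type} [AddCommGroup W] {S : Set κ → AddSubgroup W} (h : Van S 1)
    (w : κ → W) (hw : ∀ J : Fin 2 → κ, w (J 1) - w (J 0) ∈ S (Set.range J)) (i₀ : κ) :
    ∃ (c : W) (y : κ → W), (∀ i, y i ∈ S {i}) ∧ ∀ i, w i = c + y i := by
  obtain ⟨y, h1, h2⟩ := h (cd fun J : Fin 1 → κ => w (J 0))
    (fun J => by rw [cd_one]; exact hw J) (cd_cd _)
  refine ⟨w i₀ - y fun _ => i₀, fun i => y fun _ => i, fun i => ?_, fun i => ?_⟩
  · have h3 := h1 fun _ => i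
    rwa [Set.range_const] at h3
  · have h3 := congrFun h2 ![i₀, i]
    rw [cd_one, cd_one] at h3
    change (y fun _ => i) - (y fun _ => i₀) = w i - w i₀ at h3
    rw [sub_eq_iff_eq_add'.1 h3.symm]
    abel

/-- a class that is locally regular comes from a form with bounded poles -/
theorem Cov.fin_form (h : Cov p m z A) (h0 : z i₀ = 1) (h1 : Van (tw z (wS A) (-M)) 1)
    (h2 : Van (tw z (oS A) (-(p * M : ℕ))) 1) (h3 : Van (tw z (oS A) (-M)) 2) (x : Qm p F)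
    (hx : ∀ i, ∃ θ, x - wp p θ ∈ QS p (A i)) :
    ∃ ω θ, (∀ i, z i ^ (-(p * M : ℕ) : ℤ) • ω ∈ OmS (A i)) ∧ x - wp p θ = mq p ω := by
  choose φ hφ using hx
  obtain ⟨φ', g1, g2⟩ := sec_cover h.fam x φ fun i O hO => QS_mono hO.le (hφ i)
  obtain ⟨θ, ψ, k1, k2⟩ := fin_split h1 φ' (fun J => by
    refine h.tw_le h0 (n := 0) (by omega) _ ((h.mem_tw_w (Set.mem_range_self 0)).2 ?_)
    rw [zpow_zero, one_smul, ← h.gm_om (Set.range_nonempty J), mem_Gm]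
    exact fun O hO => g2 _ _ O (hO _ ⟨1, rfl⟩) (hO _ ⟨0, rfl⟩)) i₀
  have k3 : ∀ i, x - wp p θ ∈ (tw z (wS A) (-(p * M : ℕ)) {i}).map (mq p) := fun i => by
    have e : x - wp p θ = x - wp p (φ' i) + wp p (ψ i) := by
      rw [k2 i, map_add]
      abel
    rw [e]
    refine add_mem ?_ (h.wp_tw h0 (k1 i))
    obtain ⟨ω, hω, e'⟩ := (qc_q (p := p) (A i)).glob.2 (g1 i)
    refine ⟨ω, h.tw_le h0 (n := 0) (by omega) _ (h.bun_w.mem_tw_one.2 ?_), e'⟩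
    rwa [zpow_zero, one_smul]
  choose ω l1 l2 using k3
  have e : (-(p * M : ℕ) : ℤ) = p * (-M : ℤ) := by
    push_cast
    ring
  have hv := h.van_ex (n := -M) (q := 0) (e ▸ h2) h3
  rw [← e] at hv
  obtain ⟨c, β, m1, m2⟩ := fin_split hv ω (fun J => AddSubgroup.mem_inf.2 ⟨sub_mem
    (h.bun_w.tw_mono (Set.singleton_subset_iff.2 (Set.mem_range_self 1)) (l1 _))
    (h.bun_w.tw_mono (Set.singleton_subset_iff.2 (Set.mem_range_self 0)) (l1 _)),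
    (mq_eq_zero (p := p)).1 (by rw [map_sub, l2, l2, sub_self])⟩) i₀
  refine ⟨c, θ, fun i => h.bun_w.mem_tw_one.1 ?_, ?_⟩
  · rw [eq_sub_of_add_eq (m2 i).symm]
    exact sub_mem (l1 i) (m1 i).1
  · rw [← l2 i₀, m2 i₀, map_add, mq_eq_zero.2 (m1 i₀).2, add_zero]

end

variable {k : Type} [Field k] [Algebra k F] {n : ℕ} {z : Fin (n + 1) → F}
  {A : Fin (n + 1) → Subring F}

omit [Fact p.Prime] [CharP F p] in
theorem Prj.smul (h : Prj k z A) {c : F} (hc : c ≠ 0) : Prj k (fun i => c * z i) A := by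
  have e : pj k (fun i => c * z i) = pj k z := by
    funext i
    simp only [pj, mul_div_mul_left _ _ hc]
  refine ⟨?_, ?_, ?_⟩
  · simpa only [mul_div_mul_left _ _ hc] using h.ind
  · rw [e]
    exact h.le
  · rw [e]
    exact h.fin

/-- the classes of order `p` come from a finite dimensional space -/
theorem BD.fin_rep (X : BD p m F B) (hk : FB p k) (hC : Cov p m z A) (hP : Prj k z A) :
    ∃ V : Submodule k (Om F), FiniteDimensional k V ∧ ∀ a : B,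
      (∀ i O, IsLoc (A i) O → a ∈ X.loc O) → p • a = 0 → ∃ ω ∈ V, X.dl (mq p ω) = a := by
  have hc := inv_ne_zero (hC.ne 0)
  have hC' := hC.smul hc
  have hP' := hP.smul hc
  obtain ⟨m₁, h1⟩ := serre_prj_vb hk hC' hP' hC'.vb_w 0
  obtain ⟨m₂, h2⟩ := serre_prj_o hk hC' hP' 0
  obtain ⟨m₃, h3⟩ := serre_prj_o hk hC' hP' 1
  obtain ⟨M, e1, e2, e3⟩ : ∃ M : ℕ, -(M : ℤ) ≤ m₁ ∧ -(M : ℤ) ≤ m₂ ∧ -(M : ℤ) ≤ m₃ :=
    ⟨m₁.natAbs + m₂.natAbs + m₃.natAbs, by omega, by omega, by omega⟩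
  have hle : (-(p * M : ℕ) : ℤ) ≤ -M :=
    neg_le_neg (Int.ofNat_le.2 (Nat.le_mul_of_pos_left M (Fact.out : p.Prime).pos))
  obtain ⟨V, hV, hm⟩ := fin_prj_vb hk hC' hP' hC'.vb_w (-(p * M : ℕ))
  refine ⟨V, hV, fun a ha hp => ?_⟩
  choose x hx e using fun i => X.aff_rep (hC.sm i) (ha i) hp
  obtain ⟨ω, θ, k1, k2⟩ := hC'.fin_form (i₀ := 0) (inv_mul_cancel₀ (hC.ne 0)) (h1 _ e1)
    (h2 _ (hle.trans e2)) (h3 _ e3) (x 0) fun i => by
      obtain ⟨θ, hθ⟩ := (X.ker (x 0 - x i)).1 (by rw [map_sub, e, e, sub_self])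
      exact ⟨θ, by rw [hθ, sub_sub_cancel]; exact hx i⟩
  exact ⟨ω, hm ω k1, by rw [← k2, map_sub, X.dl_wp, e, sub_zero]⟩

end Pool.Agent.ZFd
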