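import Pool.Agent.Lib.MP_751085_ag.ZF.X.G3
import Pool.Agent.Lib.MP_751085_ag.ZF.X.Gk
import Pool.Agent.Lib.MP_751085_ag.ZF.D.Ufd
import Pool.Agent.Lib.MP_751085_ag.ZF.C.Main
import Pool.Agent.Lib.MP_751085_ag.ZF.EDefs

/-! The standard affine cover of a nice variety. -/

namespace Pool.Agent.ZFd

open scoped Classical
open Pool.Agent.ZCy MvPolynomial

/-- `t` is a `p`-basis of the finitely generated field `k` -/
structure Bs (p : ℕ) {k : Type} [Field k] (t : k) : Prop where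
  eft : Algebra.EssFiniteType ℤ k
  pb : PB p (⊤ : Subring k) fun _ : Unit => t

variable {k : Type} [Field k] (X : Var k)

/-- the coordinate ring of the open set `l ≠ 0`, `l` a linear form -/
noncomputable def _root_.Pool.Agent.ZCy.Var.aff (l : Fm X.N k) : Subring X.F :=
  (Algebra.adjoin k (Set.range fun j => X.g j / aeval X.g l)).toSubring

/-- the function `G / l ^ d` -/
noncomputable def _root_.Pool.Agent.ZCy.Var.fn (l : Fm X.N k) (d : ℕ) (G : Fm X.N k) : X.F :=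
  aeval X.g G / aeval X.g l ^ d

variable {X} {l G : Fm X.N k} {d n : ℕ} {O : Subring X.F}

theorem aff_alg (l : Fm X.N k) (a : k) : algebraMap k X.F a ∈ X.aff l := cr_const l a

theorem fn_mem (l : Fm X.N k) (hG : G.IsHomogeneous d) : X.fn l d G ∈ X.aff l := g1_mem hG l

theorem mem_aff (hl : l.IsHomogeneous 1) (h0 : aeval X.g l ≠ 0) {a : X.F} :
    a ∈ X.aff l ↔ ∃ d G, G.IsHomogeneous d ∧ a = X.fn l d G := mem_cr hl h0

theorem aff_frac (hl : l.IsHomogeneous 1) (h0 : aeval X.g l ≠ 0) (y : X.F) :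
    ∃ s ∈ X.aff l, s ≠ 0 ∧ s * y ∈ X.aff l := cr_frac hl h0 y

theorem aff_noeth (l : Fm X.N k) : IsNoetherianRing (X.aff l) :=
  isNoetherianRing_of_fg (Subalgebra.fg_def.2 ⟨_, Set.finite_range _, rfl⟩)

theorem geo1_mem (l G : Fm X.N k) : aeval (fun j => X.g j / aeval X.g l) G ∈ X.aff l :=
  (Algebra.adjoin_range_eq_range_aeval k _).ge ⟨G, rfl⟩

/-- A homomorphism to a field is a point: `x j = φ (g j / l g)`. -/
theorem aff_pt (hl : l.IsHomogeneous 1) (h0 : aeval X.g l ≠ 0) (hO : X.aff l ≤ O) {M : Type}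
    [Field M] [Algebra k M] (φ : O →+* M)
    (hφ : ∀ a, φ ⟨algebraMap k X.F a, hO (aff_alg l a)⟩ = algebraMap k M a) :
    ∃ x : Fin (X.N + 1) → M, X.On x ∧ aeval x l = 1 ∧ ∀ (d : ℕ) (G : Fm X.N k)
      (hG : G.IsHomogeneous d), φ ⟨X.fn l d G, hO (fn_mem l hG)⟩ = aeval x G := by
  obtain ⟨x, hx⟩ : ∃ x : Fin (X.N + 1) → M, ∀ G,
      φ ⟨aeval (fun j => X.g j / aeval X.g l) G, hO (geo1_mem l G)⟩ = aeval x G := by
    let ψ := φ.comp ((aeval fun j => X.g j / aeval X.g l).toRingHom.codRestrict O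
      fun G => hO (geo1_mem l G))
    refine ⟨fun j => ψ (MvPolynomial.X j), RingHom.congr_fun (ringHom_ext (f := ψ)
      (g := (aeval fun j => ψ (MvPolynomial.X j)).toRingHom) (fun a => ?_) fun j => ?_)⟩
    · exact ((congrArg φ (Subtype.ext (aeval_C _ a))).trans (hφ a)).trans (aeval_C _ a).symm
    · exact (aeval_X (R := k) (fun j => ψ (MvPolynomial.X j)) j).symm
  have h1 : ∀ (d : ℕ) (G : Fm X.N k) (hG : G.IsHomogeneous d),
      φ ⟨X.fn l d G, hO (fn_mem l hG)⟩ = aeval x G := fun d G hG =>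
    (congrArg φ (Subtype.ext (g1_div hG _).symm)).trans (hx G)
  have h2 : aeval x l = 1 := ((h1 1 l hl).symm.trans
    (congrArg φ (Subtype.ext (by simp [Var.fn, h0])))).trans φ.map_one
  refine ⟨x, ⟨fun e => ?_, fun G ⟨⟨m, hm⟩, hG⟩ => ((h1 m G hm).symm.trans
    (congrArg φ (Subtype.ext (by simp [Var.fn, hG])))).trans φ.map_zero⟩, h2, h1⟩
  have h3 := aeval_smul_hom hl (0 : M) x
  rw [zero_smul, ← e, h2, pow_one, zero_mul] at h3
  exact one_ne_zero h3

variable {M : Type} [Field M] [Algebra k M] {x : Fin (X.N + 1) → M}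

theorem geo_mem_LR (_hx : X.On x) {f : X.F} : f ∈ X.LR x ↔ ∃ m, X.Reg x f m := lr_mem

theorem geo_ev (hx : X.On x) : ∃ e : X.LR x →+* M, X.IsEv x e ∧
    ∀ f : X.LR x, e f ≠ 0 → (f : X.F)⁻¹ ∈ X.LR x := by
  obtain ⟨e, he⟩ := lr_ev hx
  refine ⟨e, he, fun f hf => ?_⟩
  obtain ⟨m, hm⟩ := lr_mem.1 f.2
  exact ((lr_un hx hm).2 (he f m hm ▸ hf)).2.2

theorem isLoc_LR (hl : l.IsHomogeneous 1) (hx : X.On x) (h : aeval x l ≠ 0) :
    IsLoc (X.aff l) (X.LR x) := isLoc_lr hl hx h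

theorem exists_LR (hl : l.IsHomogeneous 1) (h0 : aeval X.g l ≠ 0) (hO : IsLoc (X.aff l) O) :
    ∃ (M : Type) (_ : Field M) (_ : Algebra k M) (x : Fin (X.N + 1) → M), X.On x ∧
      aeval x l = 1 ∧ O = X.LR x := exists_pt hl h0 hO

/-- linear forms without common zero give a finite map onto projective space -/
theorem exists_prj [Infinite k] (hX : X.Nice n) : ∃ l : Fin (n + 1) → Fm X.N k,
    (∀ i, (l i).IsHomogeneous 1) ∧ (∀ i, aeval X.g (l i) ≠ 0) ∧ X.B1 l ∧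
      Prj k (fun i => aeval X.g (l i)) fun i => X.aff (l i) :=
  let ⟨l, hl, hb⟩ := exists_b1 hX.dim
  ⟨l, hl, b1_ne hX.dim hl hb, hb, prj_cr hX.dim hl hb⟩

variable {p : ℕ} [Fact p.Prime] [CharP k p] {t : k}

theorem Bs.fb (h : Bs p t) : FB p k := h.pb.fb.equiv Subring.topEquiv

omit [Fact p.Prime] [CharP k p] in
theorem Bs.pb1 (h : Bs p t) : PB p (⊤ : Subring k) fun _ : Fin 1 => t :=
  h.pb.equiv (Equiv.ofUnique _ _)

/-- an algebraic extension of the prime field is perfect -/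
theorem Bs.gk (h : Bs p t) : GK p 1 k := by
  refine ⟨h.eft, ⟨_, h.pb1⟩, @fun _ => ?_⟩
  rw [Nat.cast_one, Cardinal.one_le_iff_ne_zero]
  intro e
  have := trdeg_eq_zero_iff.1 e
  have := Algebra.IsAlgebraic.perfectField (K := ZMod p) (L := k)
  obtain ⟨s, rfl⟩ := surjective_frobenius k p t
  refine h.pb.ind.ne_zero () ?_
  change dK (s ^ p) = 0
  rw [Derivation.leibniz_pow, ← Nat.cast_smul_eq_nsmul k, CharP.cast_eq_zero, zero_smul]

/-- The Jacobian criterion. -/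
theorem geo_pb [CharP X.F p] (hk : Bs p t) (hX : X.Nice n) (hl : l.IsHomogeneous 1)
    (h0 : aeval X.g l ≠ 0) {ι : Type} [Fintype ι] {f : ι → Fm X.N k}
    (hf : ∀ j, (f j).IsHomogeneous d) (hs : X.SmAll f) (hO : IsLoc (X.aff l) O) (S : Set ι)
    (hS : ∀ j ∈ S, ¬Un O (X.fn l d (f j))) :
    ∃ (u : Fin (n + 1) → X.F) (e : ι → Fin (n + 1)), PB p O u ∧ u 0 = algebraMap k X.F t ∧
      Set.InjOn e S ∧ ∀ j ∈ S, e j ≠ 0 ∧ u (e j) = X.fn l d (f j) := by
  obtain ⟨M, _, _, x, hx, h, rfl⟩ := exists_pt hl h0 hO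
  have h1 : ∀ j ∈ S, aeval x (f j) = 0 := fun j hj => by
    have e := (lr_un hx (g1_reg hl hx (h ▸ one_ne_zero) (hf j))).not.1 (hS j hj)
    rwa [h, one_pow, div_one, not_not] at e
  obtain ⟨n', w, hn, hu⟩ := exists_lr_pb (f := fun j : S => f j) hX hk.gk hk.pb1 hl hx h
    (fun j => hf j) (fun j => h1 j j.2) fun a ha => by
      have e := hs M x hx (fun j => if h : j ∈ S then a ⟨j, h⟩ else 0)
        (fun j hj => h1 j (by_contra fun h => hj (dif_neg h))) (by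
          rw [← Fintype.sum_subtype_add_sum_subtype (· ∈ S), Finset.sum_eq_zero
            (f := fun j : {j // j ∉ S} => _) fun j _ => by rw [dif_neg j.2, zero_smul], add_zero]
          refine Set.mem_of_eq_of_mem (Finset.sum_congr rfl fun j _ => ?_) ha
          rw [dif_pos j.2])
      exact funext fun j => (dif_pos j.2).symm.trans (congrFun e j)
  let ε : Fin n ≃ S ⊕ Fin n' := Fintype.equivOfCardEq (by simp [← hn])
  let η : Fin (n + 1) ≃ Fin 1 ⊕ S ⊕ Fin n' := (finSuccEquiv n).trans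
    (((Equiv.optionEquivSumPUnit _).trans (Equiv.sumComm _ _)).trans
      ((Equiv.ofUnique PUnit.{1} _).sumCongr ε))
  have e0 : η 0 = .inl 0 := rfl
  refine ⟨_, fun j => if h : j ∈ S then η.symm (.inr (.inl ⟨j, h⟩)) else 0, hu.equiv η, rfl,
    fun i hi j hj e => ?_, fun j hj => ?_⟩
  · simp only [dif_pos hi, dif_pos hj] at e
    exact congrArg Subtype.val (Sum.inl_injective (Sum.inr_injective (η.symm.injective e)))
  · simp only [dif_pos hj]
    exact ⟨fun e => Sum.inl_ne_inr (e0.symm.trans ((η.symm_apply_eq.1 e).symm)),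
      by rw [Function.comp, η.apply_symm_apply]; rfl⟩

theorem geo_sm [CharP X.F p] (hk : Bs p t) (hX : X.Nice n) (hl : l.IsHomogeneous 1)
    (h0 : aeval X.g l ≠ 0) : Sm p (n + 1) (X.aff l) := add_comm 1 n ▸ cr_sm hX hk.gk hl h0

theorem geo_cov [CharP X.F p] (hk : Bs p t) (hX : X.Nice n) {κ : Type} {l : κ → Fm X.N k}
    (hl : ∀ i, (l i).IsHomogeneous 1) (h0 : ∀ i, aeval X.g (l i) ≠ 0) :
    Cov p (n + 1) (fun i => aeval X.g (l i)) fun i => X.aff (l i) :=
  add_comm 1 n ▸ cov_cr hl hX hk.gk h0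

end Pool.Agent.ZFd
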