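import Pool.Agent.Lib.MP_751085_ag.ZF.E.Tw

/-! The cohomology of line bundles on projective space. -/

namespace Pool.Agent.ZFd

open scoped Classical

/-- Contraction by commuting projections. -/
theorem van_proj {κ W : Type} [Fintype κ] [AddCommGroup W] {S : Set κ → AddSubgroup W} {q : ℕ}
    (π : κ → W →+ W) (h1 : ∀ (J : Fin q → κ) (j : κ), ∀ w ∈ S (insert j (Set.range J)),
      π j w ∈ S (Set.range J))
    (h2 : ∀ J : Fin (q + 1) → κ, ∀ w ∈ S (Set.range J), ∑ j, π j w = w) : Van S q := by
  intro z hz h0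
  refine ⟨∑ j, fun J => π j (z (Fin.cons j J)), fun J => ?_, funext fun J => ?_⟩
  · rw [Finset.sum_apply]
    exact sum_mem fun j _ => h1 J j _ (range_cons j J ▸ hz (Fin.cons j J))
  · rw [cd_sum, Finset.sum_apply, ← h2 J _ (hz J)]
    refine Finset.sum_congr rfl fun j _ => ?_
    have h := cd_cons z j J
    rw [h0, Pi.zero_apply, eq_comm, sub_eq_zero] at h
    rw [h, map_cd]

variable {k F : Type} [Field k] [Field F] [Algebra k F] {n : ℕ} {z : Fin (n + 1) → F}

/-- the rings of the standard cover of projective space -/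
abbrev pR (k : Type) [Field k] [Algebra k F] (z : Fin (n + 1) → F) (i : Fin (n + 1)) : Subring F :=
  (pj k z i).toSubring

theorem bun_pR (hz : ∀ i, z i ≠ 0) : Bun z (pR k z) (oS (pR k z)) := by
  refine ⟨hz, fun i j => Algebra.subset_adjoin ⟨j, rfl⟩,
    fun i a ha w hw => (pR k z i).mul_mem ha hw, fun i j w hw => ?_⟩
  have hm : ∀ l, z l / z j ∈ pj k z j := fun l => Algebra.subset_adjoin ⟨l, rfl⟩
  show ∃ N : ℕ, (z i / z j) ^ N * w ∈ pj k z j
  induction hw using Algebra.adjoin_induction with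
  | mem x hx =>
    obtain ⟨l, rfl⟩ := hx
    refine ⟨1, ?_⟩
    rw [pow_one, mul_comm, div_mul_div_cancel₀ (hz i)]
    exact hm l
  | algebraMap r => exact ⟨0, by rw [pow_zero, one_mul]; exact algebraMap_mem _ r⟩
  | add x y _ _ hx hy =>
    obtain ⟨N, hN⟩ := hx
    obtain ⟨M, hM⟩ := hy
    refine ⟨N + M, ?_⟩
    rw [show (z i / z j) ^ (N + M) * (x + y) = (z i / z j) ^ M * ((z i / z j) ^ N * x) +
      (z i / z j) ^ N * ((z i / z j) ^ M * y) by ring]
    exact add_mem (mul_mem (pow_mem (hm i) _) hN) (mul_mem (pow_mem (hm i) _) hM)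
  | mul x y _ _ hx hy =>
    obtain ⟨N, hN⟩ := hx
    obtain ⟨M, hM⟩ := hy
    refine ⟨N + M, ?_⟩
    rw [show (z i / z j) ^ (N + M) * (x * y) = ((z i / z j) ^ N * x) * ((z i / z j) ^ M * y) by ring]
    exact mul_mem hN hM

/-- exponent vectors of degree `-m` -/
abbrev Ev (n : ℕ) (m : ℤ) : Type := {a : Fin (n + 1) → ℤ // ∑ j, a j = -m}

/-- Laurent monomials -/
noncomputable def lm (z : Fin (n + 1) → F) {m : ℤ} (a : Ev n m) : F := ∏ j, z j ^ a.1 j

theorem pn_zpow {ι : Type} {x : F} (hx : x ≠ 0) (t : Finset ι) (f : ι → ℤ) :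
    x ^ (∑ j ∈ t, f j) = ∏ j ∈ t, x ^ f j := by
  induction t using Finset.induction_on with
  | empty => simp
  | insert a t ha ih => rw [Finset.sum_insert ha, Finset.prod_insert ha, zpow_add₀ hx, ih]

theorem pn_lm (hz : ∀ i, z i ≠ 0) {m : ℤ} (a : Ev n m) (i : Fin (n + 1)) :
    z i ^ m * lm z a = ∏ j, (z j / z i) ^ a.1 j := by
  simp only [div_zpow]
  rw [Finset.prod_div_distrib, ← pn_zpow (hz i), a.2, zpow_neg, div_inv_eq_mul, mul_comm, lm]

theorem pn_hs (s : Set (Fin (n + 1))) (i : Fin (n + 1)) (N : ℕ) :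
    hs z s i ^ N = ∏ j, (z j / z i) ^ (if j ∈ s then (N : ℤ) else 0) := by
  rw [hs, ← Finset.prod_pow]
  refine Finset.prod_congr rfl fun j _ => ?_
  by_cases h : j ∈ s <;> simp [h]

/-- The Laurent monomials are linearly independent. -/
theorem lm_ind (hz : ∀ i, z i ≠ 0) (h : AlgebraicIndependent k fun j : Fin n => z j.succ / z 0)
    (m : ℤ) : LinearIndependent k (lm z : Ev n m → F) := by
  have h1 : LinearIndependent k fun d : Fin n →₀ ℕ =>
      MvPolynomial.aeval (fun j : Fin n => z j.succ / z 0) (MvPolynomial.monomial d (1 : k)) :=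
    (MvPolynomial.basisMonomials (Fin n) k).linearIndependent.map'
      (MvPolynomial.aeval fun j : Fin n => z j.succ / z 0).toLinearMap (LinearMap.ker_eq_bot.2 h)
  refine linearIndependent_iff_finset_linearIndependent.2 fun t => ?_
  obtain ⟨N, hN⟩ := Finite.exists_le fun x : t × Fin (n + 1) => (x.1.1.1 x.2).natAbs
  have hp : ∀ (a : t) j, (((a.1.1 j + N).toNat : ℕ) : ℤ) = a.1.1 j + N := fun a j => by
    have := hN (a, j)
    simp only at this
    omega
  let e : t → Fin n →₀ ℕ := fun a => Finsupp.equivFunOnFinite.symm fun j => (a.1.1 j.succ + N).toNat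
  have he : Function.Injective e := fun a b hab => by
    have h2 : ∀ j : Fin n, a.1.1 j.succ = b.1.1 j.succ := fun j => by
      have h3 : (a.1.1 j.succ + N).toNat = (b.1.1 j.succ + N).toNat := DFunLike.congr_fun hab j
      have h4 := hp a j.succ
      have h5 := hp b j.succ
      omega
    have h3 := a.1.2.trans b.1.2.symm
    rw [Fin.sum_univ_succ, Fin.sum_univ_succ, Finset.sum_congr rfl fun j _ => h2 j] at h3
    exact Subtype.ext (Subtype.ext (funext (Fin.cases (add_right_cancel h3) h2)))
  refine LinearIndependent.of_comp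
    (LinearMap.mulLeft k ((∏ j : Fin n, (z j.succ / z 0) ^ (N : ℤ)) * z 0 ^ m)) ?_
  refine Eq.mp (congrArg (LinearIndependent k ·) (funext fun a => ?_)) (h1.comp e he)
  show MvPolynomial.aeval _ (MvPolynomial.monomial (e a) (1 : k)) = _ * _ * lm z a.1
  rw [MvPolynomial.aeval_monomial, map_one, one_mul, Finsupp.prod_pow, mul_assoc, pn_lm hz,
    Fin.prod_univ_succ, div_self (hz 0), one_zpow, one_mul, ← Finset.prod_mul_distrib]
  refine Finset.prod_congr rfl fun j _ => ?_
  rw [← zpow_add₀ (div_ne_zero (hz _) (hz _)), add_comm (N : ℤ), ← hp, zpow_natCast]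
  rfl

/-- the sections are spanned by the monomials with poles only along `s` -/
theorem mem_tw_pR (hz : ∀ i, z i ≠ 0) {m : ℤ} {s : Set (Fin (n + 1))} (hs : s.Nonempty) {w : F} :
    w ∈ tw z (oS (pR k z)) m s ↔
      w ∈ Submodule.span k (lm z '' {a : Ev n m | ∀ j, j ∉ s → 0 ≤ a.1 j}) := by
  obtain ⟨i, hi⟩ := hs
  have hu : ∀ j, z j / z i ≠ 0 := fun j => div_ne_zero (hz j) (hz i)
  constructor
  · intro hw
    obtain ⟨N, hN⟩ := ((bun_pR hz).mem_tw hi).1 hw
    have hc : ZFd.hs z s i ^ N * z i ^ m ≠ 0 :=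
      mul_ne_zero (pow_ne_zero _ ((bun_pR (k := k) hz).hs_ne s i)) (zpow_ne_zero _ (hz i))
    have h1 : (ZFd.hs z s i ^ N * z i ^ m) * w ∈ Submodule.span k
        (Submonoid.closure (Set.range fun j => z j / z i) : Set F) := by
      rw [← Algebra.adjoin_eq_span]
      exact hN
    rw [← inv_mul_cancel_left₀ hc w, ← LinearMap.mulLeft_apply k, ← Submodule.mem_comap]
    refine Submodule.span_le.2 (fun x hx => ?_) h1
    obtain ⟨d, rfl⟩ := Submonoid.mem_closure_range_iff_of_fintype.1 hx
    let b : Fin (n + 1) → ℤ := fun j => d j - if j ∈ s then (N : ℤ) else 0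
    let a : Ev n m := ⟨b + Pi.single i (-m - ∑ j, b j), by
      simp [Finset.sum_add_distrib, Finset.sum_pi_single']⟩
    have ha : ∀ j, j ≠ i → a.1 j = b j := fun j hj => by simp [a, hj]
    refine Submodule.subset_span ⟨a, fun j hj => ?_, ?_⟩
    · rw [ha j fun h => hj (h ▸ hi)]
      simp [b, hj]
    · rw [LinearMap.mulLeft_apply, eq_inv_mul_iff_mul_eq₀ hc, mul_assoc, pn_lm hz, pn_hs,
        ← Finset.prod_mul_distrib]
      refine Finset.prod_congr rfl fun j _ => ?_
      by_cases hj : j = i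
      · simp [hj, hz i]
      · rw [ha j hj, ← zpow_add₀ (hu j), add_sub_cancel, zpow_natCast]
  · intro hw
    induction hw using Submodule.span_induction with
    | mem x hx =>
      obtain ⟨a, ha, rfl⟩ := hx
      obtain ⟨N, hN⟩ := Finite.exists_le fun j => (a.1 j).natAbs
      refine ((bun_pR hz).mem_tw hi).2 ⟨N, ?_⟩
      show ZFd.hs z s i ^ N * z i ^ m * lm z a ∈ pj k z i
      rw [mul_assoc, pn_lm hz, pn_hs, ← Finset.prod_mul_distrib]
      refine prod_mem fun j _ => ?_
      have h1 : 0 ≤ (if j ∈ s then (N : ℤ) else 0) + a.1 j := by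
        have := hN j
        by_cases hj : j ∈ s
        · rw [if_pos hj]
          omega
        · rw [if_neg hj, zero_add]
          exact ha j hj
      rw [← zpow_add₀ (hu j), ← Int.toNat_of_nonneg h1, zpow_natCast]
      exact pow_mem ((bun_pR hz).mem i j) _
    | zero => exact zero_mem _
    | add x y _ _ hx hy => exact add_mem hx hy
    | smul c x _ hx =>
      obtain ⟨N, hN⟩ := ((bun_pR hz).mem_tw hi).1 hx
      refine ((bun_pR hz).mem_tw hi).2 ⟨N, ?_⟩
      rw [smul_comm]
      exact (pj k z i).smul_mem hN c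

/-- Vanishing of the cohomology of negative twists on projective space. -/
theorem van_pR (hz : ∀ i, z i ≠ 0) (h : AlgebraicIndependent k fun j : Fin n => z j.succ / z 0)
    {m : ℤ} {q : ℕ} (h0 : q = 0 → 0 < m) (h1 : q < n ∨ m ≤ n) : Van (tw z (oS (pR k z)) m) q := by
  let g : Ev n m → Fin (n + 1) := fun a => Classical.epsilon fun j => 0 ≤ a.1 j
  have hV : Van (fun s : Set (Fin (n + 1)) => (Finsupp.supported k k
      {a : Ev n m | s.Nonempty ∧ ∀ j, j ∉ s → 0 ≤ a.1 j}).toAddSubgroup) q := by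
    refine van_proj (fun j => Finsupp.filterAddHom fun a => g a = j ∧ 0 ≤ a.1 j)
      (fun J j w hw a ha => ?_) fun J w hw => Finsupp.ext fun a => ?_
    · have h2 : a ∈ w.support.filter fun a => g a = j ∧ 0 ≤ a.1 j := ha
      rw [Finset.mem_filter] at h2
      have h3 : ∀ l, l ∉ Set.range J → 0 ≤ a.1 l := fun l hl => by
        by_cases h4 : l = j
        · exact h4 ▸ h2.2.2
        · exact (hw h2.1).2 l fun h5 => h5.elim h4 hl
      refine ⟨?_, h3⟩
      rcases q with _ | q
      · have h4 := Finset.sum_nonneg (s := Finset.univ) fun l _ => h3 l fun h5 => h5.choose.elim0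
        have h5 := a.2
        have h6 := h0 rfl
        omega
      · exact ⟨J 0, 0, rfl⟩
    · rw [Finsupp.finsetSum_apply]
      show ∑ j, w.filter (fun a => g a = j ∧ 0 ≤ a.1 j) a = w a
      by_cases ha : w a = 0
      · simp [Finsupp.filter_apply, ha]
      have h2 : ∃ j, 0 ≤ a.1 j := by
        by_contra h2
        rcases h1 with h1 | h1
        · have h3 : Function.Surjective J := fun l => by
            by_contra h3
            exact h2 ⟨l, (hw (Finsupp.mem_support_iff.2 ha)).2 l h3⟩
          have h4 := Fintype.card_le_of_surjective J h3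
          simp only [Fintype.card_fin] at h4
          omega
        · have h3 := Finset.sum_le_sum (s := Finset.univ) (f := a.1) (g := fun _ => -1)
            fun l _ => by have := not_exists.1 h2 l; omega
          rw [a.2] at h3
          simp at h3
          omega
      have h3 : 0 ≤ a.1 (g a) := Classical.epsilon_spec h2
      rw [Finset.sum_eq_single (g a) (fun j _ hj => Finsupp.filter_apply_neg _ _ fun h => hj h.1.symm)
        fun h => absurd (Finset.mem_univ _) h]
      exact Finsupp.filter_apply_pos _ _ ⟨rfl, h3⟩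
  refine hV.map (Finsupp.linearCombination k (lm z)).toAddMonoidHom (lm_ind hz h m) fun s => ?_
  rcases s.eq_empty_or_nonempty with rfl | hs
  · simp [tw_empty]
  · ext w
    rw [mem_tw_pR hz hs, Finsupp.span_image_eq_map_linearCombination]
    simp only [hs, true_and]
    rfl

/-- The global sections are finite dimensional. -/
theorem fin_pR (hz : ∀ i, z i ≠ 0) (h : AlgebraicIndependent k fun j : Fin n => z j.succ / z 0) :
    FinG k z (oS (pR k z)) := by
  intro m
  have hT : {a : Ev n m | ∀ i j, j ≠ i → 0 ≤ a.1 j}.Finite := by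
    refine ((Set.finite_Icc (fun _ => min 0 (-m)) fun _ => -m).preimage
      (Subtype.val_injective (p := fun a : Fin (n + 1) → ℤ => ∑ j, a j = -m)).injOn).subset
      fun a ha => ?_
    have h1 : ∀ j, a.1 j + ∑ l ∈ Finset.univ.erase j, a.1 l = -m := fun j =>
      (Finset.add_sum_erase _ _ (Finset.mem_univ j)).trans a.2
    refine ⟨fun j => ?_, fun j => ?_⟩
    · by_cases h2 : ∃ i, j ≠ i
      · exact (min_le_left _ _).trans (ha _ j h2.choose_spec)
      · have h3 := h1 j
        rw [Finset.sum_eq_zero fun l hl => absurd ⟨l, (Finset.ne_of_mem_erase hl).symm⟩ h2,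
          add_zero] at h3
        exact (min_le_right _ _).trans h3.ge
    · exact (le_add_of_nonneg_right (Finset.sum_nonneg fun l hl =>
        ha j l (Finset.ne_of_mem_erase hl))).trans (h1 j).le
  refine ⟨_, FiniteDimensional.span_of_finite k (hT.image (lm z)), fun w hw => ?_⟩
  have h1 := fun i => (mem_tw_pR hz (Set.singleton_nonempty i)).1
    ((bun_pR hz).mem_tw_one.2 (hw i))
  simp only [Finsupp.span_image_eq_map_linearCombination] at h1 ⊢
  choose l hl e using h1
  refine ⟨l 0, fun a ha i j hj => hl i ?_ j hj, e 0⟩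
  rwa [lm_ind hz h m ((e i).trans (e 0).symm)]

end Pool.Agent.ZFd
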