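import Pool.Agent.Lib.MP_751085_ag.ZF.E.Cov
import Pool.Agent.Lib.MP_751085_ag.ZF.D.Pr2

/-! Vanishing for the forms that are zero on a divisor of large degree. -/

namespace Pool.Agent.ZFd

open scoped Classical

variable {F F' κ : Type} [Field F] [Field F'] [Fintype κ] {z : κ → F} {A : κ → Subring F}
  {R : Subring F} {p m d q : ℕ} [Fact p.Prime] [CharP F p] [CharP F' p] {ρ : Rd p R F'} {f : F}
  {i : κ} {s : Set κ}

/-- the `n`-th power of the ideal of the divisor `f = 0` -/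
noncomputable def idl (z : κ → F) (A : κ → Subring F) (f : F) (d n : ℕ) (s : Set κ) :
    AddSubgroup F := (tw z (oS A) (n * d : ℕ) s).map (AddMonoidHom.mulLeft (f ^ n))

/-- the multiples of the equation -/
noncomputable def idw (z : κ → F) (A : κ → Subring F) (f : F) (d : ℕ) (s : Set κ) :
    AddSubgroup (Om F) := (tw z (wS A) d s).map (DistribSMul.toAddMonoidHom (Om F) f)

omit [Fact p.Prime] [CharP F p] in
theorem Cov.mem_idl (h : Cov p m z A) (hf : f ≠ 0) (hi : i ∈ s) {n : ℕ} {a : F} :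
    a ∈ idl z A f d n s ↔ a / (f / z i ^ d) ^ n ∈ rg A s := by
  have hz := h.ne i
  have e : ∀ b : F, f ^ n * b / (f / z i ^ d) ^ n = z i ^ ((n * d : ℕ) : ℤ) * b := fun b => by
    rw [zpow_natCast, div_pow, ← pow_mul, mul_comm d n]
    field_simp
  constructor
  · rintro ⟨b, hb, rfl⟩
    rw [AddMonoidHom.coe_mulLeft, e]
    exact (h.mem_tw_o hi).1 hb
  · intro ha
    have e' : f ^ n * (a / f ^ n) = a := mul_div_cancel₀ _ (pow_ne_zero _ hf)
    refine ⟨a / f ^ n, (h.mem_tw_o hi).2 ?_, e'⟩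
    rwa [← e, e']

omit [Fact p.Prime] [CharP F p] in
theorem Cov.mem_idw (h : Cov p m z A) (hf : f ≠ 0) (hi : i ∈ s) {ω : Om F} :
    ω ∈ idw z A f d s ↔ (f / z i ^ d)⁻¹ • ω ∈ OmS (rg A s) := by
  have hz := h.ne i
  have e : ∀ θ : Om F, (f / z i ^ d)⁻¹ • f • θ = z i ^ (d : ℤ) • θ := fun θ => by
    rw [zpow_natCast, smul_smul, inv_div, div_mul_cancel₀ _ hf]
  constructor
  · rintro ⟨θ, hθ, rfl⟩
    rw [DistribSMul.toAddMonoidHom_apply, e]
    exact (h.mem_tw_w hi).1 hθ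
  · intro ha
    have e' : f • f⁻¹ • ω = ω := smul_inv_smul₀ hf ω
    refine ⟨f⁻¹ • ω, (h.mem_tw_w hi).2 ?_, e'⟩
    rwa [← e, e']

omit [Fact p.Prime] [CharP F p] in
theorem rel_van_idl (hf : f ≠ 0) {n : ℕ} (h : Van (tw z (oS A) (n * d : ℕ)) q) :
    Van (idl z A f d n) q :=
  h.map (AddMonoidHom.mulLeft (f ^ n)) (mul_right_injective₀ (pow_ne_zero _ hf)) fun _ => rfl

omit [Fact p.Prime] [CharP F p] in
theorem rel_van_one (hf : f ≠ 0) (h : Van (tw z (oS A) d) q) : Van (idl z A f d 1) q :=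
  rel_van_idl hf (by rwa [one_mul])

omit [Fact p.Prime] [CharP F p] in
theorem rel_mono_idl (h : Cov p m z A) (n : ℕ) : Monotone (idl z A f d n) :=
  fun _ _ hst => AddSubgroup.map_mono (h.bun_o.tw_mono hst)

omit [Fintype κ] [Fact p.Prime] [CharP F p] [CharP F' p] in
theorem rel_ne [Nonempty κ] (H : ∀ i, Pr m ρ (A i) (f / z i ^ d)) : f ≠ 0 :=
  (div_ne_zero_iff.1 (H (Classical.arbitrary κ)).ne).1

variable [Nonempty κ] (h : Cov p (m + 1) z A) (H : ∀ i, Pr m ρ (A i) (f / z i ^ d))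
include h H

/-- `van_quot` for `(b, ω) ↦ dK b + ω` -/
theorem van_rel_om (h1 : Van (tw z (oS A) d) (q + 1)) (h2 : Van (tw z (oS A) (2 * d : ℕ)) (q + 2))
    (h3 : Van (tw z (wS A) d) (q + 1)) : Van (fun s => OmS (rg A s) ⊓ ρ.o.ker) (q + 1) := by
  have hf := rel_ne H
  let D : F →+ Om F := (dK (A := F)).toLinearMap.toAddMonoidHom
  have hw : Van (idw z A f d) (q + 1) :=
    h3.map (DistribSMul.toAddMonoidHom (Om F) f) (smul_right_injective _ hf) fun _ => rfl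
  have hK : Van (fun s => (idl z A f d 1 s).prod (idw z A f d s) ⊓
      (D.coprod (AddMonoidHom.id _)).ker) (q + 2) := by
    refine ((rel_van_idl hf h2).map (S' := fun s => (idl z A f d 2 s).map
      ((AddMonoidHom.id F).prod (-D))) ((AddMonoidHom.id F).prod (-D))
      (fun a b e => congrArg Prod.fst e) fun _ => rfl).congr ?_
    rintro s ⟨i, hi⟩
    have P := h.pr_rg H hi
    ext ⟨b, ω⟩
    have e1 : f / z i ^ d * (b / (f / z i ^ d)) = b := mul_div_cancel₀ _ P.ne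
    have e2 : b / (f / z i ^ d) / (f / z i ^ d) = b / (f / z i ^ d) ^ 2 := by rw [div_div, sq]
    rw [AddSubgroup.mem_inf, AddSubgroup.mem_prod, h.mem_idl hf hi, h.mem_idw hf hi, pow_one]
    constructor
    · rintro ⟨b', hb, e⟩
      obtain ⟨rfl, rfl⟩ : b' = b ∧ -dK b' = ω := Prod.ext_iff.1 e
      rw [SetLike.mem_coe, h.mem_idl hf hi, ← e2] at hb
      have ha : b' / (f / z i ^ d) ∈ rg A s := by
        have := (rg A s).mul_mem P.mem hb
        rwa [mul_div_cancel₀ _ P.ne] at this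
      refine ⟨⟨ha, ?_⟩, add_neg_cancel (dK b' : Om F)⟩
      have := (P.sq ha).2 hb
      rw [e1] at this
      rw [smul_neg]
      exact neg_mem this
    · rintro ⟨⟨ha, hω⟩, e⟩
      obtain rfl : -dK b = ω := neg_eq_of_add_eq_zero_right e
      refine ⟨b, ?_, rfl⟩
      rw [SetLike.mem_coe, h.mem_idl hf hi, ← e2]
      refine (P.sq ha).1 ?_
      rw [e1]
      rwa [smul_neg, neg_mem_iff] at hω
  refine (van_quot (D.coprod (AddMonoidHom.id _))
    (S' := fun s => ((idl z A f d 1 s).prod (idw z A f d s)).map (D.coprod (AddMonoidHom.id _)))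
    (fun _ _ hst => AddSubgroup.prod_mono (rel_mono_idl h 1 hst)
      (AddSubgroup.map_mono (h.bun_w.tw_mono hst)))
    (fun _ => rfl) (fun _ => rfl) ((rel_van_one hf h1).prod hw) hK).congr ?_
  rintro s ⟨i, hi⟩
  have P := h.pr_rg H hi
  ext ω
  constructor
  · rintro ⟨⟨b, θ⟩, ⟨hb, hθ⟩, rfl⟩
    replace hb : b / (f / z i ^ d) ^ 1 ∈ rg A s := (h.mem_idl hf hi).1 hb
    replace hθ : (f / z i ^ d)⁻¹ • θ ∈ OmS (rg A s) := (h.mem_idw hf hi).1 hθ
    rw [pow_one] at hb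
    have e : (D.coprod (AddMonoidHom.id _)) (b, θ) = dK (f / z i ^ d * (b / (f / z i ^ d))) +
        (f / z i ^ d) • (f / z i ^ d)⁻¹ • θ := by
      rw [mul_div_cancel₀ _ P.ne, smul_inv_smul₀ P.ne]
      rfl
    have hm : (D.coprod (AddMonoidHom.id _)) (b, θ) ∈ OmS (rg A s) := by
      rw [e]
      exact add_mem (d_mem ((rg A s).mul_mem P.mem hb)) (OmS_smul P.mem hθ)
    exact ⟨hm, (P.ker_om hm).2 ⟨_, hb, _, hθ, e⟩⟩
  · rintro ⟨hm, h0⟩
    obtain ⟨a, ha, θ, hθ, rfl⟩ := (P.ker_om hm).1 h0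
    refine ⟨(f / z i ^ d * a, (f / z i ^ d) • θ),
      ⟨(h.mem_idl hf hi).2 ?_, (h.mem_idw hf hi).2 ?_⟩, rfl⟩
    · rwa [pow_one, mul_div_cancel_left₀ _ P.ne]
    · rwa [inv_smul_smul₀ P.ne]

/-- `van_quot` for `dK` on `idl 1` -/
theorem van_rel_ex (h1 : Van (tw z (oS A) d) (q + 1)) (h2 : Van (tw z (oS A) d) (q + 2)) :
    Van (fun s => OmS (rg A s) ⊓ ρ.o.ker ⊓ Ex F) (q + 1) := by
  have hf := rel_ne H
  let D : F →+ Om F := (dK (A := F)).toLinearMap.toAddMonoidHom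
  have hK : Van (fun s => idl z A f d 1 s ⊓ D.ker) (q + 2) := by
    refine ((rel_van_one hf h2).map (S' := fun s => (idl z A f d 1 s).map
      (frobenius F p).toAddMonoidHom) (frobenius F p).toAddMonoidHom
      (frobenius F p).injective fun _ => rfl).congr ?_
    rintro s ⟨i, hi⟩
    have P := h.pr_rg H hi
    ext b
    rw [AddSubgroup.mem_inf, h.mem_idl hf hi, pow_one]
    constructor
    · rintro ⟨c, hc, rfl⟩
      rw [SetLike.mem_coe, h.mem_idl hf hi, pow_one] at hc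
      have hc' := (rg A s).mul_mem P.mem hc
      rw [mul_div_cancel₀ _ P.ne] at hc'
      refine ⟨?_, d_pow_p c⟩
      show c ^ p / _ ∈ _
      rw [← pow_sub_one_mul (Fact.out : p.Prime).ne_zero, mul_div_assoc]
      exact (rg A s).mul_mem ((rg A s).pow_mem hc' _) hc
    · rintro ⟨ha, h0⟩
      have e1 : f / z i ^ d * (b / (f / z i ^ d)) = b := mul_div_cancel₀ _ P.ne
      obtain ⟨c, hc, e⟩ := (P.d_eq_zero ha).1 (by rw [e1]; exact h0)
      refine ⟨f / z i ^ d * c, ?_, e.symm.trans e1⟩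
      rwa [SetLike.mem_coe, h.mem_idl hf hi, pow_one, mul_div_cancel_left₀ _ P.ne]
  refine (van_quot D (S' := fun s => (idl z A f d 1 s).map D) (rel_mono_idl h 1)
    (fun _ => rfl) (fun _ => rfl) (rel_van_one hf h1) hK).congr ?_
  rintro s ⟨i, hi⟩
  have P := h.pr_rg H hi
  ext ω
  constructor
  · rintro ⟨b, hb, rfl⟩
    rw [SetLike.mem_coe, h.mem_idl hf hi, pow_one] at hb
    have e : D b = dK (f / z i ^ d * (b / (f / z i ^ d))) + (f / z i ^ d) • (0 : Om F) := by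
      rw [mul_div_cancel₀ _ P.ne, smul_zero, add_zero]
      rfl
    have hm : D b ∈ OmS (rg A s) := by
      rw [e, smul_zero, add_zero]
      exact d_mem ((rg A s).mul_mem P.mem hb)
    exact ⟨⟨hm, (P.ker_om hm).2 ⟨_, hb, _, zero_mem _, e⟩⟩, mem_Ex.2 ⟨b, rfl⟩⟩
  · rintro ⟨⟨hm, h0⟩, he⟩
    obtain ⟨a, ha, rfl⟩ := P.ker_ex hm he h0
    refine ⟨f / z i ^ d * a, ?_, rfl⟩
    rwa [SetLike.mem_coe, h.mem_idl hf hi, pow_one, mul_div_cancel_left₀ _ P.ne]

/-- `van_quot` for `mq p`, `Pr.ker_q` -/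
theorem van_rel_q (h1 : Van (fun s => OmS (rg A s) ⊓ ρ.o.ker) (q + 1))
    (h2 : Van (fun s => OmS (rg A s) ⊓ ρ.o.ker ⊓ Ex F) (q + 2)) :
    Van (fun s => QS p (rg A s) ⊓ ρ.q.ker) (q + 1) := by
  have e : Ex F = (mq p).ker := AddSubgroup.ext fun _ => mq_eq_zero.symm
  refine (van_quot (mq p) (S' := fun s => (OmS (rg A s) ⊓ ρ.o.ker).map (mq p))
    (fun _ _ hst => inf_le_inf_right _ (OmS_mono (rg_mono A hst)))
    (fun _ => rfl) (fun _ => by rw [e]) h1 h2).congr ?_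
  rintro s ⟨i, hi⟩
  have P := h.pr_rg H hi
  ext x
  constructor
  · rintro ⟨ω, ⟨hm, h0⟩, rfl⟩
    exact ⟨mq_mem hm, (P.ker_q (mq_mem hm)).2 ⟨ω, hm, h0, rfl⟩⟩
  · rintro ⟨hm, h0⟩
    obtain ⟨ω, h3, h4, h5⟩ := (P.ker_q hm).1 h0
    exact ⟨ω, ⟨h3, h4⟩, h5⟩

theorem van_rel (h1 : ∀ q < 4, Van (tw z (oS A) d) q) (h2 : ∀ q < 4, Van (tw z (oS A) (2 * d : ℕ)) q)
    (h3 : ∀ q < 4, Van (tw z (wS A) d) q) :
    Van (fun s => OmS (rg A s) ⊓ ρ.o.ker) 2 ∧ Van (fun s => QS p (rg A s) ⊓ ρ.q.ker) 1 :=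
  ⟨van_rel_om h H (h1 2 (by omega)) (h2 3 (by omega)) (h3 2 (by omega)),
    van_rel_q h H (van_rel_om h H (h1 1 (by omega)) (h2 2 (by omega)) (h3 1 (by omega)))
      (van_rel_ex h H (h1 2 (by omega)) (h1 3 (by omega)))⟩

end Pool.Agent.ZFd
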