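import Pool.Agent.Lib.MP_751085_ag.ZF.E.U3

/-! A unit cocycle is defined over a finitely generated subring. -/

namespace Pool.Agent.ZCy.F

open scoped Classical
open groupCohomology

variable {O : Type} [CommRing O]

theorem s1_sub (U : UC O) (R : Subring U.A) (hR : ∀ r ∈ R, ∀ g : U.G, g • r = r) {m : ℕ}
    {x y : Fin m → U.A} (h : ∀ g : U.G, ∑ j, x j * g • y j = if g = 1 then 1 else 0) {t : U.A}
    (ht : ∑ g : U.G, g • t = 1) {S : Set U.A} (h1 : 1 ∈ S) (h2 : t ∈ S)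
    (h3 : ∀ (g : U.G) k, g • x k ∈ S) (h4 : ∀ k, y k ∈ S)
    (hS : ∀ a ∈ S, ∀ b ∈ S, ∀ c ∈ S, ∑ g : U.G, g • (a * b * c) ∈ R) :
    ∃ A₀ : Subring U.A, IsInvariantSubring U.G A₀ ∧ S ⊆ A₀ ∧ R ≤ A₀ ∧
      ∀ a ∈ A₀, (∀ g : U.G, g • a = a) → a ∈ R := by
  let T : U.A →+ U.A := ∑ g : U.G, DistribSMul.toAddMonoidHom U.A g
  have hT : ∀ a, T a = ∑ g : U.G, g • a := fun a => by simp [T]
  have hr : ∀ a r, (∀ g : U.G, g • r = r) → T (a * r) = T a * r := fun a r hr => by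
    simp only [hT, smul_mul', hr, Finset.sum_mul]
  simp only [← hT] at hS ht
  have key : ∀ a, (∀ j, T (y j * a) ∈ R) → ∀ (u : U.A) (g : U.G), (∀ k, T (u * g • x k) ∈ R) →
      T (u * g • a) ∈ R := fun a ha u g hu => by
    rw [U.expand h a, Finset.smul_sum, Finset.mul_sum, map_sum]
    refine sum_mem fun k _ => ?_
    rw [← hT, smul_mul', hR _ (ha k), ← mul_assoc, hr _ _ (hR _ (ha k))]
    exact mul_mem (hu k) (ha k)
  have k2 : ∀ a, (∀ j, T (y j * a) ∈ R) → ∀ u ∈ S, ∀ v ∈ S, T (u * v * a) ∈ R :=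
    fun a ha u hu v hv => one_smul U.G a ▸ key a ha _ 1 fun k => hS u hu v hv _ (h3 1 k)
  have k3 : ∀ a ∈ S, ∀ j, T (y j * a) ∈ R := fun a ha j => mul_one (y j * a) ▸ hS _ (h4 j) a ha 1 h1
  let A₀ : Subring U.A :=
    { carrier := {a | ∀ j, T (y j * a) ∈ R}
      mul_mem' := fun {a b} ha hb j => by
        have := key a ha (y j * b) 1 fun k => by
          rw [mul_right_comm]
          exact k2 b hb _ (h4 j) _ (h3 1 k)
        rwa [one_smul, mul_assoc, mul_comm b] at this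
      one_mem' := k3 1 h1
      add_mem' := fun ha hb j => by
        rw [mul_add, map_add]
        exact add_mem (ha j) (hb j)
      zero_mem' := fun j => by
        rw [mul_zero, map_zero]
        exact zero_mem R
      neg_mem' := fun ha j => by
        rw [mul_neg, map_neg]
        exact neg_mem (ha j) }
  refine ⟨A₀, ⟨fun g a ha j => key a ha _ g fun k => k3 _ (h3 g k) j⟩, k3, fun r hr' j => ?_,
    fun a ha hg => ?_⟩
  · rw [hr _ _ (hR r hr')]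
    exact mul_mem (mul_one (y j) ▸ k3 1 h1 j) hr'
  · have := k2 a ha t h2 1 h1
    rwa [mul_one, hr _ _ hg, ht, one_mul] at this

theorem UC.spread (U : UC O) : ∃ s : Finset O, ∀ (O₀ : Type) [CommRing O₀] (ψ : O₀ →+* O),
    Function.Injective ψ → (∀ o ∈ s, o ∈ ψ.range) → ∃ U₀ : UC O₀,
      ∀ (M : Type) [Field M] (φ : O →+* M), U₀.val (φ.comp ψ) = U.val φ := by
  obtain ⟨m, x, y, h⟩ := U.crd
  obtain ⟨t, ht⟩ := U.exists_one
  choose τ hτ using U.exists_tr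
  let S : Set U.A := insert 1 (insert t (Set.range (fun p : U.G × Fin m => p.1 • x p.2) ∪
    Set.range y ∪ Set.range (fun p => (U.c p : U.A)) ∪ Set.range fun p => ((U.c p)⁻¹ : U.Aˣ)))
  have hf : S.Finite := Set.toFinite _
  refine ⟨((hf.image2 (· * ·) hf).image2 (fun a b => τ (a * b)) hf).toFinset,
    fun O₀ _ ψ hψ hs => ?_⟩
  obtain ⟨A₀, _, h1, h2, h3⟩ := s1_sub U (U.i.comp ψ).range (by
      rintro _ ⟨o, rfl⟩ g
      exact U.smul_i g _) h ht (S := S) (Or.inl rfl) (Or.inr (Or.inl rfl))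
    (fun g k => Or.inr (Or.inr (Or.inl (Or.inl (Or.inl ⟨(g, k), rfl⟩)))))
    (fun k => Or.inr (Or.inr (Or.inl (Or.inl (Or.inr ⟨k, rfl⟩))))) fun a ha b hb c hc => by
      obtain ⟨o, ho⟩ := hs (τ (a * b * c)) ((Set.Finite.mem_toFinset _).2
        ⟨_, ⟨a, ha, b, hb, rfl⟩, c, hc, rfl⟩)
      exact ⟨o, by rw [RingHom.comp_apply, ho, hτ]⟩
  let U₀ : UC O₀ :=
    { G := U.G
      A := A₀
      i := (U.i.comp ψ).codRestrict A₀ fun o => h2 ⟨o, rfl⟩
      inj := fun _ _ e => hψ (U.inj (congrArg Subtype.val e))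
      inv := fun a => ⟨fun ⟨o, e⟩ g => e ▸ Subtype.ext (U.smul_i g _), fun ha =>
        (h3 a a.2 fun g => congrArg Subtype.val (ha g)).imp fun _ e => Subtype.ext e⟩
      crd := ⟨m, fun k => ⟨x k, h1 (Or.inr (Or.inr (Or.inl (Or.inl (Or.inl
          ⟨(1, k), one_smul _ _⟩)))))⟩,
        fun k => ⟨y k, h1 (Or.inr (Or.inr (Or.inl (Or.inl (Or.inr ⟨k, rfl⟩)))))⟩, fun g =>
        Subtype.ext ((map_sum A₀.subtype _ _).trans ((h g).trans (by split_ifs <;> rfl)))⟩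
      c := fun p => ⟨⟨U.c p, h1 (Or.inr (Or.inr (Or.inl (Or.inr ⟨p, rfl⟩))))⟩,
        ⟨((U.c p)⁻¹ : U.Aˣ), h1 (Or.inr (Or.inr (Or.inr ⟨p, rfl⟩)))⟩,
        Subtype.ext (U.c p).mul_inv, Subtype.ext (U.c p).inv_mul⟩
      coc := fun g g' j => Units.ext (Subtype.ext (congrArg Units.val (U.coc g g' j))) }
  exact ⟨U₀, fun M _ φ => (UC.Hom.val (U := U₀) (V := U) (j := A₀.subtype) (e := id)
    ⟨fun _ => rfl, fun _ _ => rfl⟩ (funext fun _ => Units.ext rfl) φ).symm⟩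

end Pool.Agent.ZCy.F
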