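import Pool.Agent.Lib.MP_751085_ag.ZF.E.U4

/-! Points of a covering above close points are close. -/

namespace Pool.Agent.ZCy.F

open scoped Classical
open groupCohomology IsUltrametricDist

variable {O Ω : Type} [CommRing O] [NormedField Ω] [IsUltrametricDist Ω] (U : UC O)

theorem s2_tri (a b c : Ω) : ‖a - c‖ ≤ max ‖a - b‖ ‖b - c‖ := by
  rw [← sub_add_sub_cancel a b c]
  exact norm_add_le_max _ _

theorem s2_bd {ι : Type} (T : Finset ι) (f : ι → ℝ) : ∃ C, 1 ≤ C ∧ ∀ i ∈ T, f i ≤ C := by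
  obtain ⟨C, hC⟩ := (T.finite_toSet.image f).bddAbove
  exact ⟨max 1 C, le_max_left _ _, fun i hi => le_max_of_le_right (hC ⟨i, hi, rfl⟩)⟩

theorem s2_min {ι : Type} (T : Finset ι) (f : ι → ℝ) (hf : ∀ i, 0 ≤ f i) :
    ∃ δ, 0 < δ ∧ ∀ i ∈ T, f i < δ → f i = 0 := by
  obtain ⟨C, h1, hC⟩ := s2_bd T fun i => (f i)⁻¹
  refine ⟨C⁻¹, by positivity, fun i hi h => by_contra fun h0 => ?_⟩
  have h2 : 0 < f i := lt_of_le_of_ne (hf i) (Ne.symm h0)
  exact absurd (inv_le_comm₀ h2 (by positivity) |>.1 (hC i hi)) (not_le.2 h)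

theorem UC.bound (y : U.A) : ∃ s : Finset O, ∀ (ρ : U.A →+* Ω) (C : ℝ), 1 ≤ C →
    (∀ o ∈ s, ‖ρ (U.i o)‖ ≤ C) → ‖ρ y‖ ≤ C := by
  obtain ⟨p, hp, h⟩ := U.integral y
  refine ⟨(Finset.range p.natDegree).image p.coeff, fun ρ C h1 hC => not_lt.1 fun hy => ?_⟩
  have h2 := congrArg ρ h
  rw [hp.as_sum, Polynomial.eval₂_add, Polynomial.eval₂_X_pow, Polynomial.eval₂_finsetSum] at h2
  simp only [Polynomial.eval₂_mul, Polynomial.eval₂_C, Polynomial.eval₂_X_pow, map_add, map_pow,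
    map_sum, map_mul, map_zero] at h2
  have h0 : 0 < ‖ρ y‖ := by linarith
  have h3 : ‖ρ y‖ ^ p.natDegree ≤ C / ‖ρ y‖ * ‖ρ y‖ ^ p.natDegree := by
    conv_lhs => rw [← norm_pow, eq_neg_of_add_eq_zero_left h2, norm_neg]
    refine norm_sum_le_of_forall_le_of_nonneg (by positivity) fun i hi => ?_
    obtain ⟨d, hd⟩ := Nat.exists_eq_add_of_lt (Finset.mem_range.1 hi)
    rw [norm_mul, norm_pow, hd, pow_succ, ← mul_assoc, mul_right_comm,
      div_mul_cancel₀ _ h0.ne', pow_add]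
    exact mul_le_mul (hC _ (Finset.mem_image_of_mem _ hi))
      (le_mul_of_one_le_right (by positivity) (one_le_pow₀ (h1.trans hy.le))) (by positivity)
      (by positivity)
  exact absurd h3 (not_le.2 (mul_lt_of_lt_one_left (by positivity) ((div_lt_one h0).2 hy)))

theorem UC.near (ρ : U.A →+* Ω) (S : Finset U.A) {δ : ℝ} (hδ : 0 < δ) :
    ∃ (s : Finset O) (ε : ℝ), 0 < ε ∧ ∀ ρ' : U.A →+* Ω,
      (∀ o ∈ s, ‖ρ' (U.i o) - ρ (U.i o)‖ < ε) → ∃ g : U.G, ∀ b ∈ S, ‖ρ' (g • b) - ρ b‖ < δ := by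
  obtain ⟨m, x, y, c⟩ := U.crd
  choose s₀ hs₀ using fun p : U.G × Fin m => U.bound (Ω := Ω) (p.1 • y p.2)
  choose o ho using fun (b : U.A) (k j : Fin m) => U.exists_tr (y k * (b * x j))
  choose τ hτ using fun j : Fin m => U.exists_tr (y j * 1)
  obtain ⟨C, hC1, hC⟩ := s2_bd (Finset.univ.biUnion s₀) fun o => ‖ρ (U.i o)‖
  obtain ⟨D, hD1, hD⟩ := s2_bd Finset.univ fun k => ‖ρ (x k)‖
  obtain ⟨η, h0, h1, h2⟩ : ∃ η : ℝ, 0 < η ∧ η < δ ∧ η < 1 :=
    ⟨min δ 1 / 2, by positivity, by linarith [min_le_left δ 1], by linarith [min_le_right δ 1]⟩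
  refine ⟨Finset.univ.biUnion s₀ ∪ Finset.univ.image τ ∪
    (S ×ˢ Finset.univ).image fun p : U.A × Fin m × Fin m => o p.1 p.2.1 p.2.2, η / (D * C),
    by positivity, fun ρ' h => ?_⟩
  have e1 : D * (η / (D * C)) * C = η := by field_simp
  have e0 : 0 < η / (D * C) := by positivity
  have e2 : D * (η / (D * C)) ≤ η := (le_mul_of_one_le_right (by positivity) hC1).trans e1.le
  have e3 : η / (D * C) ≤ C := by nlinarith
  have hy : ∀ (g : U.G) j, ‖ρ' (g • y j)‖ ≤ C := fun g j => hs₀ (g, j) ρ' C hC1 fun a ha => by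
    have ha' := Finset.mem_biUnion.2 ⟨(g, j), Finset.mem_univ _, ha⟩
    rw [← sub_add_cancel (ρ' (U.i a)) (ρ (U.i a))]
    exact (norm_add_le_max _ _).trans (max_le ((h a (Finset.mem_union_left _
      (Finset.mem_union_left _ ha'))).le.trans e3) (hC a ha'))
  have a1 : ‖∑ g : U.G, ∑ j, ρ (x j) * ρ' (g • y j) - 1‖ ≤ η := by
    rw [Finset.sum_comm, ← map_one ρ, U.expand c 1, map_sum, ← Finset.sum_sub_distrib]
    refine norm_sum_le_of_forall_le_of_nonneg h0.le fun j _ => ?_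
    rw [← Finset.mul_sum, ← map_sum, map_mul, ← hτ, ← mul_one (y j), ← hτ, ← mul_sub, norm_mul]
    exact (mul_le_mul (hD j (Finset.mem_univ _)) (h _ (Finset.mem_union_left _
      (Finset.mem_union_right _ (Finset.mem_image_of_mem _ (Finset.mem_univ _))))).le
      (norm_nonneg _) (by positivity)).trans e2
  obtain ⟨g, -, hg⟩ := exists_norm_finsetSum_le_of_nonempty Finset.univ_nonempty
    fun g : U.G => ∑ j, ρ (x j) * ρ' (g • y j)
  have a2 : 1 ≤ ‖∑ j, ρ (x j) * ρ' (g • y j)‖ := by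
    have h3 := s2_tri 1 (∑ g : U.G, ∑ j, ρ (x j) * ρ' (g • y j)) 0
    rw [sub_zero, sub_zero, norm_one, norm_sub_rev] at h3
    rcases le_max_iff.1 h3 with h4 | h4
    · linarith
    · exact h4.trans hg
  refine ⟨g, fun b hb => ?_⟩
  have a3 : (∑ j, ρ (x j) * ρ' (g • y j)) * (ρ' (g • b) - ρ b) =
      ∑ k, ∑ j, ρ (x k) * (ρ' (U.i (o b k j)) - ρ (U.i (o b k j))) * ρ' (g • y j) := by
    have b1 : ∀ k, ρ' (g • y k) * ρ' (g • b) = ∑ j, ρ' (U.i (o b k j)) * ρ' (g • y j) := fun k => by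
      rw [← map_mul, ← smul_mul', ← u1_dual U c (y k * b), Finset.smul_sum, map_sum]
      refine Finset.sum_congr rfl fun j _ => ?_
      rw [mul_assoc, ← ho, smul_mul', U.smul_i, map_mul]
    have b2 : ∀ j, ρ b * ρ (x j) = ∑ k, ρ (x k) * ρ (U.i (o b k j)) := fun j => by
      rw [← map_mul, U.expand c (b * x j), map_sum]
      exact Finset.sum_congr rfl fun k _ => by rw [← ho, map_mul]
    simp only [mul_sub, sub_mul, Finset.sum_sub_distrib, Finset.sum_mul]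
    congr 1
    · exact Finset.sum_congr rfl fun k _ => by simp only [mul_assoc, b1, Finset.mul_sum]
    · rw [Finset.sum_comm]
      exact Finset.sum_congr rfl fun j _ => by
        rw [← Finset.sum_mul, ← b2, mul_comm, ← mul_assoc]
  have a4 : ‖∑ j, ρ (x j) * ρ' (g • y j)‖ * ‖ρ' (g • b) - ρ b‖ ≤ η := by
    rw [← norm_mul, a3]
    refine norm_sum_le_of_forall_le_of_nonneg h0.le fun k _ =>
      norm_sum_le_of_forall_le_of_nonneg h0.le fun j _ => ?_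
    rw [norm_mul, norm_mul, ← e1]
    exact mul_le_mul (mul_le_mul (hD k (Finset.mem_univ _)) (h _ (Finset.mem_union_right _
      (Finset.mem_image.2 ⟨(b, k, j), Finset.mem_product.2 ⟨hb, Finset.mem_univ _⟩, rfl⟩))).le
      (norm_nonneg _) (by positivity)) (hy g j) (norm_nonneg _) (by positivity)
  exact ((le_mul_of_one_le_left (norm_nonneg _) a2).trans a4).trans_lt h1

omit [IsUltrametricDist Ω] in
theorem UC.near_eq (ρ : U.A →+* Ω) : ∃ (S : Finset U.A) (δ : ℝ), 0 < δ ∧ ∀ g g' : U.G,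
    (∀ b ∈ S, ‖ρ (g • b) - ρ (g' • b)‖ < δ) → g = g' := by
  obtain ⟨s, hs⟩ := U.exists_dec
  obtain ⟨δ, h0, h⟩ := s2_min (s ×ˢ (Finset.univ : Finset (U.G × U.G)))
    (fun p => ‖ρ (p.2.1 • p.1) - ρ (p.2.2 • p.1)‖) fun _ => norm_nonneg _
  exact ⟨s, δ, h0, fun g g' hg => hs Ω ρ g g' fun b hb => sub_eq_zero.1 (norm_eq_zero.1
    (h (b, g, g') (Finset.mem_product.2 ⟨hb, Finset.mem_univ _⟩) (hg b hb)))⟩

theorem UC.at_near (ρ : U.A →+* Ω) : ∃ (S : Finset U.A) (δ : ℝ), 0 < δ ∧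
    ∀ (ρ' : U.A →+* Ω) (σ : Ω →+* Ω) (g g' : U.G), (∀ z, ‖σ z‖ = ‖z‖) →
      (∀ b, ρ (g • b) = σ (ρ b)) → (∀ b, ρ' (g' • b) = σ (ρ' b)) →
      (∀ b ∈ S, ‖ρ' b - ρ b‖ < δ) → g' = g := by
  obtain ⟨S, δ, h0, h⟩ := U.near_eq ρ
  refine ⟨(Finset.univ ×ˢ S).image fun p : U.G × U.A => p.1 • p.2, δ, h0,
    fun ρ' σ g g' h1 h2 h3 h4 => h g' g fun b hb => ?_⟩
  have h5 : ∀ a : U.G, ‖ρ' (a • b) - ρ (a • b)‖ < δ := fun a => h4 _
    (Finset.mem_image.2 ⟨(a, b), Finset.mem_product.2 ⟨Finset.mem_univ _, hb⟩, rfl⟩)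
  refine (s2_tri _ (ρ' (g' • b)) _).trans_lt (max_lt (by rw [norm_sub_rev]; exact h5 _) ?_)
  rw [h2, h3, ← map_sub, h1]
  simpa only [one_smul] using h5 1

theorem cob_near [CompleteSpace Ω] {G : Type} [Group G] [Fintype G] [MulSemiringAction G Ω]
    (hG : ∀ (g : G) (z : Ω), ‖g • z‖ = ‖z‖) {t : Ω} (ht : ∑ g : G, g • t = 1) :
    ∃ δ : ℝ, 0 < δ ∧ ∀ c : G × G → Ωˣ, IsMulCocycle₂ c → (∀ p, ‖(c p : Ω) - 1‖ < δ) →
      ∃ e, c = dd e := by
  let J : ℕ → AddSubgroup Ω := fun n =>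
    { carrier := {z | ‖z‖ ≤ (1 / 2) ^ n}
      zero_mem' := by simp
      add_mem' := fun ha hb => (norm_add_le_max _ _).trans (max_le ha hb)
      neg_mem' := fun ha => (norm_neg _).trans_le ha }
  have hJ : ∀ n z, z ∈ J n ↔ ‖z‖ ≤ (1 / 2) ^ n := fun _ _ => Iff.rfl
  have an : ∀ {n m : ℕ}, n ≤ m → (1 / 2 : ℝ) ^ m ≤ (1 / 2) ^ n := fun h =>
    pow_le_pow_of_le_one (by norm_num) (by norm_num) h
  have hF : Fil G J := by
    refine ⟨fun n z hz => le_trans hz (an n.le_succ), by simp [hJ], fun n m x hx y hy => ?_,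
      fun g n x hx => (hG g x).trans_le hx, fun a ha => ?_, fun x hx => norm_le_zero_iff.1 ?_⟩
    · rw [hJ, norm_mul, pow_add]
      exact mul_le_mul hx hy (norm_nonneg _) (by positivity)
    · obtain ⟨l, hl⟩ := cauchySeq_tendsto_of_complete (cauchySeq_of_le_geometric (1 / 2) 1
        (by norm_num) (f := a) fun n => by rw [dist_comm, dist_eq_norm, one_mul]; exact ha n)
      refine ⟨l, fun n => le_of_tendsto (hl.sub_const (a n)).norm
        (Filter.eventually_atTop.2 ⟨n, fun m hm => ?_⟩)⟩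
      induction m, hm using Nat.le_induction with
      | base => simp
      | succ m hm ih => exact (s2_tri _ (a m) _).trans (max_le (le_trans (ha m) (an hm)) ih)
    · exact ge_of_tendsto' (tendsto_pow_atTop_nhds_zero_of_lt_one (by norm_num) (by norm_num)) hx
  obtain ⟨s, hs⟩ := pow_unbounded_of_one_lt ‖t‖ (one_lt_two (α := ℝ))
  refine ⟨(1 / 2) ^ (2 * s + 1), by positivity, fun c hc h => hF.cob (s := s) ht
    (fun g n x hx => ?_) hc fun p => (h p).le⟩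
  rw [hJ, norm_mul, hG]
  refine (mul_le_mul hs.le hx (norm_nonneg _) (by positivity)).trans_eq ?_
  rw [pow_add, mul_left_comm, ← mul_pow]
  norm_num

end Pool.Agent.ZCy.F
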