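import Pool.Agent.Lib.MP_751085_ag.ZF.E.U4
import Pool.Agent.Lib.MP_751085_ag.ZF.N.C4

/-! Values at integral points over local fields. -/

namespace Pool.Agent.ZCy.F

open scoped Classical
open IsLocalRing

attribute [local instance] Place.field Place.alg

theorem UC.val_zero {R T : Type} [CommRing R] [IsLocalRing R] [IsAdicComplete (maximalIdeal R) R]
    [Finite (ResidueField R)] [Field T] (U : UC R) (φ : R →+* T) : U.val φ = 0 :=
  (U.cob_of_res residue_surjective (br_finite _)).elim fun _ h => UC.val_dd h φ

open scoped Pointwise in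
theorem exists_ball (L : Type) [NontriviallyNormedField L] [IsUltrametricDist L] [ProperSpace L] :
    ∃ R : ValuationSubring L, (∀ z, z ∈ R ↔ ‖z‖ ≤ 1) ∧ IsAdicComplete (maximalIdeal R) R ∧
      Finite (ResidueField R) := by
  let := NormedField.toValued (K := L)
  let R := (NormedField.valuation (K := L)).valuationSubring
  have h1 : ∀ z, z ∈ R ↔ ‖z‖ ≤ 1 := fun z => NNReal.coe_le_one.symm
  have : CompactSpace R := isCompact_iff_compactSpace.1
    ((Set.ext fun z => mem_closedBall_zero_iff.trans (h1 z).symm : _ = (R : Set L)) ▸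
      isCompact_closedBall (0 : L) 1)
  have : (Valued.v : Valuation L NNReal).RankOne :=
    inferInstanceAs (NormedField.valuation (K := L)).RankOne
  obtain ⟨-, h2, h3⟩ :=
    Valued.integer.compactSpace_iff_completeSpace_and_isDiscreteValuationRing_and_finite_residueField
      (K := L).1 ‹_›
  have : IsDiscreteValuationRing R := h2
  have : IsTopologicalRing R := inferInstanceAs (IsTopologicalRing R.toSubring)
  refine ⟨R, h1, { prec' := fun f hf => ?_ }, h3⟩
  let S n : Set R := f n +ᵥ ((maximalIdeal R ^ n : Ideal R) : Set R)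
  have hS n : S (n + 1) ⊆ S n := by
    apply (Set.vadd_set_subset_vadd_set_iff.mpr (Ideal.pow_le_pow_right n.le_succ)).trans
    simpa [S] using (hf n.le_succ).symm
  have h n : IsClosed (S n) := (IsNoetherianRing.isClosed_ideal (maximalIdeal R ^ n)).vadd (f n)
  obtain ⟨l, hl⟩ := (h 0).isCompact.nonempty_iInter_of_sequence_nonempty_isCompact_isClosed S hS
    (by simp [S]) h
  refine ⟨l, fun n => ?_⟩
  obtain ⟨y, hy, rfl⟩ := Set.mem_iInter.mp hl n
  simpa [SModEq.sub_mem] using hy

section

open IsDedekindDomain

variable {k R : Type} [Field k] [CommRing R] [IsDedekindDomain R] [Algebra R k] [IsFractionRing R k]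
  (v : HeightOneSpectrum R)

/-- every element of the unit ball is congruent to an element of `R` -/
theorem s4_approx (x : v.adicCompletion k) (hx : Valued.v x ≤ 1) :
    ∃ a : R, Valued.v (x - algebraMap k _ (algebraMap R k a)) < 1 := by
  have hv : ∀ z : k, Valued.v (algebraMap k (v.adicCompletion k) z) = v.valuation k z := fun z =>
    v.valuedAdicCompletion_eq_valuation' z
  obtain ⟨_, hy, y, rfl⟩ := mem_closure_iff_nhds.1 (v.denseRange_algebraMap k x)
    {z | Valued.v (z - x) < 1} (Valued.mem_nhds.2 ⟨1, fun z hz => by simpa using hz⟩)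
  change Valued.v (_ - x) < 1 at hy
  have hy1 : v.valuation k y ≤ 1 := by
    rw [← hv, ← sub_add_cancel (algebraMap k _ y) x]
    exact Valuation.map_add_le _ hy.le hx
  obtain ⟨a, ha⟩ := v.exists_valuation_sub_lt_of_integer hy1 1
  refine ⟨a, ?_⟩
  rw [Units.val_one, ← hv, map_sub] at ha
  rw [Valuation.map_sub_swap, ← sub_add_sub_cancel _ (algebraMap k _ y)]
  exact Valuation.map_add_lt _ ha hy

theorem s4_fin [Finite (R ⧸ v.asIdeal)] :
    Finite (ResidueField (v.adicCompletionIntegers k)) := by
  have hm : ∀ z : v.adicCompletionIntegers k, Valued.v (z : v.adicCompletion k) < 1 →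
      residue (v.adicCompletionIntegers k) z = 0 := fun z hz => by
    rw [residue_eq_zero_iff, mem_maximalIdeal, mem_nonunits_iff,
      HeightOneSpectrum.adicCompletionIntegers.isUnit_iff_valued_eq_one]
    exact hz.ne
  have e : ∀ a : R, (algebraMap R (v.adicCompletionIntegers k) a : v.adicCompletion k) =
      algebraMap k _ (algebraMap R k a) := fun _ => rfl
  have hv : ∀ z : k, Valued.v (algebraMap k (v.adicCompletion k) z) = v.valuation k z := fun z =>
    v.valuedAdicCompletion_eq_valuation' z
  have hk : ∀ a ∈ v.asIdeal, ((residue _).comp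
      (algebraMap R (v.adicCompletionIntegers k))) a = 0 := fun a ha => by
    rw [RingHom.comp_apply]
    refine hm _ ?_
    rw [e, hv]
    exact (v.valuation_lt_one_iff_mem a).2 ha
  refine Finite.of_surjective (Ideal.Quotient.lift v.asIdeal _ hk) fun z => ?_
  obtain ⟨x, rfl⟩ := residue_surjective z
  obtain ⟨a, ha⟩ := s4_approx v x.1 ((v.mem_adicCompletionIntegers R k).1 x.2)
  refine ⟨Ideal.Quotient.mk _ a, ?_⟩
  rw [Ideal.Quotient.lift_mk, RingHom.comp_apply, eq_comm, ← sub_eq_zero, ← map_sub]
  refine hm _ ?_
  rwa [AddSubgroupClass.coe_sub, e]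

end

theorem s4_ext (K L : Type) [NontriviallyNormedField K] [IsUltrametricDist K] [ProperSpace K]
    [Field L] [Algebra K L] [FiniteDimensional K L] :
    ∃ R : ValuationSubring L, (∀ a : K, ‖a‖ ≤ 1 → algebraMap K L a ∈ R) ∧
      IsAdicComplete (maximalIdeal R) R ∧ Finite (ResidueField R) := by
  let := spectralNorm.nontriviallyNormedField K L
  let := spectralNorm.normedSpace K L
  have : IsUltrametricDist L :=
    IsUltrametricDist.isUltrametricDist_of_isNonarchimedean_norm isNonarchimedean_spectralNorm
  have := FiniteDimensional.proper K L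
  obtain ⟨R, h1, h2⟩ := exists_ball L
  exact ⟨R, fun a ha => (h1 _).2 ((spectralNorm_extends a).trans_le ha), h2⟩

open Valued.integer in
theorem exists_int {k : Type} [Field k] (v : Place k) [Finite (ResidueField v.1)] (L : Type)
    [Field L] [Algebra v.K L] [FiniteDimensional v.K L] [Algebra k L] [IsScalarTower k v.K L] :
    ∃ R : ValuationSubring L, (∀ a ∈ v.1, algebraMap k L a ∈ R) ∧
      IsAdicComplete (maximalIdeal R) R ∧ Finite (ResidueField R) := by
  let := Valuation.IsRankOneDiscrete.rankOne (Valued.v : Valuation v.K _) (e := 2) one_lt_two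
  let := Valued.toNontriviallyNormedField v.K (WithZero (Multiplicative ℤ))
  have : Finite (v.1 ⧸ (IsDiscreteValuationRing.maximalIdeal v.1).asIdeal) :=
    inferInstanceAs (Finite (ResidueField v.1))
  have : ProperSpace v.K :=
    properSpace_iff_completeSpace_and_isDiscreteValuationRing_integer_and_finite_residueField.2
      ⟨inferInstance, inferInstanceAs (IsDiscreteValuationRing
        ((IsDiscreteValuationRing.maximalIdeal v.1).adicCompletionIntegers k)), s4_fin _⟩
  obtain ⟨R, h1, h2⟩ := s4_ext v.K L
  refine ⟨R, fun a ha => ?_, h2⟩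
  rw [IsScalarTower.algebraMap_apply k v.K L]
  exact h1 _ (Valued.toNormedField.norm_le_one_iff.2 ((ZFN.plw_map v a).trans_le ((ZFN.plv_le v a).2 ha)))

end Pool.Agent.ZCy.F
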