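import Pool.Agent.Lib.MP_751085_ag.ZF.E.Esz

/-! Vanishing for positive twists. -/

namespace Pool.Agent.ZFd

open scoped Classical

variable {F κ : Type} [Field F] [Fintype κ] {z : κ → F} {R : κ → Subring F}

omit [Fintype κ] in
/-- the kernel of a map that is split on each standard open set -/
theorem ser_ker (hR : Bun z R (oS R)) {W τ : Type} [AddCommGroup W] [Module F W] [Fintype τ]
    {E : κ → AddSubgroup W} (b : ℤ) (c : (τ → F) →ₗ[F] W) (σ : κ → W →ₗ[F] τ → F)
    (h1 : ∀ i v, c (σ i v) = v) (h2 : ∀ i, ∀ v ∈ E i, σ i v ∈ pw τ (sh z b (oS R)) i)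
    (h3 : ∀ i, ∀ y ∈ pw τ (sh z b (oS R)) i, c y ∈ E i) :
    ∃ E' : κ → AddSubgroup (LinearMap.ker c),
      Ses E' (pw τ (sh z b (oS R))) E (LinearMap.ker c).subtype c ∧ VB z R E' := by
  have B := ((hR.sh b).pw τ).comap (LinearMap.ker c).subtype
  refine ⟨_, ⟨Subtype.val_injective, fun x => ⟨fun h => ⟨⟨x, h⟩, rfl⟩, fun ⟨y, h⟩ => h ▸ y.2⟩,
    fun _ => rfl, fun i => AddSubgroup.ext fun v => ⟨fun h => ⟨_, h2 i v h, h1 i v⟩,
      fun ⟨y, hy, h⟩ => h ▸ h3 i y hy⟩⟩, B, fun i => ⟨B.smul i, ?_⟩⟩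
  have h0 : z i ^ b ≠ 0 := zpow_ne_zero b (hR.ne i)
  let π : (τ → F) →ₗ[F] LinearMap.ker c := (LinearMap.id - (σ i).comp c).codRestrict _ fun y => by
    simp [h1]
  refine ⟨τ, inferInstance, fun t => π (Pi.single t (z i ^ b)⁻¹),
    fun t => z i ^ b • (LinearMap.proj t).comp (LinearMap.ker c).subtype, fun t => ?_,
    fun t x hx => mem_pw.1 hx t, fun x => ?_⟩
  · have e : Pi.single t (z i ^ b)⁻¹ ∈ pw τ (sh z b (oS R)) i := mem_pw.2 fun t' => by
      rw [mem_sh, Pi.single_apply, smul_eq_mul]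
      split_ifs
      · rw [mul_inv_cancel₀ h0]
        exact (R i).one_mem
      · rw [mul_zero]
        exact (R i).zero_mem
    exact sub_mem e (h2 i _ (h3 i _ e))
  · have e : ∑ t, (z i ^ b * x.1 t) • Pi.single t (z i ^ b)⁻¹ = x.1 := by
      refine Eq.trans (Finset.sum_congr rfl fun t _ => ?_) (Finset.univ_sum_single x.1)
      rw [← Pi.single_smul, smul_eq_mul, mul_right_comm, mul_inv_cancel₀ h0, one_mul]
    refine Eq.trans (Finset.sum_congr rfl fun t _ => (map_smul π _ _).symm) ?_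
    rw [← map_sum]
    refine (congrArg π e).trans (Subtype.ext ?_)
    change x.1 - σ i (c x.1) = x.1
    rw [x.2, map_zero, sub_zero]

theorem VB.cover (hR : Bun z R (oS R)) {W : Type} [AddCommGroup W] [Module F W]
    {E : κ → AddSubgroup W} (H : VB z R E) :
    ∃ (τ : Type) (_ : Fintype τ) (b : ℤ) (W' : Type) (_ : AddCommGroup W') (_ : Module F W')
      (E' : κ → AddSubgroup W') (a : W' →ₗ[F] τ → F) (c : (τ → F) →ₗ[F] W),
      Ses E' (pw τ (sh z b (oS R))) E a c ∧ VB z R E' := by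
  choose τ iτ w l hw hl hs using fun i => (H.db i).dual
  choose N hN using fun x : (Σ i, τ i) × κ => H.bun.cmp x.1.1 x.2 _ (hw _ x.1.2)
  obtain ⟨b, hb⟩ := Finite.exists_le N
  have h0 : ∀ i, z i ^ b ≠ 0 := fun i => pow_ne_zero b (hR.ne i)
  refine (ser_ker hR (E := E) b
    (Fintype.linearCombination F fun x : Σ i, τ i => z x.1 ^ b • w x.1 x.2)
    (fun i => LinearMap.pi fun x => if x.1 = i then (z x.1 ^ b)⁻¹ • l x.1 x.2 else 0)
    (fun i v => ?_) (fun i v hv => mem_pw.2 fun x => ?_) fun i y hy => ?_).elim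
    fun E' h => ⟨_, inferInstance, b, _, inferInstance, inferInstance, E', _, _, h⟩
  · rw [Fintype.linearCombination_apply, Fintype.sum_sigma, Finset.sum_eq_single i]
    · refine Eq.trans (Finset.sum_congr rfl fun t _ => ?_) (hs i v)
      rw [LinearMap.pi_apply, if_pos rfl, LinearMap.smul_apply, smul_smul, smul_eq_mul,
        mul_right_comm, inv_mul_cancel₀ (h0 i), one_mul]
    · exact fun j _ hj => Finset.sum_eq_zero fun t _ => by
        rw [LinearMap.pi_apply, if_neg hj, LinearMap.zero_apply, zero_smul]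
    · exact fun h => absurd (Finset.mem_univ i) h
  · rw [mem_sh, LinearMap.pi_apply, zpow_natCast]
    split_ifs with hx
    · subst hx
      rw [LinearMap.smul_apply, smul_inv_smul₀ (h0 _)]
      exact hl _ _ v hv
    · rw [LinearMap.zero_apply, smul_zero]
      exact zero_mem _
  · rw [Fintype.linearCombination_apply]
    refine sum_mem fun x _ => ?_
    have := H.bun.smul i _ (mem_sh.1 (mem_pw.1 hy x)) _ (H.bun.pow_smul (hN (x, i)) (hb _))
    rwa [smul_smul, zpow_natCast, smul_eq_mul, div_pow, mul_right_comm,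
      mul_div_cancel₀ _ (h0 i), mul_comm, mul_smul] at this

theorem serre_vb (hR : Bun z R (oS R))
    (h0 : ∀ q, ∃ m₀ : ℤ, ∀ m, m ≤ m₀ → Van (tw z (oS R) m) (q + 1)) (q : ℕ) (W : Type)
    [AddCommGroup W] [Module F W] (E : κ → AddSubgroup W) (H : VB z R E) :
    ∃ m₀ : ℤ, ∀ m, m ≤ m₀ → Van (tw z E m) (q + 1) := by
  have key : ∀ n q, Fintype.card κ ≤ q + n → ∀ (W : Type) [AddCommGroup W] [Module F W]
      (E : κ → AddSubgroup W), VB z R E → ∃ m₀ : ℤ, ∀ m, m ≤ m₀ → Van (tw z E m) (q + 1) := by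
    intro n
    induction n with
    | zero => exact fun q hq W _ _ E H => ⟨0, fun m _ => van_top H.bun.tw_mono (by omega)⟩
    | succ n ih =>
      intro q hq W _ _ E H
      obtain ⟨τ, _, b, W', _, _, E', a, c, h, H'⟩ := H.cover hR
      obtain ⟨m₀, h₀⟩ := h0 q
      obtain ⟨m₁, h₁⟩ := ih (q + 1) (by omega) W' E' H'
      refine ⟨min (m₀ - b) m₁, fun m hm => h.quot ((hR.sh b).pw τ) ?_ (h₁ m (by omega))⟩
      refine (van_pi (τ := τ) (h₀ (m + b) (by omega))).congr fun s _ => ?_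
      rw [(hR.sh b).tw_pw, hR.tw_sh]
  exact key _ q (Nat.le_add_left _ _) W E H

end Pool.Agent.ZFd
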