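import Pool.Agent.Lib.MP_751085_ag.ZF.E.Def2
import Pool.Agent.Lib.MP_751085_ag.ZF.E.Ch2

/-! Sections of twists. -/

namespace Pool.Agent.ZFd

open scoped Classical

variable {F κ W W' : Type} [Field F] [AddCommGroup W] [Module F W] [AddCommGroup W'] [Module F W']
  {z : κ → F} {R : κ → Subring F} {E : κ → AddSubgroup W} {m : ℤ} {s : Set κ} {i : κ} {w : W}

/-- the twist `E(-a)` -/
def sh (z : κ → F) (a : ℤ) (E : κ → AddSubgroup W) (i : κ) : AddSubgroup W :=
  (E i).comap (DistribSMul.toAddMonoidHom W (z i ^ a))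

theorem mem_sh {a : ℤ} : w ∈ sh z a E i ↔ z i ^ a • w ∈ E i := Iff.rfl

/-- the direct sum of copies of `E` -/
def pw (τ : Type) (E : κ → AddSubgroup W) (i : κ) : AddSubgroup (τ → W) :=
  AddSubgroup.pi Set.univ fun _ => E i

theorem mem_pw {τ : Type} {x : τ → W} : x ∈ pw τ E i ↔ ∀ t, x t ∈ E i := by
  simp only [pw, AddSubgroup.mem_pi, Set.mem_univ, forall_true_left]

/-- a uniform exponent for finitely many sections -/
theorem Bun.pow_smul (H : Bun z R E) {j : κ} {N N' : ℕ} (h : (z i / z j) ^ N • w ∈ E j)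
    (hN : N ≤ N') : (z i / z j) ^ N' • w ∈ E j := by
  obtain ⟨k, rfl⟩ := Nat.exists_eq_add_of_le' hN
  rw [pow_add, mul_smul]
  exact H.smul j _ (pow_mem (H.mem j i) k) _ h

theorem tw_zpow {x y : F} (hx : x ≠ 0) (hy : y ≠ 0) (a : ℤ) :
    ∃ n n' : ℕ, y ^ a * (x / y) ^ n = (x / y) ^ n' * x ^ a := by
  obtain ⟨k, rfl | rfl⟩ := a.eq_nat_or_neg
  · exact ⟨k, 0, by rw [zpow_natCast, zpow_natCast, ← mul_pow, mul_div_cancel₀ _ hy, pow_zero,
      one_mul]⟩
  · refine ⟨0, k, ?_⟩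
    rw [zpow_neg, zpow_neg, zpow_natCast, zpow_natCast, pow_zero, mul_one, div_pow]
    field_simp

theorem Bun.sh (H : Bun z R E) (a : ℤ) : Bun z R (sh z a E) := by
  refine ⟨H.ne, H.mem, fun i c hc w hw => ?_, fun i j w hw => ?_⟩
  · rw [mem_sh, smul_comm]
    exact H.smul i c hc _ hw
  · obtain ⟨N, hN⟩ := H.cmp i j _ (mem_sh.1 hw)
    obtain ⟨n, n', e⟩ := tw_zpow (H.ne i) (H.ne j) a
    refine ⟨n + N, ?_⟩
    have := H.pow_smul hN (Nat.le_add_right N n')
    rw [smul_smul, pow_add, mul_assoc, ← e, mul_left_comm, mul_comm (_ ^ N), ← pow_add,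
      mul_smul] at this
    exact this

theorem Bun.pw (H : Bun z R E) (τ : Type) [Finite τ] : Bun z R (pw τ E) := by
  refine ⟨H.ne, H.mem, fun i c hc w hw => mem_pw.2 fun t => H.smul i c hc _ (mem_pw.1 hw t),
    fun i j w hw => ?_⟩
  choose N hN using fun t => H.cmp i j _ (mem_pw.1 hw t)
  obtain ⟨M, hM⟩ := Finite.exists_le N
  exact ⟨M, mem_pw.2 fun t => H.pow_smul (hN t) (hM t)⟩

theorem Bun.map (H : Bun z R E) (f : W →ₗ[F] W') :
    Bun z R fun i => (E i).map f.toAddMonoidHom := by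
  refine ⟨H.ne, H.mem, ?_, ?_⟩
  · rintro i c hc _ ⟨w, hw, rfl⟩
    exact ⟨_, H.smul i c hc w hw, f.map_smul c w⟩
  · rintro i j _ ⟨w, hw, rfl⟩
    obtain ⟨N, hN⟩ := H.cmp i j w hw
    exact ⟨N, _, hN, f.map_smul _ w⟩

theorem Bun.comap {E' : κ → AddSubgroup W'} (H : Bun z R E') (f : W →ₗ[F] W') :
    Bun z R fun i => (E' i).comap f.toAddMonoidHom := by
  refine ⟨H.ne, H.mem, fun i c hc w hw => ?_, fun i j w hw => ?_⟩
  · show f (c • w) ∈ E' i
    rw [map_smul]
    exact H.smul i c hc _ hw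
  · obtain ⟨N, hN⟩ := H.cmp i j _ hw
    refine ⟨N, ?_⟩
    show f (_ • w) ∈ E' j
    rw [map_smul]
    exact hN

variable [Fintype κ]

theorem Bun.hs_ne (H : Bun z R E) (s : Set κ) (i : κ) : hs z s i ≠ 0 := by
  refine Finset.prod_ne_zero_iff.2 fun j _ => ?_
  split_ifs
  exacts [div_ne_zero (H.ne j) (H.ne i), one_ne_zero]

theorem Bun.hs_mem (H : Bun z R E) (s : Set κ) (i : κ) : hs z s i ∈ R i := by
  refine prod_mem fun j _ => ?_
  split_ifs
  exacts [H.mem i j, one_mem _]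

theorem tw_single (z : κ → F) (j i : κ) : hs z {j} i = z j / z i := by
  simp [hs]

theorem hs_single (hz : z i ≠ 0) : hs z {i} i = 1 := by
  rw [tw_single, div_self hz]

theorem tw_sub (z : κ → F) {s s' : Set κ} (h : s ⊆ s') (i : κ) :
    hs z s' i = hs z (s' \ s) i * hs z s i := by
  rw [hs, hs, hs, ← Finset.prod_mul_distrib]
  refine Finset.prod_congr rfl fun j _ => ?_
  by_cases h1 : j ∈ s
  · simp [h1, h h1]
  · simp [h1]

theorem tw_chg (hi : z i ≠ 0) (s : Set κ) (j : κ) :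
    ∃ c : ℕ, hs z s j = hs z s i * (z i / z j) ^ c := by
  refine ⟨(Finset.univ.filter (· ∈ s)).card, ?_⟩
  rw [hs, hs, ← Finset.prod_filter, ← Finset.prod_filter, ← Finset.prod_const,
    ← Finset.prod_mul_distrib]
  exact Finset.prod_congr rfl fun k _ => (div_mul_div_cancel₀ hi).symm

theorem tw_up (H : Bun z R E) {c : F} {N N' : ℕ} (h : (hs z s i ^ N * c) • w ∈ E i)
    (hN : N ≤ N') : (hs z s i ^ N' * c) • w ∈ E i := by
  obtain ⟨k, rfl⟩ := Nat.exists_eq_add_of_le' hN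
  rw [pow_add, mul_assoc, mul_smul]
  exact H.smul i _ (pow_mem (H.hs_mem s i) k) _ h

theorem tw_unit (H : Bun z R E) {j : κ} (hj : j ∈ s) {e : ℤ} (h : (z j / z i) ^ e • w ∈ E i) :
    ∃ l : ℕ, hs z s i ^ l • w ∈ E i := by
  obtain ⟨k, rfl | rfl⟩ := e.eq_nat_or_neg
  · refine ⟨k, ?_⟩
    rw [tw_sub z (Set.singleton_subset_iff.2 hj), tw_single, mul_pow, mul_smul]
    rw [zpow_natCast] at h
    exact H.smul i _ (pow_mem (H.hs_mem _ i) k) _ h
  · refine ⟨0, ?_⟩
    have := H.smul i _ (pow_mem (H.mem i j) k) _ h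
    rwa [zpow_neg, zpow_natCast, smul_inv_smul₀ (pow_ne_zero k (div_ne_zero (H.ne j) (H.ne i))),
      ← one_smul F w, ← pow_zero (hs z s i)] at this

theorem Bun.mem_tw (H : Bun z R E) (hi : i ∈ s) :
    w ∈ tw z E m s ↔ ∃ N : ℕ, (hs z s i ^ N * z i ^ m) • w ∈ E i := by
  refine ⟨fun h => ?_, fun ⟨N, h⟩ => AddSubgroup.subset_closure ⟨i, hi, N, h⟩⟩
  induction h using AddSubgroup.closure_induction with
  | mem w hw =>
    obtain ⟨j, hj, N, hw⟩ := hw
    obtain ⟨M, hM⟩ := H.cmp j i _ hw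
    obtain ⟨c, hc⟩ := tw_chg (H.ne i) s j
    have h0 := div_ne_zero (H.ne j) (H.ne i)
    have e : (z j / z i) ^ M * (hs z s j ^ N * z j ^ m) =
        (z j / z i) ^ ((M : ℤ) - (c * N : ℕ) + m) * (hs z s i ^ N * z i ^ m) := by
      have := zpow_ne_zero m (H.ne i)
      rw [hc, zpow_add₀ h0, zpow_sub₀ h0, zpow_natCast, zpow_natCast, div_zpow, mul_pow, ← pow_mul,
        ← inv_div (z j), inv_pow]
      field_simp
    have hM' : (z j / z i) ^ M • (hs z s j ^ N * z j ^ m) • w ∈ E i := hM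
    rw [smul_smul, e, mul_smul] at hM'
    obtain ⟨l, hl⟩ := tw_unit H hj hM'
    exact ⟨l + N, by rwa [pow_add, mul_assoc, mul_smul]⟩
  | zero => exact ⟨0, by rw [smul_zero]; exact zero_mem _⟩
  | add x y _ _ hx hy =>
    obtain ⟨N, hx⟩ := hx
    obtain ⟨M, hy⟩ := hy
    refine ⟨N + M, ?_⟩
    rw [smul_add]
    exact add_mem (tw_up H hx (Nat.le_add_right N M)) (tw_up H hy (Nat.le_add_left M N))
  | neg x _ hx =>
    obtain ⟨N, hx⟩ := hx
    exact ⟨N, by rw [smul_neg]; exact neg_mem hx⟩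

theorem tw_empty : tw z E m ∅ = ⊥ :=
  eq_bot_iff.2 ((AddSubgroup.closure_le _).2 fun _ ⟨_, hi, _⟩ => hi.elim)

theorem Bun.mem_tw_one (H : Bun z R E) : w ∈ tw z E m {i} ↔ z i ^ m • w ∈ E i := by
  simp only [H.mem_tw (Set.mem_singleton i), hs_single (H.ne i), one_pow, one_mul, exists_const]

theorem Bun.tw_mono (H : Bun z R E) : Monotone (tw z E m) := by
  intro s s' h
  refine AddSubgroup.closure_mono ?_
  rintro w ⟨i, hi, N, hw⟩
  refine ⟨i, h hi, N, ?_⟩
  show (hs z s' i ^ N * z i ^ m) • w ∈ E i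
  rw [tw_sub z h, mul_pow, mul_assoc, mul_smul]
  exact H.smul i _ (pow_mem (H.hs_mem _ i) N) _ hw

theorem Bun.tw_sh (H : Bun z R E) (a m : ℤ) (s : Set κ) :
    tw z (ZFd.sh z a E) m s = tw z E (m + a) s := by
  refine congrArg AddSubgroup.closure (Set.ext fun w => ?_)
  refine exists_congr fun i => and_congr_right fun _ => exists_congr fun N => ?_
  rw [mem_sh, smul_smul, mul_comm, mul_assoc, ← zpow_add₀ (H.ne i)]

theorem Bun.tw_pw (H : Bun z R E) (τ : Type) [Finite τ] (m : ℤ) (s : Set κ) :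
    tw z (ZFd.pw τ E) m s = AddSubgroup.pi Set.univ fun _ : τ => tw z E m s := by
  rcases s.eq_empty_or_nonempty with rfl | ⟨i, hi⟩
  · simp only [tw_empty, AddSubgroup.pi_bot]
  ext x
  simp only [(H.pw τ).mem_tw hi, AddSubgroup.mem_pi, Set.mem_univ, forall_true_left, H.mem_tw hi,
    mem_pw]
  refine ⟨fun ⟨N, h⟩ t => ⟨N, h t⟩, fun h => ?_⟩
  choose N hN using h
  obtain ⟨M, hM⟩ := Finite.exists_le N
  exact ⟨M, fun t => tw_up H (hN t) (hM t)⟩

theorem Bun.tw_map (H : Bun z R E) (f : W →ₗ[F] W') (m : ℤ) (s : Set κ) :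
    tw z (fun i => (E i).map f.toAddMonoidHom) m s = (tw z E m s).map f.toAddMonoidHom := by
  rcases s.eq_empty_or_nonempty with rfl | ⟨i, hi⟩
  · simp only [tw_empty, AddSubgroup.map_bot]
  ext x
  rw [(H.map f).mem_tw hi]
  constructor
  · rintro ⟨N, y, hy, e⟩
    have h0 := mul_ne_zero (pow_ne_zero N (H.hs_ne s i)) (zpow_ne_zero m (H.ne i))
    refine ⟨(hs z s i ^ N * z i ^ m)⁻¹ • y, (H.mem_tw hi).2 ⟨N, by rwa [smul_inv_smul₀ h0]⟩, ?_⟩
    show f (_ • y) = x
    rw [map_smul, show f y = _ from e, inv_smul_smul₀ h0]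
  · rintro ⟨y, hy, rfl⟩
    obtain ⟨N, hN⟩ := (H.mem_tw hi).1 hy
    exact ⟨N, _, hN, f.map_smul _ y⟩

/-- for `s = ∅` both sides are `⊥` because `f` is injective -/
theorem Bun.tw_comap {E' : κ → AddSubgroup W'} (H : Bun z R E') (f : W →ₗ[F] W')
    (hf : Function.Injective f) (m : ℤ) (s : Set κ) :
    tw z (fun i => (E' i).comap f.toAddMonoidHom) m s = (tw z E' m s).comap f.toAddMonoidHom := by
  rcases s.eq_empty_or_nonempty with rfl | ⟨i, hi⟩
  · rw [tw_empty, tw_empty]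
    exact ((AddMonoidHom.ker_eq_bot_iff f.toAddMonoidHom).2 hf).symm
  ext x
  rw [(H.comap f).mem_tw hi, AddSubgroup.mem_comap, H.mem_tw hi]
  refine exists_congr fun N => ?_
  show f (_ • x) ∈ E' i ↔ _
  rw [map_smul]
  rfl

/-- A short exact sequence `0 → E' → E → E'' → 0` of modules on the standard cover. -/
structure Ses {W'' : Type} [AddCommGroup W''] [Module F W''] (E' : κ → AddSubgroup W')
    (E : κ → AddSubgroup W) (E'' : κ → AddSubgroup W'') (a : W' →ₗ[F] W) (b : W →ₗ[F] W'') :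
    Prop where
  inj : Function.Injective a
  ex : ∀ x, b x = 0 ↔ ∃ y, a y = x
  left : ∀ i, E' i = (E i).comap a.toAddMonoidHom
  right : ∀ i, E'' i = (E i).map b.toAddMonoidHom

section

variable {W'' : Type} [AddCommGroup W''] [Module F W''] {E' : κ → AddSubgroup W'}
  {E'' : κ → AddSubgroup W''} {a : W' →ₗ[F] W} {b : W →ₗ[F] W''} {q : ℕ}

theorem tw_left (h : Ses E' E E'' a b) (H : Bun z R E) (s : Set κ) :
    tw z E' m s = (tw z E m s).comap a.toAddMonoidHom := by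
  rw [show E' = _ from funext h.left, H.tw_comap a h.inj]

theorem tw_right (h : Ses E' E E'' a b) (H : Bun z R E) (s : Set κ) :
    tw z E'' m s = (tw z E m s).map b.toAddMonoidHom := by
  rw [show E'' = _ from funext h.right, H.tw_map b]

theorem tw_ker (h : Ses E' E E'' a b) (H : Bun z R E) (s : Set κ) :
    (tw z E' m s).map a.toAddMonoidHom = tw z E m s ⊓ b.toAddMonoidHom.ker := by
  rw [tw_left h H, AddSubgroup.map_comap_eq, inf_comm]
  exact congrArg _ (AddSubgroup.ext fun x => (h.ex x).symm)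

theorem Ses.ker (h : Ses E' E E'' a b) (H : Bun z R E) (h'' : Van (tw z E'' m) q)
    (h0 : Van (tw z E m) (q + 1)) : Van (tw z E' m) (q + 1) :=
  (van_ker _ H.tw_mono (tw_right h H) (tw_ker h H) h'' h0).of_map _ h.inj fun _ => rfl

theorem Ses.mid (h : Ses E' E E'' a b) (H : Bun z R E) (h' : Van (tw z E' m) q)
    (h'' : Van (tw z E'' m) q) : Van (tw z E m) q :=
  van_mid _ H.tw_mono (tw_right h H) (tw_ker h H) (h'.map _ h.inj fun _ => rfl) h''

theorem Ses.quot (h : Ses E' E E'' a b) (H : Bun z R E) (h0 : Van (tw z E m) q)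
    (h' : Van (tw z E' m) (q + 1)) : Van (tw z E'' m) q :=
  van_quot _ H.tw_mono (tw_right h H) (tw_ker h H) h0 (h'.map _ h.inj fun _ => rfl)

/-- `van_zero_iff` -/
theorem Ses.zero [Nonempty κ] (h : Ses E' E E'' a b) (H : Bun z R E) (h0 : Van (tw z E m) 0) :
    Van (tw z E' m) 0 := by
  rw [van_zero_iff tw_empty] at h0 ⊢
  intro w hw
  refine h.inj ((h0 (a w) fun i => ?_).trans (map_zero a).symm)
  have := hw i
  rwa [tw_left h H] at this

end

/-- Rescaling of the sections `z`: multiplication by `c ^ m` is an additive bijection. -/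
theorem Bun.van_scale (H : Bun z R E) {c : F} (hc : c ≠ 0) {q : ℕ} :
    Van (tw (fun i => c * z i) E m) q ↔ Van (tw z E m) q := by
  have e0 : ∀ i j, c * z i / (c * z j) = z i / z j := fun i j => mul_div_mul_left _ _ hc
  have H' : Bun (fun i => c * z i) R E :=
    ⟨fun i => mul_ne_zero hc (H.ne i), fun i j => e0 j i ▸ H.mem i j, H.smul,
      fun i j w hw => e0 i j ▸ H.cmp i j w hw⟩
  have h0 := zpow_ne_zero m hc
  have hf : Function.Injective (DistribSMul.toAddMonoidHom W (c ^ m)) :=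
    smul_right_injective W h0
  have e : ∀ s, tw z E m s =
      (tw (fun i => c * z i) E m s).map (DistribSMul.toAddMonoidHom W (c ^ m)) := fun s => by
    rcases s.eq_empty_or_nonempty with rfl | ⟨i, hi⟩
    · simp only [tw_empty, AddSubgroup.map_bot]
    have e1 : ∀ x, x ∈ tw (fun i => c * z i) E m s ↔ c ^ m • x ∈ tw z E m s := fun x => by
      rw [H'.mem_tw hi, H.mem_tw hi]
      refine exists_congr fun N => ?_
      rw [smul_smul, mul_zpow, mul_assoc, mul_comm (c ^ m), hs, hs]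
      simp only [e0]
    ext x
    refine ⟨fun hx => ⟨(c ^ m)⁻¹ • x, (e1 _).2 (by rwa [smul_inv_smul₀ h0]),
      smul_inv_smul₀ h0 x⟩, ?_⟩
    rintro ⟨y, hy, rfl⟩
    exact (e1 y).1 hy
  exact ⟨fun h => h.map _ hf e, fun h => h.of_map _ hf e⟩

end Pool.Agent.ZFd
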