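import Pool.Agent.Lib.MP_751085_ag.ZF.EDefs
import Pool.Agent.Lib.MP_751085_ag.ZC.V.Jid

/-! Galois coverings of rings. -/

namespace Pool.Agent.ZCy.F

open scoped Classical
open groupCohomology

variable {O M T : Type} [CommRing O] [Field M] [CommRing T] (U : UC O)

theorem UC.smul_i (g : U.G) (o : O) : g • U.i o = U.i o := (U.inv _).1 ⟨o, rfl⟩ g

/-- the trace is invariant, so comes from `O` -/
theorem UC.exists_tr (a : U.A) : ∃ o : O, U.i o = ∑ g : U.G, g • a := 
  (U.inv _).2 fun h => by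
    simp only [Finset.smul_sum, smul_smul]
    exact Equiv.sum_comp (Equiv.mulLeft h) fun g => g • a

theorem UC.eq_one [Nontrivial T] (ρ : U.A →+* T) {g : U.G} (h : ∀ y, ρ (g • y) = ρ y) : g = 1 := by
  obtain ⟨m, x, y, c⟩ := U.crd
  by_contra hg
  have h1 := congrArg ρ (c g)
  have h2 := congrArg ρ (c 1)
  simp only [map_sum, map_mul, h, if_neg hg, map_zero] at h1
  simp only [map_sum, map_mul, one_smul, if_true, map_one] at h2
  exact zero_ne_one (h1.symm.trans h2)

theorem u1_crd {m : ℕ} {x y : Fin m → U.A}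
    (h : ∀ g : U.G, ∑ j, x j * g • y j = if g = 1 then 1 else 0) (g g' : U.G) :
    ∑ j, g' • x j * g • y j = if g = g' then 1 else 0 := by
  have := congrArg (g' • ·) (h (g'⁻¹ * g))
  simpa only [Finset.smul_sum, smul_mul', smul_smul, mul_inv_cancel_left, inv_mul_eq_one,
    smul_ite, smul_one, smul_zero, eq_comm (a := g')] using this

theorem UC.exists_dec : ∃ s : Finset U.A, ∀ (T : Type) [CommRing T] [Nontrivial T] (ρ : U.A →+* T)
    (g g' : U.G), (∀ y ∈ s, ρ (g • y) = ρ (g' • y)) → g = g' := by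
  obtain ⟨m, x, y, c⟩ := U.crd
  refine ⟨Finset.univ.image y, fun T _ _ ρ g g' h => by_contra fun hg => ?_⟩
  have h1 := congrArg ρ (u1_crd U c g g')
  have h2 := congrArg ρ (u1_crd U c g' g')
  simp only [map_sum, map_mul, if_neg hg, map_zero,
    fun j => h (y j) (Finset.mem_image_of_mem y (Finset.mem_univ j))] at h1
  simp only [map_sum, map_mul, if_true, map_one] at h2
  exact zero_ne_one (h1.symm.trans h2)

theorem UC.expand {m : ℕ} {x y : Fin m → U.A}
    (h : ∀ g : U.G, ∑ j, x j * g • y j = if g = 1 then 1 else 0) (a : U.A) :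
    a = ∑ j, x j * ∑ g : U.G, g • (y j * a) := by
  simp only [smul_mul', Finset.mul_sum, ← mul_assoc]
  rw [Finset.sum_comm]
  simp [← Finset.sum_mul, h]

theorem u1_dual {m : ℕ} {x y : Fin m → U.A}
    (h : ∀ g : U.G, ∑ j, x j * g • y j = if g = 1 then 1 else 0) (z : U.A) :
    ∑ j, (∑ g : U.G, g • (z * x j)) * y j = z := by
  have h1 := fun g => u1_crd U h 1 g
  simp only [one_smul] at h1
  simp only [smul_mul', Finset.sum_mul, mul_assoc]
  rw [Finset.sum_comm]
  simp [← Finset.mul_sum, h1]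

theorem u1_swap {m : ℕ} {x y : Fin m → U.A}
    (h : ∀ g : U.G, ∑ j, x j * g • y j = if g = 1 then 1 else 0) {W : Type} [AddCommMonoid W]
    (B : U.A →+ U.A →+ W) (hB : ∀ o a b, B (a * U.i o) b = B a (U.i o * b)) (s : U.A) :
    ∑ j, B (s * x j) (y j) = ∑ j, B (x j) (s * y j) := by
  choose o ho using fun j k => U.exists_tr (y k * (s * x j))
  have e : ∀ j, B (s * x j) (y j) = ∑ k, B (x k) (U.i (o j k) * y j) := fun j => by
    rw [U.expand h (s * x j), map_sum, AddMonoidHom.finsetSum_apply]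
    simp only [← ho, hB]
  simp only [e]
  rw [Finset.sum_comm]
  refine Finset.sum_congr rfl fun k _ => ?_
  rw [← map_sum, ← u1_dual U h (s * y k)]
  simp only [ho, mul_left_comm (y k), mul_assoc]

theorem UC.integral (y : U.A) : U.i.IsIntegralElem y := by
  let := U.i.toAlgebra
  have : Algebra.IsInvariant O U.A U.G := ⟨fun b hb => (U.inv b).2 hb⟩
  exact (Algebra.IsInvariant.isIntegral O U.A U.G).isIntegral y

theorem UC.exists_one : ∃ t : U.A, ∑ g : U.G, g • t = 1 := by
  obtain ⟨m, x, y, c⟩ := U.crd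
  let I : Ideal O :=
    { carrier := {o | ∃ t : U.A, ∑ g : U.G, g • t = U.i o}
      zero_mem' := ⟨0, by simp⟩
      add_mem' := fun ⟨a, ha⟩ ⟨b, hb⟩ => ⟨a + b, by
        simp only [smul_add, Finset.sum_add_distrib, ha, hb, map_add]⟩
      smul_mem' := fun o _ ⟨a, ha⟩ => ⟨U.i o * a, by
        simp only [smul_mul', U.smul_i, ← Finset.mul_sum, ha, smul_eq_mul, map_mul]⟩ }
  have : I = ⊤ := (Ideal.map_eq_top_iff U.i U.inj U.integral).1 ((Ideal.eq_top_iff_one _).2 (by
    rw [U.expand c 1]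
    refine sum_mem fun j _ => Ideal.mul_mem_left _ _ ?_
    obtain ⟨o, ho⟩ := U.exists_tr (y j * 1)
    exact ho ▸ Ideal.mem_map_of_mem _ ⟨_, ho.symm⟩))
  simpa only [map_one] using show ∃ t : U.A, ∑ g : U.G, g • t = U.i 1 from
    (Ideal.eq_top_iff_one I).1 this

theorem UC.conj [IsLocalRing T] (ρ ρ' : U.A →+* T) (h : ∀ o, ρ' (U.i o) = ρ (U.i o)) :
    ∃ g : U.G, ∀ y, ρ' y = ρ (g • y) := by
  obtain ⟨m, x, y, c⟩ := U.crd
  have h1 : ∑ g : U.G, ∑ j, ρ' (x j) * ρ (g • y j) = 1 := by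
    rw [Finset.sum_comm, ← map_one ρ', U.expand c 1, map_sum]
    refine Finset.sum_congr rfl fun j _ => ?_
    obtain ⟨o, ho⟩ := U.exists_tr (y j)
    rw [← Finset.mul_sum, ← map_sum, mul_one, ← ho, map_mul, h]
  obtain ⟨g, -, hg⟩ := IsLocalRing.exists_of_isUnit_sum (h1 ▸ isUnit_one)
  refine ⟨g, fun a => hg.mul_left_cancel ?_⟩
  have := u1_swap U c ((AddMonoidHom.mul.comp ρ'.toAddMonoidHom).compl₂
    (ρ.toAddMonoidHom.comp (DistribSMul.toAddMonoidHom U.A g))) (fun o a b => by
      change ρ' (a * U.i o) * ρ (g • b) = ρ' a * ρ (g • (U.i o * b))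
      rw [smul_mul', U.smul_i, map_mul, map_mul, h, mul_assoc]) a
  change ∑ j, ρ' (a * x j) * ρ (g • y j) = ∑ j, ρ' (x j) * ρ (g • (a * y j)) at this
  simp only [smul_mul', map_mul] at this
  rw [Finset.sum_mul, Finset.sum_mul]
  exact (Finset.sum_congr rfl fun j _ => by ring).trans
    (this.trans (Finset.sum_congr rfl fun j _ => by ring))

theorem u1_fin : letI := U.i.toAlgebra; Module.Finite O U.A := by
  let := U.i.toAlgebra
  obtain ⟨m, x, y, c⟩ := U.crd
  refine Module.Finite.of_surjective (Fintype.linearCombination O x) fun a => ?_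
  choose o ho using fun j => U.exists_tr (y j * a)
  refine ⟨o, Eq.trans ?_ (U.expand c a).symm⟩
  rw [Fintype.linearCombination_apply]
  exact Finset.sum_congr rfl fun j _ => by rw [← ho, mul_comm]; rfl

theorem u1_unr : letI := U.i.toAlgebra; Algebra.FormallyUnramified O U.A := by
  let := U.i.toAlgebra
  have := u1_fin U
  obtain ⟨m, x, y, c⟩ := U.crd
  refine Algebra.FormallyUnramified.iff_exists_tensorProduct.2 ⟨∑ j, x j ⊗ₜ y j, fun s => ?_, ?_⟩
  · simp only [sub_mul, Finset.mul_sum, Algebra.TensorProduct.tmul_mul_tmul, one_mul]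
    rw [Finset.sum_sub_distrib]
    exact sub_eq_zero.2 (u1_swap U c
      (LinearMap.toAddMonoidHom'.comp (TensorProduct.mk O U.A U.A).toAddMonoidHom)
      (fun o a b => by
        rw [mul_comm]
        exact TensorProduct.smul_tmul o a b) s).symm
  · simpa using c 1

theorem u1_quot {B : Type} [CommRing B] [Algebra M B] [Module.Finite M B]
    [Algebra.FormallyUnramified M B] (n : Ideal B) [n.IsMaximal] :
    Algebra.IsSeparable M (B ⧸ n) :=
  letI := Ideal.Quotient.field n
  Algebra.FormallyUnramified.isSeparable M _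

theorem UC.sep (φ : O →+* M) {Ω : Type} [Field Ω] [Algebra M Ω] (ρ : U.A →+* Ω)
    (h : ∀ o, ρ (U.i o) = algebraMap M Ω (φ o)) (y : U.A) : IsSeparable M (ρ y) := by
  let := U.i.toAlgebra
  let := φ.toAlgebra
  let := ((algebraMap M Ω).comp φ).toAlgebra
  have : IsScalarTower O M Ω := IsScalarTower.of_algebraMap_eq fun _ => rfl
  have := u1_fin U
  have := u1_unr U
  let ψ : TensorProduct O M U.A →ₐ[M] Ω :=
    Algebra.TensorProduct.lift (Algebra.ofId M Ω) ⟨ρ, h⟩ fun _ _ => Commute.all _ _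
  have := IsArtinianRing.of_finite M (TensorProduct O M U.A)
  have : (RingHom.ker ψ).IsPrime := RingHom.ker_isPrime ψ
  have := IsArtinianRing.isMaximal_of_isPrime (RingHom.ker ψ)
  have := ((u1_quot (M := M) (RingHom.ker ψ)).isSeparable _ (Ideal.Quotient.mk _ (1 ⊗ₜ y))).map
    (Ideal.kerLiftAlg ψ) (Ideal.kerLiftAlg_injective ψ)
  rw [Ideal.kerLiftAlg_mk] at this
  simpa [ψ] using this

theorem UC.exists_pt (φ : O →+* M) (Ω : Type) [Field Ω] [Algebra M Ω] [IsSepClosed Ω] :
    ∃ ρ : U.A →+* Ω, ∀ o, ρ (U.i o) = algebraMap M Ω (φ o) := by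
  let := U.i.toAlgebra
  let := φ.toAlgebra
  have := u1_fin U
  have := u1_unr U
  obtain ⟨t, ht⟩ := U.exists_one
  choose τ hτ using fun a => U.exists_tr (t * a)
  let l : U.A →ₗ[O] O :=
    { toFun := τ
      map_add' := fun a b => U.inj (by
        simp only [map_add, hτ, mul_add, smul_add, Finset.sum_add_distrib])
      map_smul' := fun o a => U.inj (by
        change U.i (τ (U.i o * a)) = U.i (o * τ a)
        simp only [map_mul, hτ, mul_left_comm t, smul_mul' _ (U.i o), U.smul_i, Finset.mul_sum]) }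
  have h1 : l 1 = 1 := U.inj ((hτ 1).trans (by rw [mul_one, ht, map_one]))
  have : Nontrivial (TensorProduct O M U.A) := nontrivial_of_ne 1 0 fun e => by
    have := congrArg (fun z => TensorProduct.rid O M (l.lTensor M z)) e
    simp [Algebra.TensorProduct.one_def, h1] at this
  obtain ⟨n, hn⟩ := Ideal.exists_maximal (TensorProduct O M U.A)
  have := u1_quot (M := M) n
  let := Ideal.Quotient.field n
  let σ : (TensorProduct O M U.A ⧸ n) →ₐ[M] Ω := IsSepClosed.lift
  refine ⟨(σ.comp (Ideal.Quotient.mkₐ M n)).toRingHom.comp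
    Algebra.TensorProduct.includeRight.toRingHom, fun o => ?_⟩
  refine Eq.trans (congrArg (σ.comp (Ideal.Quotient.mkₐ M n)) ?_) (AlgHom.commutes _ (φ o))
  exact (Algebra.TensorProduct.includeRight.commutes o).trans
    (IsScalarTower.algebraMap_apply O M _ o)

/-- a unit modulo an ideal of nonunits of a local ring is a unit: `A` is integral over `O` -/
theorem UC.isUnit_of [IsLocalRing O] {a b : U.A}
    (h : a * b - 1 ∈ (IsLocalRing.maximalIdeal O).map U.i) : IsUnit a := by
  by_contra ha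
  obtain ⟨n, hn, han⟩ := exists_max_ideal_of_mem_nonunits ha
  have := IsLocalRing.eq_maximalIdeal
    (Ideal.isMaximal_comap_of_isIntegral_of_isMaximal' U.i U.integral n)
  have h1 := sub_mem (n.mul_mem_right b han) (Ideal.map_le_iff_le_comap.2 this.ge h)
  rw [sub_sub_cancel] at h1
  exact hn.ne_top ((Ideal.eq_top_iff_one n).2 h1)

/-- Galois coordinates from trivial inertia at one point: `gal_coord` for the kernel of `ρ` gives
an invariant `s = i o` with `ρ s ≠ 0`; divide by it. -/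
theorem crd_of_point {G A Ω : Type} [Group G] [Fintype G] [CommRing A] [MulSemiringAction G A]
    [Field Ω] (i : O →+* A) (hi : ∀ y, y ∈ i.range ↔ ∀ g : G, g • y = y) (ρ : A →+* Ω)
    (hρ : ∀ o, ρ (i o) ≠ 0 → IsUnit o) (h : ∀ g : G, (∀ y, ρ (g • y) = ρ y) → g = 1) :
    ∃ (m : ℕ) (x y : Fin m → A), ∀ g : G, ∑ j, x j * g • y j = if g = 1 then 1 else 0 := by
  have := RingHom.ker_isPrime ρ
  obtain ⟨s, m, x, y, h1, h2, h3⟩ := gal_coord (G := G) (RingHom.ker ρ) fun g hg => by
    by_contra! hc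
    exact hg (h g fun y => sub_eq_zero.1 ((map_sub ρ _ _).symm.trans (hc y)))
  obtain ⟨o, rfl⟩ := (hi s).2 h2
  obtain ⟨o', ho⟩ := (hρ o h1).exists_left_inv
  refine ⟨m, fun j => i o' * x j, y, fun g => ?_⟩
  simp only [mul_assoc, ← Finset.mul_sum, h3, mul_ite, mul_zero, ← map_mul, ho, map_one]

end Pool.Agent.ZCy.F
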