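import Pool.Agent.Lib.MP_751085_ag.ZF.E.U1
import Pool.Agent.Lib.MP_751085_ag.ZF.A2

/-! The value of a unit cocycle at a point. -/

namespace Pool.Agent.ZCy.F

open scoped Classical
open groupCohomology

variable {O O' M M' : Type} [CommRing O] [CommRing O'] [Field M] [Field M'] {U : UC O}

theorem pullR_mul {G G' A A' : Type} [CommRing A] [CommRing A'] (ρ : A →+* A') (r : G' → G)
    (c c' : G × G → Aˣ) : pullR ρ r (c * c') = pullR ρ r c * pullR ρ r c' := by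
  exact funext fun p => by simp only [pullR, Pi.mul_apply, map_mul]

theorem pullR_inv {G G' A A' : Type} [CommRing A] [CommRing A'] (ρ : A →+* A') (r : G' → G)
    (c : G × G → Aˣ) : pullR ρ r c⁻¹ = (pullR ρ r c)⁻¹ := by
  exact funext fun p => by simp only [pullR, Pi.inv_apply, map_inv]

theorem pullR_coc {G G' A A' : Type} [Group G] [Group G'] [CommRing A] [CommRing A']
    [MulSemiringAction G A] [MulSemiringAction G' A'] {ρ : A →+* A'} {r : G' → G}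
    (h : ∀ g y, ρ (r g • y) = g • ρ y) (hr : ∀ g g', r (g * g') = r g * r g') {c : G × G → Aˣ}
    (hc : IsMulCocycle₂ c) : IsMulCocycle₂ (pullR ρ r c) := by
  intro g g' k
  have hu : ∀ g (u : Aˣ), g • Units.map (ρ : A →* A') u = Units.map (ρ : A →* A') (r g • u) :=
    fun g u => Units.ext (h g u).symm
  simp only [pullR, hr, hu, ← map_mul]
  rw [hc]

theorem pullR_dd {G G' A A' : Type} [Group G] [Group G'] [CommRing A] [CommRing A']
    [MulSemiringAction G A] [MulSemiringAction G' A'] {ρ : A →+* A'} {r : G' → G}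
    (h : ∀ g y, ρ (r g • y) = g • ρ y) (hr : ∀ g g', r (g * g') = r g * r g') (e : G → Aˣ) :
    pullR ρ r (dd e) = dd fun g => Units.map (ρ : A →* A') (e (r g)) := by
  have hu : ∀ g (u : Aˣ), g • Units.map (ρ : A →* A') u = Units.map (ρ : A →* A') (r g • u) :=
    fun g u => Units.ext (h g u).symm
  funext p
  simp only [pullR, dd, hr, hu, map_mul, map_div]

theorem u2_inj {T : Type} [CommRing T] [Nontrivial T] (ρ : U.A →+* T) {g g' : U.G}
    (h : ∀ y, ρ (g • y) = ρ (g' • y)) : g = g' := by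
  obtain ⟨s, hs⟩ := U.exists_dec
  exact hs T ρ g g' fun y _ => h y

section gen

variable {Ω G' : Type} [Field Ω] [Algebra M Ω] [Group G'] [MulSemiringAction G' Ω] {φ : O →+* M}
  {ρ : U.A →+* Ω} {r : G' → U.G}

theorem UC.exists_at (G' : Type) [Group G'] [MulSemiringAction G' Ω]
    [SMulCommClass G' M Ω] (h : ∀ o, ρ (U.i o) = algebraMap M Ω (φ o)) :
    ∃ r : G' → U.G, U.At φ ρ r := by
  have h1 : ∀ g : G', ∃ σ : U.G, ∀ y, g • ρ y = ρ (σ • y) := fun g =>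
    U.conj ρ ((MulSemiringAction.toRingHom G' Ω g).comp ρ) fun o => by
      change g • ρ (U.i o) = _
      rw [h, smul_algebraMap]
  choose r hr using h1
  exact ⟨r, h, fun g y => (hr g y).symm⟩

theorem UC.At.mul (h : U.At φ ρ r) (g g' : G') : r (g * g') = r g * r g' := by
  exact u2_inj ρ fun y => by rw [h.comm, mul_smul, mul_smul, h.comm, h.comm]

theorem UC.At.one (h : U.At φ ρ r) {g : G'} : r g = 1 ↔ ∀ y, g • ρ y = ρ y := by
  exact ⟨fun e y => by rw [← h.comm, e, one_smul], fun e => U.eq_one ρ fun y => by rw [h.comm, e]⟩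

theorem UC.At.coc (h : U.At φ ρ r) : IsMulCocycle₂ (pullR ρ r U.c) := by
  exact pullR_coc h.comm h.mul U.coc

end gen

section aut

variable {Ω : Type} [Field Ω] [Algebra M Ω] {φ : O →+* M} {ρ ρ' : U.A →+* Ω}
  {r r' : (Ω ≃ₐ[M] Ω) → U.G}

theorem UC.At.locConst (h : U.At φ ρ r) {A : Type} {n : ℕ} (f : (Fin n → U.G) → A) :
    LocConst M Ω n fun g => f fun i => r (g i) := by
  obtain ⟨s, hs⟩ := U.exists_dec
  refine ⟨s.image ρ, fun g g' e => congrArg f (funext fun i => hs Ω ρ _ _ fun y hy => ?_)⟩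
  rw [h.comm, h.comm]
  exact e i _ (Finset.mem_image_of_mem _ hy)

theorem UC.At.mem_Z2 (h : U.At φ ρ r) : pullR ρ r U.c ∈ Z2 M Ω := by
  exact ⟨h.coc, h.locConst fun v : Fin 2 → U.G => Units.map (ρ : U.A →* Ω) (U.c (v 0, v 1))⟩

theorem UC.At.mem_B2 (h : U.At φ ρ r) (e : U.G → U.Aˣ) : pullR ρ r (dd e) ∈ B2 M Ω := by
  exact ⟨fun g => Units.map (ρ : U.A →* Ω) (e (r g)),
    h.locConst fun v : Fin 1 → U.G => Units.map (ρ : U.A →* Ω) (e (v 0)),
    fun g g' => congrFun (pullR_dd h.comm h.mul e) (g, g')⟩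

theorem UC.At.two (h : U.At φ ρ r) (h' : U.At φ ρ' r') :
    ∃ e : U.G → U.Aˣ, pullR ρ' r' U.c = pullR ρ r U.c * pullR ρ r (dd e) := by
  obtain ⟨σ, hσ⟩ := U.conj ρ ρ' fun o => by rw [h.base, h'.base]
  have hr : ∀ g, r' g = σ⁻¹ * r g * σ := fun g => u2_inj ρ' fun y => by
    rw [h'.comm, hσ, hσ, ← h.comm, mul_smul, mul_smul, smul_inv_smul]
  refine ⟨conjE U.c σ, funext fun p => ?_⟩
  rw [← pullR_mul, pullR, pullR, Pi.mul_apply, hr, hr,
    ← (coc_iff.1 U.coc).conj (σ := σ) trivial trivial trivial]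
  exact Units.ext (hσ _)

theorem u2_cl (h : U.At φ ρ r) (h' : U.At φ ρ' r') :
    cl M Ω (pullR ρ' r' U.c) = cl M Ω (pullR ρ r U.c) := by
  obtain ⟨e, he⟩ := h.two h'
  have h1 : pullR ρ r (dd e) ∈ Z2 M Ω := ⟨pullR_coc h.comm h.mul (dd_coc e),
    h.locConst fun v : Fin 2 → U.G => Units.map (ρ : U.A →* Ω) (dd e (v 0, v 1))⟩
  rw [he, cl_mul h.mem_Z2 h1, (cl_eq_zero h1).2 (h.mem_B2 e)]
  abel

end aut

theorem UC.exists_at_sc (U : UC O) (φ : O →+* M) :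
    ∃ (ρ : U.A →+* SC M) (r : Gm M → U.G), U.At φ ρ r := by
  obtain ⟨ρ, h⟩ := U.exists_pt φ (SC M)
  obtain ⟨r, hr⟩ := UC.exists_at (Gm M) h
  exact ⟨ρ, r, hr⟩

theorem UC.At.val_eq {φ : O →+* M} {ρ : U.A →+* SC M} {r : Gm M → U.G} (h : U.At φ ρ r) :
    U.val φ = cl M _ (pullR ρ r U.c) := by
  have h1 : ∃ q : (U.A →+* SC M) × (Gm M → U.G), U.At φ q.1 q.2 := ⟨(ρ, r), h⟩
  rw [UC.val, dif_pos h1]
  exact u2_cl h h1.choose_spec

theorem UC.At.res_val {Ω : Type} [Field Ω] [Algebra M' Ω] [IsSepClosure M' Ω] (φ : O →+* M)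
    (ψ : M →+* M') {ρ : U.A →+* Ω} {r : (Ω ≃ₐ[M'] Ω) → U.G} (h : U.At (ψ.comp φ) ρ r) :
    res ψ (U.val φ) = cl M' Ω (pullR ρ r U.c) := by
  have := IsSepClosure.sep_closed M' (K := Ω)
  obtain ⟨ρ₀, r₀, h₀⟩ := U.exists_at_sc φ
  obtain ⟨J, R, hl⟩ := exists_lk (Ω := SC M) (Ω' := Ω) ψ
  have h1 : U.At (ψ.comp φ) (J.comp ρ₀) (r₀ ∘ R) :=
    ⟨fun o => (congrArg J (h₀.base o)).trans (hl.base _),
      fun g y => (congrArg J (h₀.comm _ y)).trans (hl.comm _ _)⟩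
  rw [h₀.val_eq, hl.res_cl h₀.mem_Z2]
  exact u2_cl h h1

theorem UC.val_comp (U : UC O) (φ : O →+* M) (ψ : M →+* M') :
    U.val (ψ.comp φ) = rs ψ (U.val φ) := by
  obtain ⟨ρ, r, h⟩ := U.exists_at_sc (ψ.comp φ)
  rw [h.val_eq]
  exact (h.res_val φ ψ).symm

theorem UC.At.val_cls {E G' : Type} [Field E] [Algebra M E] [Group G'] [Finite G']
    [MulSemiringAction G' E] [IsGaloisGroup G' M E] {φ : O →+* M} {ρ : U.A →+* E} {r : G' → U.G}
    (h : U.At φ ρ r) : U.val φ = cls M (pullR ρ r U.c) := by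
  obtain ⟨⟨j, q⟩, hq⟩ := a2_ex M E G'
  have h1 : U.At φ ((j : E →+* SC M).comp ρ) (r ∘ q) :=
    ⟨fun o => (congrArg j (h.base o)).trans (j.commutes _),
      fun g y => (congrArg j (h.comm _ y)).trans (hq _ _)⟩
  rw [a2_cls (j := (j : E →+* SC M)) (r := q) (fun a => j.commutes a) hq h.coc]
  exact h1.val_eq

theorem u2_level (φ : O →+* M) {ρ : U.A →+* SC M} (h : ∀ o, ρ (U.i o) = algebraMap M _ (φ o))
    (s : Finset (SC M)) : ∃ L : IntermediateField M (SC M), FiniteDimensional M L ∧ IsGalois M L ∧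
      (∀ y ∈ s, y ∈ L) ∧ ∀ a, ρ a ∈ L := by
  obtain ⟨m, x, y, hxy⟩ := U.crd
  obtain ⟨L, hf, hg, hL⟩ := exists_level (K := M) (s ∪ Finset.univ.image fun j => ρ (x j))
  refine ⟨L, hf, hg, fun z hz => hL z (Finset.mem_union_left _ hz), fun a => ?_⟩
  rw [U.expand hxy a, map_sum]
  refine sum_mem fun j _ => ?_
  obtain ⟨o, ho⟩ := U.exists_tr (y j * a)
  rw [← ho, map_mul, h]
  exact mul_mem (hL _ (Finset.mem_union_right _ (Finset.mem_image_of_mem _ (Finset.mem_univ j))))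
    (L.algebraMap_mem _)

theorem UC.exists_fin (U : UC O) (φ : O →+* M) (s : Finset (SC M)) :
    ∃ (L : IntermediateField M (SC M)) (_ : FiniteDimensional M L) (_ : IsGalois M L)
      (ρ : U.A →+* L) (r : (L ≃ₐ[M] L) → U.G), (∀ y ∈ s, y ∈ L) ∧ U.At φ ρ r := by
  obtain ⟨ρ, h⟩ := U.exists_pt φ (SC M)
  obtain ⟨L, hf, hg, hs, hL⟩ := u2_level φ h s
  obtain ⟨r, hr⟩ := UC.exists_at (φ := φ) (ρ := ρ.codRestrict L hL) (L ≃ₐ[M] L)
    fun o => Subtype.ext (h o)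
  exact ⟨L, hf, hg, _, r, hs, hr⟩

/-- the field generated by the image of `A`: it is stable under `Gm M` -/
theorem UC.exists_min (U : UC O) (φ : O →+* M) :
    ∃ (L : IntermediateField M (SC M)) (_ : FiniteDimensional M L) (_ : IsGalois M L)
      (ρ : U.A →+* L) (r : (L ≃ₐ[M] L) → U.G), U.At φ ρ r ∧ Function.Injective r := by
  obtain ⟨ρ, r₀, h⟩ := U.exists_at_sc φ
  obtain ⟨L', hf', -, -, hL'⟩ := u2_level φ h.base ∅
  have hL : ∀ a, ρ a ∈ IntermediateField.adjoin M (Set.range ρ) := fun a =>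
    IntermediateField.subset_adjoin M _ ⟨a, rfl⟩
  have hle : IntermediateField.adjoin M (Set.range ρ) ≤ L' :=
    IntermediateField.adjoin_le_iff.2 (by rintro _ ⟨a, rfl⟩; exact hL' a)
  have hf : FiniteDimensional M (IntermediateField.adjoin M (Set.range ρ)) :=
    Module.Finite.of_injective (IntermediateField.inclusion hle).toLinearMap
      (IntermediateField.inclusion hle).injective
  have hn : Normal M (IntermediateField.adjoin M (Set.range ρ)) := by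
    refine IntermediateField.normal_iff_forall_map_le'.2 fun σ => ?_
    rw [IntermediateField.adjoin_map]
    refine IntermediateField.adjoin_le_iff.2 ?_
    rintro _ ⟨_, ⟨a, rfl⟩, rfl⟩
    have h1 : σ (ρ a) = ρ (r₀ σ • a) := (h.comm σ a).symm
    exact (congrArg (· ∈ IntermediateField.adjoin M (Set.range ρ)) h1).mpr (hL _)
  have hg : IsGalois M (IntermediateField.adjoin M (Set.range ρ)) := ⟨⟩
  obtain ⟨r, hr⟩ := UC.exists_at (φ := φ) (ρ := ρ.codRestrict _ hL)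
    (IntermediateField.adjoin M (Set.range ρ) ≃ₐ[M] IntermediateField.adjoin M (Set.range ρ))
    fun o => Subtype.ext (h.base o)
  refine ⟨_, hf, hg, _, r, hr, fun g g' e => ?_⟩
  refine AlgEquiv.coe_toAlgHom_injective (IntermediateField.adjoin_algHom_ext M ?_)
  rintro _ ⟨a, rfl⟩
  exact (hr.comm g a).symm.trans (e ▸ hr.comm g' a)

theorem UC.val_dd {e : U.G → U.Aˣ} (h : U.c = dd e) (φ : O →+* M) : U.val φ = 0 := by
  obtain ⟨ρ, r, h'⟩ := U.exists_at_sc φ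
  rw [h'.val_eq, cl_eq_zero h'.mem_Z2, h]
  exact h'.mem_B2 e

/-- a map of coverings -/
structure UC.Hom (U : UC O) (φ : O →+* O') (V : UC O') (j : U.A →+* V.A) (e : V.G → U.G) :
    Prop where
  base : ∀ o, j (U.i o) = V.i (φ o)
  comm : ∀ g y, j (e g • y) = g • j y

theorem UC.Hom.at {V : UC O'} {φ : O →+* O'} {j : U.A →+* V.A} {e : V.G → U.G}
    (h : U.Hom φ V j e) {Ω G' : Type} [Field Ω] [Algebra M Ω] [Group G'] [MulSemiringAction G' Ω]
    {ψ : O' →+* M} {ρ : V.A →+* Ω} {r : G' → V.G} (h' : V.At ψ ρ r) :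
    U.At (ψ.comp φ) (ρ.comp j) (e ∘ r) := by
  exact ⟨fun o => (congrArg ρ (h.base o)).trans (h'.base _),
    fun g y => (congrArg ρ (h.comm _ y)).trans (h'.comm _ _)⟩

theorem UC.Hom.val {V : UC O'} {φ : O →+* O'} {j : U.A →+* V.A} {e : V.G → U.G}
    (h : U.Hom φ V j e) (hc : V.c = pullR j e U.c) (ψ : O' →+* M) :
    V.val ψ = U.val (ψ.comp φ) := by
  obtain ⟨ρ, r, h'⟩ := V.exists_at_sc ψ
  rw [h'.val_eq, (h.at h').val_eq, hc]
  rfl

theorem UC.Hom.val_add {O₂ : Type} [CommRing O₂] {U₂ : UC O₂} {V : UC O'} {φ : O →+* O'}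
    {φ₂ : O₂ →+* O'} {j : U.A →+* V.A} {e : V.G → U.G} {j₂ : U₂.A →+* V.A} {e₂ : V.G → U₂.G}
    (h : U.Hom φ V j e) (h₂ : U₂.Hom φ₂ V j₂ e₂) (hc : V.c = pullR j e U.c * pullR j₂ e₂ U₂.c)
    (ψ : O' →+* M) : V.val ψ = U.val (ψ.comp φ) + U₂.val (ψ.comp φ₂) := by
  obtain ⟨ρ, r, h'⟩ := V.exists_at_sc ψ
  rw [h'.val_eq, (h.at h').val_eq, (h₂.at h').val_eq, hc, pullR_mul,
    ← cl_mul (h.at h').mem_Z2 (h₂.at h').mem_Z2]
  rfl

end Pool.Agent.ZCy.F
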