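import Pool.Agent.Lib.MP_751085_ag.ZF.E.U3
import Pool.Agent.Lib.MP_751085_ag.ZF.A2b
import Pool.Agent.Lib.MP_751085_ag.ZC.G3

/-! Rigidity over complete local rings. -/

namespace Pool.Agent.ZCy.F

open scoped Classical
open groupCohomology

/-- a complete multiplicative filtration, stable under the group -/
structure Fil (G : Type) {B : Type} [Group G] [CommRing B] [MulSemiringAction G B]
    (J : ℕ → AddSubgroup B) : Prop where
  anti : ∀ n, J (n + 1) ≤ J n
  one : (1 : B) ∈ J 0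
  mul : ∀ n m, ∀ x ∈ J n, ∀ y ∈ J m, x * y ∈ J (n + m)
  smul : ∀ (g : G) n, ∀ x ∈ J n, g • x ∈ J n
  lim : ∀ a : ℕ → B, (∀ n, a (n + 1) - a n ∈ J n) → ∃ l, ∀ n, l - a n ∈ J n
  sep : ∀ x, (∀ n, x ∈ J n) → x = 0

section coh

variable {G B : Type} [Group G] [Fintype G] [CommRing B] [MulSemiringAction G B]
  {J : ℕ → AddSubgroup B}

omit [Fintype G] in
theorem u4_le (h : Fil G J) {n m : ℕ} {x : B} (hx : x ∈ J n) (e : m ≤ n) : x ∈ J m :=
  antitone_nat_of_succ_le h.anti e hx

omit [Fintype G] in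
theorem u4_mul (h : Fil G J) {n m k : ℕ} {x y : B} (hx : x ∈ J n) (hy : y ∈ J m)
    (e : k ≤ n + m) : x * y ∈ J k := u4_le h (h.mul _ _ _ hx _ hy) e

omit [Fintype G] in
theorem u4_zero (h : Fil G J) {n : ℕ} {x : B} (hx : x - 1 ∈ J n) : x ∈ J 0 := by
  have h1 := add_mem (u4_le h hx (Nat.zero_le n)) h.one
  rwa [sub_add_cancel] at h1

omit [Fintype G] in
/-- geometric series -/
theorem Fil.unit (h : Fil G J) {n : ℕ} {x : B} (hx : x ∈ J (n + 1)) :
    ∃ u : Bˣ, (u : B) = 1 + x ∧ ((u⁻¹ : Bˣ) : B) - 1 ∈ J (n + 1) := by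
  have hp : ∀ k, (-x) ^ k ∈ J k := fun k => by
    induction k with
    | zero => rw [pow_zero]; exact h.one
    | succ k ih => rw [pow_succ]; exact u4_mul h ih (neg_mem hx) (by omega)
  obtain ⟨l, hl⟩ := h.lim (fun k => ∑ i ∈ Finset.range k, (-x) ^ i) fun k => by
    rw [Finset.sum_range_succ, add_sub_cancel_left]
    exact hp k
  have h0 : 1 + x ∈ J 0 := add_mem h.one (u4_le h hx (Nat.zero_le _))
  have e : (1 + x) * l = 1 := sub_eq_zero.1 (h.sep _ fun k => by
    have h1 := sub_mem (u4_mul h h0 (hl k) (Nat.le_add_left k 0)) (hp k)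
    have h2 := mul_neg_geom_sum (-x) k
    have e : (1 + x) * l - 1 = (1 + x) * (l - ∑ i ∈ Finset.range k, (-x) ^ i) - (-x) ^ k := by
      linear_combination h2
    rwa [e])
  refine ⟨⟨1 + x, l, e, (mul_comm _ _).trans e⟩, rfl, ?_⟩
  have h1 := hl 0
  rw [Finset.sum_range_zero, sub_zero] at h1
  have e1 : l - 1 = -x * l := by linear_combination e
  change l - 1 ∈ _
  rw [e1]
  exact u4_mul h (neg_mem hx) h1 le_rfl

omit [Fintype G] in
theorem u4_dd (c : G × G → Bˣ) (e : G → Bˣ) (g g' : G) :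
    ((c / dd e) (g, g') : B) * (g • (e g' : B) * e g) = c (g, g') * e (g * g') := by
  have h : (c / dd e) (g, g') * (g • e g' * e g) = c (g, g') * e (g * g') := by
    rw [Pi.div_apply, dd_apply]
    apply Additive.ofMul.injective
    simp only [ofMul_mul, ofMul_div]
    abel
  exact congrArg Units.val h

theorem Fil.step (h : Fil G J) {t : B} {s : ℕ} (ht : ∑ g : G, g • t = 1)
    (hs : ∀ (g : G) n, ∀ x ∈ J (n + s), g • t * x ∈ J n) {c : G × G → Bˣ} (hc : IsMulCocycle₂ c)
    {n : ℕ} (hn : s < n) (h1 : ∀ p, (c p : B) - 1 ∈ J (n + s)) :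
    ∃ e : G → Bˣ, (∀ g, (e g : B) - 1 ∈ J n) ∧ ∀ p, ((c / dd e) p : B) - 1 ∈ J (n + 1 + s) := by
  obtain ⟨f, hf⟩ : ∃ f : G × G → B, ∀ p, (c p : B) = 1 + f p :=
    ⟨fun p => c p - 1, fun p => by ring⟩
  have h2 : ∀ p, f p ∈ J (n + s) := fun p => by
    have := h1 p
    rwa [hf, add_sub_cancel_left] at this
  obtain ⟨u, hu⟩ : ∃ u : G → B, ∀ g, u g = ∑ j, (g * j) • t * f (g, j) := ⟨_, fun _ => rfl⟩
  have h3 : ∀ g, u g ∈ J n := fun g => hu g ▸ sum_mem fun j _ => hs _ _ _ (h2 _)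
  obtain ⟨m, rfl⟩ : ∃ m, n = m + 1 := ⟨n - 1, by omega⟩
  choose e he he' using fun g => h.unit (h3 g)
  refine ⟨e, fun g => by rw [he, add_sub_cancel_left]; exact h3 g, fun ⟨g, g'⟩ => ?_⟩
  have h4 : u (g * g') + f (g, g') - g • u g' - u g ∈ J (m + 1 + 1 + s) := by
    have e1 : ∑ j, (g * g' * j) • t = 1 :=
      (Fintype.sum_equiv (Equiv.mulLeft (g * g')) _ _ fun _ => rfl).trans ht
    have e2 : u g = ∑ j, (g * g' * j) • t * f (g, g' * j) := by
      rw [hu]
      exact (Fintype.sum_equiv (Equiv.mulLeft g') _ _ fun j => by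
        rw [mul_assoc]; rfl).symm
    have e3 : g • u g' = ∑ j, (g * g' * j) • t * g • f (g', j) := by
      rw [hu, Finset.smul_sum]
      exact Finset.sum_congr rfl fun j _ => by rw [smul_mul', smul_smul, mul_assoc]
    rw [e2, e3, hu, ← one_mul (f (g, g')), ← e1, Finset.sum_mul, ← Finset.sum_add_distrib,
      ← Finset.sum_sub_distrib, ← Finset.sum_sub_distrib]
    refine sum_mem fun j _ => ?_
    have e4 : (c (g * g', j) : B) * c (g, g') = g • (c (g', j) : B) * c (g, g' * j) :=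
      congrArg Units.val (hc g g' j)
    rw [hf, hf, hf, hf, smul_add, smul_one] at e4
    have e5 : (g * g' * j) • t * f (g * g', j) + (g * g' * j) • t * f (g, g') -
        (g * g' * j) • t * g • f (g', j) - (g * g' * j) • t * f (g, g' * j) =
        (g * g' * j) • t * (g • f (g', j) * f (g, g' * j) - f (g * g', j) * f (g, g')) := by
      linear_combination (g * g' * j) • t * e4
    rw [e5]
    exact hs _ _ _ (sub_mem (u4_mul h (h.smul _ _ _ (h2 _)) (h2 _) (by omega))
      (u4_mul h (h2 _) (h2 _) (by omega)))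
  have h5 := u4_dd c e g g'
  have i1 : g • (e g' : B) * g • ((e g')⁻¹ : Bˣ).1 = 1 := by
    rw [← smul_mul', Units.mul_inv, smul_one]
  have i2 := (e g).mul_inv
  rw [he] at i1 i2
  rw [he, he, he, hf] at h5
  rw [smul_add, smul_one] at h5 i1
  have e6 : ((c / dd e) (g, g') : B) - 1 = (u (g * g') + f (g, g') - g • u g' - u g +
      f (g, g') * u (g * g') - g • u g' * u g) * (g • ((e g')⁻¹ : Bˣ).1 * ((e g)⁻¹ : Bˣ).1) := by
    linear_combination (g • ((e g')⁻¹ : Bˣ).1 * ((e g)⁻¹ : Bˣ).1) * h5 -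
      (((c / dd e) (g, g') : B) - 1) * ((1 + u g) * ((e g)⁻¹ : Bˣ).1) * i1 -
      (((c / dd e) (g, g') : B) - 1) * i2
  rw [e6]
  exact u4_mul h (sub_mem (add_mem h4 (u4_mul h (h2 _) (h3 _) (by omega)))
    (u4_mul h (h.smul _ _ _ (h3 _)) (h3 _) (by omega)))
    (u4_mul h (h.smul _ _ _ (u4_zero h (he' _))) (u4_zero h (he' _)) le_rfl) le_rfl

theorem Fil.cob (h : Fil G J) {t : B} {s : ℕ} (ht : ∑ g : G, g • t = 1)
    (hs : ∀ (g : G) n, ∀ x ∈ J (n + s), g • t * x ∈ J n) {c : G × G → Bˣ} (hc : IsMulCocycle₂ c)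
    (h1 : ∀ p, (c p : B) - 1 ∈ J (2 * s + 1)) : ∃ e : G → Bˣ, c = dd e := by
  let P : ℕ → (G → Bˣ) → Prop := fun k E => (∀ g, (E g : B) - 1 ∈ J 1) ∧
    ∀ p, ((c / dd E) p : B) - 1 ∈ J (s + 1 + k + s)
  have step : ∀ k E, P k E → ∃ E', P (k + 1) E' ∧ ∀ g, (E' g : B) - E g ∈ J k := by
    rintro k E ⟨a1, a2⟩
    obtain ⟨e, b1, b2⟩ := h.step ht hs (coc_div hc (dd_coc E)) (by omega) a2
    have b3 : ∀ g, ((E * e) g : B) - E g ∈ J (s + 1 + k) := fun g => by
      rw [Pi.mul_apply, Units.val_mul, ← mul_sub_one]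
      exact u4_mul h (u4_zero h (a1 g)) (b1 g) (by omega)
    refine ⟨E * e, ⟨fun g => ?_, fun p => ?_⟩, fun g => u4_le h (b3 g) (by omega)⟩
    · rw [← sub_add_sub_cancel _ (E g : B)]
      exact add_mem (u4_le h (b3 g) (by omega)) (a1 g)
    · rw [dd_mul, ← div_div]
      exact b2 p
  choose! F hF using step
  let E : ℕ → G → Bˣ := fun k => Nat.rec 1 F k
  have hE : ∀ k, P k (E k) := fun k => by
    induction k with
    | zero =>
      refine ⟨fun g => ?_, fun p => ?_⟩
      · change ((1 : Bˣ) : B) - 1 ∈ _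
        rw [Units.val_one, sub_self]
        exact zero_mem _
      · change ((c / dd (1 : G → Bˣ)) p : B) - 1 ∈ _
        rw [dd_one, div_one]
        exact u4_le h (h1 p) (by omega)
    | succ k ih => exact (hF k _ ih).1
  have h0 : ∀ g : G, ∃ l : B, ∀ k, l - (E k g).1 ∈ J k := fun g =>
    h.lim (fun k => (E k g).1) fun k => (hF k _ (hE k)).2 g
  choose l hl using h0
  have h2 : ∀ g, l g - 1 ∈ J (0 + 1) := fun g => by
    rw [← sub_add_sub_cancel _ (E 1 g : B)]
    exact add_mem (hl g 1) ((hE 1).1 g)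
  choose e he _ using fun g => h.unit (h2 g)
  simp only [add_sub_cancel] at he
  refine ⟨e, funext fun ⟨g, g'⟩ => ?_⟩
  have h3 : (c (g, g') : B) * e (g * g') = g • (e g' : B) * e g := by
    rw [he, he, he]
    refine sub_eq_zero.1 (h.sep _ fun k => ?_)
    have h4 := u4_dd c (E k) g g'
    have e1 : c (g, g') * l (g * g') - g • l g' * l g =
        c (g, g') * (l (g * g') - (E k (g * g')).1) - g • (l g' - (E k g').1) * l g -
        g • (E k g').1 * (l g - (E k g).1) +
        (((c / dd (E k)) (g, g')).1 - 1) * (g • (E k g').1 * (E k g).1) := by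
      rw [smul_sub]
      linear_combination -h4
    have z : ∀ g : G, (E k g).1 ∈ J 0 := fun g => u4_zero h ((hE k).1 g)
    rw [e1]
    exact add_mem (sub_mem (sub_mem (u4_mul h (u4_zero h (h1 _)) (hl _ k) (by omega))
      (u4_mul h (h.smul _ _ _ (hl _ k)) (u4_zero h (h2 _)) (by omega)))
      (u4_mul h (h.smul _ _ _ (z _)) (hl _ k) (by omega)))
      (u4_mul h ((hE k).2 _) (u4_mul h (h.smul _ _ _ (z _)) (z _) le_rfl) (by omega))
  have h4 : c (g, g') * e (g * g') = g • e g' * e g := Units.ext h3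
  rw [dd_apply, div_mul_eq_mul_div, ← h4, mul_div_cancel_right]

end coh

variable {O M T : Type} [CommRing O] [Field M] [Field T]

theorem u4_crd {T : Type} [CommRing T] {U : UC O} {m : ℕ} {x y : Fin m → U.A}
    (h : ∀ g : U.G, ∑ j, x j * g • y j = if g = 1 then 1 else 0) (ρ : U.A →+* T) (g g' : U.G) :
    ∑ j, ρ (g' • x j) * ρ (g • y j) = if g = g' then 1 else 0 := by
  have e := congrArg (fun a => ρ (g' • a)) (h (g'⁻¹ * g))
  simp only [Finset.smul_sum, smul_mul', smul_smul, mul_inv_cancel_left, map_sum, map_mul,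
    inv_mul_eq_one, eq_comm (a := g')] at e
  rw [e]
  split_ifs <;> simp

theorem UC.At.coind {U : UC M} {L D : Type} [Field L] [Algebra M L] [Group D] [Finite D]
    [MulSemiringAction D L] [IsGaloisGroup D M L] {ρ : U.A →+* L} {r : D → U.G}
    (h : U.At (RingHom.id M) ρ r) :
    (∀ a, (∀ g : U.G, ρ (g • a) = 0) → a = 0) ∧
      ∀ f : U.G → L, (∀ d g, f (r d * g) = d • f g) → ∃ a, ∀ g : U.G, ρ (g • a) = f g := by
  obtain ⟨m, x, y, hxy⟩ := U.crd
  refine ⟨fun a ha => ?_, fun f hf => ?_⟩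
  · rw [U.expand hxy a]
    refine Finset.sum_eq_zero fun j _ => ?_
    obtain ⟨o, ho⟩ := U.exists_tr (y j * a)
    have h1 : algebraMap M L o = 0 := by
      refine (h.base o).symm.trans ?_
      rw [ho, map_sum]
      exact Finset.sum_eq_zero fun g _ => by rw [smul_mul', map_mul, ha, mul_zero]
    rw [← ho, (map_eq_zero _).1 h1, map_zero, mul_zero]
  · have hI : Algebra.IsInvariant M L D := IsGaloisGroup.isInvariant
    have h1 : ∀ j, ∃ o, algebraMap M L o = ∑ g : U.G, ρ (g • y j) * f g := fun j =>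
      hI.isInvariant _ fun d => by
        rw [Finset.smul_sum]
        exact Fintype.sum_equiv (Equiv.mulLeft (r d)) _ _ fun g => by
          rw [Equiv.coe_mulLeft, hf, mul_smul, h.comm, smul_mul']
    choose l hl using h1
    refine ⟨∑ j, x j * U.i (l j), fun g' => ?_⟩
    have h2 : ∀ j, ρ (U.i (l j)) = ∑ g : U.G, ρ (g • y j) * f g := fun j =>
      (h.base _).trans (hl j)
    simp only [Finset.smul_sum, smul_mul', U.smul_i, map_sum, map_mul, h2, Finset.mul_sum]
    rw [Finset.sum_comm]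
    simp only [← mul_assoc, ← Finset.sum_mul, u4_crd hxy ρ]
    simp

theorem UC.cob_of_field (U : UC M) (h : U.val (RingHom.id M) = 0) : ∃ e, U.c = dd e := by
  obtain ⟨L, _, _, ρ, r, hA, hr⟩ := U.exists_min (RingHom.id M)
  rw [hA.val_cls] at h
  obtain ⟨ε, hε⟩ := (cls_eq_zero hA.coc).1 h
  obtain ⟨hi, hs⟩ := hA.coind
  let μ : U.Aˣ →* Lˣ := Units.map (ρ : U.A →* L)
  have hμ : ∀ d (a : U.Aˣ), μ (r d • a) = d • μ a := fun d a => Units.ext (hA.comm d a)
  have hw : ∀ k g g', μ (U.c (k * g, g')) * μ (U.c (k, g)) =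
      μ (k • U.c (g, g')) * μ (U.c (k, g * g')) := fun k g g' => by
    rw [← map_mul, ← map_mul, U.coc]
  have hd : ∀ d d', μ (U.c (r d, r d')) = d • ε d' / ε (d * d') * ε d := fun d d' =>
    congrFun hε (d, d')
  have r1 : r 1 = 1 := hA.one.2 fun y => one_smul _ _
  let P : U.G → U.G → Prop := fun g k => ∃ d, g = r d * k
  have hP : ∀ d g, P (r d * g) = P g := fun d g => funext fun k => propext
    ⟨fun ⟨d', e⟩ => ⟨d⁻¹ * d', by
        rw [hA.mul, mul_assoc, ← e, ← mul_assoc, ← hA.mul, inv_mul_cancel, r1, one_mul]⟩,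
      fun ⟨d', e⟩ => ⟨d * d', by rw [hA.mul, mul_assoc, ← e]⟩⟩
  have hδ : ∀ g, ∃ d, g = r d * Classical.epsilon (P g) := fun g =>
    Classical.epsilon_spec (p := P g) ⟨g, 1, by rw [r1, one_mul]⟩
  choose δ hδ using hδ
  have hδ' : ∀ d g, δ (r d * g) = d * δ g := fun d g => hr (by
    have e := hδ (r d * g)
    rw [hP] at e
    nth_rw 1 [hδ g] at e
    rw [← mul_assoc, ← hA.mul] at e
    exact (mul_right_cancel e).symm)
  obtain ⟨u, hu⟩ : ∃ u : U.G → Lˣ, ∀ d g,
      u (r d * g) = μ (U.c (r d, g)) * d • u g / ε d := by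
    refine ⟨fun g => μ (U.c (r (δ g), Classical.epsilon (P g))) / ε (δ g), fun d g => ?_⟩
    have e := hw (r d) (r (δ g)) (Classical.epsilon (P g))
    rw [← hδ g, hd, hμ, ← hA.mul] at e
    simp only [hδ', hP, smul_div']
    apply Additive.ofMul.injective
    have e' := congrArg Additive.ofMul e
    simp only [ofMul_mul, ofMul_div] at e' ⊢
    rw [← sub_eq_zero] at e' ⊢
    rw [← e']
    abel
  have hj : ∀ a b : U.Aˣ, (∀ k : U.G, μ (k • a) = μ (k • b)) → a = b := fun a b e =>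
    Units.ext (sub_eq_zero.1 (hi _ fun k => by
      rw [smul_sub, map_sub]
      exact sub_eq_zero.2 (congrArg Units.val (e k))))
  have hs' : ∀ f : U.G → Lˣ, (∀ d g, f (r d * g) = d • f g) →
      ∃ a : U.Aˣ, ∀ k : U.G, μ (k • a) = f k := fun f hf => by
    obtain ⟨a, ha⟩ := hs (fun k => f k) fun d g => congrArg Units.val (hf d g)
    obtain ⟨b, hb⟩ := hs (fun k => ((f k)⁻¹ : Lˣ)) fun d g => by
      rw [hf, ← smul_inv']
      rfl
    have e : a * b = 1 := sub_eq_zero.1 (hi _ fun k => by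
      rw [smul_sub, smul_mul', smul_one, map_sub, map_mul, map_one, ha, hb, Units.mul_inv,
        sub_self])
    exact ⟨⟨a, b, e, (mul_comm _ _).trans e⟩, fun k => Units.ext (ha k)⟩
  choose e he using fun g => hs' (fun k => μ (U.c (k, g)) * u k / u (k * g)) fun d k => by
    have e := hw (r d) k g
    rw [hμ] at e
    simp only [mul_assoc (r d), hu, smul_div', smul_mul']
    apply Additive.ofMul.injective
    have e' := congrArg Additive.ofMul e
    simp only [ofMul_mul, ofMul_div] at e' ⊢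
    rw [← sub_eq_zero] at e' ⊢
    rw [← e']
    abel
  refine ⟨e, funext fun ⟨g, g'⟩ => hj _ _ fun k => ?_⟩
  have e1 := hw k g g'
  rw [dd_apply, smul_mul', smul_div', smul_smul, map_mul, map_div, he, he, he, mul_assoc k]
  apply Additive.ofMul.injective
  have e' := congrArg Additive.ofMul e1
  simp only [ofMul_mul, ofMul_div] at e' ⊢
  rw [eq_comm, ← sub_eq_zero]
  rw [← sub_eq_zero] at e'
  rw [← e']
  abel

theorem u4_tr (U : UC O) (K : Ideal O) {a : U.A} (ha : a ∈ K.map U.i) (b : U.A) :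
    ∃ o ∈ K, U.i o = ∑ g : U.G, g • (b * a) := by
  induction ha using Submodule.span_induction generalizing b with
  | mem a h =>
    obtain ⟨o, ho, rfl⟩ := h
    obtain ⟨o', h'⟩ := U.exists_tr b
    refine ⟨o' * o, K.mul_mem_left _ ho, ?_⟩
    simp only [map_mul, h', Finset.sum_mul, smul_mul', U.smul_i]
  | zero => exact ⟨0, zero_mem _, by simp⟩
  | add a a' _ _ h h' =>
    obtain ⟨o, ho, e⟩ := h b
    obtain ⟨o', ho', e'⟩ := h' b
    exact ⟨o + o', add_mem ho ho', by
      simp only [map_add, e, e', mul_add, smul_add, Finset.sum_add_distrib]⟩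
  | smul z a _ h => rw [smul_eq_mul, ← mul_assoc]; exact h _

theorem UC.fil (U : UC O) (I : Ideal O) [IsAdicComplete I O] :
    Fil U.G fun n => ((I ^ n).map U.i).toAddSubgroup := by
  obtain ⟨m, x, y, hxy⟩ := U.crd
  choose τ hτ using U.exists_tr
  have h1 : ∀ (K : Ideal O), ∀ a ∈ K.map U.i, ∀ b, τ (b * a) ∈ K := fun K a ha b => by
    obtain ⟨o, ho, e⟩ := u4_tr U K ha b
    rwa [U.inj ((hτ _).trans e.symm)]
  have h2 : ∀ a b, τ (a - b) = τ a - τ b := fun a b => U.inj (by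
    simp only [map_sub, hτ, smul_sub, Finset.sum_sub_distrib])
  have h3 : ∀ a, a = ∑ j, x j * U.i (τ (y j * a)) := fun a => by
    simp only [hτ]
    exact U.expand hxy a
  have h4 : ∀ n, (I ^ n • ⊤ : Submodule O O) = I ^ n := fun n => by
    rw [smul_eq_mul, Ideal.mul_top]
  refine ⟨fun n => Ideal.map_mono (Ideal.pow_le_pow_right n.le_succ), ?_, fun n k a ha b hb => ?_,
    fun g n a ha => ?_, fun a ha => ?_, fun a ha => ?_⟩
  · change (1 : U.A) ∈ (I ^ 0).map U.i
    rw [pow_zero, Ideal.one_eq_top, Ideal.map_top]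
    trivial
  · change a * b ∈ (I ^ (n + k)).map U.i
    rw [pow_add, Ideal.map_mul]
    exact Ideal.mul_mem_mul ha hb
  · have h5 : (I ^ n).map U.i ≤ ((I ^ n).map U.i).comap (MulSemiringAction.toRingHom U.G U.A g) :=
      Ideal.map_le_iff_le_comap.2 fun o ho => by
        change g • U.i o ∈ (I ^ n).map U.i
        rw [U.smul_i]
        exact Ideal.mem_map_of_mem _ ho
    exact h5 ha
  · have h5 : ∀ j, ∃ l, ∀ n, τ (y j * a n) ≡ l [SMOD (I ^ n • ⊤ : Submodule O O)] := fun j =>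
      IsPrecomplete.prec inferInstance ((AdicCompletion.isAdicCauchy_iff I O
        fun n => τ (y j * a n)).2 fun n => by
        rw [h4]
        refine (SModEq.sub_mem.2 ?_).symm
        rw [← h2, ← mul_sub]
        exact h1 _ _ (ha n) _)
    choose l hl using h5
    refine ⟨∑ j, x j * U.i (l j), fun n => ?_⟩
    rw [h3 (a n), ← Finset.sum_sub_distrib]
    refine sum_mem fun j _ => ?_
    rw [← mul_sub, ← map_sub]
    have h6 := SModEq.sub_mem.1 (hl j n).symm
    rw [h4] at h6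
    exact Ideal.mul_mem_left _ _ (Ideal.mem_map_of_mem _ h6)
  · rw [h3 a]
    refine Finset.sum_eq_zero fun j _ => ?_
    rw [IsHausdorff.haus (I := I) inferInstance (τ (y j * a)) fun n => by
      rw [h4]; exact SModEq.zero.2 (h1 _ _ (ha n) _), map_zero, mul_zero]

theorem UC.cob_of_res [IsLocalRing O] [IsAdicComplete (IsLocalRing.maximalIdeal O) O] (U : UC O)
    {π : O →+* M} (hπ : Function.Surjective π) (h : U.val π = 0) : ∃ e, U.c = dd e := by
  obtain ⟨V, j, r, hH, hc⟩ := U.exists_bc π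
  obtain ⟨ε, hε⟩ := V.cob_of_field ((hH.val hc _).trans h)
  obtain ⟨m, x, y, hxy⟩ := U.crd
  have h1 : ∀ g : V.G, ∑ k, j (x k) * g • j (y k) = if g = 1 then 1 else 0 := fun g => by
    have e := congrArg j (hxy (r g))
    simp only [map_sum, map_mul, hH.comm, map_eq_one_iff r r.injective] at e
    rw [e]
    split_ifs <;> simp
  have h2 : Function.Surjective j := fun z => by
    choose o ho using fun k => V.exists_tr (j (y k) * z)
    choose o' ho' using fun k => hπ (o k)
    refine ⟨∑ k, x k * U.i (o' k), ?_⟩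
    simp only [map_sum, map_mul, hH.base, ho', ho]
    exact (V.expand h1 z).symm
  have h3 : ∀ a, j a = 0 → a ∈ (IsLocalRing.maximalIdeal O).map U.i := fun a ha => by
    rw [U.expand hxy a]
    refine sum_mem fun k _ => Ideal.mul_mem_left _ _ ?_
    obtain ⟨o, ho⟩ := U.exists_tr (y k * a)
    rw [← ho]
    refine Ideal.mem_map_of_mem _ ?_
    rw [← IsLocalRing.ker_eq_maximalIdeal π hπ, RingHom.mem_ker]
    refine V.inj ?_
    rw [← hH.base, ho, map_sum, map_zero]
    refine Finset.sum_eq_zero fun g _ => ?_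
    obtain ⟨g, rfl⟩ := r.surjective g
    rw [hH.comm, map_mul, ha, mul_zero, smul_zero]
  have h4 : ∀ z : V.Aˣ, ∃ a : U.Aˣ, Units.map (j : U.A →* V.A) a = z := fun z => by
    obtain ⟨a, ha⟩ := h2 z
    obtain ⟨b, hb⟩ := h2 (z⁻¹ : V.Aˣ)
    obtain ⟨u, rfl⟩ := U.isUnit_of (h3 (a * b - 1) (by
      rw [map_sub, map_mul, map_one, ha, hb, Units.mul_inv, sub_self]))
    exact ⟨u, Units.ext ha⟩
  choose E hE using fun g => h4 (ε (r.symm g))
  have h5 : pullR j r (dd E) = pullR j r U.c := by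
    rw [pullR_dd hH.comm (map_mul r), ← hc, hε]
    simp only [hE, r.symm_apply_apply]
  obtain ⟨t, ht⟩ := U.exists_one
  obtain ⟨e, he⟩ := (U.fil (IsLocalRing.maximalIdeal O)).cob (s := 0) ht
    (fun g n a ha => Ideal.mul_mem_left _ _ ha) (coc_div U.coc (dd_coc E)) fun ⟨g, g'⟩ => by
      obtain ⟨g, rfl⟩ := r.surjective g
      obtain ⟨g', rfl⟩ := r.surjective g'
      have h6 : Units.map (j : U.A →* V.A) ((U.c / dd E) (r g, r g')) = 1 := by
        rw [Pi.div_apply, map_div]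
        exact div_eq_one.2 (congrFun h5 (g, g')).symm
      change _ ∈ (IsLocalRing.maximalIdeal O ^ 1).map U.i
      rw [pow_one]
      refine h3 _ ?_
      rw [map_sub, map_one]
      exact sub_eq_zero.2 (congrArg Units.val h6)
  exact ⟨e * E, by rw [dd_mul, ← he, div_mul_cancel]⟩

theorem UC.rigid [IsLocalRing O] [IsAdicComplete (IsLocalRing.maximalIdeal O) O] (U U' : UC O)
    {π : O →+* M} (hπ : Function.Surjective π) (h : U.val π = U'.val π) (φ : O →+* T) :
    U.val φ = U'.val φ := by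
  obtain ⟨V, hV⟩ := U.sub_val U'
  obtain ⟨e, he⟩ := V.cob_of_res hπ ((hV M π).trans (sub_eq_zero.2 h))
  exact sub_eq_zero.1 ((hV T φ).symm.trans (UC.val_dd he φ))

theorem UC.rigid_sec [IsLocalRing O] [IsAdicComplete (IsLocalRing.maximalIdeal O) O] (U : UC O)
    {π : O →+* M} {s : M →+* O} (hs : ∀ z, π (s z) = z) (φ : O →+* T) :
    U.val φ = rs (φ.comp s) (U.val π) := by
  obtain ⟨V, hV⟩ := exists_uc_const (U.val π) s
  refine (U.rigid V (π := π) (fun z => ⟨s z, hs z⟩) ?_ φ).trans (hV T φ)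
  rw [hV M π, show π.comp s = RingHom.id M from RingHom.ext hs]
  exact (res_id _).symm

theorem br_finite [Finite M] (a : BR M) : a = 0 := by
  obtain ⟨L, _, _, x, -, hx, rfl⟩ := exists_cls a ∅
  have : Finite L := Module.finite_of_finite M
  obtain ⟨e, rfl⟩ := cob_of_finite hx
  exact cls_dd e

end Pool.Agent.ZCy.F
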